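import Pool.Agent.LHU.Stmts

set_option autoImplicit false

/-!
Lists in which three consecutive entries which are at least three are admissible neighbours.
-/

namespace Pool.Agent.LHU

open Pool.Agent.LHT

namespace ALL_

theorem cond_left {l1 l2 : List ℕ} {b : ℕ} (h : Cond (l1 ++ b :: l2)) : Cond l1 := by
  intro a c x y z e hx hy hz
  refine h a (c ++ b :: l2) x y z ?_ hx hy hz
  rw [e]
  simp

theorem cond_right {l1 l2 : List ℕ} {b : ℕ} (h : Cond (l1 ++ b :: l2)) : Cond l2 := by
  intro a c x y z e hx hy hz
  refine h (l1 ++ b :: a) c x y z ?_ hx hy hz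
  rw [e]
  simp

end ALL_

theorem all_proof (hWRD : Stmt_WRD) (hRK : Stmt_RK) (hR2 : Stmt_R2) : Stmt_ALL := by
  have key : ∀ (n : ℕ) (l : List ℕ), l.length ≤ n → (∀ x ∈ l, 0 < x) → Cond l → lrL l := by
    intro n
    induction n with
    | zero =>
      intro l hl _ _
      have : l = [] := List.length_eq_zero_iff.1 (Nat.le_zero.1 hl)
      rw [this]
      exact hR2.1
    | succ n ih =>
      intro l hl hpos hC
      by_cases h12 : ∃ b ∈ l, b = 1 ∨ b = 2
      · obtain ⟨b, hb, hb12⟩ := h12
        obtain ⟨l1, l2, rfl⟩ := List.append_of_mem hb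
        rw [List.length_append, List.length_cons] at hl
        have h1 : ∀ x ∈ l1, 0 < x := fun x hx => hpos x (by simp [hx])
        have h2 : ∀ x ∈ l2, 0 < x := fun x hx => hpos x (by simp [hx])
        exact hRK l1 l2 b h1 h2 hb12 (ih l1 (by omega) h1 (ALL_.cond_left hC))
          (ih l2 (by omega) h2 (ALL_.cond_right hC))
      · have h3 : ∀ x ∈ l, 3 ≤ x := by
          intro x hx
          have hx0 := hpos x hx
          have hx1 : ¬ (x = 1 ∨ x = 2) := fun h => h12 ⟨x, hx, h⟩
          omega
        match l, h3, hpos, hC with
        | [], _, _, _ => exact hR2.1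
        | [a], _, hp, _ => exact hR2.2.1 a (hp a (by simp))
        | [a, b], _, hp, _ => exact hR2.2.2 a b (hp a (by simp)) (hp b (by simp))
        | a :: b :: c :: t, h3, _, hC =>
          refine hWRD _ h3 ?_
          intro l1 l2 x y e
          have hx : 3 ≤ x := h3 x (by rw [e]; simp)
          have hy : 3 ≤ y := h3 y (by rw [e]; simp)
          cases l2 with
          | cons z l2 =>
            have hz : 3 ≤ z := h3 z (by rw [e]; simp)
            exact (hC l1 l2 x y z e hx hy hz).1
          | nil =>
            rcases List.eq_nil_or_concat l1 with h | ⟨l1', w, h⟩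
            · rw [h] at e
              simp at e
            · rw [h, List.concat_eq_append] at e
              have hw : 3 ≤ w := h3 w (by rw [e]; simp)
              refine (hC l1' [] w x y ?_ hw hx hy).2
              rw [e]
              simp
  intro l hpos hC
  exact key l.length l le_rfl hpos hC

end Pool.Agent.LHU
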