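import Pool.Agent.LHU.Stmts

set_option autoImplicit false

/-!
Module AP2: one-sided attachment for lecture hall simplices.
-/

namespace Pool.Agent.LHU.AP2_

open Pool.Agent.LHT Pool.Agent.LHU

/-- appending as an isomorphism -/
def apE (a b : ℕ) : ((Fin a → ℤ) × (Fin b → ℤ)) ≃+ (Fin (a + b) → ℤ) where
  toFun v := Fin.append v.1 v.2
  invFun x := (fun i => x (Fin.castAdd b i), fun j => x (Fin.natAdd a j))
  left_inv v := by
    apply Prod.ext
    · funext i
      exact Fin.append_left v.1 v.2 i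
    · funext j
      exact Fin.append_right v.1 v.2 j
  right_inv x := by
    funext i
    refine Fin.addCases (fun i => ?_) (fun j => ?_) i
    · exact Fin.append_left _ _ i
    · exact Fin.append_right _ _ j
  map_add' v w := by
    funext i
    refine Fin.addCases (fun i => ?_) (fun j => ?_) i
    · show Fin.append (v + w).1 (v + w).2 (Fin.castAdd b i)
        = Fin.append v.1 v.2 (Fin.castAdd b i) + Fin.append w.1 w.2 (Fin.castAdd b i)
      rw [Fin.append_left, Fin.append_left, Fin.append_left]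
      rfl
    · show Fin.append (v + w).1 (v + w).2 (Fin.natAdd a j)
        = Fin.append v.1 v.2 (Fin.natAdd a j) + Fin.append w.1 w.2 (Fin.natAdd a j)
      rw [Fin.append_right, Fin.append_right, Fin.append_right]
      rfl

theorem apE_apply (a b : ℕ) (x : Fin a → ℤ) (z : Fin b → ℤ) :
    apE a b (x, z) = Fin.append x z := rfl

theorem apE_left (a b : ℕ) (x : Fin a → ℤ) (z : Fin b → ℤ) (i : Fin a) :
    apE a b (x, z) (Fin.castAdd b i) = x i := Fin.append_left x z i

theorem apE_right (a b : ℕ) (x : Fin a → ℤ) (z : Fin b → ℤ) (j : Fin b) :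
    apE a b (x, z) (Fin.natAdd a j) = z j := Fin.append_right x z j

theorem mem_app (a b : ℕ) (G : Fin a → ℕ) (R : Fin b → ℕ) (x : Fin a → ℤ) (z : Fin b → ℤ) :
    apE a b (x, z) ∈ LH (Fin.append G R) ↔
      x ∈ LH G ∧ z ∈ LH R ∧ ∀ i j, x i * (R j : ℤ) ≤ z j * (G i : ℤ) := by
  rw [mem_LH, mem_LH, mem_LH]
  constructor
  · rintro ⟨h1, h2⟩
    refine ⟨⟨?_, ?_⟩, ⟨?_, ?_⟩, ?_⟩
    · intro i
      have := h1 (Fin.castAdd b i)
      rwa [apE_left, Fin.append_left] at this
    · intro i j hij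
      have := h2 (Fin.castAdd b i) (Fin.castAdd b j) (by
        rw [Fin.lt_def] at hij ⊢
        simpa using hij)
      rwa [apE_left, apE_left, Fin.append_left, Fin.append_left] at this
    · intro i
      have := h1 (Fin.natAdd a i)
      rwa [apE_right, Fin.append_right] at this
    · intro i j hij
      have := h2 (Fin.natAdd a i) (Fin.natAdd a j) (by
        rw [Fin.lt_def] at hij ⊢
        simpa using hij)
      rwa [apE_right, apE_right, Fin.append_right, Fin.append_right] at this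
    · intro i j
      have := h2 (Fin.castAdd b i) (Fin.natAdd a j) (by
        rw [Fin.lt_def]
        simp only [Fin.val_castAdd, Fin.val_natAdd]
        have := i.2
        omega)
      rwa [apE_left, apE_right, Fin.append_left, Fin.append_right] at this
  · rintro ⟨⟨h1, h2⟩, ⟨h3, h4⟩, h5⟩
    constructor
    · intro i
      refine Fin.addCases (fun i => ?_) (fun j => ?_) i
      · rw [apE_left, Fin.append_left]
        exact h1 i
      · rw [apE_right, Fin.append_right]
        exact h3 j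
    · intro i
      refine Fin.addCases (fun i => ?_) (fun i => ?_) i
      · intro j
        refine Fin.addCases (fun j => ?_) (fun j => ?_) j
        · intro hij
          rw [apE_left, apE_left, Fin.append_left, Fin.append_left]
          apply h2
          rw [Fin.lt_def] at hij ⊢
          simpa using hij
        · intro _
          rw [apE_left, apE_right, Fin.append_left, Fin.append_right]
          exact h5 i j
      · intro j
        refine Fin.addCases (fun j => ?_) (fun j => ?_) j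
        · intro hij
          exfalso
          rw [Fin.lt_def] at hij
          simp only [Fin.val_castAdd, Fin.val_natAdd] at hij
          have := j.2
          omega
        · intro hij
          rw [apE_right, apE_right, Fin.append_right, Fin.append_right]
          apply h4
          rw [Fin.lt_def] at hij ⊢
          simpa using hij

theorem mem_attV {Λ Γ : Type} [AddCommGroup Λ] [AddCommGroup Γ] (V A : Finset Λ) (T : Finset Γ)
    (r : Γ) (o : Λ) (ζ : Γ →+ ℤ) (e : ℤ) (al : Λ → Λ) (p : Λ × Γ) :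
    p ∈ attV V A T r o ζ e al ↔ (∃ v ∈ V, v ∉ A ∧ (v, r) = p) ∨
      ∃ α ∈ A, ∃ z ∈ T, (posn o ζ e (al α) z, z) = p := by
  classical
  unfold attV
  rw [Finset.mem_union, Finset.mem_image, Finset.mem_biUnion]
  apply or_congr
  · constructor
    · rintro ⟨v, hv, h⟩
      rw [Finset.mem_sdiff] at hv
      exact ⟨v, hv.1, hv.2, h⟩
    · rintro ⟨v, hv, hvA, h⟩
      exact ⟨v, Finset.mem_sdiff.mpr ⟨hv, hvA⟩, h⟩
  · constructor
    · rintro ⟨α, hα, h⟩
      rw [Finset.mem_image] at h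
      exact ⟨α, hα, h⟩
    · rintro ⟨α, hα, h⟩
      exact ⟨α, hα, Finset.mem_image.mpr h⟩

theorem uu_mem {n : ℕ} (s : Fin n → ℕ) : uu s ∈ LH s := by
  rw [mem_LH]
  refine ⟨fun i => ⟨?_, le_refl _⟩, fun i j _ => ?_⟩
  · exact Int.natCast_nonneg _
  · show (s i : ℤ) * s j ≤ (s j : ℤ) * s i
    rw [mul_comm]

/-- a point with first coordinates `v`, last coordinates `uu R` -/
theorem mem_first (a b : ℕ) (G : Fin a → ℕ) (R : Fin b → ℕ) (v : Fin a → ℤ) (hv : v ∈ LH G) :
    apE a b (v, uu R) ∈ LH (Fin.append G R) := by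
  rw [mem_app]
  refine ⟨hv, uu_mem R, ?_⟩
  intro i j
  have h1 := ((mem_LH.mp hv).1 i).2
  show v i * (R j : ℤ) ≤ (R j : ℤ) * (G i : ℤ)
  have h2 : (0 : ℤ) ≤ (R j : ℤ) := Int.natCast_nonneg _
  nlinarith

/-- the attached points -/
theorem mem_second (a q : ℕ) (G : Fin a → ℕ) (R : Fin (q + 1) → ℕ) (hR : ∀ i, 0 < R i)
    (α w : Fin a → ℤ) (hα : α ∈ LH G) (hw : (R 0 : ℤ) • w = α) (z : Fin (q + 1) → ℤ)
    (hz : z ∈ LH R) : apE a (q + 1) (z 0 • w, z) ∈ LH (Fin.append G R) := by
  have hR0 : (0 : ℤ) < (R 0 : ℤ) := by exact_mod_cast hR 0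
  have hwi : ∀ i, (R 0 : ℤ) * w i = α i := by
    intro i
    have := congrFun hw i
    simpa using this
  obtain ⟨ha1, ha2⟩ := mem_LH.mp hα
  obtain ⟨hz1, hz2⟩ := mem_LH.mp hz
  have hz0 := (hz1 0).1
  have hzz : ∀ j, z 0 * (R j : ℤ) ≤ z j * (R 0 : ℤ) := by
    intro j
    rcases Fin.eq_zero_or_eq_succ j with rfl | ⟨j', rfl⟩
    · exact le_refl _
    · exact hz2 0 j'.succ (Fin.succ_pos j')
  have hx : ∀ i, (z 0 • w) i = z 0 * w i := fun i => rfl
  rw [mem_app]
  refine ⟨?_, hz, ?_⟩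
  · rw [mem_LH]
    refine ⟨fun i => ⟨?_, ?_⟩, fun i j hij => ?_⟩
    · rw [hx]
      have h1 : (0 : ℤ) ≤ (R 0 : ℤ) * w i := by
        rw [hwi]
        exact (ha1 i).1
      have h2 : 0 ≤ w i := by
        by_contra hneg
        have hneg' : w i < 0 := not_le.mp hneg
        nlinarith
      positivity
    · rw [hx]
      have h1 : (R 0 : ℤ) * (z 0 * w i) ≤ (R 0 : ℤ) * (G i : ℤ) := by
        have e1 : (R 0 : ℤ) * (z 0 * w i) = z 0 * α i := by
          rw [← hwi]
          ring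
        rw [e1]
        have h2 := (ha1 i)
        have h3 := (hz1 0).2
        calc z 0 * α i ≤ z 0 * (G i : ℤ) := mul_le_mul_of_nonneg_left h2.2 hz0
          _ ≤ (R 0 : ℤ) * (G i : ℤ) := mul_le_mul_of_nonneg_right h3 (Int.natCast_nonneg _)
      exact le_of_mul_le_mul_left h1 hR0
    · rw [hx, hx]
      have h1 : (R 0 : ℤ) * (z 0 * w i * (G j : ℤ)) ≤ (R 0 : ℤ) * (z 0 * w j * (G i : ℤ)) := by
        have e1 : (R 0 : ℤ) * (z 0 * w i * (G j : ℤ)) = z 0 * (α i * (G j : ℤ)) := by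
          rw [← hwi]
          ring
        have e2 : (R 0 : ℤ) * (z 0 * w j * (G i : ℤ)) = z 0 * (α j * (G i : ℤ)) := by
          rw [← hwi]
          ring
        rw [e1, e2]
        exact mul_le_mul_of_nonneg_left (ha2 i j hij) hz0
      exact le_of_mul_le_mul_left h1 hR0
  · intro i j
    rw [hx]
    have h1 : (R 0 : ℤ) * (z 0 * w i * (R j : ℤ)) ≤ (R 0 : ℤ) * (z j * (G i : ℤ)) := by
      have e1 : (R 0 : ℤ) * (z 0 * w i * (R j : ℤ)) = α i * (z 0 * (R j : ℤ)) := by
        rw [← hwi]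
        ring
      rw [e1]
      have h2 := ha1 i
      have h3 : 0 ≤ z j * (R 0 : ℤ) := mul_nonneg (hz1 j).1 hR0.le
      calc α i * (z 0 * (R j : ℤ)) ≤ α i * (z j * (R 0 : ℤ)) :=
            mul_le_mul_of_nonneg_left (hzz j) h2.1
        _ ≤ (G i : ℤ) * (z j * (R 0 : ℤ)) := mul_le_mul_of_nonneg_right h2.2 h3
        _ = (R 0 : ℤ) * (z j * (G i : ℤ)) := by ring
    exact le_of_mul_le_mul_left h1 hR0

/-- vertices of the big simplex, first kind -/
theorem vtx_app_le (a b : ℕ) (G : Fin a → ℕ) (R : Fin b → ℕ) (k : ℕ) (hk : k ≤ a) :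
    vtx (Fin.append G R) k = apE a b (vtx G k, uu R) := by
  funext i
  refine Fin.addCases (fun i => ?_) (fun j => ?_) i
  · rw [apE_left]
    show (if k ≤ ((Fin.castAdd b i : Fin (a + b)) : ℕ) then
      ((Fin.append G R (Fin.castAdd b i) : ℕ) : ℤ) else 0) = if k ≤ (i : ℕ) then (G i : ℤ) else 0
    rw [Fin.append_left, Fin.val_castAdd]
  · rw [apE_right]
    show (if k ≤ ((Fin.natAdd a j : Fin (a + b)) : ℕ) then
      ((Fin.append G R (Fin.natAdd a j) : ℕ) : ℤ) else 0) = (R j : ℤ)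
    rw [Fin.append_right, Fin.val_natAdd, if_pos (by omega)]

/-- vertices of the big simplex, second kind -/
theorem vtx_app_gt (a b : ℕ) (G : Fin a → ℕ) (R : Fin b → ℕ) (k : ℕ) :
    vtx (Fin.append G R) (a + k) = apE a b (0, vtx R k) ∨ k = 0 := by
  rcases Nat.eq_zero_or_pos k with h | hk
  · exact Or.inr h
  · left
    funext i
    refine Fin.addCases (fun i => ?_) (fun j => ?_) i
    · rw [apE_left]
      show (if a + k ≤ ((Fin.castAdd b i : Fin (a + b)) : ℕ) then
        ((Fin.append G R (Fin.castAdd b i) : ℕ) : ℤ) else 0) = 0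
      rw [Fin.val_castAdd, if_neg (by have := i.2; omega)]
    · rw [apE_right]
      show (if a + k ≤ ((Fin.natAdd a j : Fin (a + b)) : ℕ) then
        ((Fin.append G R (Fin.natAdd a j) : ℕ) : ℤ) else 0) = if k ≤ (j : ℕ) then (R j : ℤ) else 0
      rw [Fin.append_right, Fin.val_natAdd]
      by_cases h : k ≤ (j : ℕ)
      · rw [if_pos (by omega), if_pos h]
      · rw [if_neg (by omega), if_neg h]

theorem uu_app (a b : ℕ) (G : Fin a → ℕ) (R : Fin b → ℕ) :
    apE a b (uu G, uu R) = uu (Fin.append G R) := by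
  funext i
  refine Fin.addCases (fun i => ?_) (fun j => ?_) i
  · rw [apE_left]
    show (G i : ℤ) = ((Fin.append G R (Fin.castAdd b i) : ℕ) : ℤ)
    rw [Fin.append_left]
  · rw [apE_right]
    show (R j : ℤ) = ((Fin.append G R (Fin.natAdd a j) : ℕ) : ℤ)
    rw [Fin.append_right]

end Pool.Agent.LHU.AP2_

namespace Pool.Agent.LHU

open Pool.Agent.LHT

theorem ap2_proof (hTW1 : Stmt_TW1) (hTRA : Stmt_TRA) (hTFZ : Stmt_TFZ) (hMDL : Stmt_MDL)
    (hHUL : Stmt_HUL) (hPYR : Stmt_PYR) : Stmt_AP2 := by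
  classical
  intro m q G R hG hR V A al ω hV hvtx hA hAne hal hω hlr
  obtain ⟨ωT, hωT⟩ := hlr
  have hR0 : (0 : ℤ) < (R 0 : ℤ) := by exact_mod_cast hR 0
  set E := AP2_.apE (m + 1) (q + 1) with hE
  set ζ : (Fin (q + 1) → ℤ) →+ ℤ := Pi.evalAddMonoidHom (fun _ => ℤ) 0 with hζ
  have hζv : ∀ z, ζ z = z 0 := fun z => rfl
  let S : Finset ((Fin (m + 1) → ℤ) × (Fin (q + 1) → ℤ)) :=
    (LH (Fin.append G R)).image E.symm
  have hS : ∀ v, E v ∈ LH (Fin.append G R) ↔ v ∈ S := by
    intro v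
    show _ ↔ v ∈ (LH (Fin.append G R)).image E.symm
    rw [Finset.mem_image]
    constructor
    · intro h
      exact ⟨E v, h, E.symm_apply_apply v⟩
    · rintro ⟨w, hw, rfl⟩
      rwa [E.apply_symm_apply]
  have hpos : ∀ i, 0 < Fin.append G R i := by
    intro i
    refine Fin.addCases (fun i => ?_) (fun j => ?_) i
    · rw [Fin.append_left]; exact hG i
    · rw [Fin.append_right]; exact hR j
  have hposn : ∀ (w : Fin (m + 1) → ℤ) (z : Fin (q + 1) → ℤ), posn 0 ζ 0 w z = z 0 • w := by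
    intro w z
    unfold posn
    rw [hζv, zero_add, add_zero]
  -- the attached set
  have hAtt : Att V A (LH R) (uu R) 0 ζ 0 (R 0 : ℤ) al := by
    refine ⟨hTFZ.1 _, hTFZ.1 _, hA, hAne, ?_, hR0, AP2_.uu_mem R, ?_, ?_, ?_⟩
    · intro α hα
      rw [hal α hα, sub_zero]
    · rw [hζv, add_zero]
      rfl
    · intro z hz
      rw [hζv, add_zero]
      exact (mem_LH.mp hz).1 0
    · intro z hz χ d h
      rw [hζv, add_zero]
      exact hPYR q R hR z hz χ d (fun t ht ht0 => h t ht (by rw [hζv, add_zero]; exact ht0))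
  have hmem1 : ∀ v ∈ V, (v, uu R) ∈ attV V A (LH R) (uu R) 0 ζ 0 al := by
    intro v hv
    rw [AP2_.mem_attV]
    by_cases hvA : v ∈ A
    · right
      refine ⟨v, hvA, uu R, AP2_.uu_mem R, ?_⟩
      rw [hposn]
      have : (uu R 0) • al v = v := hal v hvA
      rw [this]
    · left
      exact ⟨v, hv, hvA, rfl⟩
  have hmem2 : ∀ z ∈ LH R, z 0 = 0 →
      ((0 : Fin (m + 1) → ℤ), z) ∈ attV V A (LH R) (uu R) 0 ζ 0 al := by
    intro z hz hz0
    rw [AP2_.mem_attV]
    right
    obtain ⟨α, hα⟩ := hAne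
    refine ⟨α, hα, z, hz, ?_⟩
    rw [hposn, hz0, zero_smul]
  have hsub : attV V A (LH R) (uu R) 0 ζ 0 al ⊆ S := by
    intro p hp
    rw [← hS]
    rw [AP2_.mem_attV] at hp
    rcases hp with ⟨v, hv, -, rfl⟩ | ⟨α, hα, z, hz, rfl⟩
    · exact AP2_.mem_first _ _ G R v (hV hv)
    · rw [hposn]
      exact AP2_.mem_second _ _ G R hR α (al α) (hV (hA hα)) (hal α hα) z hz
  have hMid : Mid S := by
    intro v hv v' hv' w h
    rw [← hS] at hv hv' ⊢
    apply hMDL _ _ _ hv _ hv' (E w)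
    rw [← map_add, h, map_zsmul]
  have hHul : Hul (attV V A (LH R) (uu R) 0 ζ 0 al) S := by
    intro w hw χ d h
    rw [← hS] at hw
    have h1 := hHUL _ (Fin.append G R) hpos ((attV V A (LH R) (uu R) 0 ζ 0 al).image E) (by
      intro k
      rw [Finset.mem_image]
      by_cases hk : k ≤ m + 1
      · exact ⟨(vtx G k, uu R), hmem1 _ (hvtx k), (AP2_.vtx_app_le _ _ G R k hk).symm⟩
      · obtain ⟨k', rfl⟩ : ∃ k', k = m + 1 + k' := ⟨k - (m + 1), by omega⟩
        rcases AP2_.vtx_app_gt (m + 1) (q + 1) G R k' with h2 | h2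
        · refine ⟨(0, vtx R k'), hmem2 _ (vtx_mem R k') ?_, h2.symm⟩
          show (if k' ≤ ((0 : Fin (q + 1)) : ℕ) then (R 0 : ℤ) else 0) = 0
          rw [if_neg]
          intro h3
          apply hk
          have : ((0 : Fin (q + 1)) : ℕ) = 0 := rfl
          omega
        · exfalso
          omega)
    have h2 := h1 (E w) hw (χ.comp E.symm.toAddMonoidHom) d (by
      intro v hv
      rw [Finset.mem_image] at hv
      obtain ⟨p, hp, rfl⟩ := hv
      have h3 := h p hp
      show 0 ≤ χ (E.symm (E p)) + d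
      rwa [E.symm_apply_apply])
    have h3 : 0 ≤ χ (E.symm (E w)) + d := h2
    rwa [E.symm_apply_apply] at h3
  obtain ⟨ω', hω'⟩ := hTW1 _ _ V A (LH R) (uu R) 0 0 ζ 0 (R 0 : ℤ) al (uu G) hAtt
    (by rw [map_zero, add_zero]; exact Even.zero) ω ωT hω
    (by
      intro φ b h1 h2
      obtain ⟨h3, h4, h5⟩ := hωT φ b h1 h2
      exact ⟨h3, h5, h4⟩) S hsub hMid hHul
  obtain ⟨ω'', hω''⟩ := hTRA _ _ E 0 S (LH (Fin.append G R)) (by
    intro v
    rw [add_zero]
    exact hS v) _ _ ω' hω'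
  refine ⟨ω'', ?_⟩
  have e1 : E ((0 : Fin (m + 1) → ℤ), (0 : Fin (q + 1) → ℤ)) + 0 = 0 := by
    rw [add_zero]
    exact map_zero E
  have e2 : E (uu G, uu R) + 0 = uu (Fin.append G R) := by
    rw [add_zero]
    exact AP2_.uu_app _ _ G R
  rw [e1, e2] at hω''
  exact hω''

end Pool.Agent.LHU
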