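import Pool.Agent.LHU.Stmts

set_option autoImplicit false

/-!
# AP3: two-sided attachment for lecture hall simplices
-/

namespace Pool.Agent.LHU.AP3_

open Pool.Agent.LHT Pool.Agent.LHU

section general

variable {Λ Γ : Type} [AddCommGroup Λ] [AddCommGroup Γ]

theorem mem_attV {V A : Finset Λ} {T : Finset Γ} {r : Γ} {o : Λ} {ζ : Γ →+ ℤ} {e : ℤ}
    {al : Λ → Λ} {p : Λ × Γ} : p ∈ attV V A T r o ζ e al ↔
      (∃ v, (v ∈ V ∧ v ∉ A) ∧ (v, r) = p) ∨
        ∃ α, α ∈ A ∧ ∃ z, z ∈ T ∧ (posn o ζ e (al α) z, z) = p := by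
  classical
  unfold attV
  rw [Finset.mem_union, Finset.mem_image, Finset.mem_biUnion]
  simp only [Finset.mem_image, Finset.mem_sdiff]

end general

section app

variable {a b : ℕ}

theorem mem_app (S1 : Fin a → ℕ) (S2 : Fin b → ℕ) (x : Fin a → ℤ) (y : Fin b → ℤ)
    (hx : x ∈ LH S1) (hy : y ∈ LH S2) (h : ∀ i j, x i * S2 j ≤ y j * S1 i) :
    Fin.append x y ∈ LH (Fin.append S1 S2) := by
  rw [mem_LH] at hx hy ⊢
  obtain ⟨hx1, hx2⟩ := hx
  obtain ⟨hy1, hy2⟩ := hy
  constructor
  · intro i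
    refine Fin.addCases (fun i => ?_) (fun i => ?_) i
    · rw [Fin.append_left, Fin.append_left]
      exact hx1 i
    · rw [Fin.append_right, Fin.append_right]
      exact hy1 i
  · intro i
    refine Fin.addCases (fun i => ?_) (fun i => ?_) i
    · intro j
      refine Fin.addCases (fun j => ?_) (fun j => ?_) j
      · intro hij
        rw [Fin.append_left, Fin.append_left, Fin.append_left, Fin.append_left]
        apply hx2
        rw [Fin.lt_def] at hij ⊢
        simpa using hij
      · intro _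
        rw [Fin.append_left, Fin.append_right, Fin.append_left, Fin.append_right]
        exact h i j
    · intro j
      refine Fin.addCases (fun j => ?_) (fun j => ?_) j
      · intro hij
        exfalso
        rw [Fin.lt_def] at hij
        have h1 : ((Fin.natAdd a i : Fin (a + b)) : ℕ) = a + i := rfl
        have h2 : ((Fin.castAdd b j : Fin (a + b)) : ℕ) = j := rfl
        rw [h1, h2] at hij
        have := j.2
        omega
      · intro hij
        rw [Fin.append_right, Fin.append_right, Fin.append_right, Fin.append_right]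
        apply hy2
        rw [Fin.lt_def] at hij ⊢
        have h1 : ((Fin.natAdd a i : Fin (a + b)) : ℕ) = a + i := rfl
        have h2 : ((Fin.natAdd a j : Fin (a + b)) : ℕ) = a + j := rfl
        rw [h1, h2] at hij
        omega

theorem vtx_app (S1 : Fin a → ℕ) (S2 : Fin b → ℕ) (k : ℕ) :
    vtx (Fin.append S1 S2) k = Fin.append (vtx S1 k) (vtx S2 (k - a)) := by
  funext i
  refine Fin.addCases (fun i => ?_) (fun i => ?_) i
  · rw [Fin.append_left]
    unfold vtx
    rw [Fin.append_left]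
    rfl
  · rw [Fin.append_right]
    unfold vtx
    rw [Fin.append_right]
    have h1 : ((Fin.natAdd a i : Fin (a + b)) : ℕ) = a + i := rfl
    rw [h1]
    by_cases h : k ≤ a + i
    · rw [if_pos h, if_pos (by omega)]
    · rw [if_neg h, if_neg (by omega)]

theorem vtx_zero (S : Fin a → ℕ) : vtx S 0 = uu S := by
  funext i
  unfold vtx uu
  rw [if_pos (Nat.zero_le _)]

theorem vtx_big (S : Fin a → ℕ) (k : ℕ) (hk : a ≤ k) : vtx S k = 0 := by
  funext i
  unfold vtx
  rw [if_neg (by have := i.2; omega)]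
  rfl

theorem uu_app (S1 : Fin a → ℕ) (S2 : Fin b → ℕ) :
    uu (Fin.append S1 S2) = Fin.append (uu S1) (uu S2) := by
  rw [← vtx_zero, ← vtx_zero, ← vtx_zero, vtx_app, Nat.zero_sub]

theorem uu_mem (S : Fin a → ℕ) : uu S ∈ LH S := by
  rw [← vtx_zero]; exact vtx_mem S 0

theorem zero_mem (S : Fin a → ℕ) : (0 : Fin a → ℤ) ∈ LH S := by
  rw [← vtx_big S a le_rfl]; exact vtx_mem S a

/-- the isomorphism -/
def EE (c : ℕ) : (((Fin a → ℤ) × (Fin b → ℤ)) × (Fin c → ℤ)) ≃+ (Fin (c + (a + b)) → ℤ) where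
  toFun v := Fin.append v.2 (Fin.append v.1.1 v.1.2)
  invFun y := ((fun i => y (Fin.natAdd c (Fin.castAdd b i)),
    fun j => y (Fin.natAdd c (Fin.natAdd a j))), fun k => y (Fin.castAdd (a + b) k))
  left_inv v := by
    apply Prod.ext
    · apply Prod.ext
      · funext i
        show Fin.append v.2 (Fin.append v.1.1 v.1.2) (Fin.natAdd c (Fin.castAdd b i)) = v.1.1 i
        rw [Fin.append_right, Fin.append_left]
      · funext i
        show Fin.append v.2 (Fin.append v.1.1 v.1.2) (Fin.natAdd c (Fin.natAdd a i)) = v.1.2 i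
        rw [Fin.append_right, Fin.append_right]
    · funext i
      show Fin.append v.2 (Fin.append v.1.1 v.1.2) (Fin.castAdd (a + b) i) = v.2 i
      rw [Fin.append_left]
  right_inv y := by
    funext i
    dsimp only
    refine Fin.addCases (fun i => ?_) (fun i => ?_) i
    · rw [Fin.append_left]
    · rw [Fin.append_right]
      refine Fin.addCases (fun i => ?_) (fun i => ?_) i
      · rw [Fin.append_left]
      · rw [Fin.append_right]
  map_add' v w := by
    funext i
    refine Fin.addCases (fun i => ?_) (fun i => ?_) i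
    · rw [Pi.add_apply, Fin.append_left, Fin.append_left, Fin.append_left]
      rfl
    · rw [Pi.add_apply, Fin.append_right, Fin.append_right, Fin.append_right]
      refine Fin.addCases (fun i => ?_) (fun i => ?_) i
      · rw [Fin.append_left, Fin.append_left, Fin.append_left]
        rfl
      · rw [Fin.append_right, Fin.append_right, Fin.append_right]
        rfl

theorem EE_apply (c : ℕ) (g : Fin a → ℤ) (z : Fin b → ℤ) (x : Fin c → ℤ) :
    EE c ((g, z), x) = Fin.append x (Fin.append g z) := rfl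

end app

/-- points of the first attachment are in the lecture hall simplex -/
theorem v1_mem {m q : ℕ} (G : Fin (m + 1) → ℕ) (R : Fin (q + 1) → ℕ) (hR : ∀ i, 0 < R i)
    (V A : Finset (Fin (m + 1) → ℤ)) (al : (Fin (m + 1) → ℤ) → (Fin (m + 1) → ℤ))
    (hV : V ⊆ LH G) (hA : A ⊆ V) (hal : ∀ α ∈ A, (R 0 : ℤ) • al α = α)
    (v : (Fin (m + 1) → ℤ) × (Fin (q + 1) → ℤ))
    (hv : v ∈ attV V A (LH R) (uu R) 0 (Pi.evalAddMonoidHom (fun _ => ℤ) (0 : Fin (q + 1))) 0 al) :
    Fin.append v.1 v.2 ∈ LH (Fin.append G R) := by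
  rw [mem_attV] at hv
  rcases hv with ⟨w, ⟨hw, _⟩, rfl⟩ | ⟨α, hα, z, hz, rfl⟩
  · have hwG := hV hw
    refine mem_app G R w (uu R) hwG (uu_mem R) ?_
    intro i j
    have h1 := ((mem_LH.1 hwG).1 i).2
    have h2 : (0 : ℤ) ≤ R j := Int.natCast_nonneg _
    show w i * (R j : ℤ) ≤ (R j : ℤ) * G i
    nlinarith
  · have hαG := mem_LH.1 (hV (hA hα))
    have hzR := mem_LH.1 hz
    have hR0 : (0 : ℤ) < R 0 := by exact_mod_cast hR 0
    have hα' : ∀ i, (R 0 : ℤ) * al α i = α i := fun i => congrFun (hal α hα) i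
    have hpos : ∀ i, posn (0 : Fin (m + 1) → ℤ)
        (Pi.evalAddMonoidHom (fun _ => ℤ) (0 : Fin (q + 1))) 0 (al α) z i = z 0 * al α i := by
      intro i
      show (0 : ℤ) + (z 0 + 0) * al α i = z 0 * al α i
      ring
    have hz0 := hzR.1 0
    refine mem_app G R _ z ?_ hz ?_
    · rw [mem_LH]
      dsimp only
      constructor
      · intro i
        rw [hpos i]
        have h1 := hαG.1 i
        have h2 := hα' i
        constructor
        · have : 0 ≤ al α i := by
            by_contra hneg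
            push Not at hneg
            nlinarith
          exact mul_nonneg hz0.1 this
        · have h3 : z 0 * al α i ≤ (R 0 : ℤ) * al α i := by
            have : 0 ≤ al α i := by
              by_contra hneg
              push Not at hneg
              nlinarith
            nlinarith
          linarith
      · intro i j hij
        rw [hpos i, hpos j]
        have h1 := hαG.2 i j hij
        rw [← hα' i, ← hα' j] at h1
        have h2 : al α i * G j ≤ al α j * G i := by
          by_contra hneg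
          push Not at hneg
          nlinarith
        have h3 := mul_le_mul_of_nonneg_left h2 hz0.1
        linarith
    · intro i j
      dsimp only
      rw [hpos i]
      have h1 := hαG.1 i
      have h2 : al α i * R 0 ≤ G i := by linarith [hα' i]
      have hRj : (0 : ℤ) < R j := by exact_mod_cast hR j
      have h3 : z 0 * R j ≤ z j * R 0 := by
        rcases eq_or_ne j 0 with rfl | hj
        · exact le_rfl
        · exact hzR.2 0 j (Fin.pos_iff_ne_zero.2 hj)
      have h4 : 0 ≤ al α i := by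
        by_contra hneg
        push Not at hneg
        have := hα' i
        nlinarith
      have h5 := mul_le_mul_of_nonneg_left h3 h4
      have h6 := mul_le_mul_of_nonneg_left h2 (hzR.1 j).1
      calc z 0 * al α i * (R j : ℤ) = al α i * (z 0 * R j) := by ring
        _ ≤ al α i * (z j * R 0) := h5
        _ = z j * (al α i * R 0) := by ring
        _ ≤ z j * G i := h6

/-- points of the second attachment -/
theorem v2_mem {p m q : ℕ} (L : Fin (p + 1) → ℕ) (G : Fin (m + 1) → ℕ) (R : Fin (q + 1) → ℕ)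
    (hL : ∀ i, 0 < L i) (b g : Fin (m + 1) → ℤ) (hb : b ∈ LH G) (x : Fin (p + 1) → ℤ)
    (hx : x ∈ LH L)
    (hg : ∀ i, (L (Fin.last p) : ℤ) * g i = x (Fin.last p) * G i +
      (L (Fin.last p) - x (Fin.last p)) * b i) :
    Fin.append x (Fin.append g (uu R)) ∈ LH (Fin.append L (Fin.append G R)) := by
  have hbG := mem_LH.1 hb
  have hxL := mem_LH.1 hx
  have hl : (0 : ℤ) < L (Fin.last p) := by exact_mod_cast hL _
  have hxp := hxL.1 (Fin.last p)
  set l : ℤ := (L (Fin.last p) : ℤ) with hldef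
  set xp : ℤ := x (Fin.last p) with hxpdef
  have hxl : ∀ i, x i * l ≤ xp * L i := by
    intro i
    rcases eq_or_ne i (Fin.last p) with rfl | hi
    · exact le_of_eq (by rw [← hldef, ← hxpdef])
    · exact hxL.2 i _ (Fin.lt_last_iff_ne_last.2 hi)
  have hd : 0 ≤ l - xp := by linarith [hxp.2]
  have hg0 : ∀ i, 0 ≤ g i := by
    intro i
    have h1 : 0 ≤ xp * (G i : ℤ) := mul_nonneg hxp.1 (Int.natCast_nonneg _)
    have h2 : 0 ≤ (l - xp) * b i := mul_nonneg hd (hbG.1 i).1
    have h3 := hg i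
    by_contra hneg
    push Not at hneg
    nlinarith
  have hg1 : ∀ i, g i ≤ G i := by
    intro i
    have h2 : (l - xp) * b i ≤ (l - xp) * G i := mul_le_mul_of_nonneg_left (hbG.1 i).2 hd
    have h3 := hg i
    have h4 : l * g i ≤ l * G i := by nlinarith
    exact le_of_mul_le_mul_left h4 hl
  have hgG : g ∈ LH G := by
    rw [mem_LH]
    refine ⟨fun i => ⟨hg0 i, hg1 i⟩, ?_⟩
    intro i j hij
    have h1 := hbG.2 i j hij
    have h2 := mul_le_mul_of_nonneg_left h1 hd
    have h3 : l * (g i * G j) ≤ l * (g j * G i) := by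
      have e1 : l * (g i * G j) = (l * g i) * G j := by ring
      have e2 : l * (g j * G i) = (l * g j) * G i := by ring
      rw [e1, e2, hg i, hg j]
      nlinarith
    exact le_of_mul_le_mul_left h3 hl
  refine mem_app L (Fin.append G R) x _ hx ?_ ?_
  · refine mem_app G R g (uu R) hgG (uu_mem R) ?_
    intro i j
    have h2 : (0 : ℤ) ≤ R j := Int.natCast_nonneg _
    show g i * (R j : ℤ) ≤ (R j : ℤ) * G i
    have := hg1 i
    nlinarith
  · intro i j
    refine Fin.addCases (fun j => ?_) (fun j => ?_) j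
    · rw [Fin.append_left, Fin.append_left]
      have h1 := mul_le_mul_of_nonneg_right (hxl i) (Int.natCast_nonneg (G j))
      have h2 : 0 ≤ (l - xp) * b j * L i :=
        mul_nonneg (mul_nonneg hd (hbG.1 j).1) (Int.natCast_nonneg _)
      have h3 : l * (x i * G j) ≤ l * (g j * L i) := by
        have e2 : l * (g j * L i) = (l * g j) * L i := by ring
        rw [e2, hg j]
        nlinarith
      exact le_of_mul_le_mul_left h3 hl
    · rw [Fin.append_right, Fin.append_right]
      show x i * (R j : ℤ) ≤ (R j : ℤ) * L i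
      have h2 : (0 : ℤ) ≤ R j := Int.natCast_nonneg _
      have := (hxL.1 i).2
      nlinarith

end Pool.Agent.LHU.AP3_

namespace Pool.Agent.LHU

open Pool.Agent.LHT AP3_

theorem ap3_proof (hTW2 : Stmt_TW2) (hTRA : Stmt_TRA) (hTFZ : Stmt_TFZ) (hMDL : Stmt_MDL)
    (hHUL : Stmt_HUL) (hPYR : Stmt_PYR) (hPYL : Stmt_PYL) : Stmt_AP3 := by
  classical
  intro p m q L G R hL hG hR V A B al be ω hV hvtx hA hAne hB hBne hAB hal hbe hω hlL hlR
  obtain ⟨ωL, hωL⟩ := hlL
  obtain ⟨ωR, hωR⟩ := hlR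
  set ζ : (Fin (q + 1) → ℤ) →+ ℤ := Pi.evalAddMonoidHom (fun _ => ℤ) (0 : Fin (q + 1)) with hζ
  set ζ2 : (Fin (p + 1) → ℤ) →+ ℤ := - Pi.evalAddMonoidHom (fun _ => ℤ) (Fin.last p) with hζ2
  have hζa : ∀ z, ζ z = z 0 := fun z => rfl
  have hζ2a : ∀ z, ζ2 z = - z (Fin.last p) := fun z => rfl
  have hL0 : (0 : ℤ) < L (Fin.last p) := by exact_mod_cast hL _
  have hR0 : (0 : ℤ) < R 0 := by exact_mod_cast hR _
  have hAtt : Att V A (LH R) (uu R) 0 ζ 0 (R 0 : ℤ) al := by
    refine ⟨hTFZ.1 _, hTFZ.1 _, hA, hAne, ?_, hR0, uu_mem R, ?_, ?_, ?_⟩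
    · intro α hα
      rw [hal α hα, sub_zero]
    · rw [hζa, add_zero]; rfl
    · intro z hz
      rw [hζa, add_zero]
      exact (mem_LH.1 hz).1 0
    · intro z hz χ d h
      have := hPYR q R hR z hz χ d (fun t ht h0 => h t ht (by rw [hζa, h0, add_zero]))
      rw [hζa, add_zero]
      exact this
  set V1 := attV V A (LH R) (uu R) 0 ζ 0 al with hV1
  set B2 : Finset ((Fin (m + 1) → ℤ) × (Fin (q + 1) → ℤ)) := B.image (fun v => (v, uu R)) with hB2
  have hB2mem : ∀ v, v ∈ B2 ↔ v.1 ∈ B ∧ v.2 = uu R := by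
    intro v
    rw [hB2, Finset.mem_image]
    constructor
    · rintro ⟨w, hw, rfl⟩
      exact ⟨hw, rfl⟩
    · rintro ⟨h1, h2⟩
      exact ⟨v.1, h1, by rw [← h2]⟩
  set al2 : (Fin (m + 1) → ℤ) × (Fin (q + 1) → ℤ) → (Fin (m + 1) → ℤ) × (Fin (q + 1) → ℤ) :=
    fun v => (be v.1, 0) with hal2
  set o2 : (Fin (m + 1) → ℤ) × (Fin (q + 1) → ℤ) := (uu G, uu R) with ho2
  have hal2' : ∀ v ∈ B2, (L (Fin.last p) : ℤ) • al2 v = v - o2 := by
    intro v hv
    rw [hB2mem] at hv
    apply Prod.ext
    · show (L (Fin.last p) : ℤ) • be v.1 = v.1 - uu G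
      exact hbe v.1 hv.1
    · show (L (Fin.last p) : ℤ) • (0 : Fin (q + 1) → ℤ) = v.2 - uu R
      rw [hv.2, sub_self, smul_zero]
  have hAtt2 : Att V1 B2 (LH L) 0 o2 ζ2 (L (Fin.last p) : ℤ) (L (Fin.last p) : ℤ) al2 := by
    refine ⟨hTFZ.2 _ _ (hTFZ.1 _) (hTFZ.1 _), hTFZ.1 _, ?_, hBne.image _, hal2', hL0,
      zero_mem L, ?_, ?_, ?_⟩
    · intro v hv
      rw [hB2mem] at hv
      rw [hV1, mem_attV]
      left
      refine ⟨v.1, ⟨hB hv.1, fun hA' => ?_⟩, ?_⟩
      · exact (Finset.disjoint_left.1 hAB) hA' hv.1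
      · rw [← hv.2]
    · rw [map_zero, zero_add]
    · intro z hz
      rw [hζ2a]
      have := (mem_LH.1 hz).1 (Fin.last p)
      constructor <;> linarith
    · intro z hz χ d h
      have := hPYL p L hL z hz χ d (fun t ht h0 => h t ht (by rw [hζ2a, h0]; ring))
      rw [hζ2a, smul_zero, sub_zero]
      have e : (L (Fin.last p) : ℤ) - (- z (Fin.last p) + L (Fin.last p)) = z (Fin.last p) := by
        ring
      rw [e]
      exact this
  set W := attV V1 B2 (LH L) 0 o2 ζ2 (L (Fin.last p) : ℤ) al2 with hW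
  set s : Fin ((p + 1) + ((m + 1) + (q + 1))) → ℕ := Fin.append L (Fin.append G R) with hs
  have hspos : ∀ i, 0 < s i := by
    intro i
    rw [hs]
    refine Fin.addCases (fun i => ?_) (fun i => ?_) i
    · rw [Fin.append_left]; exact hL i
    · rw [Fin.append_right]
      refine Fin.addCases (fun i => ?_) (fun i => ?_) i
      · rw [Fin.append_left]; exact hG i
      · rw [Fin.append_right]; exact hR i
  set E := EE (a := m + 1) (b := q + 1) (p + 1) with hE
  set S : Finset (((Fin (m + 1) → ℤ) × (Fin (q + 1) → ℤ)) × (Fin (p + 1) → ℤ)) :=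
    (LH s).image E.symm with hS
  have hSmem : ∀ v, v ∈ S ↔ E v ∈ LH s := by
    intro v
    rw [hS, Finset.mem_image]
    constructor
    · rintro ⟨w, hw, rfl⟩
      rw [AddEquiv.apply_symm_apply]
      exact hw
    · intro h
      exact ⟨E v, h, AddEquiv.symm_apply_apply _ _⟩
  -- the new vertices are in the simplex
  have hWS : W ⊆ S := by
    intro v hv
    rw [hSmem]
    rw [hW, mem_attV] at hv
    rcases hv with ⟨w, ⟨hw, _⟩, rfl⟩ | ⟨β, hβ, x, hx, rfl⟩
    · have h1 := v1_mem G R hR V A al hV hA hal w hw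
      rw [show (w, (0 : Fin (p + 1) → ℤ)) = ((w.1, w.2), (0 : Fin (p + 1) → ℤ)) from rfl, hE,
        EE_apply, hs]
      refine mem_app L (Fin.append G R) 0 _ (zero_mem L) h1 ?_
      intro i j
      rw [Pi.zero_apply, zero_mul]
      exact mul_nonneg ((mem_LH.1 h1).1 j).1 (Int.natCast_nonneg _)
    · have hβ' := (hB2mem β).1 hβ
      have hc := hbe β.1 hβ'.1
      have hp2 : (posn o2 ζ2 (L (Fin.last p) : ℤ) (al2 β) x).2 = uu R := by
        show uu R + (ζ2 x + (L (Fin.last p) : ℤ)) • (0 : Fin (q + 1) → ℤ) = uu R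
        rw [smul_zero, add_zero]
      have h2 : E (posn o2 ζ2 (L (Fin.last p) : ℤ) (al2 β) x, x) = Fin.append x
          (Fin.append (posn o2 ζ2 (L (Fin.last p) : ℤ) (al2 β) x).1 (uu R)) := by
        rw [← hp2]; rfl
      rw [h2, hs]
      refine v2_mem L G R hL β.1 _ (hV (hB hβ'.1)) x hx ?_
      intro i
      have h3 : (posn o2 ζ2 (L (Fin.last p) : ℤ) (al2 β) x).1 i =
          (G i : ℤ) + (- x (Fin.last p) + L (Fin.last p)) * be β.1 i := rfl
      have h4 : (L (Fin.last p) : ℤ) * be β.1 i = β.1 i - G i := congrFun hc i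
      rw [h3, mul_add, mul_left_comm, h4]
      ring
  have hMid : Mid S := by
    intro v hv v' hv' w hw
    rw [hSmem] at hv hv' ⊢
    refine hMDL _ s (E v) hv (E v') hv' (E w) ?_
    rw [← map_add, hw, map_zsmul]
  -- the vertices of the big simplex
  have hV1vtx : ∀ k : ℕ, (vtx G k, vtx R (k - (m + 1))) ∈ V1 := by
    intro k
    rw [hV1, mem_attV]
    by_cases hk : k ≤ m + 1
    · rw [Nat.sub_eq_zero_of_le hk, vtx_zero]
      by_cases hkA : vtx G k ∈ A
      · right
        refine ⟨vtx G k, hkA, uu R, uu_mem R, ?_⟩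
        apply Prod.ext
        · show (0 : Fin (m + 1) → ℤ) + (ζ (uu R) + 0) • al (vtx G k) = vtx G k
          rw [zero_add, add_zero]
          exact hal _ hkA
        · rfl
      · left
        exact ⟨vtx G k, ⟨hvtx k, hkA⟩, rfl⟩
    · right
      push Not at hk
      obtain ⟨α, hα⟩ := hAne
      refine ⟨α, hα, vtx R (k - (m + 1)), vtx_mem _ _, ?_⟩
      apply Prod.ext
      · show (0 : Fin (m + 1) → ℤ) + (ζ (vtx R (k - (m + 1))) + 0) • al α = vtx G k
        have h0 : ζ (vtx R (k - (m + 1))) = 0 := by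
          show (if k - (m + 1) ≤ ((0 : Fin (q + 1)) : ℕ) then (R 0 : ℤ) else 0) = 0
          rw [if_neg (by rw [Fin.val_zero]; omega)]
        rw [h0, add_zero, zero_smul, add_zero, vtx_big G k hk.le]
      · rfl
  have hWvtx : ∀ k : ℕ, ((vtx G (k - (p + 1)), vtx R (k - (p + 1) - (m + 1))), vtx L k) ∈ W := by
    intro k
    by_cases hk : k ≤ p
    · have e1 : k - (p + 1) = 0 := by omega
      rw [e1, Nat.zero_sub, vtx_zero, vtx_zero, hW, mem_attV]
      right
      obtain ⟨β, hβ⟩ := hBne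
      have hβ2 : (β, uu R) ∈ B2 := (hB2mem _).2 ⟨hβ, rfl⟩
      refine ⟨(β, uu R), hβ2, vtx L k, vtx_mem _ _, ?_⟩
      apply Prod.ext
      · show o2 + (ζ2 (vtx L k) + (L (Fin.last p) : ℤ)) • al2 (β, uu R) = (uu G, uu R)
        have h0 : ζ2 (vtx L k) = - (L (Fin.last p) : ℤ) := by
          rw [hζ2a]
          unfold vtx
          rw [if_pos (by rw [Fin.val_last]; exact hk)]
        rw [h0, neg_add_cancel, zero_smul, add_zero]
      · rfl
    · push Not at hk
      have h0 : vtx L k = 0 := vtx_big L k hk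
      rw [h0, hW, mem_attV]
      have h1 := hV1vtx (k - (p + 1))
      by_cases hb : (vtx G (k - (p + 1)), vtx R (k - (p + 1) - (m + 1))) ∈ B2
      · right
        refine ⟨_, hb, 0, zero_mem L, ?_⟩
        apply Prod.ext
        · show o2 + (ζ2 0 + (L (Fin.last p) : ℤ)) • al2 _ = _
          rw [map_zero, zero_add, hal2' _ hb]
          exact add_sub_cancel _ _
        · rfl
      · left
        exact ⟨_, ⟨h1, hb⟩, rfl⟩
  have hvs : ∀ k : ℕ, vtx s k =
      E ((vtx G (k - (p + 1)), vtx R (k - (p + 1) - (m + 1))), vtx L k) := by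
    intro k
    rw [hE, EE_apply, hs, vtx_app, vtx_app]
  have hHulW : Hul W S := by
    intro w hw χ d h
    have h1 := hHUL _ s hspos (W.image E) (fun k => by
      rw [hvs k]
      exact Finset.mem_image_of_mem _ (hWvtx k)) (E w) ((hSmem w).1 hw)
      (χ.comp E.symm.toAddMonoidHom) d (by
        intro v hv
        obtain ⟨u, hu, rfl⟩ := Finset.mem_image.1 hv
        have h2 : (χ.comp E.symm.toAddMonoidHom) (E u) = χ u := by
          show χ (E.symm (E u)) = χ u
          rw [AddEquiv.symm_apply_apply]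
        rw [h2]
        exact h u hu)
    have h2 : (χ.comp E.symm.toAddMonoidHom) (E w) = χ w := by
      show χ (E.symm (E w)) = χ w
      rw [AddEquiv.symm_apply_apply]
    rwa [h2] at h1
  -- swap the marks of the triangulation of `R`
  have hωR' : GLw (MU (uu R) 0) (LH R) ωR := by
    intro φ b h1 h2
    obtain ⟨a1, a2, a3⟩ := hωR φ b h1 h2
    exact ⟨a1, a3, a2⟩
  obtain ⟨ω1, hω1⟩ := hTW2 (Fin (m + 1) → ℤ) (Fin (q + 1) → ℤ) (Fin (p + 1) → ℤ) V A B (LH R)
    (uu R) 0 0 ζ 0 (R 0 : ℤ) al (LH L) 0 (uu L) o2 ζ2 (L (Fin.last p) : ℤ) (L (Fin.last p) : ℤ)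
    al2 B2 hAtt hAtt2 hB2mem hB hAB (by rw [map_zero, add_zero]; exact Even.zero)
    (by
      rw [hζ2a]
      have : - uu L (Fin.last p) + (L (Fin.last p) : ℤ) = 0 := by
        show - (L (Fin.last p) : ℤ) + (L (Fin.last p) : ℤ) = 0
        ring
      rw [this]; exact Even.zero)
    ω ωR ωL hω hωR' hωL S hWS hMid hHulW
  obtain ⟨ω', hω'⟩ := hTRA _ _ E 0 S (LH s) (fun v => by rw [add_zero]; exact (hSmem v).symm)
    _ _ ω1 hω1
  refine ⟨ω', ?_⟩
  have e1 : E (((0 : Fin (m + 1) → ℤ), (0 : Fin (q + 1) → ℤ)), (0 : Fin (p + 1) → ℤ)) + 0 = 0 := by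
    rw [add_zero]
    exact map_zero E
  have e2 : E (o2, uu L) + 0 = uu s := by
    rw [add_zero, ho2, hE, EE_apply, hs, uu_app, uu_app]
  rw [e1, e2] at hω'
  exact hω'

end Pool.Agent.LHU
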