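import Pool.Agent.LHU.Stmts

set_option autoImplicit false

namespace Pool.Agent.LHU

open Pool.Agent.LHT

namespace AT1_

variable {Λ Γ : Type} [AddCommGroup Λ] [AddCommGroup Γ]

theorem split (φ : Λ × Γ →+ ℝ) (x : Λ) (z : Γ) : φ (x, z) = φ (x, 0) + φ (0, z) := by
  rw [← map_add]
  simp

theorem mem_attV {V A : Finset Λ} {T : Finset Γ} {r : Γ} {o : Λ} {ζ : Γ →+ ℤ} {e : ℤ}
    {al : Λ → Λ} {p : Λ × Γ} : p ∈ attV V A T r o ζ e al ↔
      (∃ v ∈ V, v ∉ A ∧ p = (v, r)) ∨ ∃ α ∈ A, ∃ z ∈ T, p = (posn o ζ e (al α) z, z) := by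
  classical
  unfold attV
  rw [Finset.mem_union, Finset.mem_image, Finset.mem_biUnion]
  refine or_congr ?_ ?_
  · constructor
    · rintro ⟨v, hv, rfl⟩
      rw [Finset.mem_sdiff] at hv
      exact ⟨v, hv.1, hv.2, rfl⟩
    · rintro ⟨v, hv, hA, rfl⟩
      exact ⟨v, Finset.mem_sdiff.2 ⟨hv, hA⟩, rfl⟩
  · constructor
    · rintro ⟨α, hα, h⟩
      rw [Finset.mem_image] at h
      obtain ⟨z, hz, rfl⟩ := h
      exact ⟨α, hα, z, hz, rfl⟩
    · rintro ⟨α, hα, z, hz, rfl⟩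
      exact ⟨α, hα, Finset.mem_image.2 ⟨z, hz, rfl⟩⟩

theorem mem_attC {S : Finset Λ} {α : Λ} {τ : Finset Γ} {r : Γ} {o : Λ} {ζ : Γ →+ ℤ} {e : ℤ}
    {al : Λ → Λ} {p : Λ × Γ} : p ∈ attC S α τ r o ζ e al ↔
      (∃ v ∈ S, v ≠ α ∧ p = (v, r)) ∨ ∃ z ∈ τ, p = (posn o ζ e (al α) z, z) := by
  classical
  unfold attC
  rw [Finset.mem_union, Finset.mem_image, Finset.mem_image]
  refine or_congr ?_ ?_
  · constructor
    · rintro ⟨v, hv, rfl⟩
      rw [Finset.mem_erase] at hv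
      exact ⟨v, hv.2, hv.1, rfl⟩
    · rintro ⟨v, hv, hA, rfl⟩
      exact ⟨v, Finset.mem_erase.2 ⟨hA, hv⟩, rfl⟩
  · constructor
    · rintro ⟨z, hz, rfl⟩
      exact ⟨z, hz, rfl⟩
    · rintro ⟨z, hz, rfl⟩
      exact ⟨z, hz, rfl⟩

end AT1_

open AT1_ in
theorem at1_proof : Stmt_AT1 := by
  classical
  intro Λ Γ _ _ V A T r o ζ e cc al H ωV h0 hV hA φ b hle hsp
  obtain ⟨α₀, hα₀⟩ := H.ne
  have hcc : (0 : ℝ) < (cc : ℝ) := by exact_mod_cast H.pos
  -- the restrictions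
  let φ' : Λ →+ ℝ := φ.comp (AddMonoidHom.inl Λ Γ)
  let χ : Γ →+ ℝ := φ.comp (AddMonoidHom.inr Λ Γ)
  have hφ : ∀ x z, φ (x, z) = φ' x + χ z := fun x z => split φ x z
  obtain ⟨d, hd⟩ : ∃ d : ℝ, d = φ' o + b := ⟨_, rfl⟩
  have hal : ∀ (ρ : Λ →+ ℝ), ∀ α ∈ A, (cc : ℝ) * ρ (al α) = ρ α - ρ o := by
    intro ρ α hα
    have h1 := congrArg ρ (H.hal α hα)
    rw [map_zsmul, map_sub, zsmul_eq_mul] at h1
    exact h1
  have hpos : ∀ (ρ : Λ →+ ℝ), ∀ α ∈ A, ∀ z, ρ (posn o ζ e (al α) z) =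
      ρ o + ((ζ z + e : ℤ) : ℝ) / cc * (ρ α - ρ o) := by
    intro ρ α hα z
    unfold posn
    rw [map_add, map_zsmul, zsmul_eq_mul, ← hal ρ α hα]
    field_simp
  have hr : ((ζ r + e : ℤ) : ℝ) / cc = 1 := by
    rw [H.top]
    exact div_self hcc.ne'
  have hposr : ∀ α ∈ A, posn o ζ e (al α) r = α := by
    intro α hα
    unfold posn
    rw [H.top, H.hal α hα]
    abel
  have hinV : ∀ v ∈ V, (v, r) ∈ attV V A T r o ζ e al := by
    intro v hv
    by_cases hvA : v ∈ A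
    · exact mem_attV.2 (Or.inr ⟨v, hvA, r, H.mem, by rw [hposr v hvA]⟩)
    · exact mem_attV.2 (Or.inl ⟨v, hv, hvA, rfl⟩)
  have hh0 : ∀ v ∈ V, h0 (v, r) = ωV v := by
    intro v hv
    by_cases hvA : v ∈ A
    · have := hA v hvA r H.mem
      rw [hposr v hvA, hr, one_mul] at this
      exact this
    · exact hV v hv hvA
  have hb : ∀ v, φ (v, r) + b = φ' v + (χ r + b) := by
    intro v
    rw [hφ]; ring
  -- g is nonpositive
  obtain ⟨g, hg⟩ : ∃ g : Γ → ℝ, ∀ z, g z = χ z + d - ((ζ z + e : ℤ) : ℝ) / cc * (d + χ r) :=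
    ⟨_, fun _ => rfl⟩
  have hpyr : ∀ t ∈ T, ζ t + e = 0 → χ t + d ≤ 0 := by
    intro t ht h0t
    have h1 := hle _ (mem_attV.2 (Or.inr ⟨α₀, hα₀, t, ht, rfl⟩))
    rw [hA α₀ hα₀ t ht, hφ, hpos φ' α₀ hα₀ t, h0t] at h1
    simp only [Int.cast_zero, zero_div, zero_mul, add_zero] at h1
    rw [hd]
    linarith
  have hgle : ∀ z ∈ T, g z ≤ 0 := by
    intro z hz
    have h1 := H.pyr z hz χ d hpyr
    rw [map_sub, map_zsmul, map_zsmul, zsmul_eq_mul, zsmul_eq_mul] at h1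
    have h2 : (cc : ℝ) * g z ≤ 0 := by
      have h3 : (cc : ℝ) * g z = (cc : ℝ) * χ z - ((ζ z + e : ℤ) : ℝ) * χ r +
          ((cc - (ζ z + e) : ℤ) : ℝ) * d := by
        rw [hg]
        push_cast
        field_simp
        ring
      rw [h3]
      exact h1
    by_contra h4
    rw [not_le] at h4
    have := mul_pos hcc h4
    linarith
  -- differences
  have hdiff : ∀ α ∈ A, ∀ z ∈ T, φ (posn o ζ e (al α) z, z) + b - h0 (posn o ζ e (al α) z, z) =
      g z + ((ζ z + e : ℤ) : ℝ) / cc * (φ' α + (χ r + b) - ωV α) := by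
    intro α hα z hz
    rw [hA α hα z hz, hφ, hpos φ' α hα z, hg, hd]
    ring
  have hle' : ∀ v ∈ V, φ' v + (χ r + b) ≤ ωV v := by
    intro v hv
    have h1 := hle _ (hinV v hv)
    rw [hb, hh0 v hv] at h1
    exact h1
  have hcon1 : ∀ v ∈ V, ((v, r) ∈ contact (attV V A T r o ζ e al) h0 φ b ↔
      v ∈ contact V ωV φ' (χ r + b)) := by
    intro v hv
    rw [mem_contact, mem_contact, hb, hh0 v hv]
    exact ⟨fun h => ⟨hv, h.2⟩, fun h => ⟨hinV v hv, h.2⟩⟩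
  have hcon2 : ∀ α ∈ A, ∀ z ∈ T, ((posn o ζ e (al α) z, z) ∈
      contact (attV V A T r o ζ e al) h0 φ b ↔
      g z = 0 ∧ (ζ z + e = 0 ∨ α ∈ contact V ωV φ' (χ r + b))) := by
    intro α hα z hz
    have h1 := hdiff α hα z hz
    have h2 := hgle z hz
    have h3 : 0 ≤ ((ζ z + e : ℤ) : ℝ) / cc := by
      have := (H.rng z hz).1
      have h4 : (0 : ℝ) ≤ ((ζ z + e : ℤ) : ℝ) := by exact_mod_cast this
      positivity
    have h4 := hle' α (H.sub hα)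
    have h5 : ((ζ z + e : ℤ) : ℝ) / cc * (φ' α + (χ r + b) - ωV α) ≤ 0 :=
      mul_nonpos_of_nonneg_of_nonpos h3 (by linarith)
    rw [mem_contact, mem_contact]
    constructor
    · rintro ⟨-, h6⟩
      rw [h6, sub_self] at h1
      refine ⟨by linarith, ?_⟩
      have h7 : ((ζ z + e : ℤ) : ℝ) / cc * (φ' α + (χ r + b) - ωV α) = 0 := by linarith
      rcases mul_eq_zero.1 h7 with h8 | h8
      · left
        rw [div_eq_zero_iff] at h8
        rcases h8 with h8 | h8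
        · exact_mod_cast h8
        · exact absurd h8 hcc.ne'
      · right
        exact ⟨H.sub hα, by linarith⟩
    · rintro ⟨h6, h7⟩
      refine ⟨mem_attV.2 (Or.inr ⟨α, hα, z, hz, rfl⟩), ?_⟩
      have h8 : ((ζ z + e : ℤ) : ℝ) / cc * (φ' α + (χ r + b) - ωV α) = 0 := by
        rcases h7 with h7 | ⟨-, h7⟩
        · rw [h7]; simp
        · rw [h7]; simp
      rw [h6, h8] at h1
      linarith
  -- g vanishes
  let G : Λ × Γ →+ ℝ := AddMonoidHom.mk' (fun p => χ p.2 - ((ζ p.2 : ℤ) : ℝ) / cc * (d + χ r))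
    (by
      intro p q
      simp only [Prod.snd_add, map_add, Int.cast_add]
      ring)
  have hG : ∀ p : Λ × Γ, G p + (d - (e : ℝ) / cc * (d + χ r)) = g p.2 := by
    intro p
    rw [hg]
    show χ p.2 - ((ζ p.2 : ℤ) : ℝ) / cc * (d + χ r) + (d - (e : ℝ) / cc * (d + χ r)) = _
    push_cast
    ring
  have hGz := hsp G (d - (e : ℝ) / cc * (d + χ r)) (by
    intro p hp
    rw [hG]
    rcases mem_attV.1 (mem_contact.1 hp).1 with ⟨v, hv, -, rfl⟩ | ⟨α, hα, z, hz, rfl⟩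
    · show g r = 0
      rw [hg, hr]
      ring
    · exact ((hcon2 α hα z hz).1 hp).1)
  have hg0 : ∀ z, g z = 0 := by
    intro z
    have h1 := hG (0, z)
    rw [hGz.1, hGz.2] at h1
    simpa using h1.symm
  refine ⟨φ', χ r + b, hle', ?_, ?_⟩
  · -- spans
    intro ρ s hρ
    let R : Λ × Γ →+ ℝ := AddMonoidHom.mk'
      (fun p => ρ p.1 + ((ζ p.2 : ℤ) : ℝ) / cc * (ρ o + s))
      (by
        intro p q
        simp only [Prod.snd_add, Prod.fst_add, map_add, Int.cast_add]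
        ring)
    have hR : ∀ p : Λ × Γ, R p + (-ρ o + (e : ℝ) / cc * (ρ o + s)) =
        ρ p.1 - ρ o + ((ζ p.2 + e : ℤ) : ℝ) / cc * (ρ o + s) := by
      intro p
      show ρ p.1 + ((ζ p.2 : ℤ) : ℝ) / cc * (ρ o + s) + (-ρ o + (e : ℝ) / cc * (ρ o + s)) = _
      push_cast
      ring
    have hRz := hsp R (-ρ o + (e : ℝ) / cc * (ρ o + s)) (by
      intro p hp
      rw [hR]
      rcases mem_attV.1 (mem_contact.1 hp).1 with ⟨v, hv, -, rfl⟩ | ⟨α, hα, z, hz, rfl⟩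
      · have h1 := hρ v ((hcon1 v hv).1 hp)
        show ρ v - ρ o + ((ζ r + e : ℤ) : ℝ) / cc * (ρ o + s) = 0
        rw [hr]
        linarith
      · show ρ (posn o ζ e (al α) z) - ρ o + ((ζ z + e : ℤ) : ℝ) / cc * (ρ o + s) = 0
        rw [hpos ρ α hα z]
        rcases ((hcon2 α hα z hz).1 hp).2 with h1 | h1
        · rw [h1]; simp
        · have h2 := hρ α h1
          have h3 : ρ α = -s := by linarith
          rw [h3]; ring)
    have hρ0 : ρ = 0 := by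
      ext x
      have h1 := DFunLike.congr_fun hRz.1 (x, (0 : Γ))
      have h2 : R (x, (0 : Γ)) = ρ x + ((ζ (0 : Γ) : ℤ) : ℝ) / cc * (ρ o + s) := rfl
      rw [h2, map_zero] at h1
      simpa using h1
    refine ⟨hρ0, ?_⟩
    have h1 := hR (0, r)
    rw [hRz.1, hRz.2] at h1
    simp only [AddMonoidHom.zero_apply, hρ0, hr] at h1
    linarith
  · -- the cell
    intro α hα hαA huniq
    ext p
    constructor
    · intro hp
      rcases mem_attV.1 (mem_contact.1 hp).1 with ⟨v, hv, hvA, rfl⟩ | ⟨β, hβ, z, hz, rfl⟩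
      · exact mem_attC.2 (Or.inl ⟨v, (hcon1 v hv).1 hp, fun h => hvA (h ▸ hαA), rfl⟩)
      · refine mem_attC.2 (Or.inr ⟨z, hz, ?_⟩)
        rcases ((hcon2 β hβ z hz).1 hp).2 with h1 | h1
        · unfold posn
          rw [h1, zero_smul, zero_smul]
        · rw [huniq β h1 hβ]
    · intro hp
      rcases mem_attC.1 hp with ⟨v, hv, hvα, rfl⟩ | ⟨z, hz, rfl⟩
      · exact (hcon1 v (mem_contact.1 hv).1).2 hv
      · exact (hcon2 α hαA z hz).2 ⟨hg0 z, Or.inr hα⟩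

end Pool.Agent.LHU
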