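import Pool.Agent.LHU.Stmts

set_option autoImplicit false

namespace Pool.Agent.LHU

open Pool.Agent.LHT

namespace AT2_

variable {Λ Γ : Type} [AddCommGroup Λ] [AddCommGroup Γ]

/-- the projection `W` without its constant term -/
def Wl (ζ : Γ →+ ℤ) (a : Λ) : Λ × Γ →+ Λ where
  toFun p := p.1 - ζ p.2 • a
  map_zero' := by simp
  map_add' := by
    intro p q
    show p.1 + q.1 - ζ (p.2 + q.2) • a = _
    rw [map_add, add_smul]
    abel

theorem Wl_apply (ζ : Γ →+ ℤ) (a : Λ) (x : Λ) (z : Γ) : Wl ζ a (x, z) = x - ζ z • a := rfl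

theorem mem_attC {S : Finset Λ} {α : Λ} {τ : Finset Γ} {r : Γ} {o : Λ} {ζ : Γ →+ ℤ} {e : ℤ}
    {al : Λ → Λ} {p : Λ × Γ} : p ∈ attC S α τ r o ζ e al ↔
      (∃ v ∈ S, v ≠ α ∧ p = (v, r)) ∨ ∃ z ∈ τ, p = (posn o ζ e (al α) z, z) := by
  classical
  unfold attC
  rw [Finset.mem_union, Finset.mem_image, Finset.mem_image]
  constructor
  · rintro (⟨v, hv, rfl⟩ | ⟨z, hz, rfl⟩)
    · rw [Finset.mem_erase] at hv
      exact Or.inl ⟨v, hv.2, hv.1, rfl⟩
    · exact Or.inr ⟨z, hz, rfl⟩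
  · rintro (⟨v, hv, hne, rfl⟩ | ⟨z, hz, rfl⟩)
    · exact Or.inl ⟨v, Finset.mem_erase.mpr ⟨hne, hv⟩, rfl⟩
    · exact Or.inr ⟨z, hz, rfl⟩

theorem posn_r {r : Γ} {o α : Λ} {ζ : Γ →+ ℤ} {e cc : ℤ} {al : Λ → Λ} (hal : cc • al α = α - o)
    (hr : ζ r + e = cc) : posn o ζ e (al α) r = α := by
  unfold posn
  rw [hr, hal]
  abel

/-- the coordinate function of a vertex of `S`, pulled back -/
theorem pull {S : Finset Λ} {α : Λ} {r : Γ} {o : Λ} {ζ : Γ →+ ℤ} {e cc : ℤ} {al : Λ → Λ}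
    (hal : cc • al α = α - o) (hr : ζ r + e = cc) (χ : Λ →+ ℝ) (d : ℝ) :
    ∃ (X : Λ × Γ →+ ℝ) (D : ℝ), (∀ u : Λ, X (u, r) + D = χ u + d) ∧
      ∀ z : Γ, X (posn o ζ e (al α) z, z) + D = χ α + d := by
  refine ⟨χ.comp (Wl ζ (al α)), χ (α - o - e • al α) + d, ?_, ?_⟩
  · intro u
    show χ (Wl ζ (al α) (u, r)) + _ = _
    rw [Wl_apply, ← add_assoc, ← map_add]
    congr 2
    have h1 : ζ r • al α = α - o - e • al α := by
      rw [← hal, ← hr, add_smul]
      abel
    rw [h1]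
    abel
  · intro z
    show χ (Wl ζ (al α) (posn o ζ e (al α) z, z)) + _ = _
    rw [Wl_apply, ← add_assoc, ← map_add]
    congr 2
    unfold posn
    rw [add_smul]
    abel

end AT2_

open AT2_ in
theorem at2_proof : Stmt_AT2 := by
  classical
  intro Λ Γ _ _ S α T r o ζ e cc al hα hrT hcc hal hr hS ωT h1 h1a h1b φ b hle hsp
  set Cn := attC S α T r o ζ e al with hCn
  set K := contact Cn h1 φ b with hK
  have hKm : ∀ p, p ∈ K ↔ p ∈ Cn ∧ φ p + b = h1 p := fun p => mem_contact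
  -- the points over the other vertices are contact points
  have hvK : ∀ v ∈ S, v ≠ α → φ (v, r) + b = h1 (v, r) := by
    intro v hv hvα
    by_contra hcon
    obtain ⟨χ, d, h2, h3⟩ := hS v hv
    obtain ⟨X, D, hX1, hX2⟩ := pull (S := S) hal hr χ d
    have h4 := hsp X D (by
      intro p hp
      rw [hKm, hCn, mem_attC] at hp
      obtain ⟨hp1, hp2⟩ := hp
      rcases hp1 with ⟨u, hu, huα, rfl⟩ | ⟨z, hz, rfl⟩
      · rw [hX1]
        by_cases huv : u = v
        · rw [huv] at hp2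
          exact absurd hp2 hcon
        · exact h3 u hu huv
      · rw [hX2]
        exact h3 α hα (Ne.symm hvα))
    have h5 := hX1 v
    rw [h4.1, h4.2, h2] at h5
    simp at h5
  -- the affine function on `Γ`
  let φ' : Γ →+ ℝ := φ.comp
    { toFun := fun z => (ζ z • al α, z)
      map_zero' := by simp
      map_add' := by
        intro z z'
        rw [map_add, add_smul]
        rfl }
  let b' : ℝ := φ (o + e • al α, 0) + b
  have hφ' : ∀ z, φ' z + b' = φ (posn o ζ e (al α) z, z) + b := by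
    intro z
    show φ (ζ z • al α, z) + (φ (o + e • al α, 0) + b) = _
    rw [← add_assoc, ← map_add]
    congr 2
    unfold posn
    rw [add_smul, Prod.mk_add_mk, add_zero]
    congr 1
    abel
  have hpT : ∀ z ∈ T, (posn o ζ e (al α) z, z) ∈ Cn := fun z hz => by
    rw [hCn, mem_attC]; exact Or.inr ⟨z, hz, rfl⟩
  have hcT : ∀ z, z ∈ contact T ωT φ' b' ↔ z ∈ T ∧ φ' z + b' = ωT z := fun z => mem_contact
  have hKeq : K = attC S α (contact T ωT φ' b') r o ζ e al := by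
    ext p
    rw [hKm, hCn, mem_attC, mem_attC]
    constructor
    · rintro ⟨hp1, hp2⟩
      rcases hp1 with ⟨u, hu, huα, rfl⟩ | ⟨z, hz, rfl⟩
      · exact Or.inl ⟨u, hu, huα, rfl⟩
      · refine Or.inr ⟨z, ?_, rfl⟩
        rw [hcT, hφ', hp2, h1b z hz]
        exact ⟨hz, rfl⟩
    · rintro (⟨u, hu, huα, rfl⟩ | ⟨z, hz, rfl⟩)
      · exact ⟨Or.inl ⟨u, hu, huα, rfl⟩, hvK u hu huα⟩
      · rw [hcT] at hz
        refine ⟨Or.inr ⟨z, hz.1, rfl⟩, ?_⟩
        rw [h1b z hz.1, ← hz.2, hφ']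
  refine ⟨φ', b', ?_, ?_, hKeq⟩
  · intro z hz
    rw [hφ', ← h1b z hz]
    exact hle _ (hpT z hz)
  · intro ρ s hρ
    obtain ⟨χ, d, h2, h3⟩ := hS α hα
    obtain ⟨X, D, hX1, hX2⟩ := pull (S := S) hal hr χ d
    let ρ2 : Λ × Γ →+ ℝ := ρ.comp (AddMonoidHom.snd Λ Γ)
    have h4 := hsp (ρ2 + (AddMonoidHom.mulLeft (ρ r + s)).comp X)
      (s - (ρ r + s) * (1 - D)) (by
      intro p hp
      rw [hKeq, mem_attC] at hp
      show ρ p.2 + (ρ r + s) * X p + (s - (ρ r + s) * (1 - D)) = 0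
      rcases hp with ⟨u, hu, huα, rfl⟩ | ⟨z, hz, rfl⟩
      · have h5 := hX1 u
        rw [h3 u hu huα] at h5
        have h6 : X (u, r) = -D := by linarith
        rw [h6]
        show ρ r + (ρ r + s) * -D + (s - (ρ r + s) * (1 - D)) = 0
        ring
      · have h5 := hX2 z
        rw [h2] at h5
        have h6 : X (posn o ζ e (al α) z, z) = 1 - D := by linarith
        rw [h6]
        have h7 := hρ z hz
        show ρ z + _ + _ = 0
        linear_combination h7)
    have h8 : ∀ z, ρ z + s = 0 := by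
      intro z
      have h9 := congrArg (fun f => f (posn o ζ e (al α) z, z)) h4.1
      have h10 : ρ z + (ρ r + s) * X (posn o ζ e (al α) z, z) = 0 := h9
      have h5 := hX2 z
      rw [h2] at h5
      have h6 : X (posn o ζ e (al α) z, z) = 1 - D := by linarith
      rw [h6] at h10
      have h11 := h4.2
      linarith
    have h12 : s = 0 := by
      have := h8 0
      rwa [map_zero, zero_add] at this
    refine ⟨?_, h12⟩
    ext z
    have := h8 z
    rw [h12, add_zero] at this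
    exact this

end Pool.Agent.LHU
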