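import Pool.Agent.LHU.Stmts

set_option autoImplicit false

namespace Pool.Agent.LHU

open Pool.Agent.LHT

theorem atc_proof (hREF : Stmt_REF) (hATH : Stmt_ATH) (hAT1 : Stmt_AT1) (hAT2 : Stmt_AT2)
    (hATS : Stmt_ATS) : Stmt_ATC := by
  intro Λ Γ _ _ V A T r o ζ e cc al hatt P Q ωV ωT hV hT
  obtain ⟨h0, h1, hh1, hh2⟩ := hATH Λ Γ V A T r o ζ e cc al hatt ωV ωT
  obtain ⟨M₀, hM⟩ := hREF (Λ × Γ) (fun C => ∃ (S : Finset Λ) (α : Λ) (τ : Finset Γ), S ⊆ V ∧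
      Simp S ∧ α ∈ S ∧ α ∈ A ∧ (∀ β ∈ S, β ∈ A → β = α) ∧ P S ∧ τ ⊆ T ∧ Simp τ ∧ Q τ ∧
      C = attC S α τ r o ζ e al) (by
    rintro C ⟨S, α, τ, hSV, hS, hαS, hαA, hu, hP, hτT, hτ, hQ, rfl⟩
    exact hATS Λ Γ S α τ r o ζ e cc al hαS hatt.pos (hatt.hal α hαA) hatt.top hS hτ)
    (attV V A T r o ζ e al) h0 h1 (by
    intro φ b h2 h3
    obtain ⟨φ', b', g1, g2, g3⟩ := hAT1 Λ Γ V A T r o ζ e cc al hatt ωV h0
      (fun v hv hvA => (hh1 v hv hvA).1) (fun α hα z hz => (hh2 α hα z hz).1) φ b h2 h3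
    obtain ⟨hS, ⟨α, hαS, hαA, hu⟩, hP⟩ := hV φ' b' g1 g2
    rw [g3 α hαS hαA hu]
    have hSV : contact V ωV φ' b' ⊆ V := fun v hv => (mem_contact.mp hv).1
    intro φ2 b2 k1 k2
    obtain ⟨φ3, b3, l1, l2, l3⟩ := hAT2 Λ Γ (contact V ωV φ' b') α T r o ζ e cc al hαS
      hatt.mem hatt.pos (hatt.hal α hαA) hatt.top hS ωT h1
      (fun v hv hvα => (hh1 v (hSV hv) (fun hvA => hvα (hu v hv hvA))).2)
      (fun z hz => (hh2 α hαA z hz).2) φ2 b2 k1 k2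
    obtain ⟨hτ, hQ⟩ := hT φ3 b3 l1 l2
    exact ⟨contact V ωV φ' b', α, contact T ωT φ3 b3, hSV, hS, hαS, hαA, hu, hP,
      fun z hz => (mem_contact.mp hz).1, hτ, hQ, l3⟩)
  exact ⟨_, hM M₀ le_rfl⟩

end Pool.Agent.LHU
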