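import Pool.Agent.LHU.Stmts

set_option autoImplicit false

/-!
Heights for the attached set.
-/

namespace Pool.Agent.LHU

open Pool.Agent.LHT

namespace ATH_

theorem posn_r {Λ Γ : Type} [AddCommGroup Λ] [AddCommGroup Γ] {V A : Finset Λ} {T : Finset Γ}
    {r : Γ} {o : Λ} {ζ : Γ →+ ℤ} {e cc : ℤ} {al : Λ → Λ} (h : Att V A T r o ζ e cc al) {α : Λ}
    (hα : α ∈ A) : posn o ζ e (al α) r = α := by
  unfold posn
  rw [h.top, h.hal α hα, add_sub_cancel]

theorem posn_inj {Λ Γ : Type} [AddCommGroup Λ] [AddCommGroup Γ] {V A : Finset Λ} {T : Finset Γ}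
    {r : Γ} {o : Λ} {ζ : Γ →+ ℤ} {e cc : ℤ} {al : Λ → Λ} (h : Att V A T r o ζ e cc al) {α β : Λ}
    (hα : α ∈ A) (hβ : β ∈ A) {z : Γ} (hp : posn o ζ e (al α) z = posn o ζ e (al β) z) :
    ζ z + e = 0 ∨ α = β := by
  by_cases hz : ζ z + e = 0
  · exact Or.inl hz
  · right
    unfold posn at hp
    have h1 : (ζ z + e) • (al α - al β) = 0 := by
      rw [smul_sub, sub_eq_zero]
      exact add_left_cancel hp
    have h2 : al α = al β := sub_eq_zero.1 (h.tfl _ _ hz h1)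
    have h3 := h.hal α hα
    rw [h2, h.hal β hβ] at h3
    exact (sub_left_injective h3).symm

end ATH_

open Classical in
open ATH_ in
theorem ath_proof : Stmt_ATH := by
  intro Λ Γ _ _ V A T r o ζ e cc al h ωV ωT
  refine ⟨fun p => if p.2 = r ∧ p.1 ∈ V ∧ p.1 ∉ A then ωV p.1 else
      if hp : ∃ α, α ∈ A ∧ posn o ζ e (al α) p.2 = p.1 then
        ((ζ p.2 + e : ℤ) : ℝ) / (cc : ℝ) * ωV (Classical.choose hp) else 0,
    fun p => if p.2 = r ∧ p.1 ∈ V ∧ p.1 ∉ A then 0 else ωT p.2, ?_, ?_⟩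
  · intro v hv hA
    refine ⟨?_, ?_⟩
    · exact if_pos ⟨rfl, hv, hA⟩
    · exact if_pos ⟨rfl, hv, hA⟩
  · intro α hα z hz
    have hn : ¬ ((posn o ζ e (al α) z, z).2 = r ∧ (posn o ζ e (al α) z, z).1 ∈ V ∧
        (posn o ζ e (al α) z, z).1 ∉ A) := by
      rintro ⟨h1, -, h3⟩
      have h1' : z = r := h1
      subst h1'
      apply h3
      show posn o ζ e (al α) z ∈ A
      rw [posn_r h hα]
      exact hα
    refine ⟨?_, ?_⟩
    · have hp : ∃ β, β ∈ A ∧ posn o ζ e (al β) (posn o ζ e (al α) z, z).2 =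
          (posn o ζ e (al α) z, z).1 := ⟨α, hα, rfl⟩
      have e1 := Classical.choose_spec hp
      refine (if_neg hn).trans ((dif_pos hp).trans ?_)
      rcases posn_inj h e1.1 hα e1.2 with h0 | h0
      · show ((ζ z + e : ℤ) : ℝ) / (cc : ℝ) * _ = ((ζ z + e : ℤ) : ℝ) / (cc : ℝ) * _
        rw [h0]
        simp
      · rw [h0]
    · exact if_neg hn

end Pool.Agent.LHU
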