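import Pool.Agent.LHU.Stmts

/-! LHU, module ATK: attaching preserves type K. -/

set_option autoImplicit false

namespace Pool.Agent.LHU

open Pool.Agent.LHT

namespace ATK_

variable {Λ Γ : Type} [AddCommGroup Λ] [AddCommGroup Γ]

theorem mem_attC {S : Finset Λ} {α : Λ} {τ : Finset Γ} {r : Γ} {o : Λ} {ζ : Γ →+ ℤ} {e : ℤ}
    {al : Λ → Λ} {p : Λ × Γ} : p ∈ attC S α τ r o ζ e al ↔
    (∃ v ∈ S, v ≠ α ∧ p = (v, r)) ∨ ∃ j ∈ τ, p = (posn o ζ e (al α) j, j) := by
  classical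
  unfold attC
  simp only [Finset.mem_union, Finset.mem_image, Finset.mem_erase]
  constructor
  · rintro (⟨v, ⟨h1, h2⟩, rfl⟩ | ⟨j, h1, rfl⟩)
    · exact Or.inl ⟨v, h2, h1, rfl⟩
    · exact Or.inr ⟨j, h1, rfl⟩
  · rintro (⟨v, h2, h1, rfl⟩ | ⟨j, h1, rfl⟩)
    · exact Or.inl ⟨v, ⟨h1, h2⟩, rfl⟩
    · exact Or.inr ⟨j, h1, rfl⟩

theorem mem_attV {V A : Finset Λ} {T : Finset Γ} {r : Γ} {o : Λ} {ζ : Γ →+ ℤ} {e : ℤ}
    {al : Λ → Λ} {p : Λ × Γ} (h : p ∈ attV V A T r o ζ e al) :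
    (∃ v ∈ V, v ∉ A ∧ p = (v, r)) ∨ ∃ β ∈ A, ∃ j ∈ T, p = (posn o ζ e (al β) j, j) := by
  classical
  unfold attV at h
  simp only [Finset.mem_union, Finset.mem_image, Finset.mem_sdiff, Finset.mem_biUnion] at h
  rcases h with ⟨v, ⟨h1, h2⟩, rfl⟩ | ⟨β, hβ, j, h1, rfl⟩
  · exact Or.inl ⟨v, h1, h2, rfl⟩
  · exact Or.inr ⟨β, hβ, j, h1, rfl⟩

theorem posn_r {r : Γ} {o : Λ} {ζ : Γ →+ ℤ} {e cc : ℤ} {al : Λ → Λ} {α : Λ}
    (hal : cc • al α = α - o) (top : ζ r + e = cc) : posn o ζ e (al α) r = α := by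
  unfold posn
  rw [top, hal]
  abel

open Classical in
theorem sum_attC {M : Type} [AddCommMonoid M] {S : Finset Λ} {α : Λ} {τ : Finset Γ} {r : Γ}
    {o : Λ} {ζ : Γ →+ ℤ} {e cc : ℤ} {al : Λ → Λ} (hal : cc • al α = α - o) (top : ζ r + e = cc)
    (F : Λ × Γ → M) : ∑ p ∈ attC S α τ r o ζ e al, F p =
      ∑ v ∈ S.erase α, F (v, r) + ∑ j ∈ τ, F (posn o ζ e (al α) j, j) := by
  unfold attC
  rw [Finset.sum_union, Finset.sum_image, Finset.sum_image]
  · intro x _ y _ hxy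
    exact (Prod.mk.inj hxy).2
  · intro x _ y _ hxy
    exact (Prod.mk.inj hxy).1
  · rw [Finset.disjoint_left]
    intro p h1 h2
    obtain ⟨v, hv, rfl⟩ := Finset.mem_image.1 h1
    obtain ⟨j, hj, h3⟩ := Finset.mem_image.1 h2
    obtain ⟨h4, h5⟩ := Prod.mk.inj h3
    subst h5
    rw [posn_r hal top] at h4
    exact (Finset.mem_erase.1 hv).1 h4.symm

/-- the affine retraction onto the old lattice: linear part -/
def W0 (ζ : Γ →+ ℤ) (a : Λ) : Λ × Γ →+ Λ :=
  AddMonoidHom.mk' (fun p => p.1 - ζ p.2 • a) (by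
    intro p q
    simp only [Prod.fst_add, Prod.snd_add, map_add, add_smul]
    abel)

theorem W0_apply (ζ : Γ →+ ℤ) (a : Λ) (p : Λ × Γ) : W0 ζ a p = p.1 - ζ p.2 • a := rfl

open Classical in
/-- new linear parts -/
noncomputable def ps (ψ : Λ → Λ →+ ℤ) (μ : Γ → Γ →+ ℤ) (m : Γ → ℤ) (ζ : Γ →+ ℤ) (a α : Λ) (r : Γ)
    (p : Λ × Γ) : Λ × Γ →+ ℤ :=
  if p.2 = r ∧ p.1 ≠ α then (ψ p.1).comp (W0 ζ a)
  else (2 : ℤ) • (μ p.2).comp (AddMonoidHom.snd Λ Γ) + (μ p.2 r + m p.2) • (ψ α).comp (W0 ζ a)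

open Classical in
/-- new constants -/
noncomputable def cs (ψ : Λ → Λ →+ ℤ) (c : Λ → ℤ) (μ : Γ → Γ →+ ℤ) (m : Γ → ℤ) (w0 α : Λ) (r : Γ)
    (p : Λ × Γ) : ℤ :=
  if p.2 = r ∧ p.1 ≠ α then ψ p.1 w0 + c p.1
  else 2 * m p.2 + (ψ α w0 + c α - 2) * (μ p.2 r + m p.2)

theorem val1 (ψ : Λ → Λ →+ ℤ) (c : Λ → ℤ) (μ : Γ → Γ →+ ℤ) (m : Γ → ℤ) (ζ : Γ →+ ℤ)
    (a w0 α : Λ) (r : Γ) {v : Λ} (hv : v ≠ α) (x : Λ × Γ) :
    ps ψ μ m ζ a α r (v, r) x + cs ψ c μ m w0 α r (v, r) = ψ v (W0 ζ a x + w0) + c v := by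
  unfold ps cs
  rw [if_pos ⟨rfl, hv⟩, if_pos ⟨rfl, hv⟩, map_add, AddMonoidHom.comp_apply]
  ring

theorem val2 (ψ : Λ → Λ →+ ℤ) (c : Λ → ℤ) (μ : Γ → Γ →+ ℤ) (m : Γ → ℤ) (ζ : Γ →+ ℤ)
    (a w0 α : Λ) (r : Γ) {p : Λ × Γ} (hp : ¬ (p.2 = r ∧ p.1 ≠ α)) (x : Λ × Γ) :
    ps ψ μ m ζ a α r p x + cs ψ c μ m w0 α r p =
      2 * (μ p.2 x.2 + m p.2) + (ψ α (W0 ζ a x + w0) + c α - 2) * (μ p.2 r + m p.2) := by
  unfold ps cs
  rw [if_neg hp, if_neg hp, map_add]
  simp only [AddMonoidHom.add_apply, AddMonoidHom.smul_apply, AddMonoidHom.comp_apply,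
    AddMonoidHom.coe_snd, smul_eq_mul]
  ring

/-- integers which are nonnegative and have sum one -/
theorem uni_mem {τ : Finset Γ} {μ : Γ → Γ →+ ℤ} {m : Γ → ℤ}
    (h2 : ∀ v, ∑ p ∈ τ, (μ p v + m p) = 1) (h3 : ∀ v, ∑ p ∈ τ, (μ p v + m p) • p = v) {z : Γ}
    (hz : ∀ j ∈ τ, 0 ≤ μ j z + m j) : z ∈ τ := by
  classical
  obtain ⟨j, hj, hj0⟩ : ∃ j ∈ τ, μ j z + m j ≠ 0 := by
    by_contra hcon
    push Not at hcon
    have h4 := h2 z
    rw [Finset.sum_eq_zero hcon] at h4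
    exact zero_ne_one h4
  have hj1 : 1 ≤ μ j z + m j := by
    have := hz j hj
    omega
  have h5 := h2 z
  rw [← Finset.add_sum_erase _ _ hj] at h5
  have h6 : 0 ≤ ∑ x ∈ τ.erase j, (μ x z + m x) :=
    Finset.sum_nonneg (fun i hi => hz i (Finset.mem_of_mem_erase hi))
  have h7 : ∑ x ∈ τ.erase j, (μ x z + m x) = 0 := by omega
  have h8 : μ j z + m j = 1 := by omega
  have h9 := (Finset.sum_eq_zero_iff_of_nonneg
    (fun i hi => hz i (Finset.mem_of_mem_erase hi))).1 h7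
  have h10 := h3 z
  rw [← Finset.add_sum_erase _ _ hj, h8, one_smul, Finset.sum_eq_zero (fun i hi => by
    rw [h9 i hi, zero_smul]), add_zero] at h10
  rw [← h10]
  exact hj

end ATK_

open ATK_ in
theorem atk_proof : Stmt_ATK := by
  intro Λ Γ _ _ V A T r o ζ e cc al h S α τ hSV hαS hαA hSA hτT hK hU hR
  classical
  obtain ⟨ψ, c, k1, k2, k3, k4, k5⟩ := hK
  obtain ⟨μ, m, u1, u2, u3⟩ := hU
  obtain ⟨z0, hz0, u, hu⟩ := hR
  have hal := h.hal α hαA
  have top := h.top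
  obtain ⟨a, ha⟩ : ∃ a, a = al α := ⟨_, rfl⟩
  have hca : cc • a = α - o := by rw [ha, hal]
  obtain ⟨w0, hw0⟩ : ∃ w0, w0 = α - o - e • a := ⟨_, rfl⟩
  have hWv : ∀ v : Λ, W0 ζ a (v, r) + w0 = v := by
    intro v
    rw [W0_apply, hw0]
    have h1 : ζ r • a + e • a = α - o := by rw [← add_smul, top, hca]
    have h2 : v - ζ r • a + (α - o - e • a) = v + (α - o) - (ζ r • a + e • a) := by abel
    rw [h2, h1]
    abel
  have hWp : ∀ j : Γ, W0 ζ a (posn o ζ e a j, j) + w0 = α := by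
    intro j
    rw [W0_apply, hw0]
    show o + (ζ j + e) • a - ζ j • a + (α - o - e • a) = α
    rw [add_smul]
    abel
  have hnp : ∀ j : Γ, ¬ ((posn o ζ e a j, j).2 = r ∧ (posn o ζ e a j, j).1 ≠ α) := by
    rintro j ⟨h1, h2⟩
    have h3 : j = r := h1
    apply h2
    show posn o ζ e a j = α
    rw [h3, ha]
    exact posn_r hal top
  -- values of the coordinates of the points of `τ`
  have hM : ∀ (j : Γ) (x : Λ × Γ), ps ψ μ m ζ a α r (posn o ζ e a j, j) x +
      cs ψ c μ m w0 α r (posn o ζ e a j, j) =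
      2 * (μ j x.2 + m j) + (ψ α (W0 ζ a x + w0) + c α - 2) * (μ j r + m j) :=
    fun j x => val2 ψ c μ m ζ a w0 α r (hnp j) x
  have hsum : ∀ w : Λ, ∑ v ∈ S.erase α, (ψ v w + c v) = 2 - (ψ α w + c α) := by
    intro w
    have h1 := k2 w
    rw [← Finset.add_sum_erase _ _ hαS] at h1
    omega
  have hsumM : ∀ x : Λ × Γ, ∑ j ∈ τ, (2 * (μ j x.2 + m j) +
      (ψ α (W0 ζ a x + w0) + c α - 2) * (μ j r + m j)) = ψ α (W0 ζ a x + w0) + c α := by
    intro x
    rw [Finset.sum_add_distrib, ← Finset.mul_sum, ← Finset.mul_sum, u2, u2]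
    ring
  have hsumMj : ∀ x : Λ × Γ, ∑ j ∈ τ, (2 * (μ j x.2 + m j) +
      (ψ α (W0 ζ a x + w0) + c α - 2) * (μ j r + m j)) • j =
      (2 : ℤ) • x.2 + (ψ α (W0 ζ a x + w0) + c α - 2) • r := by
    intro x
    simp only [add_smul, mul_smul]
    rw [Finset.sum_add_distrib, ← Finset.smul_sum, ← Finset.smul_sum]
    have h1 := u3 x.2
    have h2 := u3 r
    simp only [add_smul] at h1 h2
    rw [h1, h2]
  have hsumMz : ∀ x : Λ × Γ, ∑ j ∈ τ, (2 * (μ j x.2 + m j) +
      (ψ α (W0 ζ a x + w0) + c α - 2) * (μ j r + m j)) * (ζ j + e) =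
      2 * (ζ x.2 + e) + (ψ α (W0 ζ a x + w0) + c α - 2) * cc := by
    intro x
    have h0 := hsumM x
    have h1 := congrArg ζ (hsumMj x)
    obtain ⟨t, ht⟩ : ∃ t, t = ψ α (W0 ζ a x + w0) + c α := ⟨_, rfl⟩
    rw [← ht] at h0 h1 ⊢
    rw [map_sum, map_add, map_zsmul, map_zsmul, smul_eq_mul, smul_eq_mul] at h1
    have h2 : ∑ j ∈ τ, (2 * (μ j x.2 + m j) + (t - 2) * (μ j r + m j)) * ζ j = 2 * ζ x.2 +
      (t - 2) * ζ r := by
      rw [← h1]
      refine Finset.sum_congr rfl (fun j _ => ?_)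
      rw [map_zsmul, smul_eq_mul]
    have h3 : ∀ j ∈ τ, (2 * (μ j x.2 + m j) + (t - 2) * (μ j r + m j)) * (ζ j + e) =
        (2 * (μ j x.2 + m j) + (t - 2) * (μ j r + m j)) * ζ j +
        (2 * (μ j x.2 + m j) + (t - 2) * (μ j r + m j)) * e := fun j _ => mul_add _ _ _
    rw [Finset.sum_congr rfl h3, Finset.sum_add_distrib, ← Finset.sum_mul, h0, h2, ← top]
    ring
  refine ⟨ps ψ μ m ζ a α r, cs ψ c μ m w0 α r, ?_, ?_, ?_, ?_, ?_⟩
  · intro p hp q hq
    rcases mem_attC.1 hp with ⟨v, hv, hvα, rfl⟩ | ⟨j, hj, rfl⟩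
    · rw [val1 ψ c μ m ζ a w0 α r hvα]
      rcases mem_attC.1 hq with ⟨v', hv', hvα', rfl⟩ | ⟨j, hj, rfl⟩
      · rw [hWv, k1 v hv v' hv']
        by_cases hvv : v = v'
        · rw [if_pos hvv, if_pos (by rw [hvv])]
        · rw [if_neg hvv, if_neg (fun h' => hvv (Prod.mk.inj h').1)]
      · rw [← ha, hWp, k1 v hv α hαS, if_neg hvα, if_neg]
        intro h'
        obtain ⟨h1, h2⟩ := Prod.mk.inj h'
        rw [← h2, ha, posn_r hal top] at h1
        exact hvα h1
    · rw [← ha, hM]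
      rcases mem_attC.1 hq with ⟨v', hv', hvα', rfl⟩ | ⟨j', hj', rfl⟩
      · rw [hWv, k1 α hαS v' hv', if_neg (Ne.symm hvα'), if_neg]
        · ring
        · intro h'
          obtain ⟨h1, h2⟩ := Prod.mk.inj h'
          rw [h2, ha, posn_r hal top] at h1
          exact hvα' h1.symm
      · rw [← ha, hWp, k1 α hαS α hαS, if_pos rfl]
        show 2 * (μ j j' + m j) + (2 - 2) * (μ j r + m j) = _
        rw [u1 j hj j' hj']
        by_cases hjj : j = j'
        · rw [if_pos hjj, if_pos (by rw [hjj])]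
          ring
        · rw [if_neg hjj, if_neg (fun h' => hjj (Prod.mk.inj h').2)]
          ring
  · intro x
    rw [sum_attC hal top]
    have h1 : ∑ v ∈ S.erase α, (ps ψ μ m ζ a α r (v, r) x + cs ψ c μ m w0 α r (v, r)) =
        ∑ v ∈ S.erase α, (ψ v (W0 ζ a x + w0) + c v) :=
      Finset.sum_congr rfl (fun v hv =>
        val1 ψ c μ m ζ a w0 α r (Finset.ne_of_mem_erase hv) x)
    have h2 : ∑ j ∈ τ, (ps ψ μ m ζ a α r (posn o ζ e (al α) j, j) x +
        cs ψ c μ m w0 α r (posn o ζ e (al α) j, j)) = ∑ j ∈ τ, (2 * (μ j x.2 + m j) +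
        (ψ α (W0 ζ a x + w0) + c α - 2) * (μ j r + m j)) :=
      Finset.sum_congr rfl (fun j _ => by rw [← ha, hM])
    rw [h1, h2, hsum, hsumM]
    ring
  · intro x
    rw [sum_attC hal top]
    have h1 : ∑ v ∈ S.erase α, (ps ψ μ m ζ a α r (v, r) x + cs ψ c μ m w0 α r (v, r)) • (v, r) =
        ∑ v ∈ S.erase α, (ψ v (W0 ζ a x + w0) + c v) • (v, r) :=
      Finset.sum_congr rfl (fun v hv => by
        rw [val1 ψ c μ m ζ a w0 α r (Finset.ne_of_mem_erase hv) x])
    have h2 : ∑ j ∈ τ, (ps ψ μ m ζ a α r (posn o ζ e (al α) j, j) x +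
        cs ψ c μ m w0 α r (posn o ζ e (al α) j, j)) • (posn o ζ e (al α) j, j) =
        ∑ j ∈ τ, (2 * (μ j x.2 + m j) + (ψ α (W0 ζ a x + w0) + c α - 2) * (μ j r + m j)) •
          (posn o ζ e a j, j) :=
      Finset.sum_congr rfl (fun j _ => by rw [← ha, hM])
    rw [h1, h2]
    refine Prod.ext ?_ ?_
    · rw [Prod.fst_add, Prod.fst_sum, Prod.fst_sum]
      simp only [Prod.smul_mk]
      have h3 := k3 (W0 ζ a x + w0)
      rw [← Finset.add_sum_erase _ _ hαS] at h3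
      have h4 : ∑ v ∈ S.erase α, (ψ v (W0 ζ a x + w0) + c v) • v =
          (2 : ℤ) • (W0 ζ a x + w0) - (ψ α (W0 ζ a x + w0) + c α) • α := by
        rw [← h3]
        abel
      rw [h4]
      have h5 : ∑ j ∈ τ, (2 * (μ j x.2 + m j) + (ψ α (W0 ζ a x + w0) + c α - 2) *
          (μ j r + m j)) • posn o ζ e a j = (ψ α (W0 ζ a x + w0) + c α) • o +
          (2 * (ζ x.2 + e) + (ψ α (W0 ζ a x + w0) + c α - 2) * cc) • a := by
        rw [← hsumMz x, ← hsumM x, Finset.sum_smul, Finset.sum_smul, hsumM x,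
          ← Finset.sum_add_distrib]
        refine Finset.sum_congr rfl (fun j _ => ?_)
        unfold posn
        rw [smul_add, ← mul_smul]
      rw [h5]
      show _ = (2 : ℤ) • x.1
      obtain ⟨t, ht⟩ : ∃ t, t = ψ α (W0 ζ a x + w0) + c α := ⟨_, rfl⟩
      rw [← ht, add_smul, mul_smul _ cc a, hca, W0_apply, hw0]
      module
    · rw [Prod.snd_add, Prod.snd_sum, Prod.snd_sum]
      simp only [Prod.smul_mk]
      rw [← Finset.sum_smul, hsum, hsumMj]
      show _ = (2 : ℤ) • x.2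
      module
  · intro f hf x
    rw [sum_attC hal top]
    obtain ⟨g, hg⟩ : ∃ g : Λ → ZMod 2, g = fun v => if v = α then f (posn o ζ e a z0, z0)
        else f (v, r) := ⟨_, rfl⟩
    have hpz : posn o ζ e a z0 = α + (2 : ℤ) • (ζ u • a) := by
      unfold posn
      have h1 : ζ z0 + e = cc + 2 * ζ u := by
        rw [hu, map_add, map_zsmul, smul_eq_mul, ← top]
        ring
      rw [h1, add_smul, hca, mul_smul]
      abel
    have hmz : (posn o ζ e a z0, z0) ∈ attC S α τ r o ζ e al :=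
      mem_attC.2 (Or.inr ⟨z0, hz0, by rw [← ha]⟩)
    have hmv : ∀ v ∈ S, v ≠ α → (v, r) ∈ attC S α τ r o ζ e al := fun v hv hvα =>
      mem_attC.2 (Or.inl ⟨v, hv, hvα, rfl⟩)
    have hgc : ∀ p ∈ S, ∀ q ∈ S, Cg p q → g p = g q := by
      rintro p hp q hq ⟨u', hu'⟩
      rw [hg]
      show (if p = α then f (posn o ζ e a z0, z0) else f (p, r)) =
        if q = α then f (posn o ζ e a z0, z0) else f (q, r)
      by_cases hpα : p = α
      · by_cases hqα : q = α
        · rw [if_pos hpα, if_pos hqα]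
        · rw [if_pos hpα, if_neg hqα]
          refine hf _ hmz _ (hmv q hq hqα) ⟨(u' - ζ u • a, -u), ?_⟩
          rw [hpz]
          refine Prod.ext ?_ ?_
          · show q = α + (2 : ℤ) • (ζ u • a) + (2 : ℤ) • (u' - ζ u • a)
            rw [hu', hpα]
            module
          · show r = z0 + (2 : ℤ) • (-u)
            rw [hu]
            module
      · by_cases hqα : q = α
        · rw [if_neg hpα, if_pos hqα]
          refine hf _ (hmv p hp hpα) _ hmz ⟨(u' + ζ u • a, u), ?_⟩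
          rw [hpz]
          refine Prod.ext ?_ ?_
          · show α + (2 : ℤ) • (ζ u • a) = p + (2 : ℤ) • (u' + ζ u • a)
            rw [← hqα, hu']
            module
          · show z0 = r + (2 : ℤ) • u
            exact hu
        · rw [if_neg hpα, if_neg hqα]
          refine hf _ (hmv p hp hpα) _ (hmv q hq hqα) ⟨(u', 0), ?_⟩
          refine Prod.ext ?_ ?_
          · show q = p + (2 : ℤ) • u'
            exact hu'
          · show r = r + (2 : ℤ) • (0 : Γ)
            rw [smul_zero, add_zero]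
    have h1 := k4 g hgc (W0 ζ a x + w0)
    rw [← Finset.add_sum_erase _ _ hαS] at h1
    have h2 : ∑ v ∈ S.erase α, ((ps ψ μ m ζ a α r (v, r) x + cs ψ c μ m w0 α r (v, r) : ℤ) :
        ZMod 2) * f (v, r) = ∑ v ∈ S.erase α, ((ψ v (W0 ζ a x + w0) + c v : ℤ) : ZMod 2) * g v := by
      refine Finset.sum_congr rfl (fun v hv => ?_)
      have hvα := Finset.ne_of_mem_erase hv
      rw [val1 ψ c μ m ζ a w0 α r hvα x, hg]
      show _ = _ * (if v = α then _ else f (v, r))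
      rw [if_neg hvα]
    have h20 : (2 : ZMod 2) = 0 := by decide
    have h3 : ∑ j ∈ τ, ((ps ψ μ m ζ a α r (posn o ζ e (al α) j, j) x +
        cs ψ c μ m w0 α r (posn o ζ e (al α) j, j) : ℤ) : ZMod 2) *
        f (posn o ζ e (al α) j, j) =
        ((ψ α (W0 ζ a x + w0) + c α : ℤ) : ZMod 2) * g α := by
      have h4 : ∀ j ∈ τ, ((ps ψ μ m ζ a α r (posn o ζ e (al α) j, j) x +
          cs ψ c μ m w0 α r (posn o ζ e (al α) j, j) : ℤ) : ZMod 2) *
          f (posn o ζ e (al α) j, j) = if j = z0 then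
            ((ψ α (W0 ζ a x + w0) + c α : ℤ) : ZMod 2) * f (posn o ζ e a z0, z0) else 0 := by
        intro j hj
        rw [← ha, hM]
        have h5 := u1 j hj z0 hz0
        rw [hu, map_add, map_zsmul, smul_eq_mul] at h5
        have h6 : μ j r + m j = (if j = r + (2 : ℤ) • u then 1 else 0) - 2 * μ j u := by
          rw [← h5]
          ring
        rw [h6]
        push_cast
        rw [h20]
        by_cases hjz : j = z0
        · rw [if_pos hjz, if_pos (by rw [hjz, hu]), hjz]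
          ring
        · rw [if_neg hjz, if_neg (fun h' => hjz (by rw [h', hu]))]
          ring
      rw [Finset.sum_congr rfl h4, Finset.sum_ite_eq' τ z0, if_pos hz0, hg]
      show _ = _ * (if α = α then _ else _)
      rw [if_pos rfl]
    rw [h2, h3, add_comm]
    exact h1
  · intro p hp hc
    have hcv : ∀ v ∈ S, v ≠ α → 0 ≤ ψ v (W0 ζ a p + w0) + c v := by
      intro v hv hvα
      have h1 := hc (v, r) (mem_attC.2 (Or.inl ⟨v, hv, hvα, rfl⟩))
      rwa [val1 ψ c μ m ζ a w0 α r hvα] at h1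
    have hcj : ∀ j ∈ τ, 0 ≤ 2 * (μ j p.2 + m j) +
        (ψ α (W0 ζ a p + w0) + c α - 2) * (μ j r + m j) := by
      intro j hj
      have h1 := hc (posn o ζ e a j, j) (mem_attC.2 (Or.inr ⟨j, hj, by rw [← ha]⟩))
      rwa [hM] at h1
    -- the case in which the retraction is `α`
    have hend : W0 ζ a p + w0 = α → p.2 ∈ τ := by
      intro h1
      refine uni_mem u2 u3 (fun j hj => ?_)
      have h2 := hcj j hj
      rw [h1, k1 α hαS α hαS, if_pos rfl] at h2
      omega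
    rcases mem_attV hp with ⟨v, hv, hvA, rfl⟩ | ⟨β, hβ, z, hz, rfl⟩
    · rw [hWv] at hcv hcj
      have h1 : 0 ≤ ψ α v + c α := by
        have h2 : 0 ≤ ∑ j ∈ τ, (ψ α v + c α) * (μ j r + m j) := by
          refine Finset.sum_nonneg (fun j hj => ?_)
          have h3 := hcj j hj
          have h4 : 2 * (μ j r + m j) + (ψ α v + c α - 2) * (μ j r + m j) =
            (ψ α v + c α) * (μ j r + m j) := by ring
          rw [← h4]
          exact h3
        rwa [← Finset.mul_sum, u2, mul_one] at h2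
      have hvS : v ∈ S := by
        refine k5 v hv (fun q hq => ?_)
        by_cases hqα : q = α
        · rw [hqα]; exact h1
        · exact hcv q hq hqα
      exact mem_attC.2 (Or.inl ⟨v, hvS, fun h' => hvA (h' ▸ hαA), rfl⟩)
    · obtain ⟨hk0, hk1⟩ := h.rng z hz
      rcases hk0.eq_or_lt with hk | hk
      · have h1 : posn o ζ e (al β) z = posn o ζ e a z := by
          unfold posn
          rw [← hk, zero_smul, zero_smul]
        have h2 : z ∈ τ := by
          refine hend ?_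
          rw [h1]
          exact hWp z
        exact mem_attC.2 (Or.inr ⟨z, h2, by rw [h1, ha]⟩)
      · have hcc : cc • (W0 ζ a (posn o ζ e (al β) z, z) + w0) =
            (cc - (ζ z + e)) • α + (ζ z + e) • β := by
          rw [W0_apply, hw0]
          unfold posn
          have h1 := h.hal β hβ
          have h2 : cc • (o + (ζ z + e) • al β - ζ z • a + (α - o - e • a)) =
            cc • α + (ζ z + e) • (cc • al β) - (ζ z + e) • (cc • a) := by module
          show cc • (o + (ζ z + e) • al β - ζ z • a + (α - o - e • a)) = _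
          rw [h2, h1, hca]
          module
        have haff : ∀ q, cc * (ψ q (W0 ζ a (posn o ζ e (al β) z, z) + w0) + c q) =
            (cc - (ζ z + e)) * (ψ q α + c q) + (ζ z + e) * (ψ q β + c q) := by
          intro q
          obtain ⟨w, hw⟩ : ∃ w, w = W0 ζ a (posn o ζ e (al β) z, z) + w0 := ⟨_, rfl⟩
          rw [← hw] at hcc ⊢
          have h1 := congrArg (ψ q) hcc
          rw [map_zsmul, map_add, map_zsmul, map_zsmul, smul_eq_mul, smul_eq_mul,
            smul_eq_mul] at h1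
          rw [mul_add, h1]
          ring
        have hβS : β ∈ S := by
          refine k5 β (h.sub hβ) (fun q hq => ?_)
          by_cases hqα : q = α
          · subst hqα
            have h1 : 0 ≤ ∑ j ∈ τ, (2 * (μ j z + m j) +
                (ψ q (W0 ζ a (posn o ζ e (al β) z, z) + w0) + c q - 2) * (μ j r + m j)) *
                (ζ j + e) :=
              Finset.sum_nonneg (fun j hj => mul_nonneg (hcj j hj) (h.rng j (hτT hj)).1)
            have h2 := hsumMz (posn o ζ e (al β) z, z)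
            rw [h2] at h1
            have h3 := haff q
            rw [k1 q hαS q hαS, if_pos rfl] at h3
            have h4 : 0 ≤ (ζ z + e) * (ψ q β + c q) := by
              have h5 : (0 : ℤ) ≤ 2 * (ζ z + e) +
                (ψ q (W0 ζ a (posn o ζ e (al β) z, z) + w0) + c q - 2) * cc := h1
              nlinarith [h5, h3]
            exact nonneg_of_mul_nonneg_right h4 hk
          · have h1 := haff q
            rw [k1 q hq α hαS, if_neg hqα, mul_zero, zero_add] at h1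
            have h2 := mul_nonneg h.pos.le (hcv q hq hqα)
            rw [h1] at h2
            exact nonneg_of_mul_nonneg_right h2 hk
        have hβα := hSA β hβS hβ
        have h2 : z ∈ τ := by
          refine hend ?_
          rw [hβα, ← ha]
          exact hWp z
        exact mem_attC.2 (Or.inr ⟨z, h2, by rw [hβα]⟩)

end Pool.Agent.LHU
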