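import Pool.Agent.LHU.Stmts

set_option autoImplicit false

namespace Pool.Agent.LHU.ATS_

open Pool.Agent.LHT Pool.Agent.LHU

section
variable {Λ Γ : Type} [AddCommGroup Λ] [AddCommGroup Γ]

/-- linear part of the projection -/
def linW (ζ : Γ →+ ℤ) (w : Λ) : Λ × Γ →+ Λ :=
  AddMonoidHom.fst Λ Γ - ((zmultiplesHom Λ w).comp (ζ.comp (AddMonoidHom.snd Λ Γ)))

theorem linW_apply (ζ : Γ →+ ℤ) (w : Λ) (p : Λ × Γ) : linW ζ w p = p.1 - ζ p.2 • w := rfl

/-- the projection at a point of the old cell -/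
theorem lin_old (ζ : Γ →+ ℤ) (e cc : ℤ) (w α o v : Λ) (r : Γ) (h1 : cc • w = α - o)
    (h2 : ζ r + e = cc) : linW ζ w (v, r) + (α - o - e • w) = v := by
  rw [linW_apply]
  show v - ζ r • w + (α - o - e • w) = v
  rw [← h1, ← h2, add_smul]
  abel

/-- the projection at an attached point -/
theorem lin_new (ζ : Γ →+ ℤ) (e : ℤ) (w α o : Λ) (z : Γ) :
    linW ζ w (posn o ζ e w z, z) + (α - o - e • w) = α := by
  rw [linW_apply]
  show posn o ζ e w z - ζ z • w + (α - o - e • w) = α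
  unfold posn
  rw [add_smul]
  abel

end

end Pool.Agent.LHU.ATS_

namespace Pool.Agent.LHU

open Pool.Agent.LHT ATS_

theorem ats_proof : Stmt_ATS := by
  intro Λ Γ _ _ S α τ r o ζ e cc al hα hcc hal hr hS hτ
  classical
  have hold := fun v => lin_old ζ e cc (al α) α o v r hal hr
  have hnew := fun z => lin_new ζ e (al α) α o z
  have hval : ∀ (χ : Λ →+ ℝ) (d : ℝ) (p : Λ × Γ),
      (χ.comp (linW ζ (al α))) p + (χ (α - o - e • al α) + d)
        = χ (linW ζ (al α) p + (α - o - e • al α)) + d := by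
    intro χ d p
    rw [map_add]
    show χ (linW ζ (al α) p) + (χ (α - o - e • al α) + d) = _
    ring
  have hmem : ∀ p, p ∈ attC S α τ r o ζ e al ↔
      (∃ v ∈ S, v ≠ α ∧ (v, r) = p) ∨ (∃ z ∈ τ, (posn o ζ e (al α) z, z) = p) := by
    intro p
    unfold attC
    rw [Finset.mem_union, Finset.mem_image, Finset.mem_image]
    constructor
    · rintro (⟨v, hv, h⟩ | h)
      · rw [Finset.mem_erase] at hv
        exact Or.inl ⟨v, hv.2, hv.1, h⟩
      · exact Or.inr h
    · rintro (⟨v, hv, hv2, h⟩ | h)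
      · exact Or.inl ⟨v, Finset.mem_erase.mpr ⟨hv2, hv⟩, h⟩
      · exact Or.inr h
  intro p hp
  rcases (hmem p).mp hp with ⟨v, hv, hvα, rfl⟩ | ⟨z0, hz0, rfl⟩
  · obtain ⟨χ, d, h1, h2⟩ := hS v hv
    refine ⟨χ.comp (linW ζ (al α)), χ (α - o - e • al α) + d, ?_, ?_⟩
    · rw [hval, hold]
      exact h1
    · intro q hq hqp
      rw [hval]
      rcases (hmem q).mp hq with ⟨u, hu, huα, rfl⟩ | ⟨z, hz, rfl⟩
      · rw [hold]
        apply h2 u hu
        rintro rfl
        exact hqp rfl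
      · rw [hnew]
        exact h2 α hα (Ne.symm hvα)
  · obtain ⟨χ, d, h1, h2⟩ := hS α hα
    obtain ⟨ρ, s, g1, g2⟩ := hτ z0 hz0
    -- R(x,z) = ρ z + s - (ρ r + s) (1 - X_α(x,z))
    let X : Λ × Γ →+ ℝ := χ.comp (linW ζ (al α))
    let Y : Λ × Γ →+ ℝ :=
      ρ.comp (AddMonoidHom.snd Λ Γ) + (AddMonoidHom.mulLeft (ρ r + s)).comp X
    have hY : ∀ q : Λ × Γ, Y q + (s - (ρ r + s) + (ρ r + s) * (χ (α - o - e • al α) + d))
        = ρ q.2 + s - (ρ r + s) * (1 - (χ (linW ζ (al α) q + (α - o - e • al α)) + d)) := by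
      intro q
      rw [← hval]
      show (ρ q.2 + (ρ r + s) * X q) + _ = ρ q.2 + s - (ρ r + s) * (1 - (X q + _))
      ring
    refine ⟨Y, s - (ρ r + s) + (ρ r + s) * (χ (α - o - e • al α) + d), ?_, ?_⟩
    · rw [hY, hnew, h1]
      show ρ z0 + s - (ρ r + s) * (1 - 1) = 1
      linarith
    · intro q hq hqp
      rw [hY]
      rcases (hmem q).mp hq with ⟨u, hu, huα, rfl⟩ | ⟨z, hz, rfl⟩
      · rw [hold, h2 u hu huα]
        show ρ r + s - (ρ r + s) * (1 - 0) = 0
        ring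
      · rw [hnew, h1]
        have : z ≠ z0 := by
          rintro rfl
          exact hqp rfl
        have h3 := g2 z hz this
        show ρ z + s - (ρ r + s) * (1 - 1) = 0
        linarith

end Pool.Agent.LHU
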