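import Pool.Agent.LHU.Stmts

set_option autoImplicit false

/-!
Module C2: one entry in the middle.
-/

namespace Pool.Agent.LHU.C2_

open Pool.Agent.LHT Pool.Agent.LHU

theorem GLw_mono {Λ : Type} [AddCommGroup Λ] {G G' : Finset Λ → Prop} (h : ∀ C, G C → G' C)
    {S : Finset Λ} {ω : Λ → ℝ} (hG : GLw G S ω) : GLw G' S ω :=
  fun φ b h1 h2 => h _ (hG φ b h1 h2)

theorem pt1_inj {t t' : ℤ} (h : pt1 t = pt1 t') : t = t' := congrFun h 0

open Classical in
theorem mem_image {V0 : Finset ℤ} {t : ℤ} : pt1 t ∈ V0.image pt1 ↔ t ∈ V0 := by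
  rw [Finset.mem_image]
  constructor
  · rintro ⟨t', h, h'⟩
    rw [← pt1_inj h']
    exact h
  · intro h
    exact ⟨t, h, rfl⟩

open Classical in
theorem uq_of {A0 : Finset ℤ} {t t' : ℤ} (h : Xor1 A0 t t') :
    Uq (A0.image pt1) ({pt1 t, pt1 t'} : Finset (Fin 1 → ℤ)) := by
  rcases h with ⟨h1, h2⟩ | ⟨h1, h2⟩
  · refine ⟨pt1 t, by simp, mem_image.2 h1, ?_⟩
    intro β hβ hA
    rw [Finset.mem_insert, Finset.mem_singleton] at hβ
    rcases hβ with rfl | rfl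
    · rfl
    · exact absurd (mem_image.1 hA) h2
  · refine ⟨pt1 t', by simp, mem_image.2 h2, ?_⟩
    intro β hβ hA
    rw [Finset.mem_insert, Finset.mem_singleton] at hβ
    rcases hβ with rfl | rfl
    · exact absurd (mem_image.1 hA) h1
    · rfl

end Pool.Agent.LHU.C2_

namespace Pool.Agent.LHU

open Pool.Agent.LHT C2_

theorem c2_proof (hAP3 : Stmt_AP3) (hLIN : Stmt_LIN) : Stmt_C2 := by
  classical
  intro p q b L R hb hL hR V0 A0 B0 hV h0 hbV hAV hAne hBV hBne hAB hAd hBd hst hcon hlL hlR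
  refine hAP3 p 0 q L (fun _ => b) R hL (fun _ => hb) hR (V0.image pt1) (A0.image pt1)
    (B0.image pt1) (fun v => pt1 (v 0 / (R 0 : ℤ)))
    (fun v => pt1 ((v 0 - (b : ℤ)) / (L (Fin.last p) : ℤ)))
    (fun v => ((v 0 : ℤ) : ℝ) ^ 2) ?_ ?_ ?_ ?_ ?_ ?_ ?_ ?_ ?_ ?_ hlL hlR
  · intro v hv
    rw [Finset.mem_image] at hv
    obtain ⟨t, ht, rfl⟩ := hv
    rw [mem_LH]
    refine ⟨fun i => hV t ht, fun i j hij => ?_⟩
    have h1 := i.2
    have h2 := j.2
    rw [Fin.lt_def] at hij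
    omega
  · intro k
    rw [Finset.mem_image]
    rcases Nat.eq_zero_or_pos k with hk | hk
    · refine ⟨b, hbV, ?_⟩
      funext i
      rw [hk]
      simp [vtx, pt1]
    · refine ⟨0, h0, ?_⟩
      funext i
      have h1 := i.2
      show (0 : ℤ) = if k ≤ (i : ℕ) then (b : ℤ) else 0
      rw [if_neg]
      omega
  · exact Finset.image_subset_image hAV
  · exact hAne.image _
  · exact Finset.image_subset_image hBV
  · exact hBne.image _
  · rw [Finset.disjoint_left]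
    intro v hvA hvB
    rw [Finset.mem_image] at hvA
    obtain ⟨t, ht, rfl⟩ := hvA
    exact Finset.disjoint_left.1 hAB ht (mem_image.1 hvB)
  · intro α hα
    rw [Finset.mem_image] at hα
    obtain ⟨t, ht, rfl⟩ := hα
    funext i
    show (R 0 : ℤ) • (t / (R 0 : ℤ)) = t
    rw [smul_eq_mul]
    exact Int.mul_ediv_cancel' (hAd t ht)
  · intro β hβ
    rw [Finset.mem_image] at hβ
    obtain ⟨t, ht, rfl⟩ := hβ
    funext i
    show (L (Fin.last p) : ℤ) • ((t - (b : ℤ)) / (L (Fin.last p) : ℤ)) = t - (b : ℤ)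
    rw [smul_eq_mul]
    exact Int.mul_ediv_cancel' (hBd t ht)
  · have h1 := hLIN V0 (by
      rintro t ht ⟨t', ht', hlt⟩
      exact hst t ht (lt_of_lt_of_le hlt (hV t' ht').2))
    refine GLw_mono ?_ h1
    rintro C ⟨hK, t, ht, ⟨h2, rfl⟩ | ⟨h2, h3, rfl⟩⟩
    · obtain ⟨h4, h5⟩ := hcon t (t + 1) ⟨ht, h2, Or.inl rfl⟩
      exact ⟨hK, uq_of h4, uq_of h5⟩
    · obtain ⟨h4, h5⟩ := hcon t (t + 2) ⟨ht, h3, Or.inr ⟨rfl, h2⟩⟩
      exact ⟨hK, uq_of h4, uq_of h5⟩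

end Pool.Agent.LHU
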