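import Pool.Agent.LHU.Stmts

set_option autoImplicit false

/-!
Chimneys over a triangulation with arbitrary convex heights on the columns.
-/

namespace Pool.Agent.LHU

open Pool.Agent.LHT

namespace CHL_

variable {Y : Type} [AddCommGroup Y]

/-- the second coordinate minus an integral affine function of the first, as a real map -/
noncomputable def vert (η : Y →+ ℤ) : Y × ℤ →+ ℝ :=
  (Int.castAddHom ℝ).comp (AddMonoidHom.snd Y ℤ - η.comp (AddMonoidHom.fst Y ℤ))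

lemma vert_apply (η : Y →+ ℤ) (y : Y) (t : ℤ) : vert η (y, t) = (t : ℝ) - (η y : ℝ) := by
  show (((t - η y : ℤ)) : ℝ) = _
  push_cast
  rfl

lemma vert_no (η : Y →+ ℤ) : vert η ≠ 0 := by
  intro h
  have h1 := vert_apply η (0 : Y) 1
  rw [h, map_zero] at h1
  norm_num at h1

/-- a spanning contact set of heights constant on the columns is vertical -/
lemma slope (B : Finset Y) (ωB : Y → ℝ) (lo hi : Y →+ ℤ) (lo0 hi0 : ℤ)
    (hlh : ∀ y ∈ B, lo y + lo0 ≤ hi y + hi0) (S : Finset (Y × ℤ))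
    (hS : ∀ v, v ∈ S ↔ v.1 ∈ B ∧ lo v.1 + lo0 ≤ v.2 ∧ v.2 ≤ hi v.1 + hi0)
    (φ : Y × ℤ →+ ℝ) (b : ℝ) (hle : ∀ v ∈ S, φ v + b ≤ ωB v.1)
    (hs : Spans (contact S (fun v => ωB v.1) φ b)) : φ (0, 1) = 0 := by
  have hlow : ∀ y ∈ B, φ (y, 0) + ((lo y + lo0 : ℤ) : ℝ) * φ (0, 1) + b ≤ ωB y := by
    intro y hy
    have h1 := hle (y, lo y + lo0) ((hS _).mpr ⟨hy, le_rfl, hlh y hy⟩)
    rwa [prod_split] at h1
  have hhigh : ∀ y ∈ B, φ (y, 0) + ((hi y + hi0 : ℤ) : ℝ) * φ (0, 1) + b ≤ ωB y := by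
    intro y hy
    have h1 := hle (y, hi y + hi0) ((hS _).mpr ⟨hy, hlh y hy, le_rfl⟩)
    rwa [prod_split] at h1
  rcases lt_trichotomy (φ (0, 1)) 0 with h1 | h1 | h1
  · exfalso
    have h2 := hs (vert lo) (-(lo0 : ℝ)) (by
      rintro ⟨y, t⟩ hv
      obtain ⟨hvS, hvc⟩ := mem_contact.mp hv
      obtain ⟨hyB, ht1, ht2⟩ := (hS _).mp hvS
      dsimp only at hyB ht1 ht2 hvc
      have h3 := hlow y hyB
      rw [prod_split] at hvc
      have h4 : ((t : ℝ) - ((lo y + lo0 : ℤ) : ℝ)) * φ (0, 1) ≥ 0 := by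
        have h5 : ((t : ℝ) - ((lo y + lo0 : ℤ) : ℝ)) * φ (0, 1) =
          (φ (y, 0) + t * φ (0, 1) + b) -
            (φ (y, 0) + ((lo y + lo0 : ℤ) : ℝ) * φ (0, 1) + b) := by ring
        rw [h5, hvc]
        linarith
      have h6 : (t : ℝ) - ((lo y + lo0 : ℤ) : ℝ) ≤ 0 := by
        by_contra hcon
        push Not at hcon
        have := mul_neg_of_pos_of_neg hcon h1
        linarith
      have h7 : ((lo y + lo0 : ℤ) : ℝ) ≤ t := by exact_mod_cast ht1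
      rw [vert_apply]
      push_cast at h6 h7
      linarith)
    exact vert_no lo h2.1
  · exact h1
  · exfalso
    have h2 := hs (vert hi) (-(hi0 : ℝ)) (by
      rintro ⟨y, t⟩ hv
      obtain ⟨hvS, hvc⟩ := mem_contact.mp hv
      obtain ⟨hyB, ht1, ht2⟩ := (hS _).mp hvS
      dsimp only at hyB ht1 ht2 hvc
      have h3 := hhigh y hyB
      rw [prod_split] at hvc
      have h4 : (((hi y + hi0 : ℤ) : ℝ) - (t : ℝ)) * φ (0, 1) ≤ 0 := by
        have h5 : (((hi y + hi0 : ℤ) : ℝ) - (t : ℝ)) * φ (0, 1) =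
          (φ (y, 0) + ((hi y + hi0 : ℤ) : ℝ) * φ (0, 1) + b) -
            (φ (y, 0) + t * φ (0, 1) + b) := by ring
        rw [h5, hvc]
        linarith
      have h6 : ((hi y + hi0 : ℤ) : ℝ) - (t : ℝ) ≤ 0 := by
        by_contra hcon
        push Not at hcon
        have := mul_pos hcon h1
        linarith
      have h7 : (t : ℝ) ≤ ((hi y + hi0 : ℤ) : ℝ) := by exact_mod_cast ht2
      rw [vert_apply]
      push_cast at h6 h7
      linarith)
    exact vert_no hi h2.1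

end CHL_

theorem chl_proof (hREF : Stmt_REF) (hCHM : Stmt_CHM) (hCHS : Stmt_CHS) : Stmt_CHL := by
  intro Y _ B ωB Q lo hi lo0 hi0 g hB hlh hconv hdist S hS
  apply hREF (Y × ℤ) (fun K => ∃ C : Finset Y, C ⊆ B ∧ Simp C ∧ Q C ∧
    ChC C (fun y => lo y + lo0) (fun y => hi y + hi0) g K) (by
      rintro K ⟨C, -, hC, -, hK⟩
      exact (hCHS Y C _ _ g K hK).1 hC) S (fun v => ωB v.1) (fun v => g v.1 v.2)
  intro φ b hle hs
  have hσ := CHL_.slope B ωB lo hi lo0 hi0 hlh S hS φ b hle hs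
  have hflat : ∀ (y : Y) (t : ℤ), φ (y, t) = φ (y, 0) := by
    intro y t
    rw [prod_split, hσ, mul_zero, add_zero]
  set C := contact B ωB (φ.comp (AddMonoidHom.inl Y ℤ)) b with hC
  have hCmem : ∀ y, y ∈ C ↔ y ∈ B ∧ φ (y, 0) + b = ωB y := by
    intro y
    rw [hC, mem_contact]
    rfl
  have hCB : C ⊆ B := fun y hy => ((hCmem y).mp hy).1
  have hK : ∀ v, v ∈ contact S (fun v => ωB v.1) φ b ↔
      v.1 ∈ C ∧ lo v.1 + lo0 ≤ v.2 ∧ v.2 ≤ hi v.1 + hi0 := by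
    rintro ⟨y, t⟩
    rw [mem_contact, hS, hCmem, hflat]
    dsimp only
    constructor
    · rintro ⟨⟨a1, a2, a3⟩, a4⟩
      exact ⟨⟨a1, a4⟩, a2, a3⟩
    · rintro ⟨⟨a1, a4⟩, a2, a3⟩
      exact ⟨⟨a1, a2, a3⟩, a4⟩
  have hCs : Spans C := by
    intro χ d hχ
    have h2 := hs (χ.comp (AddMonoidHom.fst Y ℤ)) d (by
      intro v hv
      exact hχ v.1 ((hK v).mp hv).1)
    refine ⟨?_, h2.2⟩
    ext y
    have := congrArg (fun f => f (y, 0)) h2.1
    exact this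
  have hG : Simp C ∧ Q C := hB (φ.comp (AddMonoidHom.inl Y ℤ)) b (by
    intro y hy
    have h1 := hle (y, lo y + lo0) ((hS _).mpr ⟨hy, le_rfl, hlh y hy⟩)
    rw [hflat] at h1
    exact h1) hCs
  have hM := hCHM Y C (fun y => lo y + lo0) (fun y => hi y + hi0) g hG.1
    (fun y hy => hlh y (hCB hy)) (fun y hy => hconv y (hCB hy))
    (fun y hy y' hy' => hdist y (hCB hy) y' (hCB hy'))
    (contact S (fun v => ωB v.1) φ b) hK
  intro φ' b' h1 h2
  exact ⟨C, hCB, hG.1, hG.2, hM φ' b' h1 h2⟩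

end Pool.Agent.LHU
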