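import Pool.Agent.LHU.Stmts

set_option autoImplicit false

/-!
Chimney over a simplex with arbitrary convex heights on the columns.
-/

namespace Pool.Agent.LHU

open Pool.Agent.LHT

namespace CHM_

/-- increasing slopes -/
lemma mono (κ : ℤ → ℝ) (lo hi : ℤ) (h : ∀ t : ℤ, lo ≤ t → t + 1 < hi → κ t < κ (t + 1))
    (t : ℤ) (ht : lo ≤ t) (t' : ℤ) (htt : t + 1 ≤ t') : t' < hi → κ t < κ t' := by
  induction t', htt using Int.leInduction with
  | base =>
    intro h1
    exact h t ht h1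
  | succ n hn ih =>
    intro h1
    exact lt_trans (ih (by omega)) (h n (by omega) h1)

end CHM_

theorem chm_proof (hSIM : Stmt_SIM) : Stmt_CHM := by
  classical
  intro Y _ C lo hi g hC _ hconv hdist S hS φ b hle hs
  set K := contact S (fun v => g v.1 v.2) φ b with hKdef
  set σ : ℝ := φ (0, 1) with hσ
  have hKmem : ∀ y t, (y, t) ∈ K ↔ (y, t) ∈ S ∧ φ (y, 0) + b + t * σ = g y t := by
    intro y t
    rw [hKdef, mem_contact, prod_split]
    constructor
    · rintro ⟨h1, h2⟩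
      refine ⟨h1, ?_⟩
      have h3 : φ (y, 0) + ↑t * φ (0, 1) + b = g y t := h2
      rw [← h3]
      ring
    · rintro ⟨h1, h2⟩
      refine ⟨h1, ?_⟩
      show _ = g y t
      rw [← h2]
      ring
  have hSle : ∀ y t, y ∈ C → lo y ≤ t → t ≤ hi y → φ (y, 0) + b + t * σ ≤ g y t := by
    intro y t hy h2 h3
    have h1 := hle (y, t) ((hS (y, t)).mpr ⟨hy, h2, h3⟩)
    rw [prod_split] at h1
    have h4 : φ (y, 0) + ↑t * φ (0, 1) + b ≤ g y t := h1
    have h5 : φ (y, 0) + b + t * σ = φ (y, 0) + ↑t * φ (0, 1) + b := by ring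
    rw [h5]
    exact h4
  have hKS : ∀ y t, (y, t) ∈ K → y ∈ C ∧ lo y ≤ t ∧ t ≤ hi y := by
    intro y t hyt
    exact (hS (y, t)).mp ((hKmem y t).mp hyt).1
  have hproj : K.image Prod.fst = C := by
    apply hSIM Y _ C hC
    · intro y hy
      obtain ⟨v, hv, rfl⟩ := Finset.mem_image.mp hy
      exact ((hS v).mp (mem_contact.mp hv).1).1
    · intro χ d hχ
      have h1 := hs (χ.comp (AddMonoidHom.fst Y ℤ)) d (by
        intro v hv
        exact hχ v.1 (Finset.mem_image.mpr ⟨v, hv, rfl⟩))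
      refine ⟨?_, h1.2⟩
      ext y
      have := congrArg (fun f => f (y, 0)) h1.1
      exact this
  have hex : ∀ p : Y, ∃ t : ℤ, p ∈ C → (p, t) ∈ K := by
    intro p
    by_cases hp : p ∈ C
    · rw [← hproj] at hp
      obtain ⟨v, hv, hvp⟩ := Finset.mem_image.mp hp
      refine ⟨v.2, fun _ => ?_⟩
      rw [← hvp]
      exact hv
    · exact ⟨0, fun h => absurd h hp⟩
  choose T hT using hex
  -- slopes at a contact point
  have hup : ∀ p t, (p, t) ∈ K → t < hi p → σ ≤ g p (t + 1) - g p t := by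
    intro p t hpt ht
    obtain ⟨h1, h2, h3⟩ := hKS p t hpt
    have h4 := ((hKmem p t).mp hpt).2
    have h5 := hSle p (t + 1) h1 (by omega) (by omega)
    push_cast at h5
    linarith
  have hdown : ∀ p t, (p, t) ∈ K → lo p < t → g p t - g p (t - 1) ≤ σ := by
    intro p t hpt ht
    obtain ⟨h1, h2, h3⟩ := hKS p t hpt
    have h4 := ((hKmem p t).mp hpt).2
    have h5 := hSle p (t - 1) h1 (by omega) (by omega)
    push_cast at h5
    linarith
  have hstep : ∀ p t t', (p, t) ∈ K → (p, t') ∈ K → t < t' →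
      t' = t + 1 ∧ σ = g p (t + 1) - g p t := by
    intro p t t' ht ht' hlt
    obtain ⟨h1, h2, h3⟩ := hKS p t ht
    obtain ⟨-, h4, h5⟩ := hKS p t' ht'
    have h6 := hup p t ht (by omega)
    have h7 := hdown p t' ht' (by omega)
    have h8 : t' = t + 1 := by
      by_contra hne
      have h9 := CHM_.mono (fun i => g p (i + 1) - g p i) (lo p) (hi p) (by
        intro i hi1 hi2
        have h10 := hconv p h1 i hi1 hi2
        have h11 : i + 1 + 1 = i + 2 := by ring
        show g p (i + 1) - g p i < g p (i + 1 + 1) - g p (i + 1)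
        rw [h11]
        exact h10) t h2 (t' - 1) (by omega) (by omega)
      have h12 : t' - 1 + 1 = t' := by ring
      simp only [h12] at h9
      linarith
    refine ⟨h8, ?_⟩
    have h13 := ((hKmem p t).mp ht).2
    have h14 := ((hKmem p t').mp ht').2
    rw [h8] at h14
    push_cast at h14
    linarith
  -- some column has two contact points
  obtain ⟨p₀, hp₀, t', ht', hne⟩ : ∃ p₀ ∈ C, ∃ t', (p₀, t') ∈ K ∧ t' ≠ T p₀ := by
    by_contra hcon
    push Not at hcon
    have hC' : ∀ p : Y, ∃ (χ : Y →+ ℝ) (d : ℝ), p ∈ C →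
        χ p + d = 1 ∧ ∀ q ∈ C, q ≠ p → χ q + d = 0 := by
      intro p
      by_cases hp : p ∈ C
      · obtain ⟨χ, d, h1, h2⟩ := hC p hp
        exact ⟨χ, d, fun _ => ⟨h1, h2⟩⟩
      · exact ⟨0, 0, fun h => absurd h hp⟩
    choose χ d hχ using hC'
    have h4 := hs ((Int.castAddHom ℝ).comp (AddMonoidHom.snd Y ℤ)
        - (∑ p ∈ C, T p • χ p).comp (AddMonoidHom.fst Y ℤ)) (- ∑ p ∈ C, (T p : ℝ) * d p) (by
      rintro ⟨y, t⟩ hv
      obtain ⟨hy, -, -⟩ := hKS y t hv
      have h5 := hcon y hy t hv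
      have h6 : (∑ p ∈ C, T p • χ p) y = ∑ p ∈ C, (T p : ℝ) * χ p y := by
        rw [AddMonoidHom.finsetSum_apply]
        apply Finset.sum_congr rfl
        intro p _
        simp
      have h7 : ∑ p ∈ C, (T p : ℝ) * χ p y + ∑ p ∈ C, (T p : ℝ) * d p = T y := by
        rw [← Finset.sum_add_distrib, Finset.sum_eq_single y]
        · rw [← mul_add, (hχ y hy).1, mul_one]
        · intro p hp hpy
          rw [← mul_add, (hχ p hp).2 y hy (Ne.symm hpy), mul_zero]
        · intro h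
          exact absurd hy h
      show ((t : ℤ) : ℝ) - (∑ p ∈ C, T p • χ p) y + - ∑ p ∈ C, (T p : ℝ) * d p = 0
      rw [h6, h5]
      linarith)
    have h8 := congrArg (fun f => f (0, 1)) h4.1
    have h9 : ((1 : ℤ) : ℝ) - (∑ p ∈ C, T p • χ p) 0 = 0 := h8
    rw [map_zero] at h9
    norm_num at h9
  set u : ℤ := min t' (T p₀) with hu
  have huK : (p₀, u) ∈ K ∧ (p₀, u + 1) ∈ K ∧ σ = g p₀ (u + 1) - g p₀ u := by
    rcases lt_or_gt_of_ne hne with hlt | hlt
    · obtain ⟨e1, e2⟩ := hstep p₀ t' (T p₀) ht' (hT p₀ hp₀) hlt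
      have hu' : u = t' := min_eq_left hlt.le
      rw [hu']
      exact ⟨ht', by rw [← e1]; exact hT p₀ hp₀, e2⟩
    · obtain ⟨e1, e2⟩ := hstep p₀ (T p₀) t' (hT p₀ hp₀) ht' hlt
      have hu' : u = T p₀ := min_eq_right hlt.le
      rw [hu']
      exact ⟨hT p₀ hp₀, by rw [← e1]; exact ht', e2⟩
  obtain ⟨hu1, hu2, hu3⟩ := huK
  obtain ⟨-, hulo, -⟩ := hKS p₀ u hu1
  obtain ⟨-, -, huhi⟩ := hKS p₀ (u + 1) hu2
  have huniq : ∀ q s s', (q, s) ∈ K → (q, s') ∈ K → s < s' → q = p₀ := by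
    intro q s s' hs1 hs2 hlt
    obtain ⟨-, e2⟩ := hstep q s s' hs1 hs2 hlt
    obtain ⟨hq, e3, -⟩ := hKS q s hs1
    obtain ⟨-, -, e4⟩ := hKS q s' hs2
    by_contra hqp
    apply hdist q hq p₀ hp₀ hqp s u e3 (by omega) hulo (by omega)
    rw [← e2, ← hu3]
  obtain ⟨T', hT0, hT1⟩ : ∃ T' : Y → ℤ, T' p₀ = u ∧ ∀ q, q ≠ p₀ → T' q = T q :=
    ⟨fun p => if p = p₀ then u else T p, if_pos rfl, fun q hq => if_neg hq⟩
  refine ⟨p₀, hp₀, T', ?_, ?_, ?_, ?_, ?_⟩
  · rw [hT0]
    exact hulo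
  · rw [hT0]
    omega
  · intro q hq
    by_cases hqp : q = p₀
    · rw [hqp, hT0]
      exact ⟨hulo, by omega⟩
    · rw [hT1 q hqp]
      exact (hKS q (T q) (hT q hq)).2
  · intro q hq hqp
    rw [hT0, hT1 q hqp]
    obtain ⟨-, e1, e2⟩ := hKS q (T q) (hT q hq)
    refine ⟨?_, ?_⟩
    · intro h1
      have h2 := hdown q (T q) (hT q hq) h1
      have h3 := hdist q hq p₀ hp₀ hqp (T q - 1) u (by omega) (by omega) hulo (by omega)
      rw [sub_add_cancel] at h3
      rw [← hu3] at h3 ⊢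
      exact lt_of_le_of_ne h2 h3
    · intro h1
      have h2 := hup q (T q) (hT q hq) h1
      have h3 := hdist q hq p₀ hp₀ hqp (T q) u e1 h1 hulo (by omega)
      rw [← hu3] at h3 ⊢
      exact lt_of_le_of_ne h2 (Ne.symm h3)
  · rintro ⟨y, t⟩
    show (y, t) ∈ K ↔ (y, t) = (p₀, T' p₀ + 1) ∨ (y ∈ C ∧ t = T' y)
    rw [hT0]
    constructor
    · intro hyt
      obtain ⟨hy, -, -⟩ := hKS y t hyt
      by_cases hyp : y = p₀
      · subst hyp
        rw [hT0]
        rcases lt_trichotomy t u with h1 | h1 | h1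
        · obtain ⟨e, -⟩ := hstep y t (u + 1) hyt hu2 (by omega)
          omega
        · right
          exact ⟨hy, h1⟩
        · left
          obtain ⟨e, -⟩ := hstep y u t hu1 hyt h1
          rw [e]
      · right
        rw [hT1 y hyp]
        refine ⟨hy, ?_⟩
        by_contra hne2
        rcases lt_or_gt_of_ne hne2 with h1 | h1
        · exact hyp (huniq y _ _ hyt (hT y hy) h1)
        · exact hyp (huniq y _ _ (hT y hy) hyt h1)
    · rintro (h1 | ⟨hy, h1⟩)
      · rw [h1]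
        exact hu2
      · by_cases hyp : y = p₀
        · rw [hyp, hT0] at h1
          rw [h1, hyp]
          exact hu1
        · rw [hT1 y hyp] at h1
          rw [h1]
          exact hT y hy

end Pool.Agent.LHU
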