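import Pool.Agent.LHU.Stmts
import Pool.Agent.LHT.Chim

set_option autoImplicit false

/-!
Chimney cells are simplices, unimodular over unimodular simplices (module CHS).
-/

namespace Pool.Agent.LHU

open Pool.Agent.LHT

namespace CHS_

variable {Y : Type} [AddCommGroup Y]

lemma K_eq [DecidableEq Y] {C : Finset Y} {K : Finset (Y × ℤ)} {p : Y} {T : Y → ℤ}
    (hK : ∀ v, v ∈ K ↔ v = (p, T p + 1) ∨ (v.1 ∈ C ∧ v.2 = T v.1)) :
    K = insert (p, T p + 1) (C.image (fun q => (q, T q))) := by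
  ext v
  rw [hK v, Finset.mem_insert, Finset.mem_image]
  constructor
  · rintro (h | ⟨h1, h2⟩)
    · exact Or.inl h
    · exact Or.inr ⟨v.1, h1, Prod.ext rfl h2.symm⟩
  · rintro (h | ⟨q, hq, h⟩)
    · exact Or.inl h
    · subst h
      exact Or.inr ⟨hq, rfl⟩

/-- the affine function `t - T q` over a simplex -/
lemma exists_W {C : Finset Y} (hC : Simp C) (T : Y → ℤ) :
    ∃ (w : Y × ℤ →+ ℝ) (e : ℝ), ∀ q ∈ C, ∀ t : ℤ, w (q, t) + e = (t : ℝ) - (T q : ℝ) := by
  classical
  choose! χ d h1 h2 using hC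
  refine ⟨(Int.castAddHom ℝ).comp (AddMonoidHom.snd Y ℤ) -
      (∑ q ∈ C, (AddMonoidHom.mulLeft ((T q : ℤ) : ℝ)).comp (χ q)).comp (AddMonoidHom.fst Y ℤ),
    - ∑ q ∈ C, ((T q : ℤ) : ℝ) * d q, ?_⟩
  intro q hq t
  have e1 : ((Int.castAddHom ℝ).comp (AddMonoidHom.snd Y ℤ) -
      (∑ q ∈ C, (AddMonoidHom.mulLeft ((T q : ℤ) : ℝ)).comp (χ q)).comp
        (AddMonoidHom.fst Y ℤ)) (q, t) = (t : ℝ) - ∑ r ∈ C, ((T r : ℤ) : ℝ) * χ r q := by
    rw [AddMonoidHom.sub_apply, AddMonoidHom.comp_apply, AddMonoidHom.comp_apply,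
      AddMonoidHom.finset_sum_apply]
    rfl
  rw [e1]
  have e2 : ∑ r ∈ C, ((T r : ℤ) : ℝ) * χ r q + ∑ r ∈ C, ((T r : ℤ) : ℝ) * d r = (T q : ℝ) := by
    rw [← Finset.sum_add_distrib, Finset.sum_eq_single q]
    · rw [← mul_add, h1 q hq, mul_one]
    · intro r hr hrq
      rw [← mul_add, h2 r hr q hq (Ne.symm hrq), mul_zero]
    · intro h
      exact absurd hq h
  linarith

end CHS_

open CHS_ in
theorem chs_proof : Stmt_CHS := by
  classical
  intro Y _ C lo hi g K hK
  obtain ⟨p, hp, T, -, -, -, -, hmem⟩ := hK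
  have hKe := K_eq hmem
  refine ⟨?_, fun hU => uni_graph C hU T p hp K hKe⟩
  intro hS
  obtain ⟨w, e, hw⟩ := exists_W hS T
  intro v hv
  rcases (hmem v).1 hv with hv | ⟨hv1, hv2⟩
  · subst hv
    refine ⟨w, e, ?_, ?_⟩
    · rw [hw p hp]
      push_cast
      ring
    · intro v' hv' hne
      rcases (hmem v').1 hv' with h | ⟨h1, h2⟩
      · exact absurd h hne
      · have e1 : v' = (v'.1, T v'.1) := Prod.ext rfl h2
        rw [e1, hw _ h1]
        ring
  · obtain ⟨q, t⟩ := v
    simp only at hv1 hv2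
    subst hv2
    obtain ⟨χ, d, h1, h2⟩ := hS q hv1
    by_cases hqp : q = p
    · subst hqp
      refine ⟨χ.comp (AddMonoidHom.fst Y ℤ) - w, d - e, ?_, ?_⟩
      · have h3 := hw q hp (T q)
        show χ q - w (q, T q) + (d - e) = 1
        linarith
      · intro v' hv' hne
        rcases (hmem v').1 hv' with h | ⟨h3, h4⟩
        · subst h
          have h5 := hw q hp (T q + 1)
          show χ q - w (q, T q + 1) + (d - e) = 0
          push_cast at h5
          linarith
        · have e1 : v' = (v'.1, T v'.1) := Prod.ext rfl h4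
          have h5 := hw v'.1 h3 (T v'.1)
          have hne' : v'.1 ≠ q := by
            intro h6
            apply hne
            rw [e1, h6]
          have h6 := h2 v'.1 h3 hne'
          rw [e1]
          show χ v'.1 - w (v'.1, T v'.1) + (d - e) = 0
          linarith
    · refine ⟨χ.comp (AddMonoidHom.fst Y ℤ), d, h1, ?_⟩
      intro v' hv' hne
      rcases (hmem v').1 hv' with h | ⟨h3, h4⟩
      · subst h
        exact h2 p hp (fun h => hqp h.symm)
      · have e1 : v' = (v'.1, T v'.1) := Prod.ext rfl h4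
        have hne' : v'.1 ≠ q := by
          intro h6
          apply hne
          rw [e1, h6]
        exact h2 v'.1 h3 hne'

end Pool.Agent.LHU
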