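import Pool.Agent.LHU.Stmts

set_option autoImplicit false

/-!
Module COV: every lattice point of the hull is the midpoint of two vertices of a cell.
-/

namespace Pool.Agent.LHU

open Pool.Agent.LHT

namespace COV_

section
variable {Λ : Type} [AddCommGroup Λ]

/-- the cell containing a point `w` of the hull, with barycentric coordinates doubled -/
theorem cell (V : Finset Λ) (ω : Λ → ℝ) (hω : GLw (Kay V) V ω) (hS : Spans V) (hne : V.Nonempty)
    (w : Λ) (hx : ∀ (χ : Λ →+ ℝ) (d : ℝ), (∀ v ∈ V, 0 ≤ χ v + d) → 0 ≤ χ w + d) :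
    ∃ (C : Finset Λ), C ⊆ V ∧ ∃ (ψ : Λ → Λ →+ ℤ) (c : Λ → ℤ),
        (∀ v, ∑ p ∈ C, (ψ p v + c p) = 2) ∧
        (∀ v, ∑ p ∈ C, (ψ p v + c p) • p = (2 : ℤ) • v) ∧
        ∀ p ∈ C, 0 ≤ ψ p w + c p := by
  classical
  set Q := V.powerset.filter (fun C => ∃ (φ : Λ →+ ℝ) (b : ℝ), (∀ v ∈ V, φ v + b ≤ ω v) ∧
    contact V ω φ b = C ∧ Spans C) with hQ
  have hQne : Q.Nonempty := by
    obtain ⟨φ, b, h1, h2⟩ := exists_spanning V ω hS hne
    refine ⟨contact V ω φ b, ?_⟩
    rw [hQ, Finset.mem_filter, Finset.mem_powerset]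
    exact ⟨fun v hv => (mem_contact.mp hv).1, φ, b, h1, rfl, h2⟩
  have hQ2 : ∀ C ∈ Q, ∃ (φ : Λ →+ ℝ) (b : ℝ), (∀ v ∈ V, φ v + b ≤ ω v) ∧
    contact V ω φ b = C ∧ Spans C := fun C hC => (Finset.mem_filter.mp hC).2
  choose! F B hF using hQ2
  obtain ⟨C, hC, hmax⟩ := Finset.exists_max_image Q (fun C => F C w + B C) hQne
  obtain ⟨hle, hcon, hsp⟩ := hF C hC
  have hbest : ∀ (φ : Λ →+ ℝ) (b : ℝ), (∀ v ∈ V, φ v + b ≤ ω v) → Spans (contact V ω φ b) →
      φ w + b ≤ F C w + B C := by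
    intro φ b h1 h2
    have hm : contact V ω φ b ∈ Q := by
      rw [hQ, Finset.mem_filter, Finset.mem_powerset]
      exact ⟨fun v hv => (mem_contact.mp hv).1, φ, b, h1, rfl, h2⟩
    have h3 := hmax _ hm
    obtain ⟨-, g2, g3⟩ := hF _ hm
    have h4 := h2 (F (contact V ω φ b) - φ) (B (contact V ω φ b) - b) (by
      intro v hv
      have e1 := (mem_contact.mp hv).2
      have e2 : v ∈ contact V ω (F (contact V ω φ b)) (B (contact V ω φ b)) := by
        rw [g2]; exact hv
      have e3 := (mem_contact.mp e2).2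
      show F (contact V ω φ b) v - φ v + (B (contact V ω φ b) - b) = 0
      linarith)
    have h5 : F (contact V ω φ b) = φ := sub_eq_zero.mp h4.1
    have h6 : B (contact V ω φ b) = b := sub_eq_zero.mp h4.2
    rw [h5, h6] at h3
    exact h3
  have hsp' : Spans (contact V ω (F C) (B C)) := by rw [hcon]; exact hsp
  refine ⟨contact V ω (F C) (B C), fun v hv => (mem_contact.mp hv).1, ?_⟩
  obtain ⟨ψ, c, g1, g2, g3, -, -⟩ := hω _ _ hle hsp'
  refine ⟨ψ, c, g2, g3, ?_⟩
  intro p hp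
  by_contra hneg
  push Not at hneg
  set μ : Λ →+ ℝ := (Int.castAddHom ℝ).comp (ψ p) with hμ
  have hμv : ∀ v, μ v = ((ψ p v : ℤ) : ℝ) := fun v => rfl
  have hnegR : μ w + c p < 0 := by
    rw [hμv]
    exact_mod_cast hneg
  have hex : ∃ v ∈ V, μ v + c p < 0 := by
    by_contra hcon2
    push Not at hcon2
    have := hx μ (c p) hcon2
    linarith
  set P := V.filter (fun v => μ v + c p < 0) with hP
  have hPne : P.Nonempty := by
    obtain ⟨v, h1, h2⟩ := hex
    exact ⟨v, Finset.mem_filter.mpr ⟨h1, h2⟩⟩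
  obtain ⟨v0, hv0, hmin⟩ := Finset.exists_min_image P
    (fun v => (ω v - F C v - B C) / (-(μ v + c p))) hPne
  rw [hP, Finset.mem_filter] at hv0
  obtain ⟨hv0S, hv0n⟩ := hv0
  have hnn : ∀ q ∈ contact V ω (F C) (B C), 0 ≤ μ q + c p := by
    intro q hq
    have h1 := g1 p hp q hq
    rw [hμv]
    have h2 : (0 : ℤ) ≤ ψ p q + c p := by
      rw [h1]
      split_ifs
      · norm_num
      · exact le_refl 0
    exact_mod_cast h2
  have hv0c : v0 ∉ contact V ω (F C) (B C) := by
    intro h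
    have := hnn v0 h
    linarith
  have hstrict : F C v0 + B C < ω v0 := by
    rcases (hle v0 hv0S).lt_or_eq with h | h
    · exact h
    · exact absurd (mem_contact.mpr ⟨hv0S, h⟩) hv0c
  set t : ℝ := (ω v0 - F C v0 - B C) / (-(μ v0 + c p)) with ht
  have ht0 : 0 < t := by
    apply div_pos
    · linarith
    · linarith
  have htv0 : t * (μ v0 + c p) = -(ω v0 - F C v0 - B C) := by
    have hne0 : μ v0 + c p ≠ 0 := hv0n.ne
    rw [ht, div_neg, neg_mul, div_mul_cancel₀ _ hne0]
  have hval : ∀ v, (F C + (-t) • μ) v + (B C + (-t) * c p) = F C v + B C - t * (μ v + c p) := by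
    intro v
    show F C v + (-t) * μ v + (B C + (-t) * c p) = _
    ring
  have hle' : ∀ v ∈ V, (F C + (-t) • μ) v + (B C + (-t) * c p) ≤ ω v := by
    intro v hv
    rw [hval]
    by_cases hn : μ v + c p < 0
    · have h1 := hmin v (Finset.mem_filter.mpr ⟨hv, hn⟩)
      have h2 : t ≤ (ω v - F C v - B C) / (-(μ v + c p)) := h1
      have h3 : 0 < -(μ v + c p) := by linarith
      rw [le_div_iff₀ h3] at h2
      linarith
    · have h1 := hle v hv
      have h2 : 0 ≤ t * (μ v + c p) := mul_nonneg ht0.le (not_lt.mp hn)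
      linarith
  have hsp2 : Spans (contact V ω (F C + (-t) • μ) (B C + (-t) * c p)) := by
    intro χ d hχ
    have hcq : ∀ q ∈ contact V ω (F C) (B C), q ≠ p → χ q + d = 0 := by
      intro q hq hqp
      apply hχ
      rw [mem_contact, hval]
      have h1 := mem_contact.mp hq
      have h2 := g1 p hp q hq
      rw [if_neg (Ne.symm hqp)] at h2
      have h3 : μ q + c p = 0 := by
        rw [hμv]
        exact_mod_cast h2
      exact ⟨h1.1, by rw [h3, h1.2]; ring⟩
    have hv0' : χ v0 + d = 0 := by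
      apply hχ
      rw [mem_contact, hval, htv0]
      exact ⟨hv0S, by ring⟩
    have h1 := hsp' (χ + (-((χ p + d) / 2)) • μ) (d + (-((χ p + d) / 2)) * c p) (by
      intro q hq
      show χ q + (-((χ p + d) / 2)) * μ q + (d + (-((χ p + d) / 2)) * c p) = 0
      by_cases hqp : q = p
      · have h2 := g1 p hp p hp
        rw [if_pos rfl] at h2
        have h3 : μ p + c p = 2 := by
          rw [hμv]
          exact_mod_cast h2
        rw [hqp]
        have h4 : χ p + (-((χ p + d) / 2)) * μ p + (d + (-((χ p + d) / 2)) * c p)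
            = (χ p + d) - (χ p + d) / 2 * (μ p + c p) := by ring
        rw [h4, h3]
        ring
      · have h2 := g1 p hp q hq
        rw [if_neg (Ne.symm hqp)] at h2
        have h3 : μ q + c p = 0 := by
          rw [hμv]
          exact_mod_cast h2
        have h4 : χ q + (-((χ p + d) / 2)) * μ q + (d + (-((χ p + d) / 2)) * c p)
            = (χ q + d) - (χ p + d) / 2 * (μ q + c p) := by ring
        rw [h4, h3, hcq q hq hqp]
        ring)
    have h2 : χ v0 + (-((χ p + d) / 2)) * μ v0 = 0 := by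
      have := congrArg (fun f => f v0) h1.1
      exact this
    have h3 : (χ p + d) / 2 * (μ v0 + c p) = 0 := by
      have h4 := h1.2
      have h5 : (χ p + d) / 2 * (μ v0 + c p) = (χ v0 + d) - (χ v0 + (-((χ p + d) / 2)) * μ v0)
        - (d + (-((χ p + d) / 2)) * c p) := by ring
      rw [h5, hv0', h2, h4]
      ring
    have h4 : (χ p + d) / 2 = 0 := (mul_eq_zero.mp h3).resolve_right hv0n.ne
    rw [h4] at h1
    have h5 := h1.1
    have h6 := h1.2
    rw [neg_zero, zero_smul, add_zero] at h5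
    rw [neg_zero, zero_mul, add_zero] at h6
    exact ⟨h5, h6⟩
  have hfin := hbest _ _ hle' hsp2
  rw [hval] at hfin
  nlinarith [mul_pos ht0 (neg_pos.mpr hnegR)]

/-- nonnegative integers with sum two -/
theorem two_split (C : Finset Λ) (n : Λ → ℤ) (h0 : ∀ p ∈ C, 0 ≤ n p) (h2 : ∑ p ∈ C, n p = 2) :
    ∃ v ∈ C, ∃ v' ∈ C, ∑ p ∈ C, n p • p = v + v' := by
  classical
  have hex : ∃ p ∈ C, 0 < n p := by
    by_contra hcon
    push Not at hcon
    have : ∑ p ∈ C, n p ≤ 0 := Finset.sum_nonpos hcon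
    omega
  obtain ⟨p, hp, hpp⟩ := hex
  have h3 : n p + ∑ q ∈ C.erase p, n q = 2 := by
    rw [Finset.add_sum_erase C n hp, h2]
  have h4 : n p • p + ∑ q ∈ C.erase p, n q • q = ∑ q ∈ C, n q • q :=
    Finset.add_sum_erase C (fun q => n q • q) hp
  have h5 : ∀ q ∈ C.erase p, 0 ≤ n q := fun q hq => h0 q (Finset.mem_of_mem_erase hq)
  by_cases hz : ∑ q ∈ C.erase p, n q = 0
  · have h6 := (Finset.sum_eq_zero_iff_of_nonneg h5).mp hz
    have h7 : ∑ q ∈ C.erase p, n q • q = 0 :=
      Finset.sum_eq_zero (fun q hq => by rw [h6 q hq, zero_smul])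
    refine ⟨p, hp, p, hp, ?_⟩
    rw [← h4, h7, add_zero]
    have h8 : n p = 2 := by omega
    rw [h8, two_zsmul]
  · have h6 : 0 ≤ ∑ q ∈ C.erase p, n q := Finset.sum_nonneg h5
    have h7 : n p = 1 := by omega
    have h8 : ∑ q ∈ C.erase p, n q = 1 := by omega
    have hex2 : ∃ q ∈ C.erase p, 0 < n q := by
      by_contra hcon
      push Not at hcon
      have : ∑ q ∈ C.erase p, n q ≤ 0 := Finset.sum_nonpos hcon
      omega
    obtain ⟨q, hq, hqp⟩ := hex2
    have h9 : n q + ∑ r ∈ (C.erase p).erase q, n r = 1 := by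
      rw [Finset.add_sum_erase (C.erase p) n hq, h8]
    have h10 : n q • q + ∑ r ∈ (C.erase p).erase q, n r • r = ∑ r ∈ C.erase p, n r • r :=
      Finset.add_sum_erase (C.erase p) (fun r => n r • r) hq
    have h11 : ∀ r ∈ (C.erase p).erase q, 0 ≤ n r :=
      fun r hr => h5 r (Finset.mem_of_mem_erase hr)
    have h12 : 0 ≤ ∑ r ∈ (C.erase p).erase q, n r := Finset.sum_nonneg h11
    have h13 : ∑ r ∈ (C.erase p).erase q, n r = 0 := by omega
    have h14 := (Finset.sum_eq_zero_iff_of_nonneg h11).mp h13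
    have h15 : ∑ r ∈ (C.erase p).erase q, n r • r = 0 :=
      Finset.sum_eq_zero (fun r hr => by rw [h14 r hr, zero_smul])
    have h16 : n q = 1 := by omega
    refine ⟨p, hp, q, Finset.mem_of_mem_erase hq, ?_⟩
    rw [← h4, ← h10, h15, add_zero, h7, h16, one_zsmul, one_zsmul]

end

end COV_

theorem cov_proof (_hKSI : Stmt_KSI) : Stmt_COV := by
  classical
  intro Λ _ _hTF V ω hne hS hG w hw
  obtain ⟨C, hCV, ψ, c, h1, h2, h3⟩ := COV_.cell V ω hG hS hne w hw
  obtain ⟨v, hv, v', hv', h⟩ := COV_.two_split C (fun p => ψ p w + c p) h3 (h1 w)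
  exact ⟨v, hCV hv, v', hCV hv', by rw [← h, h2 w]⟩

end Pool.Agent.LHU
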