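import Pool.Agent.LHU.Stmts

set_option autoImplicit false

/-!
LHU: module DBL
-/

namespace Pool.Agent.LHU

open Pool.Agent.LHT

namespace DBL_

variable {n : ℕ}

/-- the factors -/
def fac (j i : Fin n) : ℤ := if i = j then 1 else 2

/-- the doubling map -/
def dbl (j : Fin n) : (Fin n → ℤ) →+ (Fin n → ℤ) where
  toFun x := fun i => fac j i * x i
  map_zero' := by funext i; simp
  map_add' x y := by funext i; simp [mul_add]

/-- the complementary map -/
def hlf (j : Fin n) : (Fin n → ℤ) →+ (Fin n → ℤ) where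
  toFun x := fun i => (if i = j then 2 else 1) * x i
  map_zero' := by funext i; simp
  map_add' x y := by funext i; simp [mul_add]

/-- parity of the exceptional entry -/
def par (j : Fin n) : (Fin n → ℤ) →+ ZMod 2 :=
  (Int.castAddHom (ZMod 2)).comp (Pi.evalAddMonoidHom (fun _ : Fin n => ℤ) j)

lemma dbl_apply (j : Fin n) (x : Fin n → ℤ) (i : Fin n) : dbl j x i = fac j i * x i := rfl

lemma par_apply (j : Fin n) (x : Fin n → ℤ) : par j x = ((x j : ℤ) : ZMod 2) := rfl

lemma fac_pos (j i : Fin n) : 0 < fac j i := by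
  unfold fac
  split_ifs <;> norm_num

lemma dbl_inj (j : Fin n) : Function.Injective (dbl j) := by
  intro x y h
  funext i
  have h1 := congrFun h i
  rw [dbl_apply, dbl_apply] at h1
  exact mul_left_cancel₀ (fac_pos j i).ne' h1

/-- the doubled sequence -/
def s2 (s : Fin n → ℕ) (j : Fin n) : Fin n → ℕ := fun i => if i = j then s i else 2 * s i

lemma s2_cast (s : Fin n → ℕ) (j i : Fin n) : ((s2 s j i : ℕ) : ℤ) = fac j i * (s i : ℤ) := by
  unfold s2 fac
  split_ifs
  · rw [one_mul]
  · push_cast; ring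

lemma dbl_mem (s : Fin n → ℕ) (j : Fin n) {x : Fin n → ℤ} (hx : x ∈ LH s) :
    dbl j x ∈ LH (s2 s j) := by
  rw [mem_LH] at hx ⊢
  refine ⟨fun i => ⟨?_, ?_⟩, fun i k hik => ?_⟩
  · rw [dbl_apply]
    exact mul_nonneg (fac_pos j i).le (hx.1 i).1
  · rw [dbl_apply, s2_cast]
    exact mul_le_mul_of_nonneg_left (hx.1 i).2 (fac_pos j i).le
  · rw [dbl_apply, dbl_apply, s2_cast, s2_cast]
    have h := hx.2 i k hik
    have h1 : 0 ≤ fac j i * fac j k := mul_nonneg (fac_pos j i).le (fac_pos j k).le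
    calc fac j i * x i * (fac j k * (s k : ℤ)) = fac j i * fac j k * (x i * s k) := by ring
      _ ≤ fac j i * fac j k * (x k * s i) := mul_le_mul_of_nonneg_left h h1
      _ = fac j k * x k * (fac j i * (s i : ℤ)) := by ring

lemma dbl_vtx (s : Fin n → ℕ) (j : Fin n) (k : ℕ) : dbl j (vtx s k) = vtx (s2 s j) k := by
  funext i
  rw [dbl_apply]
  unfold vtx
  split_ifs
  · rw [s2_cast]
  · rw [mul_zero]

lemma dbl_uu (s : Fin n → ℕ) (j : Fin n) : dbl j (uu s) = uu (s2 s j) := by
  funext i
  rw [dbl_apply]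
  unfold uu
  rw [s2_cast]

end DBL_

open DBL_ in
theorem dbl_proof (hDBK : Stmt_DBK) (hPLL : Stmt_PLL) (hTFZ : Stmt_TFZ) (hMDL : Stmt_MDL)
    (hHUL : Stmt_HUL) : Stmt_DBL := by
  classical
  intro n s j hs hRL
  obtain ⟨ω', hω'⟩ := hRL
  have hT : TF (Fin n → ℤ) := hTFZ.1 n
  have hinv : ∀ q, Function.invFun (dbl j) (dbl j q) = q :=
    Function.leftInverse_invFun (dbl_inj j)
  have hG := hDBK (Fin n → ℤ) (Fin n → ℤ) (dbl j) (hlf j) (par j) (dbl_inj j) (by
      intro v
      funext i
      rw [dbl_apply]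
      change fac j i * ((if i = j then 2 else 1) * v i) = (2 : ℤ) * v i
      unfold fac
      split_ifs <;> ring) (by
      intro a b hab
      rw [par_apply, par_apply, ZMod.intCast_eq_intCast_iff_dvd_sub] at hab
      obtain ⟨t, ht⟩ := hab
      refine ⟨fun i => if i = j then t else b i - a i, ?_⟩
      funext i
      rw [dbl_apply]
      change fac j i * b i = fac j i * a i + 2 * (if i = j then t else b i - a i)
      unfold fac
      by_cases hi : i = j
      · rw [if_pos hi, if_pos hi, hi]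
        push_cast at ht
        linarith
      · rw [if_neg hi, if_neg hi]
        ring) (by
      intro v
      rw [par_apply]
      change (((if j = j then 2 else 1) * v j : ℤ) : ZMod 2) = 0
      rw [if_pos rfl]
      push_cast
      have : (2 : ZMod 2) = 0 := rfl
      rw [this, zero_mul]) hT (LH s) ω' hω' ((LH s).image (dbl j))
      (fun v => ω' (Function.invFun (dbl j) v)) (by
      intro v
      rw [Finset.mem_image]) (by
      intro v' _
      simp only [hinv])
  have hpos : ∀ i, 0 < s2 s j i := by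
    intro i
    unfold s2
    have := hs i
    split_ifs <;> omega
  obtain ⟨ω, hω⟩ := hPLL (Fin n → ℤ) hT ((LH s).image (dbl j)) (LH (s2 s j)) (by
      intro v hv
      obtain ⟨x, hx, rfl⟩ := Finset.mem_image.1 hv
      exact dbl_mem s j hx) (hMDL n _) (hHUL n (s2 s j) hpos _ (by
      intro k
      rw [← dbl_vtx]
      exact Finset.mem_image_of_mem _ (vtx_mem s k))) (Set.range (dbl j))
      (fun v => ω' (Function.invFun (dbl j) v)) (by
      intro φ b hle hsp
      obtain ⟨h1, h2⟩ := hG φ b hle hsp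
      refine ⟨h1, ?_⟩
      rintro _ ⟨a, rfl⟩
      exact h2 a)
  refine ⟨ω, ?_⟩
  intro φ b hle hsp
  obtain ⟨h1, h2⟩ := hω φ b hle hsp
  refine ⟨h1, h2 0 ⟨0, map_zero _⟩, h2 (uu (s2 s j)) ⟨uu s, dbl_uu s j⟩⟩

end Pool.Agent.LHU
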