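import Pool.Agent.LHU.Stmts

set_option autoImplicit false

namespace Pool.Agent.LHU

open Pool.Agent.LHT

namespace FNK_

variable {Λ : Type} [AddCommGroup Λ]

theorem cg_refl (a : Λ) : Cg a a := ⟨0, by rw [smul_zero, add_zero]⟩

theorem cg_symm {a b : Λ} (h : Cg a b) : Cg b a := by
  obtain ⟨u, hu⟩ := h
  refine ⟨-u, ?_⟩
  rw [hu, smul_neg, add_neg_cancel_right]

theorem cg_trans {a b c : Λ} (h : Cg a b) (h' : Cg b c) : Cg a c := by
  obtain ⟨u, hu⟩ := h
  obtain ⟨v, hv⟩ := h'
  refine ⟨u + v, ?_⟩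
  rw [hv, hu, smul_add, add_assoc]

end FNK_

open FNK_ in
theorem fnk_proof : Stmt_FNK := by
  classical
  intro Λ _ hTF S C hCS hMid ⟨ψ, c, h1, h2, h3, h4, h5⟩
  -- distinct vertices are not congruent
  have hcl : ∀ p ∈ C, ∀ q ∈ C, Cg p q → q = p := by
    intro p hp q hq hpq
    by_contra hne
    obtain ⟨u, hu⟩ := hpq
    have hw : p + q = (2 : ℤ) • (p + u) := by
      rw [hu, smul_add, two_smul, two_smul]
      abel
    have hwS : p + u ∈ S := hMid p (hCS hp) q (hCS hq) (p + u) hw
    -- doubled coordinates of the midpoint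
    have hd : ∀ r ∈ C, 2 * (ψ r (p + u) + c r) = (ψ r p + c r) + (ψ r q + c r) := by
      intro r _
      have h6 := congrArg (ψ r) hw
      rw [map_add, map_zsmul, smul_eq_mul] at h6
      linarith
    have hwC : p + u ∈ C := by
      apply h5 _ hwS
      intro r hr
      have h6 := hd r hr
      have h7 : 0 ≤ ψ r p + c r := by
        rw [h1 r hr p hp]; split_ifs <;> norm_num
      have h8 : 0 ≤ ψ r q + c r := by
        rw [h1 r hr q hq]; split_ifs <;> norm_num
      omega
    have h6 := hd p hp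
    rw [h1 p hp p hp, h1 p hp q hq, if_pos rfl, if_neg (fun h => hne h.symm),
      h1 p hp _ hwC] at h6
    split_ifs at h6 <;> omega
  -- all coordinates are even
  have hev : ∀ p ∈ C, ∀ v, Even (ψ p v + c p) := by
    intro p hp v
    have h6 := h4 (fun x => if Cg p x then 1 else 0) (by
      intro x _ y _ hxy
      by_cases hpx : Cg p x
      · simp only [hpx, cg_trans hpx hxy, if_true]
      · have hpy : ¬ Cg p y := fun h => hpx (cg_trans h (cg_symm hxy))
        simp only [hpx, hpy, if_false]) v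
    rw [Finset.sum_eq_single p] at h6
    · simp only [cg_refl p, if_true, mul_one] at h6
      rw [ZMod.intCast_zmod_eq_zero_iff_dvd] at h6
      exact even_iff_two_dvd.mpr h6
    · intro q hq hqp
      have : ¬ Cg p q := fun h => hqp (hcl p hp q hq h)
      simp only [this, if_false, mul_zero]
    · intro h; exact absurd hp h
  have hc : ∀ p ∈ C, Even (c p) := by
    intro p hp
    have := hev p hp 0
    rwa [map_zero, zero_add] at this
  have hψ : ∀ p ∈ C, ∀ v, Even (ψ p v) := by
    intro p hp v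
    exact (Int.even_add.mp (hev p hp v)).mpr (hc p hp)
  -- halves
  have hhalf : ∀ p : Λ, ∃ χ : Λ →+ ℤ, p ∈ C → ∀ v, ψ p v = 2 * χ v := by
    intro p
    by_cases hp : p ∈ C
    · refine ⟨{ toFun := fun v => ψ p v / 2, map_zero' := by simp, map_add' := ?_ }, ?_⟩
      · intro x y
        have hx := (hψ p hp x).two_dvd
        rw [map_add, Int.add_ediv_of_dvd_left hx]
      · intro _ v
        show ψ p v = 2 * (ψ p v / 2)
        exact (Int.mul_ediv_cancel' (hψ p hp v).two_dvd).symm
    · exact ⟨0, fun h => absurd h hp⟩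
  choose χ hχ using hhalf
  have hval : ∀ p ∈ C, ∀ v, 2 * (χ p v + c p / 2) = ψ p v + c p := by
    intro p hp v
    have h6 := hχ p hp v
    have h7 := Int.mul_ediv_cancel' (hc p hp).two_dvd
    rw [mul_add, ← h6, h7]
  refine ⟨χ, fun p => c p / 2, ?_, ?_, ?_⟩
  · intro p hp q hq
    have h6 := hval p hp q
    have h7 := h1 p hp q hq
    show χ p q + c p / 2 = _
    by_cases hpq : p = q
    · rw [if_pos hpq] at h7 ⊢; omega
    · rw [if_neg hpq] at h7 ⊢; omega
  · intro v
    show ∑ p ∈ C, (χ p v + c p / 2) = 1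
    have h6 : 2 * ∑ p ∈ C, (χ p v + c p / 2) = 2 := by
      rw [Finset.mul_sum]
      refine Eq.trans ?_ (h2 v)
      exact Finset.sum_congr rfl fun p hp => hval p hp v
    omega
  · intro v
    have h6 : (2 : ℤ) • (∑ p ∈ C, (χ p v + c p / 2) • p) = (2 : ℤ) • v := by
      rw [Finset.smul_sum, ← h3 v]
      refine Finset.sum_congr rfl fun p hp => ?_
      rw [smul_smul, hval p hp v]
    have h7 : (2 : ℤ) • (∑ p ∈ C, (χ p v + c p / 2) • p - v) = 0 := by
      rw [smul_sub, h6, sub_self]
    exact sub_eq_zero.mp (hTF 2 _ two_ne_zero h7)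

end Pool.Agent.LHU
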