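import Pool.Agent.LHU.Stmts

set_option autoImplicit false

namespace Pool.Agent.LHU

open Pool.Agent.LHT

namespace GLU_

/-- the height of the second coordinate, as an additive map -/
noncomputable def ht (Y : Type) [AddCommGroup Y] : Y × ℤ →+ ℝ :=
  (Int.castAddHom ℝ).comp (AddMonoidHom.snd Y ℤ)

theorem ht_apply {Y : Type} [AddCommGroup Y] (v : Y × ℤ) : ht Y v = ((v.2 : ℤ) : ℝ) := rfl

theorem split {Y : Type} [AddCommGroup Y] (φ : Y × ℤ →+ ℝ) (y : Y) (t : ℤ) :
    φ (y, t) = φ (y, 0) + (t : ℝ) * φ (0, 1) := by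
  have h1 : (y, t) = (y, (0 : ℤ)) + t • ((0 : Y), (1 : ℤ)) := by
    ext <;> simp
  rw [h1, map_add, map_zsmul, zsmul_eq_mul]

end GLU_

open GLU_

theorem glu_proof (hREF : Stmt_REF) : Stmt_GLU := by
  classical
  intro Y _ B U L S ω G hG hU hL hB hUB hLB hS hGU hGL
  have key := hREF (Y × ℤ) G hG S (fun v => max (v.2 : ℝ) 0) ω
  apply key
  intro φ b hle hsp
  have hmem : ∀ v : Y × ℤ, v ∈ contact S (fun v => max (v.2 : ℝ) 0) φ b ↔
      v ∈ S ∧ φ v + b = max (v.2 : ℝ) 0 := by
    intro v
    simp [contact]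
  have hSB : ∀ v ∈ S, v.1 ∈ B := by
    intro v hv
    rcases (hS v).1 hv with h | h
    · exact hUB v h
    · exact hLB v h
  have ha : ∀ y ∈ B, φ (y, 0) + b ≤ 0 := by
    intro y hy
    have h1 : ((y, (0 : ℤ)) : Y × ℤ) ∈ S := (hS _).2 (Or.inl (hB y hy).1)
    have h2 := hle _ h1
    simpa using h2
  by_cases hpos : ∃ v ∈ contact S (fun v => max (v.2 : ℝ) 0) φ b, 0 < v.2
  · obtain ⟨v, hv, hv2⟩ := hpos
    have hσ : 1 ≤ φ (0, 1) := by
      obtain ⟨h1, h2⟩ := (hmem v).1 hv
      have h3 := split φ v.1 v.2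
      have h4 := ha v.1 (hSB v h1)
      have hvpos : (0 : ℝ) < (v.2 : ℝ) := by exact_mod_cast hv2
      rw [max_eq_left hvpos.le] at h2
      have h5 : φ v = φ (v.1, 0) + (v.2 : ℝ) * φ (0, 1) := h3
      rw [h5] at h2
      by_contra hcon
      push Not at hcon
      nlinarith
    have hnn : ∀ w ∈ contact S (fun v => max (v.2 : ℝ) 0) φ b, 0 ≤ w.2 := by
      intro w hw
      by_contra hcon
      push Not at hcon
      obtain ⟨h1, h2⟩ := (hmem w).1 hw
      have h3 : φ w = φ (w.1, 0) + (w.2 : ℝ) * φ (0, 1) := split φ w.1 w.2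
      have h4 := ha w.1 (hSB w h1)
      have hwneg : (w.2 : ℝ) < 0 := by exact_mod_cast hcon
      rw [max_eq_right hwneg.le, h3] at h2
      nlinarith
    have hz := hsp (φ - ht Y) b (by
      intro w hw
      obtain ⟨h1, h2⟩ := (hmem w).1 hw
      have h3 : (0 : ℝ) ≤ (w.2 : ℝ) := by exact_mod_cast hnn w hw
      rw [max_eq_left h3] at h2
      rw [AddMonoidHom.sub_apply, ht_apply]
      linarith)
    obtain ⟨hφ, hb⟩ := hz
    have hφ' : ∀ w, φ w = (w.2 : ℝ) := by
      intro w
      have := DFunLike.congr_fun hφ w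
      rw [AddMonoidHom.sub_apply, ht_apply, AddMonoidHom.zero_apply] at this
      linarith
    have hK : contact S (fun v => max (v.2 : ℝ) 0) φ b = U := by
      ext w
      rw [hmem w, hφ' w, hb]
      constructor
      · rintro ⟨h1, h2⟩
        have h3 : (0 : ℝ) ≤ (w.2 : ℝ) := by
          rw [add_zero] at h2
          rw [h2]
          exact le_max_right _ _
        have h4 : 0 ≤ w.2 := by exact_mod_cast h3
        rcases (hS w).1 h1 with h | h
        · exact h
        · have h5 : w.2 = 0 := le_antisymm (hL w h) h4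
          have h6 := (hB w.1 (hLB w h)).1
          have h7 : w = (w.1, (0 : ℤ)) := Prod.ext rfl h5
          rw [h7]
          exact h6
      · intro h
        refine ⟨(hS w).2 (Or.inl h), ?_⟩
        have h3 : (0 : ℝ) ≤ (w.2 : ℝ) := by exact_mod_cast hU w h
        rw [max_eq_left h3, add_zero]
    rw [hK]
    exact hGU
  · push Not at hpos
    have hz := hsp φ b (by
      intro w hw
      obtain ⟨h1, h2⟩ := (hmem w).1 hw
      have h3 : (w.2 : ℝ) ≤ 0 := by exact_mod_cast hpos w hw
      rw [max_eq_right h3] at h2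
      exact h2)
    obtain ⟨hφ, hb⟩ := hz
    have hK : contact S (fun v => max (v.2 : ℝ) 0) φ b = L := by
      ext w
      rw [hmem w, hφ, hb]
      constructor
      · rintro ⟨h1, h2⟩
        have h3 : (w.2 : ℝ) ≤ 0 := by
          rw [add_zero, AddMonoidHom.zero_apply] at h2
          rw [h2]
          exact le_max_left _ _
        have h4 : w.2 ≤ 0 := by exact_mod_cast h3
        rcases (hS w).1 h1 with h | h
        · have h5 : w.2 = 0 := le_antisymm h4 (hU w h)
          have h6 := (hB w.1 (hUB w h)).2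
          have h7 : w = (w.1, (0 : ℤ)) := Prod.ext rfl h5
          rw [h7]
          exact h6
        · exact h
      · intro h
        refine ⟨(hS w).2 (Or.inr h), ?_⟩
        have h3 : (w.2 : ℝ) ≤ 0 := by exact_mod_cast hL w h
        rw [max_eq_right h3, add_zero, AddMonoidHom.zero_apply]
    rw [hK]
    exact hGL

end Pool.Agent.LHU
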