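import Pool.Agent.LHU.Stmts

set_option autoImplicit false

/-!
Marks of the attached cells, from the old cell.
-/

namespace Pool.Agent.LHU

open Pool.Agent.LHT

open Classical in
theorem ha1_proof : Stmt_HA1 := by
  intro Λ Γ _ _ S α τ r o ζ e cc al γ hal hr hγ hτ
  obtain ⟨v, hv, u, hu⟩ := hγ
  obtain ⟨z0, hz0, u', hu'⟩ := hτ
  unfold Has attC
  by_cases hva : v = α
  · refine ⟨(posn o ζ e (al α) z0, z0), ?_, (u + (ζ u') • al α, u'), ?_⟩
    · rw [Finset.mem_union]
      right
      rw [Finset.mem_image]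
      exact ⟨z0, hz0, rfl⟩
    · apply Prod.ext
      · show posn o ζ e (al α) z0 = γ + (2 : ℤ) • (u + (ζ u') • al α)
        unfold posn
        have h1 : ζ z0 = ζ r + 2 * ζ u' := by
          rw [hu', map_add, map_zsmul, smul_eq_mul]
        have h2 : ζ z0 + e = cc + 2 * ζ u' := by
          rw [h1, ← hr]
          ring
        rw [h2, add_smul, hal, mul_smul, smul_add, ← hva, hu]
        abel
      · exact hu'
  · refine ⟨(v, r), ?_, (u, 0), ?_⟩
    · rw [Finset.mem_union]
      left
      rw [Finset.mem_image]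
      exact ⟨v, Finset.mem_erase.mpr ⟨hva, hv⟩, rfl⟩
    · apply Prod.ext
      · exact hu
      · show r = r + (2 : ℤ) • (0 : Γ)
        rw [smul_zero, add_zero]

end Pool.Agent.LHU
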