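import Pool.Agent.LHU.Stmts

set_option autoImplicit false

/-!
Module HUL: the vertices of the lecture hall simplex span the hull.
-/

namespace Pool.Agent.LHU.HUL_

open Pool.Agent.LHT

variable {n : ℕ}

/-- lattice points as convex combinations of the vertices, evaluated with a homomorphism -/
theorem comb (s : Fin n → ℕ) (hs : ∀ i, 0 < s i) (z : Fin n → ℤ) (hz : z ∈ LH s) :
    ∃ w : ℕ → ℝ, (∀ k, 0 ≤ w k) ∧ ∑ k ∈ Finset.range (n + 1), w k = 1 ∧
      ∀ χ : (Fin n → ℤ) →+ ℝ, χ z = ∑ k ∈ Finset.range (n + 1), w k * χ (vtx s k) := by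
  have hsr : ∀ i, (0 : ℝ) < (s i : ℝ) := fun i => by exact_mod_cast hs i
  have hx : lat z ∈ simplex s := (lat_mem hs z).mpr hz
  refine ⟨fun k => rat s (lat z) (k + 1) - rat s (lat z) k, ?_, ?_, ?_⟩
  · intro k
    have := rat_mono s (lat z) hx k
    show 0 ≤ rat s (lat z) (k + 1) - rat s (lat z) k
    linarith
  · rw [Finset.sum_range_sub]
    show (if h : n < n then lat z ⟨n, h⟩ / s ⟨n, h⟩ else 1) - 0 = 1
    rw [dif_neg (lt_irrefl n)]
    ring
  · intro χ
    have hco : ∀ i : Fin n, (z i : ℝ)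
        = ∑ k ∈ Finset.range (n + 1), (rat s (lat z) (k + 1) - rat s (lat z) k) *
          ((vtx s k i : ℤ) : ℝ) := by
      intro i
      have h1 : ∀ k ∈ Finset.range (n + 1), (rat s (lat z) (k + 1) - rat s (lat z) k) *
          ((vtx s k i : ℤ) : ℝ)
          = if k ≤ (i : ℕ) then (rat s (lat z) (k + 1) - rat s (lat z) k) * (s i : ℝ) else 0 := by
        intro k _
        show (rat s (lat z) (k + 1) - rat s (lat z) k) *
          (((if k ≤ (i : ℕ) then (s i : ℤ) else 0) : ℤ) : ℝ) = _
        split_ifs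
        · push_cast
          rfl
        · simp
      rw [Finset.sum_congr rfl h1, ← Finset.sum_filter]
      have h2 : (Finset.range (n + 1)).filter (fun k => k ≤ (i : ℕ)) = Finset.range ((i : ℕ) + 1) := by
        ext k
        rw [Finset.mem_filter, Finset.mem_range, Finset.mem_range]
        have := i.2
        omega
      rw [h2, ← Finset.sum_mul, Finset.sum_range_sub]
      have h3 : rat s (lat z) ((i : ℕ) + 1) = (z i : ℝ) / s i := by
        show (if h : (i : ℕ) < n then lat z ⟨i, h⟩ / s ⟨i, h⟩ else 1) = _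
        rw [dif_pos i.2]
        rfl
      have h4 : rat s (lat z) 0 = 0 := rfl
      rw [h3, h4, sub_zero, div_mul_cancel₀]
      exact (hsr i).ne'
    have hz1 := hom_sum_real χ z
    rw [hz1]
    have hrhs : ∀ k ∈ Finset.range (n + 1),
        (rat s (lat z) (k + 1) - rat s (lat z) k) * χ (vtx s k)
        = ∑ j, χ (Pi.single j 1) * ((rat s (lat z) (k + 1) - rat s (lat z) k) *
          ((vtx s k j : ℤ) : ℝ)) := by
      intro k _
      rw [hom_sum_real χ (vtx s k), Finset.mul_sum]
      apply Finset.sum_congr rfl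
      intro j _
      ring
    show _ = ∑ k ∈ Finset.range (n + 1), (rat s (lat z) (k + 1) - rat s (lat z) k) * χ (vtx s k)
    rw [Finset.sum_congr rfl hrhs, Finset.sum_comm]
    apply Finset.sum_congr rfl
    intro j _
    rw [hco j, Finset.mul_sum]

end Pool.Agent.LHU.HUL_

namespace Pool.Agent.LHU

open Pool.Agent.LHT

theorem hul_proof : Stmt_HUL := by
  intro n s hs V hV z hz χ d hχ
  obtain ⟨w, hw0, hw1, hw2⟩ := HUL_.comb s hs z hz
  rw [hw2 χ]
  have h1 : ∑ k ∈ Finset.range (n + 1), w k * χ (vtx s k) + d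
      = ∑ k ∈ Finset.range (n + 1), w k * (χ (vtx s k) + d) := by
    have : ∑ k ∈ Finset.range (n + 1), w k * (χ (vtx s k) + d)
        = ∑ k ∈ Finset.range (n + 1), w k * χ (vtx s k)
          + (∑ k ∈ Finset.range (n + 1), w k) * d := by
      rw [Finset.sum_mul, ← Finset.sum_add_distrib]
      apply Finset.sum_congr rfl
      intro k _
      ring
    rw [this, hw1, one_mul]
  rw [h1]
  apply Finset.sum_nonneg
  intro k _
  exact mul_nonneg (hw0 k) (hχ _ (hV k))

end Pool.Agent.LHU
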