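import Pool.Agent.LHU.Stmts

set_option autoImplicit false

/-!
Insertion of a common multiple of the neighbours, with marks.
-/

namespace Pool.Agent.LHU

open Pool.Agent.LHT

namespace INS_

/-- generic offsets -/
lemma exists_theta {Y : Type} (B : Finset Y) : ∃ (θ : Y → ℝ) (ε : ℝ), 0 < ε ∧ ε < 1 / 9 ∧
    (∀ y ∈ B, 1 / 3 ≤ θ y ∧ θ y < 2 / 3) ∧
    ∀ y ∈ B, ∀ y' ∈ B, y ≠ y' → 3 * ε < |θ y - θ y'| := by
  classical
  set e := B.equivFin with he
  set N : ℝ := (B.card : ℝ) + 1 with hN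
  have hN1 : 1 ≤ N := by
    rw [hN]
    have : (0 : ℝ) ≤ (B.card : ℝ) := Nat.cast_nonneg _
    linarith
  have hN0 : 0 < N := by linarith
  refine ⟨fun y => if h : y ∈ B then 1 / 3 + ((e ⟨y, h⟩ : ℕ) : ℝ) / (3 * N) else 0,
    1 / (10 * N), by positivity, ?_, ?_, ?_⟩
  · rw [div_lt_div_iff₀ (by positivity) (by norm_num)]
    linarith
  · intro y hy
    simp only [dif_pos hy]
    have h1 : ((e ⟨y, hy⟩ : ℕ) : ℝ) < B.card := by exact_mod_cast (e ⟨y, hy⟩).2
    have h2 : (0 : ℝ) ≤ ((e ⟨y, hy⟩ : ℕ) : ℝ) := Nat.cast_nonneg _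
    have h3 : ((e ⟨y, hy⟩ : ℕ) : ℝ) / (3 * N) < 1 / 3 := by
      rw [div_lt_div_iff₀ (by positivity) (by norm_num)]
      linarith
    have h4 : 0 ≤ ((e ⟨y, hy⟩ : ℕ) : ℝ) / (3 * N) := by positivity
    constructor <;> linarith
  · intro y hy y' hy' hne
    simp only [dif_pos hy, dif_pos hy']
    have h1 : (e ⟨y, hy⟩ : ℕ) ≠ (e ⟨y', hy'⟩ : ℕ) := by
      intro h
      have h5 := e.injective (Fin.ext h)
      exact hne (congrArg Subtype.val h5)
    have h2 : (1 : ℝ) ≤ |((e ⟨y, hy⟩ : ℕ) : ℝ) - ((e ⟨y', hy'⟩ : ℕ) : ℝ)| := by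
      have h3 : (1 : ℤ) ≤ |((e ⟨y, hy⟩ : ℕ) : ℤ) - ((e ⟨y', hy'⟩ : ℕ) : ℤ)| := by
        apply Int.one_le_abs
        intro h4
        apply h1
        omega
      exact_mod_cast h3
    have h3 : (1 / 3 + ((e ⟨y, hy⟩ : ℕ) : ℝ) / (3 * N)) -
        (1 / 3 + ((e ⟨y', hy'⟩ : ℕ) : ℝ) / (3 * N)) =
        (((e ⟨y, hy⟩ : ℕ) : ℝ) - ((e ⟨y', hy'⟩ : ℕ) : ℝ)) * (1 / (3 * N)) := by ring
    rw [h3, abs_mul, abs_of_pos (show (0 : ℝ) < 1 / (3 * N) by positivity)]
    have h4 : 3 * (1 / (10 * N)) < 1 * (1 / (3 * N)) := by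
      rw [one_mul, ← mul_div_assoc, mul_one, div_lt_div_iff₀ (by positivity) (by positivity)]
      nlinarith
    refine lt_of_lt_of_le h4 ?_
    exact mul_le_mul_of_nonneg_right h2 (by positivity)

/-- separation -/
lemma sep (a j : ℤ) (θv θp ε δ : ℝ) (hε : ε < 1 / 9) (hv : 1 / 3 ≤ θv ∧ θv < 2 / 3)
    (hp : 1 / 3 ≤ θp ∧ θp < 2 / 3) (h3 : 3 * ε < |θp - θv|) (hδ : |δ| ≤ ε)
    (h1 : (a : ℝ) + θv - ε < j + θp + δ) (h2 : (j : ℝ) + θp + δ < a + θv + ε) : False := by
  obtain ⟨d1, d2⟩ := abs_le.mp hδ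
  have h4 : ((j - a : ℤ) : ℝ) < 1 := by
    push_cast
    linarith [hv.1, hv.2, hp.1, hp.2]
  have h5 : (-1 : ℝ) < ((j - a : ℤ) : ℝ) := by
    push_cast
    linarith [hv.1, hv.2, hp.1, hp.2]
  have h6 : j - a < 1 := by exact_mod_cast h4
  have h7 : -1 < j - a := by exact_mod_cast h5
  have h8 : j = a := by omega
  rw [h8] at h1 h2
  have h9 : |θp - θv| < 3 * ε := by
    rw [abs_lt]
    constructor <;> linarith
  linarith

open Classical in
/-- slopes -/
noncomputable def kap (P0 PU : Prop) (m t : ℤ) (θ ε : ℝ) : ℝ :=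
  if P0 then (if Even t then (t : ℝ) + 1 + θ - ε else (t : ℝ) + θ)
  else if PU then (if Even (t - m) then (t : ℝ) + θ else (t : ℝ) - 1 + θ + ε)
  else (t : ℝ) + θ

lemma kap_form (P0 PU : Prop) (m t : ℤ) (θ ε : ℝ) (hε : 0 < ε) :
    ∃ (j : ℤ) (δ : ℝ), kap P0 PU m t θ ε = j + θ + δ ∧ |δ| ≤ ε := by
  classical
  unfold kap
  split_ifs
  · refine ⟨t + 1, -ε, ?_, ?_⟩
    · push_cast
      ring
    · rw [abs_neg, abs_of_pos hε]
  · exact ⟨t, 0, by ring, by rw [abs_zero]; exact hε.le⟩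
  · exact ⟨t, 0, by ring, by rw [abs_zero]; exact hε.le⟩
  · refine ⟨t - 1, ε, ?_, ?_⟩
    · push_cast
      ring
    · rw [abs_of_pos hε]
  · exact ⟨t, 0, by ring, by rw [abs_zero]; exact hε.le⟩

lemma kap_le (P0 PU : Prop) (m t : ℤ) (θ ε : ℝ) (hε : ε < 1 / 9) (h : ¬ P0) :
    kap P0 PU m t θ ε ≤ t + θ := by
  classical
  unfold kap
  rw [if_neg h]
  split_ifs
  · exact le_rfl
  · linarith
  · exact le_rfl

lemma kap_ge (P0 PU : Prop) (m t : ℤ) (θ ε : ℝ) (hε : ε < 1 / 9) (h : ¬ PU) :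
    (t : ℝ) + θ ≤ kap P0 PU m t θ ε := by
  classical
  unfold kap
  rw [if_neg h]
  split_ifs
  · linarith
  · exact le_rfl
  · exact le_rfl

lemma kap_mono (P0 PU : Prop) (m t : ℤ) (θ ε : ℝ) (hε0 : 0 < ε) (hε : ε < 1 / 9) :
    kap P0 PU m t θ ε < kap P0 PU m (t + 1) θ ε := by
  classical
  unfold kap
  by_cases h0 : P0
  · rw [if_pos h0, if_pos h0]
    by_cases h1 : Even t
    · rw [if_pos h1, if_neg (by rw [Int.even_add_one]; exact not_not_intro h1)]
      push_cast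
      linarith
    · rw [if_neg h1, if_pos (by rw [Int.even_add_one]; exact h1)]
      push_cast
      linarith
  · rw [if_neg h0, if_neg h0]
    by_cases hU : PU
    · rw [if_pos hU, if_pos hU]
      have e : t + 1 - m = (t - m) + 1 := by ring
      by_cases h1 : Even (t - m)
      · rw [if_pos h1, if_neg (by rw [e, Int.even_add_one]; exact not_not_intro h1)]
        push_cast
        linarith
      · rw [if_neg h1, if_pos (by rw [e, Int.even_add_one]; exact h1)]
        push_cast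
        linarith
    · rw [if_neg hU, if_neg hU]
      push_cast
      linarith

lemma kap_ne (P0 PU P0' PU' : Prop) (m t t' : ℤ) (θ θ' ε : ℝ) (hε0 : 0 < ε) (hε : ε < 1 / 9)
    (hv : 1 / 3 ≤ θ ∧ θ < 2 / 3) (hp : 1 / 3 ≤ θ' ∧ θ' < 2 / 3) (h3 : 3 * ε < |θ - θ'|) :
    kap P0 PU m t θ ε ≠ kap P0' PU' m t' θ' ε := by
  obtain ⟨j, δ, h1, h2⟩ := kap_form P0 PU m t θ ε hε0
  obtain ⟨j', δ', h1', h2'⟩ := kap_form P0' PU' m t' θ' ε hε0
  rw [h1, h1']
  intro h
  obtain ⟨d1, d2⟩ := abs_le.mp h2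
  obtain ⟨d3, d4⟩ := abs_le.mp h2'
  have h4 : ((j - j' : ℤ) : ℝ) < 1 := by
    push_cast
    linarith [hv.1, hv.2, hp.1, hp.2]
  have h5 : (-1 : ℝ) < ((j - j' : ℤ) : ℝ) := by
    push_cast
    linarith [hv.1, hv.2, hp.1, hp.2]
  have h6 : j - j' < 1 := by exact_mod_cast h4
  have h7 : -1 < j - j' := by exact_mod_cast h5
  have h8 : j = j' := by omega
  rw [h8] at h
  have h9 : |θ - θ'| < 3 * ε := by
    rw [abs_lt]
    constructor <;> linarith
  linarith

/-- a function with given slopes -/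
noncomputable def prim (κ : ℤ → ℝ) (t : ℤ) : ℝ := ∑ i ∈ Finset.range t.toNat, κ i

lemma prim_step (κ : ℤ → ℝ) (t : ℤ) (ht : 0 ≤ t) : prim κ (t + 1) - prim κ t = κ t := by
  unfold prim
  have h1 : (t + 1).toNat = t.toNat + 1 := by omega
  rw [h1, Finset.sum_range_succ, Int.toNat_of_nonneg ht]
  ring

section
variable {n : ℕ}

lemma al_uu (s : Fin n → ℕ) (k : Fin (n + 1)) (hk : 0 < (k : ℕ)) :
    al k (uu s) = (lft s k : ℤ) := by
  unfold al lft
  rw [dif_pos hk, dif_pos hk]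
  rfl

lemma be_uu (s : Fin n → ℕ) (k : Fin (n + 1)) :
    be k (uu s) + be0 k = (rgt s k : ℤ) := by
  unfold be be0 rgt
  by_cases hk : (k : ℕ) < n
  · rw [dif_pos hk, if_pos hk, dif_pos hk]
    show ((s ⟨k, hk⟩ : ℕ) : ℤ) + 0 = _
    ring
  · rw [dif_neg hk, if_neg hk, dif_neg hk]
    show (0 : ℤ) + 1 = ((1 : ℕ) : ℤ)
    norm_num

lemma al_zero (k : Fin (n + 1)) (hk : ¬ 0 < (k : ℕ)) (y : Fin n → ℤ) : al k y = 0 := by
  unfold al
  rw [dif_neg hk]
  rfl

lemma al_nonneg (s : Fin n → ℕ) (k : Fin (n + 1)) (y : Fin n → ℤ) (hy : y ∈ LH s) :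
    0 ≤ al k y := by
  unfold al
  split_ifs with h
  · exact ((mem_LH.mp hy).1 _).1
  · exact le_rfl

lemma be_last (s : Fin n → ℕ) (k : Fin (n + 1)) (hk : ¬ (k : ℕ) < n) (y : Fin n → ℤ) :
    be k y + be0 k = 1 ∧ rgt s k = 1 := by
  unfold be be0 rgt
  rw [dif_neg hk, if_neg hk, dif_neg hk]
  exact ⟨rfl, rfl⟩

lemma be0_zero (k : Fin (n + 1)) (hk : (k : ℕ) < n) : be0 k = 0 := by
  unfold be0
  rw [if_pos hk]

end

lemma cg_hom {Y : Type} [AddCommGroup Y] (f : Y →+ ℤ) (a b : Y) (h : Cg a b) :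
    ∃ w : ℤ, f b = f a + 2 * w := by
  obtain ⟨u, rfl⟩ := h
  refine ⟨f u, ?_⟩
  rw [map_add, map_zsmul, smul_eq_mul]

lemma cg_pair {Y : Type} [AddCommGroup Y] (a b : Y) (c d : ℤ) (h : Cg a b) (h2 : Even (d - c)) :
    Cg (a, c) (b, d) := by
  obtain ⟨u, rfl⟩ := h
  obtain ⟨w, hw⟩ := h2
  refine ⟨(u, w), ?_⟩
  apply Prod.ext
  · rfl
  · show d = c + (2 : ℤ) • w
    rw [smul_eq_mul]
    linarith

/-- the marks of the cells -/
theorem marks {n : ℕ} (k : Fin (n + 1)) (s : Fin n → ℕ) (m p' q' : ℤ) (B C : Finset (Fin n → ℤ))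
    (hB : ∀ y ∈ B, 0 ≤ al k y) (hCB : C ⊆ B) (hm1 : m = (lft s k : ℤ) * p')
    (hm2 : m = (rgt s k : ℤ) * q') (hp' : 0 ≤ p') (θ : (Fin n → ℤ) → ℝ) (ε : ℝ) (hε0 : 0 < ε)
    (hε : ε < 1 / 9) (hθ : ∀ y ∈ B, 1 / 3 ≤ θ y ∧ θ y < 2 / 3)
    (hθ2 : ∀ y ∈ B, ∀ y' ∈ B, y ≠ y' → 3 * ε < |θ y - θ y'|)
    (g : (Fin n → ℤ) → ℤ → ℝ)
    (hg : ∀ y t, 0 ≤ t → g y (t + 1) - g y t = kap (Cg 0 y) (Cg (uu s) y) m t (θ y) ε)
    (hC0 : Has 0 C) (hCU : Has (uu s) C) (K : Finset ((Fin n → ℤ) × ℤ))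
    (hK : ChC C (fun y => p' * al k y + 0) (fun y => q' * be k y + q' * be0 k) g K) :
    Has (0, 0) K ∧ Has (uu s, m) K := by
  classical
  obtain ⟨p, hp, T, h1, h2, h3, h4, h5⟩ := hK
  have hlo0 : ∀ y ∈ B, 0 ≤ p' * al k y := fun y hy => mul_nonneg hp' (hB y hy)
  have hT0 : ∀ q ∈ C, 0 ≤ T q := by
    intro q hq
    have e1 := (h3 q hq).1
    have e2 := hlo0 q (hCB hq)
    simp only at e1
    omega
  have hσ : g p (T p + 1) - g p (T p) = kap (Cg 0 p) (Cg (uu s) p) m (T p) (θ p) ε :=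
    hg p (T p) (hT0 p hp)
  set σ := g p (T p + 1) - g p (T p) with hσdef
  have hup : ∀ v ∈ C, v ≠ p → T v < q' * be k v + q' * be0 k →
      σ < kap (Cg 0 v) (Cg (uu s) v) m (T v) (θ v) ε := by
    intro v hv hvp h
    rw [← hg v (T v) (hT0 v hv)]
    exact (h4 v hv hvp).2 h
  have hdown : ∀ v ∈ C, v ≠ p → p' * al k v + 0 < T v →
      kap (Cg 0 v) (Cg (uu s) v) m (T v - 1) (θ v) ε < σ := by
    intro v hv hvp h
    have e1 := hlo0 v (hCB hv)
    rw [← hg v (T v - 1) (by omega), sub_add_cancel]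
    exact (h4 v hv hvp).1 h
  have hmemT : ∀ v ∈ C, (v, T v) ∈ K := fun v hv => (h5 _).mpr (Or.inr ⟨hv, rfl⟩)
  have hmemP : (p, T p + 1) ∈ K := (h5 _).mpr (Or.inl rfl)
  -- both parities over `p`
  have hboth : ∀ (a : Fin n → ℤ) (c : ℤ), Cg a p → Has (a, c) K := by
    intro a c ha
    by_cases he : Even (T p - c)
    · exact ⟨_, hmemT p hp, cg_pair a p c (T p) ha he⟩
    · refine ⟨_, hmemP, cg_pair a p c (T p + 1) ha ?_⟩
      have e : T p + 1 - c = (T p - c) + 1 := by ring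
      rw [e, Int.even_add_one]
      exact he
  obtain ⟨j, δ, hjδ, hδ⟩ := kap_form (Cg 0 p) (Cg (uu s) p) m (T p) (θ p) ε hε0
  have hθp := hθ p (hCB hp)
  -- mark zero
  have hmark0 : ¬ Cg 0 p → ∃ v ∈ C, Cg 0 v ∧ Even (T v) := by
    intro hp0
    obtain ⟨v, hv, hv0⟩ := hC0
    have hvp : v ≠ p := by
      rintro rfl
      exact hp0 hv0
    refine ⟨v, hv, hv0, ?_⟩
    by_contra hodd
    have hθv := hθ v (hCB hv)
    have hsepv := hθ2 p (hCB hp) v (hCB hv) (Ne.symm hvp)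
    obtain ⟨w, hw⟩ := cg_hom (al k) 0 v hv0
    rw [map_zero, zero_add] at hw
    have hlo : p' * al k v + 0 < T v := by
      have e1 := (h3 v hv).1
      simp only at e1
      rcases e1.eq_or_lt with e2 | e2
      · exfalso
        apply hodd
        rw [← e2, hw]
        exact ⟨p' * w, by ring⟩
      · exact e2
    have hd := hdown v hv hvp hlo
    have hev : Even (T v - 1) := by
      have e : T v = (T v - 1) + 1 := by ring
      rw [e, Int.even_add_one, not_not] at hodd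
      exact hodd
    unfold kap at hd
    rw [if_pos hv0, if_pos hev] at hd
    push_cast at hd
    by_cases hhi : T v < q' * be k v + q' * be0 k
    · have hu := hup v hv hvp hhi
      unfold kap at hu
      rw [if_pos hv0, if_neg hodd] at hu
      rw [hσ, hjδ] at hd hu
      exact sep (T v) j (θ v) (θ p) ε δ hε hθv hθp hsepv hδ (by linarith) (by linarith)
    · have hTv : T v = q' * be k v + q' * be0 k := le_antisymm (h3 v hv).2 (not_lt.mp hhi)
      have hkn : ¬ (k : ℕ) < n := by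
        intro hkn
        apply hodd
        obtain ⟨w', hw'⟩ := cg_hom (be k) 0 v hv0
        rw [map_zero, zero_add] at hw'
        rw [hTv, hw', be0_zero k hkn]
        exact ⟨q' * w', by ring⟩
      obtain ⟨b1, b2⟩ := be_last s k hkn v
      obtain ⟨b3, -⟩ := be_last s k hkn p
      have hqm : q' = m := by
        rw [hm2, b2]
        push_cast
        ring
      have e1 : T v = m := by
        rw [hTv, ← mul_add, b1, mul_one, hqm]
      have e2 : T p < m := by
        have e3 := h2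
        simp only at e3
        rw [← mul_add, b3, mul_one, hqm] at e3
        exact e3
      have e4 : (T p : ℝ) + 1 ≤ (m : ℝ) := by exact_mod_cast e2
      have e5 := kap_le (Cg 0 p) (Cg (uu s) p) m (T p) (θ p) ε hε hp0
      rw [e1] at hd
      rw [hσ] at hd
      linarith [hθv.1, hθp.2]
  constructor
  · by_cases hp0 : Cg 0 p
    · exact hboth 0 0 hp0
    · obtain ⟨v, hv, hv0, hev⟩ := hmark0 hp0
      exact ⟨_, hmemT v hv, cg_pair 0 v 0 (T v) hv0 (by rw [sub_zero]; exact hev)⟩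
  · by_cases hpU : Cg (uu s) p
    · exact hboth _ _ hpU
    · by_cases hz : Cg 0 (uu s)
      · -- all entries are even
        have hn : 0 < n := by
          rcases Nat.eq_zero_or_pos n with h0 | h0
          · exfalso
            apply hpU
            subst h0
            exact ⟨0, by funext i; exact i.elim0⟩
          · exact h0
        have hme : Even m := by
          by_cases hk : 0 < (k : ℕ)
          · obtain ⟨w, hw⟩ := cg_hom (al k) 0 (uu s) hz
            rw [al_uu s k hk, map_zero, zero_add] at hw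
            rw [hm1, hw]
            exact ⟨w * p', by ring⟩
          · have hkn : (k : ℕ) < n := by omega
            obtain ⟨w, hw⟩ := cg_hom (be k) 0 (uu s) hz
            have e1 := be_uu s k
            rw [be0_zero k hkn, add_zero, hw, map_zero, zero_add] at e1
            rw [hm2, ← e1]
            exact ⟨w * q', by ring⟩
        have htr : ∀ v, Cg 0 v → Cg (uu s) v := by
          rintro v ⟨u, hu⟩
          obtain ⟨u', hu'⟩ := hz
          refine ⟨u - u', ?_⟩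
          rw [hu, hu', smul_sub]
          abel
        have hp0 : ¬ Cg 0 p := fun h => hpU (htr p h)
        obtain ⟨v, hv, hv0, hev⟩ := hmark0 hp0
        exact ⟨_, hmemT v hv, cg_pair (uu s) v m (T v) (htr v hv0) (hev.sub hme)⟩
      · obtain ⟨v, hv, hvU⟩ := hCU
        have hvp : v ≠ p := by
          rintro rfl
          exact hpU hvU
        have hv0 : ¬ Cg 0 v := by
          rintro ⟨u, hu⟩
          obtain ⟨u', hu'⟩ := hvU
          apply hz
          refine ⟨u - u', ?_⟩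
          rw [smul_sub]
          have e : uu s = v - (2 : ℤ) • u' := by
            rw [hu']
            abel
          rw [e, hu]
          abel
        refine ⟨_, hmemT v hv, cg_pair (uu s) v m (T v) hvU ?_⟩
        by_contra hodd
        have hθv := hθ v (hCB hv)
        have hsepv := hθ2 p (hCB hp) v (hCB hv) (Ne.symm hvp)
        obtain ⟨w, hw⟩ := cg_hom (be k) (uu s) v hvU
        have hhi : T v < q' * be k v + q' * be0 k := by
          have e1 := (h3 v hv).2
          simp only at e1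
          rcases e1.eq_or_lt with e2 | e2
          · exfalso
            apply hodd
            rw [e2, hw]
            refine ⟨q' * w, ?_⟩
            have e3 := be_uu s k
            have e4 : q' * (be k (uu s) + 2 * w) + q' * be0 k - m =
              q' * (be k (uu s) + be0 k) - m + 2 * (q' * w) := by ring
            rw [e4, e3, hm2]
            ring
          · exact e2
        have hu := hup v hv hvp hhi
        unfold kap at hu
        rw [if_neg hv0, if_pos hvU, if_neg hodd] at hu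
        by_cases hlo : p' * al k v + 0 < T v
        · have hd := hdown v hv hvp hlo
          have hev : Even (T v - 1 - m) := by
            have e : T v - m = (T v - 1 - m) + 1 := by ring
            rw [e, Int.even_add_one, not_not] at hodd
            exact hodd
          unfold kap at hd
          rw [if_neg hv0, if_pos hvU, if_pos hev] at hd
          rw [hσ, hjδ] at hd hu
          push_cast at hd
          exact sep (T v - 1) j (θ v) (θ p) ε δ hε hθv hθp hsepv hδ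
            (by push_cast; linarith) (by push_cast; linarith)
        · have hTv : T v = p' * al k v + 0 := le_antisymm (not_lt.mp hlo) (h3 v hv).1
          have hk : ¬ 0 < (k : ℕ) := by
            intro hk
            apply hodd
            obtain ⟨w', hw'⟩ := cg_hom (al k) (uu s) v hvU
            rw [al_uu s k hk] at hw'
            rw [hTv, hw', hm1]
            exact ⟨p' * w', by ring⟩
          have e1 : T v = 0 := by
            rw [hTv, al_zero k hk]
            ring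
          have e2 : (0 : ℝ) ≤ (T p : ℝ) := by exact_mod_cast hT0 p hp
          have e3 := kap_ge (Cg 0 p) (Cg (uu s) p) m (T p) (θ p) ε hε hpU
          rw [e1, hσ] at hu
          push_cast at hu
          linarith [hθp.1, hθv.2]

end INS_

open INS_

theorem ins_proof (hCHL : Stmt_CHL) (hCHS : Stmt_CHS) (hUSI : Stmt_USI) (hTRA : Stmt_TRA) :
    Stmt_INS := by
  classical
  intro n k s m hs hm hdvd hlr
  obtain ⟨ωB, hωB⟩ := hlr
  have hlp := lft_pos hs k
  have hrp := rgt_pos hs k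
  obtain ⟨p', hp'⟩ := dvd_trans (Nat.dvd_lcm_left (lft s k) (rgt s k)) hdvd
  obtain ⟨q', hq'⟩ := dvd_trans (Nat.dvd_lcm_right (lft s k) (rgt s k)) hdvd
  have hm1 : (m : ℤ) = (lft s k : ℤ) * (p' : ℤ) := by exact_mod_cast hp'
  have hm2 : (m : ℤ) = (rgt s k : ℤ) * (q' : ℤ) := by exact_mod_cast hq'
  obtain ⟨θ, ε, hε0, hε, hθ, hθ2⟩ := exists_theta (LH s)
  let lo : (Fin n → ℤ) →+ ℤ := (AddMonoidHom.mulLeft (p' : ℤ)).comp (al k)
  let hi : (Fin n → ℤ) →+ ℤ := (AddMonoidHom.mulLeft (q' : ℤ)).comp (be k)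
  have hlo : ∀ y, lo y = (p' : ℤ) * al k y := fun y => rfl
  have hhi : ∀ y, hi y = (q' : ℤ) * be k y := fun y => rfl
  let g : (Fin n → ℤ) → ℤ → ℝ := fun y =>
    prim (fun t => kap (Cg 0 y) (Cg (uu s) y) m t (θ y) ε)
  have hg : ∀ y t, 0 ≤ t → g y (t + 1) - g y t = kap (Cg 0 y) (Cg (uu s) y) m t (θ y) ε :=
    fun y t ht => prim_step _ t ht
  have hlo0 : ∀ y ∈ LH s, 0 ≤ lo y + 0 := by
    intro y hy
    rw [hlo, add_zero]
    exact mul_nonneg (Int.natCast_nonneg _) (al_nonneg s k y hy)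
  have hlpz : (0 : ℤ) < (lft s k : ℤ) := by exact_mod_cast hlp
  have hrpz : (0 : ℤ) < (rgt s k : ℤ) := by exact_mod_cast hrp
  obtain ⟨M₀, hM⟩ := hCHL (Fin n → ℤ) (LH s) ωB (MU 0 (uu s)) lo hi 0 ((q' : ℤ) * be0 k) g
    (fun φ b h1 h2 => ⟨hUSI _ _ (hωB φ b h1 h2).1, hωB φ b h1 h2⟩)
    (by
      intro y hy
      rw [hlo, hhi, add_zero, ← mul_add]
      have h1 := hab_LH k s y hy
      rw [add_zero] at h1
      have h2 : 0 ≤ ((lft s k : ℤ) * (rgt s k : ℤ)) *
          ((q' : ℤ) * (be k y + be0 k) - (p' : ℤ) * al k y) := by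
        have e : ((lft s k : ℤ) * (rgt s k : ℤ)) *
          ((q' : ℤ) * (be k y + be0 k) - (p' : ℤ) * al k y) =
          (m : ℤ) * ((lft s k : ℤ) * (be k y + be0 k) - (rgt s k : ℤ) * al k y) := by
          have e1 : ((lft s k : ℤ) * (rgt s k : ℤ)) *
            ((q' : ℤ) * (be k y + be0 k) - (p' : ℤ) * al k y) =
            ((rgt s k : ℤ) * (q' : ℤ)) * ((lft s k : ℤ) * (be k y + be0 k)) -
            ((lft s k : ℤ) * (p' : ℤ)) * ((rgt s k : ℤ) * al k y) := by ring
          rw [e1, ← hm1, ← hm2]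
          ring
        rw [e]
        exact mul_nonneg (Int.natCast_nonneg _) (by linarith)
      have h3 := nonneg_of_mul_nonneg_right h2 (mul_pos hlpz hrpz)
      linarith)
    (by
      intro y hy t h1 h2
      have h3 := hlo0 y hy
      rw [hg y t (by omega)]
      have e : t + 2 = (t + 1) + 1 := by ring
      rw [e, hg y (t + 1) (by omega)]
      exact kap_mono _ _ _ _ _ _ hε0 hε)
    (by
      intro y hy y' hy' hne t t' h1 _ h2 _
      have h3 := hlo0 y hy
      have h4 := hlo0 y' hy'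
      rw [hg y t (by omega), hg y' t' (by omega)]
      exact kap_ne _ _ _ _ _ _ _ _ _ _ hε0 hε (hθ y hy) (hθ y' hy') (hθ2 y hy y' hy' hne))
    (slab k m s) (by
      rintro ⟨y, t⟩
      rw [mem_slab, mem_ins k m s hs]
      show _ ↔ y ∈ LH s ∧ lo y + 0 ≤ t ∧ t ≤ hi y + (q' : ℤ) * be0 k
      rw [hlo, hhi, add_zero, add_zero, ← mul_add]
      have e1 : (m : ℤ) * al k y = (lft s k : ℤ) * ((p' : ℤ) * al k y) := by
        rw [hm1]
        ring
      have e2 : (m : ℤ) * (be k y + be0 k) = (rgt s k : ℤ) * ((q' : ℤ) * (be k y + be0 k)) := by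
        rw [hm2]
        ring
      rw [e1, e2, mul_le_mul_iff_right₀ hlpz, mul_le_mul_iff_right₀ hrpz])
  have hfin : GLw (MU ((0 : Fin n → ℤ), (0 : ℤ)) (uu s, (m : ℤ))) (slab k m s)
      (fun v => M₀ * ωB v.1 + g v.1 v.2) := by
    intro φ b h1 h2
    obtain ⟨C, hCB, hCS, hCQ, hCh⟩ := hM M₀ le_rfl φ b h1 h2
    refine ⟨(hCHS _ C _ _ g _ hCh).2 hCQ.1, ?_⟩
    exact marks k s m p' q' (LH s) C (fun y hy => al_nonneg s k y hy) hCB hm1 hm2
      (Int.natCast_nonneg _) θ ε hε0 hε hθ hθ2 g hg hCQ.2.1 hCQ.2.2 _ hCh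
  obtain ⟨ω', hω'⟩ := hTRA ((Fin n → ℤ) × ℤ) (Fin (n + 1) → ℤ) (insE k) 0 (slab k m s)
    (LH (insS k m s)) (by
      intro v
      rw [add_zero, mem_slab]) _ _ _ hfin
  refine ⟨ω', ?_⟩
  have e1 : insE k ((0 : Fin n → ℤ), (0 : ℤ)) + 0 = 0 := by
    rw [add_zero]
    exact map_zero (insE k)
  have e2 : insE k (uu s, (m : ℤ)) + 0 = uu (insS k m s) := by
    rw [add_zero]
    funext i
    refine Fin.succAboveCases k ?_ (fun i => ?_) i
    · rw [insE_same]
      show (m : ℤ) = ((insS k m s k : ℕ) : ℤ)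
      rw [insS_same]
    · rw [insE_succ]
      show ((s i : ℕ) : ℤ) = ((insS k m s (k.succAbove i) : ℕ) : ℤ)
      rw [insS_succ]
  rw [e1, e2] at hω'
  exact hω'

end Pool.Agent.LHU
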