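import Pool.Agent.LHU.Stmts

set_option autoImplicit false

/-!
Simplices of type K are affinely independent.
-/

namespace Pool.Agent.LHU

open Pool.Agent.LHT

theorem ksi_proof : Stmt_KSI := by
  classical
  intro Λ _ V C hK
  obtain ⟨ψ, c, h1, -⟩ := hK
  intro p hp
  refine ⟨(AddMonoidHom.mulLeft (1 / 2 : ℝ)).comp ((Int.castAddHom ℝ).comp (ψ p)),
    (c p : ℝ) / 2, ?_, ?_⟩
  · have h := h1 p hp p hp
    rw [if_pos rfl] at h
    have h' : ((ψ p p : ℤ) : ℝ) + (c p : ℝ) = 2 := by exact_mod_cast h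
    simp only [AddMonoidHom.comp_apply, AddMonoidHom.coe_mulLeft, Int.coe_castAddHom]
    linarith
  · intro q hq hqp
    have h := h1 p hp q hq
    rw [if_neg (fun e => hqp e.symm)] at h
    have h' : ((ψ p q : ℤ) : ℝ) + (c p : ℝ) = 0 := by exact_mod_cast h
    simp only [AddMonoidHom.comp_apply, AddMonoidHom.coe_mulLeft, Int.coe_castAddHom]
    linarith

end Pool.Agent.LHU
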