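import Pool.Agent.LHU.Stmts

set_option autoImplicit false

/-!
Module LCA: lists and functions.
-/

namespace Pool.Agent.LHU

open Pool.Agent.LHT

theorem lca_proof : Stmt_LCA := by
  intro n s l h hs
  subst h
  have e : s = fun i : Fin l.length => l.get i := by
    funext i
    exact hs i
  rw [e]
  exact Iff.rfl

end Pool.Agent.LHU
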