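import Pool.Agent.LHU.Stmts

set_option autoImplicit false
set_option linter.all false

/-!
Structures of type K in dimension one.
-/

namespace Pool.Agent.LHU

open Pool.Agent.LHT

namespace LIN_

theorem eq_pt1 (v : Fin 1 → ℤ) : v = pt1 (v 0) := by
  funext i
  have : i = 0 := Subsingleton.elim _ _
  rw [this]
  rfl

theorem pt1_inj {a b : ℤ} (h : pt1 a = pt1 b) : a = b := congrFun h 0

theorem pt1_smul (t : ℤ) : pt1 t = t • pt1 1 := by
  funext i
  simp [pt1]

/-- evaluation -/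
def ev : (Fin 1 → ℤ) →+ ℤ := Pi.evalAddMonoidHom (fun _ => ℤ) 0

theorem ev_apply (v : Fin 1 → ℤ) : ev v = v 0 := rfl

theorem phi_pt1 (φ : (Fin 1 → ℤ) →+ ℝ) (v : Fin 1 → ℤ) : φ v = ((v 0 : ℤ) : ℝ) * φ (pt1 1) := by
  conv_lhs => rw [eq_pt1 v, pt1_smul (v 0)]
  rw [map_zsmul, zsmul_eq_mul]

open Classical in
theorem kay_pair (V : Finset (Fin 1 → ℤ)) (t d m : ℤ) (hd : 0 < d) (hm0 : 0 < m) (hm : m * d = 2)
    (hV : ∀ v ∈ V, t ≤ v 0 → v 0 ≤ t + d → v 0 = t ∨ v 0 = t + d) :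
    Kay V {pt1 t, pt1 (t + d)} := by
  have hne : pt1 t ≠ pt1 (t + d) := by
    intro h
    have := pt1_inj h
    omega
  have hne' : pt1 (t + d) ≠ pt1 t := fun h => hne h.symm
  let ψ : (Fin 1 → ℤ) → (Fin 1 → ℤ) →+ ℤ := fun p => if p = pt1 t then (-m) • ev else m • ev
  let c : (Fin 1 → ℤ) → ℤ := fun p => if p = pt1 t then m * (t + d) else - (m * t)
  have e1 : ∀ v, ψ (pt1 t) v + c (pt1 t) = m * (t + d - v 0) := by
    intro v
    show (if pt1 t = pt1 t then (-m) • ev else m • ev) v +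
      (if pt1 t = pt1 t then m * (t + d) else - (m * t)) = _
    rw [if_pos rfl, if_pos rfl]
    show (-m) • (ev v) + _ = _
    rw [ev_apply, smul_eq_mul]
    ring
  have e2 : ∀ v, ψ (pt1 (t + d)) v + c (pt1 (t + d)) = m * (v 0 - t) := by
    intro v
    show (if pt1 (t + d) = pt1 t then (-m) • ev else m • ev) v +
      (if pt1 (t + d) = pt1 t then m * (t + d) else - (m * t)) = _
    rw [if_neg hne', if_neg hne']
    show m • (ev v) + _ = _
    rw [ev_apply, smul_eq_mul]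
    ring
  refine ⟨ψ, c, ?_, ?_, ?_, ?_, ?_⟩
  · intro p hp q hq
    rw [Finset.mem_insert, Finset.mem_singleton] at hp hq
    rcases hp with rfl | rfl <;> rcases hq with rfl | rfl
    · rw [e1, if_pos rfl]
      show m * (t + d - t) = 2
      linear_combination hm
    · rw [e1, if_neg hne]
      show m * (t + d - (t + d)) = 0
      ring
    · rw [e2, if_neg hne']
      show m * (t - t) = 0
      ring
    · rw [e2, if_pos rfl]
      show m * (t + d - t) = 2
      linear_combination hm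
  · intro v
    rw [Finset.sum_pair hne, e1, e2]
    linear_combination hm
  · intro v
    rw [Finset.sum_pair hne, e1, e2]
    funext i
    have hi : i = 0 := Subsingleton.elim _ _
    subst hi
    show m * (t + d - v 0) * t + m * (v 0 - t) * (t + d) = 2 * v 0
    linear_combination (v 0) * hm
  · intro f hf v
    rw [Finset.sum_pair hne, e1, e2]
    have hd2 : d = 1 ∨ d = 2 := by
      have h1 : d ≤ 2 := by nlinarith
      omega
    rcases hd2 with rfl | rfl
    · have hm2 : m = 2 := by linarith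
      subst hm2
      have h2 : ((2 : ℤ) : ZMod 2) = 0 := by decide
      push_cast
      have h3 : (2 : ZMod 2) = 0 := by decide
      rw [h3]
      ring
    · have hm1 : m = 1 := by linarith
      subst hm1
      have hcg : Cg (pt1 t) (pt1 (t + 2)) := by
        refine ⟨pt1 1, ?_⟩
        funext i
        show t + 2 = t + 2 * 1
        ring
      have hff : f (pt1 t) = f (pt1 (t + 2)) := hf _ (by simp) _ (by simp) hcg
      rw [← hff]
      push_cast
      have h3 : (2 : ZMod 2) = 0 := by decide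
      have h4 : (1 * ((t : ZMod 2) + 2 - (v 0 : ZMod 2)) * f (pt1 t) +
        1 * ((v 0 : ZMod 2) - (t : ZMod 2)) * f (pt1 t)) = 2 * f (pt1 t) := by ring
      rw [h4, h3, zero_mul]
  · intro v hv h0
    have h1 := h0 (pt1 t) (by simp)
    have h2 := h0 (pt1 (t + d)) (by simp)
    rw [e1] at h1
    rw [e2] at h2
    have h3 : 0 ≤ t + d - v 0 := by
      by_contra hlt
      push Not at hlt
      nlinarith
    have h4 : 0 ≤ v 0 - t := by
      by_contra hlt
      push Not at hlt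
      nlinarith
    rw [Finset.mem_insert, Finset.mem_singleton]
    rcases hV v hv (by linarith) (by linarith) with h | h
    · left
      rw [eq_pt1 v, h]
    · right
      rw [eq_pt1 v, h]

end LIN_

open LIN_ in
open Classical in
theorem lin_proof : Stmt_LIN := by
  classical
  intro V0 h φ b hle hsp
  set K := contact (V0.image pt1) (fun v => ((v 0 : ℤ) : ℝ) ^ 2) φ b with hK
  -- membership
  have hmem : ∀ v, v ∈ K ↔ v 0 ∈ V0 ∧ ((v 0 : ℤ) : ℝ) * φ (pt1 1) + b = ((v 0 : ℤ) : ℝ) ^ 2 := by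
    intro v
    rw [hK, mem_contact, Finset.mem_image, phi_pt1 φ v]
    constructor
    · rintro ⟨⟨t, ht, rfl⟩, h2⟩
      exact ⟨ht, h2⟩
    · rintro ⟨h1, h2⟩
      exact ⟨⟨v 0, h1, (eq_pt1 v).symm⟩, h2⟩
  have hle' : ∀ t ∈ V0, (t : ℝ) * φ (pt1 1) + b ≤ (t : ℝ) ^ 2 := by
    intro t ht
    have h1 := hle (pt1 t) (Finset.mem_image_of_mem _ ht)
    rw [phi_pt1 φ (pt1 t)] at h1
    exact h1
  -- two contact points
  have htwo : ∃ t1 t2 : ℤ, t1 < t2 ∧ pt1 t1 ∈ K ∧ pt1 t2 ∈ K := by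
    by_contra hcon
    push Not at hcon
    -- all elements of K are equal
    have hall : ∃ t1 : ℤ, ∀ v ∈ K, v 0 = t1 := by
      rcases K.eq_empty_or_nonempty with hE | ⟨v1, hv1⟩
      · refine ⟨0, ?_⟩
        intro v hv
        rw [hE] at hv
        simp at hv
      · refine ⟨v1 0, ?_⟩
        intro v hv
        rcases lt_trichotomy (v 0) (v1 0) with h1 | h1 | h1
        · exact absurd (by rw [← eq_pt1]; exact hv1) (hcon (v 0) (v1 0) h1 (by rw [← eq_pt1]; exact hv))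
        · exact h1
        · exact absurd (by rw [← eq_pt1]; exact hv) (hcon (v1 0) (v 0) h1 (by rw [← eq_pt1]; exact hv1))
    obtain ⟨t1, ht1⟩ := hall
    have h1 := hsp ((Int.castAddHom ℝ).comp ev) (-(t1 : ℝ)) (by
      intro v hv
      show ((ev v : ℤ) : ℝ) + -(t1 : ℝ) = 0
      rw [ev_apply, ht1 v hv]
      ring)
    have h2 : ((Int.castAddHom ℝ).comp ev) (pt1 1) = 0 := by
      rw [h1.1]
      rfl
    have h3 : ((ev (pt1 1) : ℤ) : ℝ) = 0 := h2
    rw [ev_apply] at h3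
    have h4 : ((1 : ℤ) : ℝ) = 0 := h3
    norm_num at h4
  obtain ⟨t1, t2, hlt, hk1, hk2⟩ := htwo
  obtain ⟨hv1, he1⟩ := (hmem _).1 hk1
  obtain ⟨hv2, he2⟩ := (hmem _).1 hk2
  change t1 ∈ V0 at hv1
  change t2 ∈ V0 at hv2
  change (t1 : ℝ) * φ (pt1 1) + b = (t1 : ℝ) ^ 2 at he1
  change (t2 : ℝ) * φ (pt1 1) + b = (t2 : ℝ) ^ 2 at he2
  have hlt' : (t1 : ℝ) < (t2 : ℝ) := by exact_mod_cast hlt
  have hs : φ (pt1 1) = (t1 : ℝ) + t2 := by
    have h1 : ((t2 : ℝ) - t1) * (φ (pt1 1) - (t1 + t2)) = 0 := by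
      linear_combination he2 - he1
    rcases mul_eq_zero.1 h1 with h2 | h2
    · linarith
    · linarith
  have hb : b = - ((t1 : ℝ) * t2) := by
    rw [hs] at he1
    linear_combination he1
  have hpos : ∀ t ∈ V0, 0 ≤ (t - t1) * (t - t2) := by
    intro t ht
    have h1 := hle' t ht
    rw [hs, hb] at h1
    have h2 : (0 : ℝ) ≤ ((t : ℝ) - t1) * ((t : ℝ) - t2) := by nlinarith
    exact_mod_cast h2
  have hzero : ∀ v, v ∈ K ↔ v 0 ∈ V0 ∧ (v 0 = t1 ∨ v 0 = t2) := by
    intro v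
    rw [hmem, hs, hb]
    constructor
    · rintro ⟨h1, h2⟩
      refine ⟨h1, ?_⟩
      have h3 : (((v 0 : ℤ) : ℝ) - t1) * (((v 0 : ℤ) : ℝ) - t2) = 0 := by linear_combination - h2
      have h4 : (v 0 - t1) * (v 0 - t2) = 0 := by exact_mod_cast h3
      rcases mul_eq_zero.1 h4 with h5 | h5
      · left; omega
      · right; omega
    · rintro ⟨h1, h2⟩
      refine ⟨h1, ?_⟩
      rcases h2 with h2 | h2 <;> rw [h2] <;> ring
  have hKeq : K = {pt1 t1, pt1 t2} := by
    ext v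
    rw [hzero, Finset.mem_insert, Finset.mem_singleton]
    constructor
    · rintro ⟨-, h2 | h2⟩
      · left; rw [eq_pt1 v, h2]
      · right; rw [eq_pt1 v, h2]
    · rintro (rfl | rfl)
      · exact ⟨hv1, Or.inl rfl⟩
      · exact ⟨hv2, Or.inr rfl⟩
  have hVc : ∀ v ∈ V0.image pt1, t1 ≤ v 0 → v 0 ≤ t2 → v 0 = t1 ∨ v 0 = t2 := by
    intro v hv h1 h2
    obtain ⟨t, ht, rfl⟩ := Finset.mem_image.1 hv
    change t1 ≤ t at h1
    change t ≤ t2 at h2
    show t = t1 ∨ t = t2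
    by_contra hne
    push Not at hne
    have h3 := hpos t ht
    have h4 : 0 < t - t1 := by omega
    have h5 : t - t2 < 0 := by omega
    nlinarith
  show Kay (V0.image pt1) K ∧ ∃ t ∈ V0,
      (t + 1 ∈ V0 ∧ K = {pt1 t, pt1 (t + 1)}) ∨
      (t + 1 ∉ V0 ∧ t + 2 ∈ V0 ∧ K = {pt1 t, pt1 (t + 2)})
  rw [hKeq]
  by_cases h1 : t1 + 1 ∈ V0
  · have h2 := hpos _ h1
    have h3 : t2 = t1 + 1 := by
      have : 0 ≤ t1 + 1 - t2 := by nlinarith
      omega
    subst h3
    refine ⟨kay_pair _ t1 1 2 (by norm_num) (by norm_num) (by norm_num) hVc, t1, hv1, Or.inl ⟨h1, rfl⟩⟩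
  · have h2 : t1 + 2 ∈ V0 := by
      rcases h t1 hv1 ⟨t2, hv2, hlt⟩ with h3 | h3
      · exact absurd h3 h1
      · exact h3
    have h3 := hpos _ h2
    have h4 : t2 = t1 + 2 := by
      have : 0 ≤ t1 + 2 - t2 := by nlinarith
      have h5 : t2 ≠ t1 + 1 := by
        rintro rfl
        exact h1 hv2
      omega
    subst h4
    refine ⟨kay_pair _ t1 2 1 (by norm_num) (by norm_num) (by norm_num) hVc, t1, hv1,
      Or.inr ⟨h1, h2, rfl⟩⟩

end Pool.Agent.LHU
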