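import Pool.Agent.LHU.Stmts

set_option autoImplicit false

/-!
Module MDL: the lecture hall simplex is closed under midpoints.
-/

namespace Pool.Agent.LHU

open Pool.Agent.LHT

theorem mdl_proof : Stmt_MDL := by
  intro n s v hv v' hv' w hw
  rw [mem_LH] at hv hv' ⊢
  have h : ∀ i, v i + v' i = 2 * w i := by
    intro i
    have := congrFun hw i
    simpa using this
  refine ⟨fun i => ⟨?_, ?_⟩, fun i j hij => ?_⟩
  · have h1 := (hv.1 i).1
    have h2 := (hv'.1 i).1
    have h3 := h i
    omega
  · have h1 := (hv.1 i).2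
    have h2 := (hv'.1 i).2
    have h3 := h i
    omega
  · have h1 := hv.2 i j hij
    have h2 := hv'.2 i j hij
    have h3 : (v i + v' i) * (s j : ℤ) ≤ (v j + v' j) * (s i : ℤ) := by
      rw [add_mul, add_mul]
      exact add_le_add h1 h2
    rw [h i, h j, mul_assoc, mul_assoc] at h3
    omega

end Pool.Agent.LHU
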