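import Pool.Agent.LHU.MKD

set_option autoImplicit false

/-!
Admissible words and sequences with good runs belong to the class.
-/

namespace Pool.Agent.LHU

open Pool.Agent.LHT

namespace MKE_

open MKD_

theorem adm_cons {x y : ℕ} {r : List ℕ} (h : Adm (x :: y :: r)) :
    (x ≤ 3 ∨ y ≤ 3 ∨ (x ≤ 4 ∧ y ≤ 4)) ∧ Adm (y :: r) := by
  constructor
  · exact h [] r x y rfl
  · intro l1 l2 u v e
    exact h (x :: l1) l2 u v (by rw [e]; rfl)

theorem adm_mk' {x y : ℕ} {r : List ℕ} (h1 : x ≤ 3 ∨ y ≤ 3 ∨ (x ≤ 4 ∧ y ≤ 4))
    (h2 : Adm (y :: r)) : Adm (x :: y :: r) := by
  intro l1 l2 u v e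
  cases l1 with
  | nil =>
    simp only [List.nil_append, List.cons.injEq] at e
    rw [← e.1, ← e.2.1]
    exact h1
  | cons w l1 =>
    simp only [List.cons_append, List.cons.injEq] at e
    exact h2 l1 l2 u v e.2

theorem short2 (a b : ℕ) (ha : 3 ≤ a) (hb : 3 ≤ b) : Mk [a, b] := by
  apply Mk.short
  · intro x hx
    simp only [List.mem_cons, List.not_mem_nil, or_false] at hx
    omega
  · simp

theorem short1 (a : ℕ) (ha : 3 ≤ a) : Mk [a] := by
  apply Mk.short
  · intro x hx
    simp only [List.mem_cons, List.not_mem_nil, or_false] at hx
    omega
  · simp

theorem words : ∀ (N : ℕ) (l : List ℕ), l.length ≤ N → (∀ x ∈ l, 3 ≤ x) → Adm l → Mk l := by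
  intro N
  induction N with
  | zero =>
    intro l hl _ _
    have : l = [] := List.length_eq_zero_iff.mp (Nat.le_zero.mp hl)
    rw [this]
    exact Mk.short [] (by simp) (by simp)
  | succ N ih =>
    intro l hl h3 hadm
    match l, hl, h3, hadm with
    | [], _, _, _ => exact Mk.short [] (by simp) (by simp)
    | [a], _, h3, _ => exact short1 a (h3 a (by simp))
    | [a, b], _, h3, _ => exact short2 a b (h3 a (by simp)) (h3 b (by simp))
    | x :: y :: z :: r, hl, h3, hadm =>
      obtain ⟨hxy, hadm1⟩ := adm_cons hadm
      obtain ⟨hyz, hadm2⟩ := adm_cons hadm1
      have hx := h3 x (by simp)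
      have hy := h3 y (by simp)
      have hz := h3 z (by simp)
      have hr : ∀ w ∈ r, 3 ≤ w := fun w hw => h3 w (by simp [hw])
      simp only [List.length_cons] at hl
      by_cases y3 : y = 3
      · subst y3
        apply Mk.front _ x 3 (by omega) (endOK_three x)
        apply ih _ (by simp only [List.length_cons]; omega) _ hadm1
        intro w hw
        simp only [List.mem_cons] at hw
        rcases hw with h | h | h
        · omega
        · omega
        · exact hr w h
      by_cases y5 : 5 ≤ y
      · have hx3 : x = 3 := by omega
        have hz3 : z = 3 := by omega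
        subst hx3 hz3
        have hmem : ∀ w ∈ 3 :: r, 3 ≤ w := by
          intro w hw
          simp only [List.mem_cons] at hw
          rcases hw with h | h
          · omega
          · exact hr w h
        by_cases hmod : y % 3 = 0
        · have h4 : Mk ([3] ++ (3 :: r)) := by
            apply ih _ (by simp only [List.length_append, List.length_cons, List.length_nil]; omega)
            · intro w hw
              simp only [List.mem_append, List.mem_cons, List.not_mem_nil, or_false] at hw
              rcases hw with h | h | h
              · omega
              · omega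
              · exact hr w h
            · exact adm_mk' (Or.inl le_rfl) hadm2
          exact Mk.insert [3] (3 :: r) y (by omega) (by
            show Nat.lcm 3 3 ∣ y
            rw [Nat.lcm_self]
            omega) h4
        · exact Mk.middle [] r 3 y 3 (by omega) (midOK_three y hmod) (short1 3 le_rfl)
            (ih _ (by simp only [List.length_cons]; omega) hmem hadm2)
      have y4 : y = 4 := by omega
      subst y4
      have hx34 : x = 3 ∨ x = 4 := by omega
      rcases hx34 with rfl | rfl
      · have hz34 : z = 3 ∨ z = 4 := by omega
        rcases hz34 with rfl | rfl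
        · refine Mk.middle [] r 3 4 3 (by omega) (midOK_three 4 (by norm_num)) (short1 3 le_rfl) ?_
          apply ih _ (by simp only [List.length_cons]; omega) _ hadm2
          intro w hw
          simp only [List.mem_cons] at hw
          rcases hw with h | h
          · omega
          · exact hr w h
        · cases r with
          | nil =>
            have h4 : Mk ([] ++ 4 :: [4, 3]) := Mk.insert [] [4, 3] 4 (by omega)
              (by show Nat.lcm 1 4 ∣ 4; norm_num) (short2 4 3 (by omega) (by omega))
            exact Mk.reverse [4, 4, 3] h4
          | cons w r' =>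
            obtain ⟨hzw, hadm3⟩ := adm_cons hadm2
            have hw3 := hr w (by simp)
            simp only [List.length_cons] at hl
            have hw34 : w = 3 ∨ w = 4 := by omega
            rcases hw34 with rfl | rfl
            · refine Mk.fours [] r' (short1 3 le_rfl) ?_
              exact ih _ (by simp only [List.length_cons]; omega) hr hadm3
            · have h4 : Mk ([3, 4] ++ (4 :: r')) := by
                apply ih _ (by simp only [List.length_append, List.length_cons, List.length_nil]
                               omega)
                · intro u hu
                  simp only [List.mem_append, List.mem_cons, List.not_mem_nil, or_false] at hu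
                  rcases hu with (h | h) | h | h
                  · omega
                  · omega
                  · omega
                  · exact hr u (by simp [h])
                · exact adm_mk' hxy hadm2
              exact Mk.insert [3, 4] (4 :: r') 4 (by omega) (by
                show Nat.lcm 4 4 ∣ 4
                norm_num) h4
      · have h4 : Mk ([] ++ (4 :: z :: r)) := by
          apply ih _ (by simp only [List.nil_append, List.length_cons]; omega) _ hadm1
          intro w hw
          simp only [List.nil_append, List.mem_cons] at hw
          rcases hw with h | h | h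
          · omega
          · omega
          · exact hr w h
        exact Mk.insert [] (4 :: z :: r) 4 (by omega) (by show Nat.lcm 1 4 ∣ 4; norm_num) h4

theorem link {l1 l2 : List ℕ} {b : ℕ} (hb : b = 1 ∨ b = 2) (h1 : Mk l1) (h2 : Mk l2) :
    Mk (l1 ++ b :: l2) := by
  have hb0 : 0 < b := by omega
  rcases List.eq_nil_or_concat l1 with rfl | ⟨p, a, rfl⟩
  · cases l2 with
    | nil =>
      apply Mk.short
      · intro x hx
        simp only [List.nil_append, List.mem_cons, List.not_mem_nil, or_false] at hx
        omega
      · simp
    | cons c l2 => exact Mk.front l2 b c hb0 (endOK_link b c hb) h2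
  · rw [List.concat_eq_append] at h1 ⊢
    cases l2 with
    | nil =>
      have h3 : Mk (a :: p.reverse) := by
        have := Mk.reverse _ h1
        simpa using this
      have h4 := Mk.reverse _ (Mk.front p.reverse b a hb0 (endOK_link b a hb) h3)
      simpa using h4
    | cons c l2 =>
      have h3 := Mk.middle p l2 a b c hb0 (midOK_link a b c hb) h1 h2
      simpa [List.append_assoc] using h3

end MKE_

open MKE_

/-- admissible words belong to the class -/
theorem adm_mk (l : List ℕ) (h3 : ∀ x ∈ l, 3 ≤ x) (h : Adm l) : Mk l :=
  words l.length l le_rfl h3 h

/-- sequences all of whose maximal runs of entries at least three are short, admissible or in the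
class belong to the class -/
theorem runs_mk : ∀ (N : ℕ) (l : List ℕ), l.length ≤ N → (∀ x ∈ l, 0 < x) →
    (∀ b, Run l b → b.length ≤ 2 ∨ Adm b ∨ Mk b) → Mk l := by
  intro N
  induction N with
  | zero =>
    intro l hl _ _
    have : l = [] := List.length_eq_zero_iff.mp (Nat.le_zero.mp hl)
    rw [this]
    exact Mk.short [] (by simp) (by simp)
  | succ N ih =>
    intro l hl hpos hrun
    by_cases hex : ∃ c ∈ l, c ≤ 2
    · obtain ⟨c, hc, hc2⟩ := hex
      obtain ⟨l1, l2, e⟩ := List.append_of_mem hc
      have hlen : l1.length ≤ N ∧ l2.length ≤ N := by
        rw [e, List.length_append, List.length_cons] at hl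
        omega
      have hcpos := hpos c hc
      have hp1 : ∀ x ∈ l1, 0 < x := fun x hx => hpos x (by rw [e]; simp [hx])
      have hp2 : ∀ x ∈ l2, 0 < x := fun x hx => hpos x (by rw [e]; simp [hx])
      rw [e]
      apply link (by omega)
      · exact ih l1 hlen.1 hp1 (fun b hb => hrun b (BLK_.split hc2 e (Or.inl hb)))
      · exact ih l2 hlen.2 hp2 (fun b hb => hrun b (BLK_.split hc2 e (Or.inr hb)))
    · push Not at hex
      have h3 : ∀ x ∈ l, 3 ≤ x := fun x hx => hex x hx
      have hself : Run l l := by
        refine ⟨[], [], by simp, h3, ?_, ?_⟩
        · intro l' x hx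
          have := congrArg List.length hx
          simp at this
        · intro x l' hx
          cases hx
      rcases hrun l hself with h | h | h
      · exact Mk.short l hpos h
      · exact adm_mk l h3 h
      · exact h

end Pool.Agent.LHU
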