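import Pool.Agent.LHU.Stmts

set_option autoImplicit false

/-!
Two odd entries: the triangulation of the doubled sequence glued to a chimney.
-/

namespace Pool.Agent.LHU

open Pool.Agent.LHT

namespace ODD_

section
variable {Λ : Type} [AddCommGroup Λ]

theorem gscale {G : Finset Λ → Prop} {S : Finset Λ} {ω : Λ → ℝ} (h : GLw G S ω) {M : ℝ}
    (hM : 0 < M) : GLw G S (fun v => M * ω v) := by
  intro φ b hle hs
  have hc : contact S (fun v => M * ω v) φ b = contact S ω (M⁻¹ • φ) (M⁻¹ * b) := by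
    ext v
    rw [mem_contact, mem_contact]
    have e : (M⁻¹ • φ) v + M⁻¹ * b = M⁻¹ * (φ v + b) := by
      show M⁻¹ * φ v + M⁻¹ * b = _
      ring
    rw [e]
    constructor
    · rintro ⟨h1, h2⟩
      refine ⟨h1, ?_⟩
      rw [h2, inv_mul_cancel_left₀ hM.ne']
    · rintro ⟨h1, h2⟩
      refine ⟨h1, ?_⟩
      rw [← h2, mul_inv_cancel_left₀ hM.ne']
  rw [hc] at hs ⊢
  refine h _ _ ?_ hs
  intro v hv
  have h1 := hle v hv
  have e : (M⁻¹ • φ) v + M⁻¹ * b = M⁻¹ * (φ v + b) := by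
    show M⁻¹ * φ v + M⁻¹ * b = _
    ring
  rw [e]
  calc M⁻¹ * (φ v + b) ≤ M⁻¹ * (M * ω v) :=
        mul_le_mul_of_nonneg_left h1 (inv_pos.mpr hM).le
    _ = ω v := inv_mul_cancel_left₀ hM.ne' _

theorem gcongr {G : Finset Λ → Prop} {S : Finset Λ} {ω ω' : Λ → ℝ} (h : GLw G S ω)
    (he : ∀ v ∈ S, ω v = ω' v) : GLw G S ω' := by
  intro φ b hle hs
  have hc : contact S ω' φ b = contact S ω φ b := by
    ext v
    rw [mem_contact, mem_contact]
    constructor
    · rintro ⟨h1, h2⟩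
      exact ⟨h1, by rw [h2, he v h1]⟩
    · rintro ⟨h1, h2⟩
      exact ⟨h1, by rw [h2, he v h1]⟩
  rw [hc] at hs ⊢
  refine h _ _ ?_ hs
  intro v hv
  rw [he v hv]
  exact hle v hv

end

/-- primitives -/
theorem prim (κ : ℤ → ℝ) : ∃ g : ℤ → ℝ, g 0 = 0 ∧ ∀ t, g (t + 1) - g t = κ t := by
  refine ⟨fun t => (∑ i ∈ Finset.range t.toNat, κ i) -
    ∑ i ∈ Finset.range (-t).toNat, κ (-(i : ℤ) - 1), by simp, ?_⟩
  intro t
  rcases le_or_gt 0 t with h | h
  · have e1 : (t + 1).toNat = t.toNat + 1 := by omega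
    have e2 : (-t).toNat = 0 := by omega
    have e3 : (-(t + 1)).toNat = 0 := by omega
    simp only [e1, e2, e3, Finset.sum_range_succ, Finset.range_zero, Finset.sum_empty]
    rw [Int.toNat_of_nonneg h]
    ring
  · have e0 : t.toNat = 0 := by omega
    have e1 : (t + 1).toNat = 0 := by omega
    have e2 : (-t).toNat = (-(t + 1)).toNat + 1 := by omega
    have e3 : (-(((-(t + 1)).toNat : ℕ) : ℤ) - 1) = t := by omega
    simp only [e0, e1, e2, Finset.sum_range_succ, Finset.range_zero, Finset.sum_empty]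
    rw [e3]
    ring

/-- shifts of the columns -/
noncomputable def th (b : ℕ) (y : ℤ) : ℝ := 1 / 3 + (y : ℝ) / (3 * ((b : ℝ) + 1))

noncomputable def ep (b : ℕ) : ℝ := 1 / (10 * ((b : ℝ) + 1))

/-- slopes -/
noncomputable def kap (b : ℕ) (y t : ℤ) : ℝ :=
  if Even y then (if Even t then (t : ℝ) + 1 + th b y - ep b else (t : ℝ) + th b y)
  else (if Even t then (t : ℝ) + th b y else (t : ℝ) - 1 + th b y + ep b)

theorem ep_pos (b : ℕ) : 0 < ep b := by
  unfold ep
  positivity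

theorem ep_lt (b : ℕ) : ep b ≤ 1 / 10 := by
  unfold ep
  rw [div_le_div_iff₀ (by positivity) (by norm_num)]
  have : (0 : ℝ) ≤ (b : ℝ) := Nat.cast_nonneg b
  linarith

theorem th_d (b : ℕ) (y y' : ℤ) (hy : 0 ≤ y ∧ y ≤ b) (hy' : 0 ≤ y' ∧ y' ≤ b) (h : y ≠ y') :
    3 * ep b < |th b y - th b y'| ∧ |th b y - th b y'| < 1 / 3 := by
  have hb : (0 : ℝ) < (b : ℝ) + 1 := by positivity
  have e1 : th b y - th b y' = ((y - y' : ℤ) : ℝ) / (3 * ((b : ℝ) + 1)) := by
    unfold th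
    push_cast
    ring
  have h1 : 1 ≤ |y - y'| := Int.one_le_abs (sub_ne_zero.mpr h)
  have h2 : |y - y'| ≤ b := by
    rw [abs_le]
    constructor <;> omega
  have h1r : (1 : ℝ) ≤ |((y - y' : ℤ) : ℝ)| := by
    rw [← Int.cast_abs]
    exact_mod_cast h1
  have h2r : |((y - y' : ℤ) : ℝ)| ≤ (b : ℝ) := by
    rw [← Int.cast_abs]
    exact_mod_cast h2
  rw [e1, abs_div, abs_of_pos (by positivity : (0 : ℝ) < 3 * ((b : ℝ) + 1))]
  constructor
  · unfold ep
    rw [show (3 : ℝ) * (1 / (10 * ((b : ℝ) + 1))) = (9 / 10) / (3 * ((b : ℝ) + 1)) by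
      field_simp; norm_num]
    apply div_lt_div_of_pos_right _ (by positivity)
    linarith
  · rw [div_lt_div_iff₀ (by positivity) (by norm_num)]
    linarith

theorem gap (n : ℤ) (x ε : ℝ) (h1 : 3 * ε < |x|) (h2 : |x| < 1 / 3) : 3 * ε < |(n : ℝ) + x| := by
  rcases lt_trichotomy n 0 with h | h | h
  · have h3 : (n : ℝ) ≤ -1 := by exact_mod_cast (by omega : n ≤ -1)
    have h4 := abs_lt.mp h2
    have h5 : -((n : ℝ) + x) ≤ |(n : ℝ) + x| := neg_le_abs _
    linarith
  · rw [h, Int.cast_zero, zero_add]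
    exact h1
  · have h3 : (1 : ℝ) ≤ (n : ℝ) := by exact_mod_cast (by omega : 1 ≤ n)
    have h4 := abs_lt.mp h2
    have h5 : (n : ℝ) + x ≤ |(n : ℝ) + x| := le_abs_self _
    linarith

theorem kap_even (b : ℕ) (y t : ℤ) (hy : Even y) :
    ∃ (n : ℤ) (δ : ℝ), kap b y t = n + th b y + δ ∧ -ep b ≤ δ ∧ δ ≤ 0 := by
  have h0 := ep_pos b
  unfold kap
  rw [if_pos hy]
  split_ifs with h
  · refine ⟨t + 1, -ep b, ?_, le_rfl, by linarith⟩
    push_cast
    ring
  · exact ⟨t, 0, by ring, by linarith, le_rfl⟩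

theorem kap_odd (b : ℕ) (y t : ℤ) (hy : ¬ Even y) :
    ∃ (n : ℤ) (δ : ℝ), kap b y t = n + th b y + δ ∧ 0 ≤ δ ∧ δ ≤ ep b := by
  have h0 := ep_pos b
  unfold kap
  rw [if_neg hy]
  split_ifs with h
  · exact ⟨t, 0, by ring, le_rfl, by linarith⟩
  · refine ⟨t - 1, ep b, ?_, by linarith, le_rfl⟩
    push_cast
    ring

theorem kap_any (b : ℕ) (y t : ℤ) :
    ∃ (n : ℤ) (δ : ℝ), kap b y t = n + th b y + δ ∧ -ep b ≤ δ ∧ δ ≤ ep b := by
  have h0 := ep_pos b
  by_cases hy : Even y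
  · obtain ⟨n, δ, h1, h2, h3⟩ := kap_even b y t hy
    exact ⟨n, δ, h1, h2, by linarith⟩
  · obtain ⟨n, δ, h1, h2, h3⟩ := kap_odd b y t hy
    exact ⟨n, δ, h1, by linarith, h3⟩

theorem kap_lt (b : ℕ) (y t : ℤ) : kap b y t < kap b y (t + 1) := by
  have h0 := ep_pos b
  have h1 := ep_lt b
  unfold kap
  simp only [Int.even_add_one]
  by_cases hy : Even y <;> by_cases ht : Even t <;> simp only [hy, ht, if_true, if_false,
    not_true_eq_false, not_false_eq_true] <;> push_cast <;> linarith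

theorem kap_ne (b : ℕ) (y y' : ℤ) (hy : 0 ≤ y ∧ y ≤ b) (hy' : 0 ≤ y' ∧ y' ≤ b) (h : y ≠ y')
    (t t' : ℤ) : kap b y t ≠ kap b y' t' := by
  intro he
  obtain ⟨n, δ, h1, h2, h3⟩ := kap_any b y t
  obtain ⟨n', δ', h1', h2', h3'⟩ := kap_any b y' t'
  have hd := th_d b y y' hy hy' h
  have hg := gap (n - n') _ _ hd.1 hd.2
  have h0 := ep_pos b
  rw [h1, h1'] at he
  have e : ((n - n' : ℤ) : ℝ) + (th b y - th b y') = δ' - δ := by
    push_cast
    linarith
  rw [e] at hg
  have h5 : |δ' - δ| ≤ 2 * ep b := by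
    rw [abs_le]
    constructor <;> linarith
  linarith

/-- the marks of the cells of the lower part -/
theorem marks (b : ℕ) (C : Finset ℤ) (hCB : ∀ y ∈ C, 0 ≤ y ∧ y ≤ b) (k : ℤ)
    (hk : ∀ x, x ∈ C ↔ x = k ∨ x = k + 1) (g : ℤ → ℤ → ℝ)
    (hg : ∀ y t, g y (t + 1) - g y t = kap b y t) (K : Finset (ℤ × ℤ))
    (hK : ChC C (fun y => -y) (fun _ => 0) g K) :
    (∃ v ∈ K, Even v.1 ∧ Even v.2) ∧ (∃ v ∈ K, ¬ Even v.1 ∧ Even v.2) := by
  obtain ⟨p, hp, T, hp1, hp2, hq, hs, hKm⟩ := hK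
  have h0 := ep_pos b
  have h01 := ep_lt b
  have hkC : k ∈ C := (hk k).mpr (Or.inl rfl)
  have hk1C : k + 1 ∈ C := (hk (k + 1)).mpr (Or.inr rfl)
  have hboth : ∃ v ∈ K, v.1 = p ∧ Even v.2 := by
    by_cases hT : Even (T p)
    · exact ⟨(p, T p), (hKm _).mpr (Or.inr ⟨hp, rfl⟩), rfl, hT⟩
    · exact ⟨(p, T p + 1), (hKm _).mpr (Or.inl rfl), rfl, Int.even_add_one.mpr hT⟩
  have hgm : ∀ y t, g y t - g y (t - 1) = kap b y (t - 1) := by
    intro y t
    have := hg y (t - 1)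
    rwa [sub_add_cancel] at this
  constructor
  · obtain ⟨v, hv, hve⟩ : ∃ v ∈ C, Even v := by
      by_cases h : Even k
      · exact ⟨k, hkC, h⟩
      · exact ⟨k + 1, hk1C, Int.even_add_one.mpr h⟩
    by_cases hvp : v = p
    · obtain ⟨w, hw, hw1, hw2⟩ := hboth
      exact ⟨w, hw, by rw [hw1, ← hvp]; exact hve, hw2⟩
    · refine ⟨(v, T v), (hKm _).mpr (Or.inr ⟨hv, rfl⟩), hve, ?_⟩
      show Even (T v)
      by_contra hT
      have hpo : ¬ Even p := by
        intro hpe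
        apply hvp
        rcases (hk v).mp hv with h1 | h1 <;> rcases (hk p).mp hp with h2 | h2
        · rw [h1, h2]
        · exfalso
          rw [h1] at hve
          rw [h2] at hpe
          exact (Int.even_add_one.mp hpe) hve
        · exfalso
          rw [h1] at hve
          rw [h2] at hpe
          exact (Int.even_add_one.mp hve) hpe
        · rw [h1, h2]
      obtain ⟨hq1, hq2⟩ := hq v hv
      dsimp only at hq1 hq2
      have hlo : -v < T v := by
        rcases hq1.lt_or_eq with h | h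
        · exact h
        · exfalso
          apply hT
          rw [← h]
          exact hve.neg
      have hhi : T v < 0 := by
        rcases hq2.lt_or_eq with h | h
        · exact h
        · exfalso
          apply hT
          rw [h]
          exact Even.zero
      have h1 := (hs v hv hvp).1 hlo
      have h2 := (hs v hv hvp).2 hhi
      rw [hgm, hg] at h1
      rw [hg, hg] at h2
      have hT1 : Even (T v - 1) := by
        rcases Int.even_or_odd (T v) with h | h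
        · exact absurd h hT
        · obtain ⟨r, hr⟩ := h
          exact ⟨r, by omega⟩
      have e1 : kap b v (T v - 1) = (T v : ℝ) + th b v - ep b := by
        unfold kap
        rw [if_pos hve, if_pos hT1]
        push_cast
        ring
      have e2 : kap b v (T v) = (T v : ℝ) + th b v := by
        unfold kap
        rw [if_pos hve, if_neg hT]
      rw [e1] at h1
      rw [e2] at h2
      obtain ⟨n, δ, e3, h3, h4⟩ := kap_odd b p (T p) hpo
      rw [e3] at h1 h2
      have hd := th_d b p v (hCB p hp) (hCB v hv) (Ne.symm hvp)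
      have hg2 := gap (n - T v) _ _ hd.1 hd.2
      have h5 : |((n - T v : ℤ) : ℝ) + (th b p - th b v)| ≤ 2 * ep b := by
        push_cast
        rw [abs_le]
        constructor <;> linarith
      linarith
  · obtain ⟨v, hv, hvo⟩ : ∃ v ∈ C, ¬ Even v := by
      by_cases h : Even k
      · exact ⟨k + 1, hk1C, by rw [Int.even_add_one]; exact not_not.mpr h⟩
      · exact ⟨k, hkC, h⟩
    by_cases hvp : v = p
    · obtain ⟨w, hw, hw1, hw2⟩ := hboth
      exact ⟨w, hw, by rw [hw1, ← hvp]; exact hvo, hw2⟩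
    · refine ⟨(v, T v), (hKm _).mpr (Or.inr ⟨hv, rfl⟩), hvo, ?_⟩
      show Even (T v)
      by_contra hT
      have hpv : Even p ∧ p ≤ v + 1 := by
        rcases (hk v).mp hv with h1 | h1 <;> rcases (hk p).mp hp with h2 | h2
        · exact absurd (h1.trans h2.symm) hvp
        · rw [h1] at hvo ⊢
          rw [h2]
          exact ⟨Int.even_add_one.mpr hvo, le_rfl⟩
        · refine ⟨?_, by omega⟩
          rw [h1, Int.even_add_one, not_not] at hvo
          rw [h2]
          exact hvo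
        · exact absurd (h1.trans h2.symm) hvp
      obtain ⟨hpe, hpv1⟩ := hpv
      obtain ⟨hq1, hq2⟩ := hq v hv
      dsimp only at hq1 hq2
      have hhi : T v < 0 := by
        rcases hq2.lt_or_eq with h | h
        · exact h
        · exfalso
          apply hT
          rw [h]
          exact Even.zero
      have h2 := (hs v hv hvp).2 hhi
      rw [hg, hg] at h2
      have e2 : kap b v (T v) = (T v : ℝ) - 1 + th b v + ep b := by
        unfold kap
        rw [if_neg hvo, if_neg hT]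
      rw [e2] at h2
      obtain ⟨n, δ, e3, h3, h4⟩ := kap_even b p (T p) hpe
      have hd := th_d b p v (hCB p hp) (hCB v hv) (Ne.symm hvp)
      rcases hq1.lt_or_eq with hlo | hlo
      · have h1 := (hs v hv hvp).1 hlo
        rw [hgm, hg] at h1
        have hT1 : Even (T v - 1) := by
          rcases Int.even_or_odd (T v) with h | h
          · exact absurd h hT
          · obtain ⟨r, hr⟩ := h
            exact ⟨r, by omega⟩
        have e1 : kap b v (T v - 1) = (T v : ℝ) - 1 + th b v := by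
          unfold kap
          rw [if_neg hvo, if_pos hT1]
          push_cast
          ring
        rw [e1] at h1
        rw [e3] at h1 h2
        have hg2 := gap (n - (T v - 1)) _ _ hd.1 hd.2
        have h5 : |((n - (T v - 1) : ℤ) : ℝ) + (th b p - th b v)| ≤ 2 * ep b := by
          push_cast
          rw [abs_le]
          constructor <;> linarith
        linarith
      · have h6 : (-(v : ℝ)) = (T v : ℝ) := by exact_mod_cast hlo
        have h7 : (-(p : ℝ)) + 1 + th b p - ep b ≤ kap b p (T p) := by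
          dsimp only at hp1
          rcases hp1.lt_or_eq with h8 | h8
          · have h9 : (-(p : ℝ)) + 1 ≤ (T p : ℝ) := by exact_mod_cast h8
            unfold kap
            rw [if_pos hpe]
            split_ifs <;> linarith
          · have h9 : (-(p : ℝ)) = (T p : ℝ) := by exact_mod_cast h8
            have h10 : Even (T p) := by
              rw [← h8]
              exact hpe.neg
            unfold kap
            rw [if_pos hpe, if_pos h10]
            linarith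
        have h8 : (p : ℝ) ≤ (v : ℝ) + 1 := by exact_mod_cast hpv1
        have h9 := abs_lt.mp hd.2
        linarith

/-- unimodular segments in the integers -/
theorem seg (C : Finset ℤ) (hU : Uni C) (hs : Spans C) : ∃ k : ℤ, ∀ x, x ∈ C ↔ x = k ∨ x = k + 1 := by
  have hdiff : ∀ p ∈ C, ∀ q ∈ C, p ≠ q → p = q + 1 ∨ q = p + 1 := by
    intro p hp q hq hpq
    obtain ⟨ψ, c, h1, -, -⟩ := hU
    have h2 := h1 p hp p hp
    have h3 := h1 p hp q hq
    rw [if_pos rfl] at h2
    rw [if_neg hpq] at h3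
    have h4 : ψ p (p - q) = 1 := by
      rw [map_sub]
      linarith
    have h5 : ψ p (p - q) = (p - q) * ψ p 1 := by
      have h6 : ψ p ((p - q) • (1 : ℤ)) = (p - q) • ψ p 1 := map_zsmul (ψ p) (p - q) 1
      rw [smul_eq_mul, smul_eq_mul, mul_one] at h6
      exact h6
    rw [h5] at h4
    have h6 := Int.isUnit_iff.mp (IsUnit.of_mul_eq_one _ h4)
    omega
  have h2 : ∃ p ∈ C, ∃ q ∈ C, p ≠ q := by
    by_contra hcon
    push Not at hcon
    by_cases hne : ∃ p, p ∈ C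
    · obtain ⟨p, hp⟩ := hne
      have h3 := hs (Int.castAddHom ℝ) (-(p : ℝ)) (by
        intro v hv
        rw [← hcon p hp v hv]
        show (p : ℝ) + -(p : ℝ) = 0
        ring)
      have h4 := congrArg (fun f => f 1) h3.1
      have h5 : ((1 : ℤ) : ℝ) = 0 := h4
      norm_num at h5
    · have h3 := hs (Int.castAddHom ℝ) 0 (by
        intro v hv
        exact absurd ⟨v, hv⟩ hne)
      have h4 := congrArg (fun f => f 1) h3.1
      have h5 : ((1 : ℤ) : ℝ) = 0 := h4
      norm_num at h5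
  obtain ⟨p, hp, q, hq, hpq⟩ := h2
  rcases hdiff p hp q hq hpq with h | h
  · refine ⟨q, fun x => ⟨fun hx => ?_, ?_⟩⟩
    · by_contra hcon
      push Not at hcon
      have h1 := hdiff x hx q hq hcon.1
      have h2 := hdiff x hx p hp (by rw [h]; exact hcon.2)
      omega
    · rintro (rfl | rfl)
      · exact hq
      · rw [← h]
        exact hp
  · refine ⟨p, fun x => ⟨fun hx => ?_, ?_⟩⟩
    · by_contra hcon
      push Not at hcon
      have h1 := hdiff x hx p hp hcon.1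
      have h2 := hdiff x hx q hq (by rw [h]; exact hcon.2)
      omega
    · rintro (rfl | rfl)
      · exact hp
      · rw [← h]
        exact hq

/-- exchange of the coordinates -/
def E1 : (Fin 2 → ℤ) ≃+ ℤ × ℤ where
  toFun x := (x 1, x 0)
  invFun v := ![v.2, v.1]
  left_inv x := by
    ext i
    fin_cases i <;> rfl
  right_inv v := rfl
  map_add' x y := rfl

/-- shear -/
def E2 : ℤ × ℤ ≃+ (Fin 2 → ℤ) where
  toFun v := ![v.2 + v.1, v.1]
  invFun x := (x 1, x 0 - x 1)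
  left_inv v := by
    apply Prod.ext
    · rfl
    · show v.2 + v.1 - v.1 = v.2
      ring
  right_inv x := by
    ext i
    fin_cases i
    · show x 0 - x 1 + x 1 = x 0
      ring
    · rfl
  map_add' v w := by
    ext i
    fin_cases i
    · show (v.2 + w.2) + (v.1 + w.1) = (v.2 + v.1) + (w.2 + w.1)
      ring
    · rfl

end ODD_

open ODD_ in
theorem odd_proof (hCHL : Stmt_CHL) (hCHS : Stmt_CHS) (hGLU : Stmt_GLU) (hUSI : Stmt_USI)
    (hTRA : Stmt_TRA) : Stmt_ODD := by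
  classical
  intro a b hb hba ha hbo hlr
  obtain ⟨d, rfl⟩ : ∃ d, a = b + d := ⟨a - b, by omega⟩
  have hd : 0 < d := by omega
  have hde : Even d := by
    rcases Nat.even_or_odd d with h | h
    · exact h
    · exfalso
      have := hbo.add_odd h
      exact (Nat.not_even_iff_odd.mpr ha) this
  rw [Nat.add_sub_cancel_left] at hlr
  obtain ⟨ω0, hω0⟩ := hlr
  have hbz : (0 : ℤ) < (b : ℤ) := by exact_mod_cast hb
  have hdz : (0 : ℤ) < (d : ℤ) := by exact_mod_cast hd
  -- the three sets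
  obtain ⟨U, hU⟩ : ∃ U : Finset (ℤ × ℤ), ∀ v, v ∈ U ↔
      (0 ≤ v.1 ∧ v.1 ≤ b) ∧ (0 ≤ v.2 ∧ v.2 ≤ d) ∧ v.2 * b ≤ v.1 * d := by
    refine ⟨((Finset.Icc (0 : ℤ) b) ×ˢ (Finset.Icc (0 : ℤ) d)).filter
      (fun v => v.2 * b ≤ v.1 * d), fun v => ?_⟩
    rw [Finset.mem_filter, Finset.mem_product, Finset.mem_Icc, Finset.mem_Icc]
    tauto
  obtain ⟨L, hL⟩ : ∃ L : Finset (ℤ × ℤ), ∀ v, v ∈ L ↔
      v.1 ∈ Finset.Icc (0 : ℤ) b ∧ (-(AddMonoidHom.id ℤ)) v.1 + 0 ≤ v.2 ∧
        v.2 ≤ (0 : ℤ →+ ℤ) v.1 + 0 := by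
    refine ⟨((Finset.Icc (0 : ℤ) b) ×ˢ (Finset.Icc (-(b : ℤ)) 0)).filter
      (fun v => -v.1 ≤ v.2), fun v => ?_⟩
    rw [Finset.mem_filter, Finset.mem_product, Finset.mem_Icc, Finset.mem_Icc]
    show ((0 ≤ v.1 ∧ v.1 ≤ b) ∧ (-(b : ℤ) ≤ v.2 ∧ v.2 ≤ 0)) ∧ -v.1 ≤ v.2 ↔
      (0 ≤ v.1 ∧ v.1 ≤ b) ∧ -v.1 + 0 ≤ v.2 ∧ v.2 ≤ 0 + 0
    constructor
    · rintro ⟨⟨h1, h2⟩, h3⟩
      exact ⟨h1, by omega, by omega⟩
    · rintro ⟨h1, h2, h3⟩
      exact ⟨⟨h1, by omega⟩, by omega⟩
  have hL' : ∀ v, v ∈ L ↔ (0 ≤ v.1 ∧ v.1 ≤ b) ∧ -v.1 ≤ v.2 ∧ v.2 ≤ 0 := by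
    intro v
    rw [hL, Finset.mem_Icc]
    show (0 ≤ v.1 ∧ v.1 ≤ b) ∧ -v.1 + 0 ≤ v.2 ∧ v.2 ≤ 0 + 0 ↔ _
    rw [add_zero, add_zero]
  -- the upper part
  obtain ⟨ω1, hω1⟩ := hTRA (Fin 2 → ℤ) (ℤ × ℤ) E1 0 (LH ![d, b]) U (by
    intro x
    rw [hU, mem_LH]
    rw [add_zero]
    show (0 ≤ x 1 ∧ x 1 ≤ b) ∧ (0 ≤ x 0 ∧ x 0 ≤ d) ∧ x 0 * b ≤ x 1 * d ↔ _
    simp only [Fin.forall_fin_two]
    constructor
    · rintro ⟨h1, h2, h3⟩
      refine ⟨⟨h2, h1⟩, ⟨?_, ?_⟩, ?_, ?_⟩
      · intro h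
        exact absurd h (by decide)
      · intro _
        exact h3
      · intro h
        exact absurd h (by decide)
      · intro h
        exact absurd h (by decide)
    · rintro ⟨⟨h2, h1⟩, ⟨_, h3⟩, _, _⟩
      exact ⟨h1, h2, h3 (by decide)⟩) 0 (uu ![d, b]) ω0 hω0
  have em0 : E1 (0 : Fin 2 → ℤ) + 0 = (0, 0) := rfl
  have em1 : E1 (uu ![d, b]) + 0 = ((b : ℤ), (d : ℤ)) := by
    rw [add_zero]
    rfl
  rw [em0, em1] at hω1
  -- the wall
  have hwall : RLw (Finset.Icc (0 : ℤ) b) (fun y => ω1 (y, 0)) := by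
    refine face U (Finset.Icc (0 : ℤ) b) ?_ ?_ ?_ ω1 ?_
    · intro y
      rw [Finset.mem_Icc, hU]
      constructor
      · rintro ⟨h1, h2⟩
        refine ⟨⟨h1, h2⟩, ⟨le_rfl, hdz.le⟩, ?_⟩
        show (0 : ℤ) * b ≤ y * d
        rw [zero_mul]
        exact mul_nonneg h1 hdz.le
      · rintro ⟨h1, -, -⟩
        exact h1
    · intro v hv
      exact ((hU v).mp hv).2.1.1
    · refine ⟨((b : ℤ), (d : ℤ)), (hU _).mpr ⟨⟨hbz.le, le_rfl⟩, ⟨hdz.le, le_rfl⟩, ?_⟩, hdz⟩
      show (d : ℤ) * b ≤ b * d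
      rw [mul_comm]
    · intro φ c hle hs
      exact (hω1 φ c hle hs).1
  have hwall2 : GLw (fun C => Simp C ∧ (Uni C ∧ ∃ k : ℤ, ∀ x, x ∈ C ↔ x = k ∨ x = k + 1))
      (Finset.Icc (0 : ℤ) b) (fun y => ω1 (y, 0)) := by
    intro φ c hle hs
    have h1 := hwall φ c hle hs
    exact ⟨hUSI ℤ _ h1, h1, seg _ h1 hs⟩
  -- slopes
  have hprim : ∀ y : ℤ, ∃ g : ℤ → ℝ, g 0 = 0 ∧ ∀ t, g (t + 1) - g t = kap b y t :=
    fun y => prim _
  choose g hg0 hg using hprim
  obtain ⟨M0, hM0⟩ := hCHL ℤ (Finset.Icc (0 : ℤ) b) (fun y => ω1 (y, 0))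
    (fun C => Uni C ∧ ∃ k : ℤ, ∀ x, x ∈ C ↔ x = k ∨ x = k + 1) (-(AddMonoidHom.id ℤ)) 0 0 0 g
    hwall2 (by
      intro y hy
      rw [Finset.mem_Icc] at hy
      show -y + 0 ≤ 0 + 0
      omega) (by
      intro y _ t _ _
      have h1 := kap_lt b y t
      rw [hg, show t + 2 = t + 1 + 1 by ring, hg]
      exact h1) (by
      intro y hy y' hy' hne t t' _ _ _ _
      rw [hg, hg]
      exact kap_ne b y y' (Finset.mem_Icc.mp hy) (Finset.mem_Icc.mp hy') hne t t') L hL
  set M : ℝ := max M0 1 with hMdef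
  have hM : 0 < M := lt_of_lt_of_le one_pos (le_max_right _ _)
  have hlow := hM0 M (le_max_left _ _)
  -- the property of the cells
  set G : Finset (ℤ × ℤ) → Prop := MU (0, 0) ((b : ℤ), (d : ℤ)) with hG
  have hlowG : GLw G L (fun v => M * ω1 (v.1, 0) + g v.1 v.2) := by
    intro φ c hle hs
    obtain ⟨C, hCB, -, ⟨hCU, k, hk⟩, hch⟩ := hlow φ c hle hs
    have hch' : ChC C (fun y => -y) (fun _ => 0) g
        (contact L (fun v => M * ω1 (v.1, 0) + g v.1 v.2) φ c) := by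
      have e1 : (fun y : ℤ => (-(AddMonoidHom.id ℤ)) y + 0) = (fun y => -y) := by
        funext y
        show -y + 0 = -y
        ring
      have e2 : (fun y : ℤ => (0 : ℤ →+ ℤ) y + 0) = (fun _ => 0) := by
        funext y
        rfl
      rw [e1, e2] at hch
      exact hch
    have hm := marks b C (fun y hy => Finset.mem_Icc.mp (hCB hy)) k hk g hg _ hch'
    refine ⟨(hCHS ℤ C _ _ g _ hch).2 hCU, ?_, ?_⟩
    · obtain ⟨v, hv, ⟨r, hr⟩, ⟨s, hs'⟩⟩ := hm.1
      refine ⟨v, hv, (r, s), ?_⟩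
      apply Prod.ext
      · show v.1 = 0 + 2 * r
        omega
      · show v.2 = 0 + 2 * s
        omega
    · obtain ⟨v, hv, hvo, ⟨s, hs'⟩⟩ := hm.2
      rw [Int.not_even_iff_odd] at hvo
      obtain ⟨r, hr⟩ := hvo
      obtain ⟨r', hr'⟩ := hbo
      obtain ⟨s', hs''⟩ := hde
      refine ⟨v, hv, (r - r', s - s'), ?_⟩
      apply Prod.ext
      · show v.1 = (b : ℤ) + 2 * (r - r')
        omega
      · show v.2 = (d : ℤ) + 2 * (s - s')
        omega
  -- gluing
  set ω : ℤ × ℤ → ℝ := fun v => if 0 ≤ v.2 then M * ω1 v else M * ω1 (v.1, 0) + g v.1 v.2 with hω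
  have hUω : GLw G U ω := by
    refine gcongr (gscale hω1 hM) ?_
    intro v hv
    rw [hω]
    dsimp only
    rw [if_pos ((hU v).mp hv).2.1.1]
  have hLω : GLw G L ω := by
    refine gcongr hlowG ?_
    intro v hv
    rw [hω]
    dsimp only
    have h1 := ((hL' v).mp hv).2.2
    rcases h1.lt_or_eq with h2 | h2
    · rw [if_neg (not_le.mpr h2)]
    · rw [if_pos h2.ge]
      have e : v = (v.1, 0) := Prod.ext rfl h2
      rw [h2, hg0, add_zero, ← e]
  obtain ⟨M1, hM1⟩ := hGLU ℤ (Finset.Icc (0 : ℤ) b) U L (U ∪ L) ω G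
    (fun C hC => hUSI (ℤ × ℤ) C hC.1) (fun v hv => ((hU v).mp hv).2.1.1)
    (fun v hv => ((hL' v).mp hv).2.2) (by
      intro y hy
      rw [Finset.mem_Icc] at hy
      constructor
      · refine (hU _).mpr ⟨hy, ⟨le_rfl, hdz.le⟩, ?_⟩
        show (0 : ℤ) * b ≤ y * d
        rw [zero_mul]
        exact mul_nonneg hy.1 hdz.le
      · refine (hL' _).mpr ⟨hy, ?_, le_rfl⟩
        show -y ≤ 0
        omega) (fun v hv => Finset.mem_Icc.mpr ((hU v).mp hv).1)
    (fun v hv => Finset.mem_Icc.mpr ((hL' v).mp hv).1) (fun v => Finset.mem_union) hUω hLω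
  have hfin := hM1 M1 le_rfl
  obtain ⟨ω2, hω2⟩ := hTRA (ℤ × ℤ) (Fin 2 → ℤ) E2 0 (U ∪ L) (LH ![b + d, b]) (by
    intro v
    rw [Finset.mem_union, hU, hL', mem_LH, add_zero]
    simp only [Fin.forall_fin_two]
    have e0 : E2 v 0 = v.2 + v.1 := rfl
    have e1 : E2 v 1 = v.1 := rfl
    have e2 : ((![b + d, b] 0 : ℕ) : ℤ) = b + d := by
      show ((b + d : ℕ) : ℤ) = _
      push_cast
      rfl
    have e3 : ((![b + d, b] 1 : ℕ) : ℤ) = b := rfl
    rw [e0, e1, e2, e3]
    constructor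
    · rintro ⟨⟨⟨h1, h2⟩, h3, h4⟩, ⟨_, h5⟩, _, _⟩
      have h6 := h5 (by decide)
      have h7 : v.2 * b ≤ v.1 * d := by nlinarith
      rcases le_or_gt 0 v.2 with h8 | h8
      · left
        refine ⟨⟨h3, h4⟩, ⟨h8, ?_⟩, h7⟩
        by_contra hcon
        push Not at hcon
        have h9 : v.1 * d ≤ b * d := mul_le_mul_of_nonneg_right h4 hdz.le
        have h10 : (d : ℤ) * b < v.2 * b := mul_lt_mul_of_pos_right hcon hbz
        nlinarith
      · right
        exact ⟨⟨h3, h4⟩, by omega, by omega⟩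
    · intro h
      have h3 : 0 ≤ v.1 ∧ v.1 ≤ b := by
        rcases h with h | h
        · exact h.1
        · exact h.1
      have h7 : v.2 * b ≤ v.1 * d := by
        rcases h with h | h
        · exact h.2.2
        · have h8 : v.2 * b ≤ 0 := mul_nonpos_of_nonpos_of_nonneg h.2.2 hbz.le
          have h9 : 0 ≤ v.1 * d := mul_nonneg h3.1 hdz.le
          linarith
      refine ⟨⟨⟨?_, ?_⟩, h3.1, h3.2⟩, ⟨?_, ?_⟩, ?_, ?_⟩
      · rcases h with h | h
        · have := h.2.1.1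
          omega
        · have := h.2.1
          omega
      · rcases h with h | h
        · have := h.2.1.2
          omega
        · have := h.2.2
          omega
      · intro h
        exact absurd h (by decide)
      · intro _
        nlinarith
      · intro h
        exact absurd h (by decide)
      · intro h
        exact absurd h (by decide)) (0, 0) ((b : ℤ), (d : ℤ)) _ hfin
  have em2 : E2 ((0 : ℤ), (0 : ℤ)) + 0 = 0 := by
    rw [add_zero]
    exact map_zero E2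
  have em3 : E2 ((b : ℤ), (d : ℤ)) + 0 = uu ![b + d, b] := by
    rw [add_zero]
    ext i
    fin_cases i
    · show (d : ℤ) + b = ((b + d : ℕ) : ℤ)
      push_cast
      ring
    · rfl
  rw [em2, em3] at hω2
  exact ⟨ω2, hω2⟩

end Pool.Agent.LHU
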