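import Pool.Agent.LHU.Stmts

set_option autoImplicit false

/-!
From a structure of type K to a unimodular triangulation.
-/

namespace Pool.Agent.LHU

open Pool.Agent.LHT

namespace PLL_

/-- a spanning set is nonempty -/
theorem nonempty_of_spans {Λ : Type} [AddCommGroup Λ] {V : Finset Λ} (h : Spans V) :
    V.Nonempty := by
  rcases V.eq_empty_or_nonempty with h0 | h0
  · exfalso
    subst h0
    have h1 := h 0 1 (by intro v hv; exact absurd hv (Finset.notMem_empty v))
    exact one_ne_zero h1.2
  · exact h0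

/-- an affine function vanishing on `V` vanishes on the hull -/
theorem hul_zero {Λ : Type} [AddCommGroup Λ] {V S : Finset Λ} (h : Hul V S) {χ : Λ →+ ℝ} {d : ℝ}
    (h0 : ∀ v ∈ V, χ v + d = 0) {w : Λ} (hw : w ∈ S) : χ w + d = 0 := by
  have h1 := h w hw χ d (fun v hv => le_of_eq (h0 v hv).symm)
  have h2 := h w hw (-χ) (-d) (by
    intro v hv
    have h3 := h0 v hv
    show 0 ≤ -χ v + -d
    linarith)
  have h3 : 0 ≤ -χ w + -d := h2
  linarith

end PLL_

theorem pll_proof (hPUL : Stmt_PUL) (hCOV : Stmt_COV) : Stmt_PLL := by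
  intro Λ _ hTF V S hVS hMid hHul Q ω hω
  by_cases hs : Spans V
  · have hK : GLw (Kay V) V ω := by
      intro φ b h1 h2
      exact (hω φ b h1 h2).1
    refine hPUL Λ hTF V S hVS hMid ?_ Q ω hω
    intro w hw
    exact hCOV Λ hTF V ω (PLL_.nonempty_of_spans hs) hs hK w (hHul w hw)
  · refine ⟨fun _ => 0, ?_⟩
    intro φ b _ h2
    exfalso
    apply hs
    intro χ d h0
    apply h2 χ d
    intro w hw
    exact PLL_.hul_zero hHul h0 (mem_contact.mp hw).1

end Pool.Agent.LHU
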