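import Pool.Agent.LHU.Stmts

set_option autoImplicit false

/-!
Pulling a midpoint preserves type K.
-/

namespace Pool.Agent.LHU

open Pool.Agent.LHT

namespace PUA_

open Classical in
/-- split off two terms -/
theorem split_two {Λ M : Type} [AddCommGroup M] (C : Finset Λ) (v0 v1 : Λ) (h0 : v0 ∈ C)
    (h1 : v1 ∈ C) (hne : v0 ≠ v1) (F : Λ → M) :
    ∑ p ∈ C, F p = F v0 + (F v1 + ∑ p ∈ (C.erase v0).erase v1, F p) := by
  have h1' : v1 ∈ C.erase v0 := Finset.mem_erase.2 ⟨hne.symm, h1⟩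
  rw [← Finset.add_sum_erase C F h0, ← Finset.add_sum_erase (C.erase v0) F h1']

open Classical in
/-- split the new sum -/
theorem split_new {Λ M : Type} [AddCommGroup M] (C : Finset Λ) (w v0 v1 : Λ) (hw : w ∉ C)
    (h1 : v1 ∈ C) (hne : v0 ≠ v1) (F : Λ → M) :
    ∑ p ∈ insert w (C.erase v0), F p = F w + (F v1 + ∑ p ∈ (C.erase v0).erase v1, F p) := by
  have h1' : v1 ∈ C.erase v0 := Finset.mem_erase.2 ⟨hne.symm, h1⟩
  have hw' : w ∉ C.erase v0 := fun h => hw (Finset.mem_of_mem_erase h)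
  rw [Finset.sum_insert hw', ← Finset.add_sum_erase (C.erase v0) F h1']

theorem cg_symm {Λ : Type} [AddCommGroup Λ] {a b : Λ} (h : Cg a b) : Cg b a := by
  obtain ⟨u, hu⟩ := h
  refine ⟨-u, ?_⟩
  rw [hu, smul_neg]
  abel

theorem cg_trans {Λ : Type} [AddCommGroup Λ] {a b c : Λ} (h : Cg a b) (h' : Cg b c) : Cg a c := by
  obtain ⟨u, hu⟩ := h
  obtain ⟨u', hu'⟩ := h'
  refine ⟨u + u', ?_⟩
  rw [hu', hu, smul_add]
  abel

end PUA_

open PUA_

open Classical in
theorem pua_proof : Stmt_PUA := by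
  intro Λ _ _ V C w v0 v1 hCV hwV h0 h1 hne hmid hK
  obtain ⟨ψ, c, hd, hs, hwt, hcl, hnv⟩ := hK
  have hwC : w ∉ C := fun h => hwV (hCV h)
  have hw0 : w ≠ v0 := fun h => hwC (h ▸ h0)
  have hw1 : w ≠ v1 := fun h => hwC (h ▸ h1)
  -- coordinates of the midpoint
  have hco : ∀ p, 2 * (ψ p w + c p) = (ψ p v0 + c p) + (ψ p v1 + c p) := by
    intro p
    have h := congrArg (ψ p) hmid
    rw [map_add, map_zsmul, smul_eq_mul] at h
    linarith
  have hcw0 : ψ v0 w + c v0 = 1 := by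
    have h := hco v0
    rw [hd v0 h0 v0 h0, hd v0 h0 v1 h1, if_pos rfl, if_neg hne] at h
    linarith
  have hcw1 : ψ v1 w + c v1 = 1 := by
    have h := hco v1
    rw [hd v1 h1 v0 h0, hd v1 h1 v1 h1, if_pos rfl, if_neg hne.symm] at h
    linarith
  have hcwq : ∀ q ∈ C, q ≠ v0 → q ≠ v1 → ψ q w + c q = 0 := by
    intro q hq hq0 hq1
    have h := hco q
    rw [hd q hq v0 h0, hd q hq v1 h1, if_neg hq0, if_neg hq1] at h
    linarith
  -- the new functions
  let ψ' : Λ → Λ →+ ℤ := fun p =>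
    if p = w then (2 : ℤ) • ψ v0 else if p = v1 then ψ v1 - ψ v0 else ψ p
  let c' : Λ → ℤ := fun p => if p = w then 2 * c v0 else if p = v1 then c v1 - c v0 else c p
  have hnw : ∀ v, ψ' w v + c' w = 2 * (ψ v0 v + c v0) := by
    intro v
    have e1 : ψ' w = (2 : ℤ) • ψ v0 := if_pos rfl
    have e2 : c' w = 2 * c v0 := if_pos rfl
    rw [e1, e2, AddMonoidHom.smul_apply, smul_eq_mul]
    ring
  have hn1 : ∀ v, ψ' v1 v + c' v1 = (ψ v1 v + c v1) - (ψ v0 v + c v0) := by
    intro v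
    have e1 : ψ' v1 = ψ v1 - ψ v0 := by
      show (if v1 = w then _ else _) = _
      rw [if_neg hw1.symm, if_pos rfl]
    have e2 : c' v1 = c v1 - c v0 := by
      show (if v1 = w then _ else _) = _
      rw [if_neg hw1.symm, if_pos rfl]
    rw [e1, e2, AddMonoidHom.sub_apply]
    ring
  have hnq : ∀ q, q ≠ w → q ≠ v1 → ∀ v, ψ' q v + c' q = ψ q v + c q := by
    intro q hqw hq1 v
    have e1 : ψ' q = ψ q := by
      show (if q = w then _ else _) = _
      rw [if_neg hqw, if_neg hq1]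
    have e2 : c' q = c q := by
      show (if q = w then _ else _) = _
      rw [if_neg hqw, if_neg hq1]
    rw [e1, e2]
  have hD : ∀ q ∈ (C.erase v0).erase v1, q ≠ w ∧ q ≠ v1 ∧ q ≠ v0 ∧ q ∈ C := by
    intro q hq
    rw [Finset.mem_erase, Finset.mem_erase] at hq
    exact ⟨fun h => hwC (h ▸ hq.2.2), hq.1, hq.2.1, hq.2.2⟩
  have hDin : ∀ q ∈ C, q ≠ v0 → q ≠ v1 → q ∈ (C.erase v0).erase v1 := by
    intro q hq hq0 hq1
    rw [Finset.mem_erase, Finset.mem_erase]
    exact ⟨hq1, hq0, hq⟩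
  have hcase : ∀ q ∈ insert w (C.erase v0), q = w ∨ q = v1 ∨ (q ≠ w ∧ q ≠ v1 ∧ q ≠ v0 ∧ q ∈ C) := by
    intro q hq
    rw [Finset.mem_insert, Finset.mem_erase] at hq
    rcases hq with hq | hq
    · exact Or.inl hq
    · by_cases hq1 : q = v1
      · exact Or.inr (Or.inl hq1)
      · exact Or.inr (Or.inr ⟨fun h => hwC (h ▸ hq.2), hq1, hq.1, hq.2⟩)
  refine ⟨ψ', c', ?_, ?_, ?_, ?_, ?_⟩
  · -- delta
    intro p hp q hq
    rcases hcase p hp with rfl | rfl | ⟨hpw, hp1, hp0, hpC⟩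
    · rw [hnw]
      rcases hcase q hq with rfl | rfl | ⟨hqw, hq1, hq0, hqC⟩
      · rw [hcw0, if_pos rfl]; norm_num
      · rw [hd v0 h0 _ h1, if_neg hne, if_neg hw1]; norm_num
      · rw [hd v0 h0 q hqC, if_neg hq0.symm, if_neg hqw.symm]; norm_num
    · rw [hn1]
      rcases hcase q hq with rfl | rfl | ⟨hqw, hq1, hq0, hqC⟩
      · rw [hcw0, hcw1, if_neg hw1.symm]; norm_num
      · rw [hd _ h1 _ h1, hd v0 h0 _ h1, if_pos rfl, if_neg hne]; norm_num
      · rw [hd _ h1 q hqC, hd v0 h0 q hqC, if_neg hq1.symm, if_neg hq0.symm]; norm_num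
    · rw [hnq p hpw hp1]
      rcases hcase q hq with rfl | rfl | ⟨hqw, hq1, hq0, hqC⟩
      · rw [hcwq p hpC hp0 hp1, if_neg hpw]
      · rw [hd p hpC _ h1]
      · rw [hd p hpC q hqC]
  · -- sum
    intro v
    rw [split_new C w v0 v1 hwC h1 hne]
    have h := hs v
    rw [split_two C v0 v1 h0 h1 hne] at h
    have e : ∑ p ∈ (C.erase v0).erase v1, (ψ' p v + c' p) =
        ∑ p ∈ (C.erase v0).erase v1, (ψ p v + c p) :=
      Finset.sum_congr rfl fun q hq => hnq q (hD q hq).1 (hD q hq).2.1 v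
    rw [e, hnw, hn1]
    linarith
  · -- weighted sum
    intro v
    rw [split_new C w v0 v1 hwC h1 hne (fun p => (ψ' p v + c' p) • p)]
    have h := hwt v
    rw [split_two C v0 v1 h0 h1 hne (fun p => (ψ p v + c p) • p)] at h
    have e : ∑ p ∈ (C.erase v0).erase v1, (ψ' p v + c' p) • p =
        ∑ p ∈ (C.erase v0).erase v1, (ψ p v + c p) • p :=
      Finset.sum_congr rfl fun q hq => by rw [hnq q (hD q hq).1 (hD q hq).2.1 v]
    rw [e, hnw, hn1, ← h, mul_comm, mul_smul, ← hmid, smul_add, sub_smul]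
    abel
  · -- classes
    intro f hf v
    rw [split_new C w v0 v1 hwC h1 hne (fun p => ((ψ' p v + c' p : ℤ) : ZMod 2) * f p)]
    have hc01 : Cg v0 v1 := by
      refine ⟨w - v0, ?_⟩
      rw [smul_sub, ← hmid, two_zsmul]
      abel
    have hm1 : v1 ∈ insert w (C.erase v0) :=
      Finset.mem_insert_of_mem (Finset.mem_erase.2 ⟨hne.symm, h1⟩)
    have hmq : ∀ q ∈ C, q ≠ v0 → q ∈ insert w (C.erase v0) := fun q hq hq0 =>
      Finset.mem_insert_of_mem (Finset.mem_erase.2 ⟨hq0, hq⟩)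
    have h := hcl (fun p => if p = v0 then f v1 else f p) (by
      intro p hp q hq hpq
      show (if p = v0 then f v1 else f p) = (if q = v0 then f v1 else f q)
      by_cases hp0 : p = v0
      · by_cases hq0 : q = v0
        · rw [if_pos hp0, if_pos hq0]
        · rw [if_pos hp0, if_neg hq0]
          rw [hp0] at hpq
          exact hf v1 hm1 q (hmq q hq hq0) (cg_trans (cg_symm hc01) hpq)
      · by_cases hq0 : q = v0
        · rw [if_neg hp0, if_pos hq0]
          rw [hq0] at hpq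
          exact hf p (hmq p hp hp0) v1 hm1 (cg_trans hpq hc01)
        · rw [if_neg hp0, if_neg hq0]
          exact hf p (hmq p hp hp0) q (hmq q hq hq0) hpq) v
    rw [split_two C v0 v1 h0 h1 hne
      (fun p => ((ψ p v + c p : ℤ) : ZMod 2) * (if p = v0 then f v1 else f p))] at h
    have e : ∑ p ∈ (C.erase v0).erase v1, ((ψ' p v + c' p : ℤ) : ZMod 2) * f p =
        ∑ p ∈ (C.erase v0).erase v1,
          ((ψ p v + c p : ℤ) : ZMod 2) * (if p = v0 then f v1 else f p) :=
      Finset.sum_congr rfl fun q hq => by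
        rw [hnq q (hD q hq).1 (hD q hq).2.1 v, if_neg (hD q hq).2.2.1]
    rw [if_pos rfl, if_neg hne.symm] at h
    rw [e, hnw, hn1, Int.cast_mul, Int.cast_sub]
    have h2 : ((2 : ℤ) : ZMod 2) = 0 := by decide
    rw [h2, zero_mul, zero_mul, zero_add, sub_mul, ← h]
    have h3 : ∀ x : ZMod 2, -x = x := by decide
    rw [sub_eq_add_neg, h3]
    ring
  · -- no other points
    intro v hv hpos
    rw [Finset.mem_insert] at hv
    rcases hv with hv | hv
    · rw [hv]; exact Finset.mem_insert_self _ _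
    · have p0 : 0 ≤ ψ v0 v + c v0 := by
        have h := hpos w (Finset.mem_insert_self _ _)
        rw [hnw] at h
        linarith
      have p1 : 0 ≤ (ψ v1 v + c v1) - (ψ v0 v + c v0) := by
        have h := hpos v1 (Finset.mem_insert_of_mem (Finset.mem_erase.2 ⟨hne.symm, h1⟩))
        rw [hn1] at h
        exact h
      have hvC : v ∈ C := by
        refine hnv v hv ?_
        intro p hp
        by_cases hp0 : p = v0
        · rw [hp0]; exact p0
        · by_cases hp1 : p = v1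
          · rw [hp1]; linarith
          · have h := hpos p (Finset.mem_insert_of_mem (Finset.mem_erase.2 ⟨hp0, hp⟩))
            rw [hnq p (fun h' => hwC (h' ▸ hp)) hp1] at h
            exact h
      refine Finset.mem_insert_of_mem (Finset.mem_erase.2 ⟨?_, hvC⟩)
      intro hv0
      rw [hv0, hd v1 h1 v0 h0, hd v0 h0 v0 h0, if_neg hne.symm, if_pos rfl] at p1
      norm_num at p1

end Pool.Agent.LHU
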