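import Pool.Agent.LHU.Stmts

set_option autoImplicit false

/-!
Pulling a midpoint: the cells.
-/

namespace Pool.Agent.LHU

open Pool.Agent.LHT

namespace PUC_

variable {Λ : Type} [AddCommGroup Λ]

theorem val_mid {w v0 v1 : Λ} (h : v0 + v1 = (2 : ℤ) • w) (χ : Λ →+ ℝ) (d : ℝ) :
    (χ v0 + d) + (χ v1 + d) = 2 * (χ w + d) := by
  have h1 := congrArg χ h
  rw [map_add, map_zsmul] at h1
  have h2 : (2 : ℤ) • χ w = 2 * χ w := by simp
  rw [h2] at h1
  linarith

open Classical in
theorem simp_new (C : Finset Λ) (w v0 v1 : Λ) (hw : w ∉ C) (h0 : v0 ∈ C) (h1 : v1 ∈ C)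
    (h01 : v0 ≠ v1) (hm : v0 + v1 = (2 : ℤ) • w) (hC : Simp C) :
    Simp (insert w (C.erase v0)) := by
  obtain ⟨χ0, d0, a1, a2⟩ := hC v0 h0
  have hmid := val_mid hm χ0 d0
  rw [a1, a2 v1 h1 (Ne.symm h01)] at hmid
  intro p hp
  rw [Finset.mem_insert, Finset.mem_erase] at hp
  by_cases hpw : p = w
  · subst hpw
    refine ⟨χ0 + χ0, d0 + d0, ?_, ?_⟩
    · rw [AddMonoidHom.add_apply]
      linarith
    · intro q hq hqw
      rw [Finset.mem_insert, Finset.mem_erase] at hq
      have hq1 : q ≠ v0 ∧ q ∈ C := hq.resolve_left hqw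
      have := a2 q hq1.2 hq1.1
      rw [AddMonoidHom.add_apply]
      linarith
  · have hp1 : p ≠ v0 ∧ p ∈ C := hp.resolve_left hpw
    obtain ⟨χ, d, b1, b2⟩ := hC p hp1.2
    have hmid2 := val_mid hm χ d
    rw [b2 v0 h0 (Ne.symm hp1.1)] at hmid2
    by_cases hpv : p = v1
    · subst hpv
      rw [b1] at hmid2
      refine ⟨χ - χ0, d - d0, ?_, ?_⟩
      · have := a2 p hp1.2 hp1.1
        rw [AddMonoidHom.sub_apply]
        linarith
      · intro q hq hqp
        rw [Finset.mem_insert, Finset.mem_erase] at hq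
        rw [AddMonoidHom.sub_apply]
        rcases hq with hq | hq
        · subst hq
          linarith
        · have c1 := a2 q hq.2 hq.1
          have c2 := b2 q hq.2 hqp
          linarith
    · rw [b2 v1 h1 (Ne.symm hpv)] at hmid2
      refine ⟨χ, d, b1, ?_⟩
      intro q hq hqp
      rw [Finset.mem_insert, Finset.mem_erase] at hq
      rcases hq with hq | hq
      · subst hq
        linarith
      · exact b2 q hq.2 hqp

end PUC_

theorem puc_proof (hSIM : Stmt_SIM) : Stmt_PUC := by
  classical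
  intro Λ _ C w v0 v1 hw h0 h1 h01 hm hC φ b hle hlw hsp
  set K := contact (insert w C) (fun x => if x = w then (-1 : ℝ) else 0) φ b with hK
  have hmid := PUC_.val_mid hm φ b
  have hw0 : v0 ≠ w := by rintro rfl; exact hw h0
  have hw1 : v1 ≠ w := by rintro rfl; exact hw h1
  have val : ∀ q ∈ K, q ≠ w → q ∈ C ∧ φ q + b = 0 := by
    intro q hq hqw
    rw [hK, mem_contact, Finset.mem_insert, if_neg hqw] at hq
    exact ⟨hq.1.resolve_left hqw, hq.2⟩
  by_cases hwK : w ∈ K
  · have hfw : φ w + b = -1 := by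
      rw [hK, mem_contact, if_pos rfl] at hwK
      exact hwK.2
    by_cases hv0 : v0 ∈ K
    · have hv1 : v1 ∉ K := by
        intro hv1
        have c0 := (val v0 hv0 hw0).2
        have c1 := (val v1 hv1 hw1).2
        linarith
      right
      refine hSIM Λ K (insert w (C.erase v1)) ?_ ?_ hsp
      · refine PUC_.simp_new C w v1 v0 hw h1 h0 (Ne.symm h01) ?_ hC
        rw [add_comm]
        exact hm
      · intro q hq
        rw [Finset.mem_insert, Finset.mem_erase]
        by_cases hqw : q = w
        · exact Or.inl hqw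
        · refine Or.inr ⟨?_, (val q hq hqw).1⟩
          rintro rfl
          exact hv1 hq
    · left
      refine hSIM Λ K (insert w (C.erase v0)) ?_ ?_ hsp
      · exact PUC_.simp_new C w v0 v1 hw h0 h1 h01 hm hC
      · intro q hq
        rw [Finset.mem_insert, Finset.mem_erase]
        by_cases hqw : q = w
        · exact Or.inl hqw
        · refine Or.inr ⟨?_, (val q hq hqw).1⟩
          rintro rfl
          exact hv0 hq
  · exfalso
    have hKC : K = C := by
      refine hSIM Λ K C hC ?_ hsp
      intro q hq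
      exact (val q hq (by rintro rfl; exact hwK hq)).1
    have c0 := (val v0 (by rw [hKC]; exact h0) hw0).2
    have c1 := (val v1 (by rw [hKC]; exact h1) hw1).2
    linarith

end Pool.Agent.LHU

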