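import Pool.Agent.LHU.Stmts

set_option autoImplicit false

/-!
Pulling all midpoints.
-/

namespace Pool.Agent.LHU

open Pool.Agent.LHT

namespace PUL_

open Classical in
theorem step (hPUS : Stmt_PUS) (Λ : Type) [AddCommGroup Λ] (htf : TF Λ) (V S : Finset Λ)
    (hmid : ∀ w ∈ S, ∃ v ∈ V, ∃ v' ∈ V, v + v' = (2 : ℤ) • w) (Q : Set Λ)
    (ω : Λ → ℝ) (hω : GLw (fun C => Kay V C ∧ ∀ α ∈ Q, Has α C) V ω) (T : Finset Λ) :
    T ⊆ S → ∃ ω' : Λ → ℝ, GLw (fun C => Kay (T ∪ V) C ∧ ∀ α ∈ Q, Has α C) (T ∪ V) ω' := by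
  induction T using Finset.induction_on with
  | empty =>
    intro _
    refine ⟨ω, ?_⟩
    simpa using hω
  | insert w T hw ih =>
    intro hTS
    have hTS' : T ⊆ S := fun x hx => hTS (Finset.mem_insert_of_mem hx)
    have hwS : w ∈ S := hTS (Finset.mem_insert_self w T)
    obtain ⟨ω1, hω1⟩ := ih hTS'
    by_cases hwV : w ∈ V
    · refine ⟨ω1, ?_⟩
      have h : insert w T ∪ V = T ∪ V := by
        rw [Finset.insert_union, Finset.insert_eq_of_mem (Finset.mem_union_right T hwV)]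
      rw [h]
      exact hω1
    · have hwu : w ∉ T ∪ V := by
        intro h
        rcases Finset.mem_union.1 h with h | h
        · exact hw h
        · exact hwV h
      obtain ⟨v, hv, v', hv', hvv⟩ := hmid w hwS
      obtain ⟨ω2, hω2⟩ := hPUS Λ htf (T ∪ V) ω1 w hwu
        ⟨v, Finset.mem_union_right T hv, v', Finset.mem_union_right T hv', hvv⟩ Q hω1
      refine ⟨ω2, ?_⟩
      rw [Finset.insert_union]
      exact hω2

end PUL_

theorem PUL_proof (hPUS : Stmt_PUS) (hFNK : Stmt_FNK) : Stmt_PUL := by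
  classical
  intro Λ _ htf V S hVS hMid hmid Q ω hω
  obtain ⟨ω', hω'⟩ := PUL_.step hPUS Λ htf V S hmid Q ω hω S (Finset.Subset.refl S)
  have hu : S ∪ V = S := Finset.union_eq_left.2 hVS
  rw [hu] at hω'
  refine ⟨ω', ?_⟩
  intro φ b hle hsp
  obtain ⟨hK, hH⟩ := hω' φ b hle hsp
  refine ⟨?_, hH⟩
  refine hFNK Λ htf S _ ?_ hMid hK
  intro x hx
  exact (Finset.mem_filter.1 hx).1

end Pool.Agent.LHU
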