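import Pool.Agent.LHU.Stmts

set_option autoImplicit false

/-!
Module PUS: pulling one midpoint refines a triangulation of type K to one of type K.
-/

namespace Pool.Agent.LHU

open Pool.Agent.LHT

namespace PUS_

section
variable {Λ : Type} [AddCommGroup Λ]

/-- nonnegative integers with sum two on `C` describe a sum of two members of `C` -/
theorem two_pts (C : Finset Λ) (g : Λ → ℤ) (h0 : ∀ p ∈ C, 0 ≤ g p) (h2 : ∑ p ∈ C, g p = 2) :
    ∃ p ∈ C, ∃ q ∈ C, ∑ x ∈ C, g x • x = p + q := by
  classical
  have hp : ∃ p ∈ C, 0 < g p := by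
    by_contra hcon
    push Not at hcon
    have := Finset.sum_nonpos hcon
    omega
  obtain ⟨p, hpC, hgp⟩ := hp
  have h1 : ∑ x ∈ C, (g x - (if x = p then (1 : ℤ) else 0)) = 1 := by
    rw [Finset.sum_sub_distrib, h2, Finset.sum_ite_eq' C p (fun _ => (1 : ℤ)), if_pos hpC]
    norm_num
  have hq : ∃ q ∈ C, 0 < g q - (if q = p then (1 : ℤ) else 0) := by
    by_contra hcon
    push Not at hcon
    have := Finset.sum_nonpos hcon
    omega
  obtain ⟨q, hqC, hgq⟩ := hq
  have h3 : ∑ x ∈ C, (g x - (if x = p then (1 : ℤ) else 0) - (if x = q then (1 : ℤ) else 0))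
      = 0 := by
    rw [Finset.sum_sub_distrib, h1, Finset.sum_ite_eq' C q (fun _ => (1 : ℤ)), if_pos hqC]
    norm_num
  have h4 : ∀ x ∈ C, 0 ≤ g x - (if x = p then (1 : ℤ) else 0)
      - (if x = q then (1 : ℤ) else 0) := by
    intro x hx
    have hgx := h0 x hx
    by_cases e2 : x = q
    · subst e2
      rw [if_pos rfl]
      omega
    · rw [if_neg e2]
      by_cases e1 : x = p
      · subst e1
        rw [if_pos rfl]
        omega
      · rw [if_neg e1]
        omega
  have h5 := (Finset.sum_eq_zero_iff_of_nonneg h4).mp h3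
  refine ⟨p, hpC, q, hqC, ?_⟩
  have h6 : ∀ x ∈ C, g x • x = (if x = p then x else 0) + (if x = q then x else 0) := by
    intro x hx
    have h7 := h5 x hx
    have h8 : g x = (if x = p then (1 : ℤ) else 0) + (if x = q then (1 : ℤ) else 0) := by
      linarith
    rw [h8, add_smul, ite_smul, ite_smul, one_smul, zero_smul]
  rw [Finset.sum_congr rfl h6, Finset.sum_add_distrib,
    Finset.sum_ite_eq' C p (fun x => x), Finset.sum_ite_eq' C q (fun x => x),
    if_pos hpC, if_pos hqC]

/-- the other end of a segment with a lattice midpoint carries the same marks -/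
theorem cg_other {α v v' w : Λ} (h : v + v' = (2 : ℤ) • w) (hc : Cg α v) : Cg α v' := by
  obtain ⟨u, hu⟩ := hc
  refine ⟨u + (w - v), ?_⟩
  have e : v' = (2 : ℤ) • w - v := by rw [← h]; abel
  rw [e, smul_add, smul_sub, ← add_assoc, ← hu]
  rw [two_smul ℤ v]
  abel

/-- marks survive -/
theorem has_erase [DecidableEq Λ] {α v v' w : Λ} {C : Finset Λ} (hv' : v' ∈ C) (hne : v ≠ v')
    (h : v + v' = (2 : ℤ) • w) (hH : Has α C) : Has α (insert w (C.erase v)) := by
  obtain ⟨u, hu, hc⟩ := hH
  by_cases e : u = v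
  · subst e
    exact ⟨v', Finset.mem_insert_of_mem (Finset.mem_erase.mpr ⟨fun e2 => hne e2.symm, hv'⟩),
      cg_other h hc⟩
  · exact ⟨u, Finset.mem_insert_of_mem (Finset.mem_erase.mpr ⟨e, hu⟩), hc⟩

/-- the midpoint of an affine function -/
theorem mid_val (φ : Λ →+ ℝ) {v v' w : Λ} (h : v + v' = (2 : ℤ) • w) : φ v + φ v' = 2 * φ w := by
  have h1 := congrArg φ h
  rw [map_add, map_zsmul] at h1
  rw [h1]
  simp

end

end PUS_

open PUS_ in
theorem pus_proof (hREF : Stmt_REF) (hSIM : Stmt_SIM) (hKSI : Stmt_KSI) (hPUC : Stmt_PUC)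
    (hPUA : Stmt_PUA) : Stmt_PUS := by
  classical
  intro Λ _ hTF V ω w hwV hex Q hG
  set P := (V ×ˢ V).filter (fun p : Λ × Λ => p.1 + p.2 = (2 : ℤ) • w) with hP
  have hPne : P.Nonempty := by
    obtain ⟨v, hv, v', hv', h⟩ := hex
    refine ⟨(v, v'), ?_⟩
    rw [hP, Finset.mem_filter, Finset.mem_product]
    exact ⟨⟨hv, hv'⟩, h⟩
  obtain ⟨⟨v, v'⟩, hvv, hmin⟩ := Finset.exists_min_image P (fun p => ω p.1 + ω p.2) hPne
  have hmin' : ∀ p ∈ V, ∀ q ∈ V, p + q = (2 : ℤ) • w → ω v + ω v' ≤ ω p + ω q := by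
    intro p hp q hq h
    refine hmin (p, q) ?_
    rw [hP, Finset.mem_filter, Finset.mem_product]
    exact ⟨⟨hp, hq⟩, h⟩
  rw [hP, Finset.mem_filter, Finset.mem_product] at hvv
  obtain ⟨⟨hv, hv'⟩, hsum⟩ := hvv
  replace hv : v ∈ V := hv
  replace hv' : v' ∈ V := hv'
  replace hsum : v + v' = (2 : ℤ) • w := hsum
  have hne : v ≠ v' := by
    intro e
    subst e
    have h1 : (2 : ℤ) • (v - w) = 0 := by
      rw [smul_sub, ← hsum, two_smul ℤ v]
      abel
    have h2 := hTF 2 (v - w) (by norm_num) h1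
    rw [sub_eq_zero] at h2
    exact hwV (h2 ▸ hv)
  set ω₀ : Λ → ℝ := fun x => if x = w then (ω v + ω v') / 2 else ω x with hω₀
  set ω₁ : Λ → ℝ := fun x => if x = w then (-1 : ℝ) else 0 with hω₁
  have hω₀V : ∀ x ∈ V, ω₀ x = ω x := by
    intro x hx
    rw [hω₀]
    show (if x = w then (ω v + ω v') / 2 else ω x) = ω x
    rw [if_neg (fun e : x = w => hwV (e ▸ hx))]
  have hω₀w : ω₀ w = (ω v + ω v') / 2 := by
    rw [hω₀]
    show (if w = w then (ω v + ω v') / 2 else ω w) = (ω v + ω v') / 2
    rw [if_pos rfl]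
  have hω₁V : ∀ x ∈ V, ω₁ x = 0 := by
    intro x hx
    rw [hω₁]
    show (if x = w then (-1 : ℝ) else 0) = 0
    rw [if_neg (fun e : x = w => hwV (e ▸ hx))]
  have hω₁w : ω₁ w = -1 := by
    rw [hω₁]
    show (if w = w then (-1 : ℝ) else 0) = -1
    rw [if_pos rfl]
  obtain ⟨M₀, hM₀⟩ := hREF Λ (fun C => Kay (insert w V) C ∧ ∀ α ∈ Q, Has α C)
    (fun C hC => hKSI Λ (insert w V) C hC.1) (insert w V) ω₀ ω₁ (by
    intro φ b hle hs
    have hleV : ∀ x ∈ V, φ x + b ≤ ω x := by
      intro x hx
      rw [← hω₀V x hx]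
      exact hle x (Finset.mem_insert_of_mem hx)
    have hmid := mid_val φ hsum
    have hCV : contact V ω φ b ⊆ V := fun x hx => (mem_contact.mp hx).1
    by_cases hw : φ w + b = ω₀ w
    · -- the midpoint is in the cell
      rw [hω₀w] at hw
      have hva : φ v + b = ω v := by
        have h1 := hleV v hv
        have h2 := hleV v' hv'
        linarith
      have hvb : φ v' + b = ω v' := by
        have h1 := hleV v hv
        have h2 := hleV v' hv'
        linarith
      have hvC : v ∈ contact V ω φ b := mem_contact.mpr ⟨hv, hva⟩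
      have hvC' : v' ∈ contact V ω φ b := mem_contact.mpr ⟨hv', hvb⟩
      have hK : contact (insert w V) ω₀ φ b = insert w (contact V ω φ b) := by
        ext x
        rw [mem_contact, Finset.mem_insert, Finset.mem_insert, mem_contact]
        constructor
        · rintro ⟨h1 | h1, h2⟩
          · exact Or.inl h1
          · exact Or.inr ⟨h1, by rw [h2, hω₀V x h1]⟩
        · rintro (h1 | ⟨h1, h2⟩)
          · refine ⟨Or.inl h1, ?_⟩
            rw [h1, hω₀w]
            exact hw
          · exact ⟨Or.inr h1, by rw [h2, hω₀V x h1]⟩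
      have hsC : Spans (contact V ω φ b) := by
        intro χ d hχ
        apply hs χ d
        intro x hx
        rw [hK, Finset.mem_insert] at hx
        rcases hx with hx | hx
        · rw [hx]
          have h1 := hχ v hvC
          have h2 := hχ v' hvC'
          have h3 := mid_val χ hsum
          linarith
        · exact hχ x hx
      have hGC := hG φ b hleV hsC
      have hwC : w ∉ contact V ω φ b := fun h => hwV (hCV h)
      rw [hK]
      intro φ' b' hle' hs'
      have h1 := hPUC Λ (contact V ω φ b) w v v' hwC hvC hvC' hne hsum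
        (hKSI Λ V _ hGC.1) φ' b' (by
          intro x hx
          rw [← hω₁V x (hCV hx)]
          exact hle' x (Finset.mem_insert_of_mem hx)) (by
          rw [← hω₁w]
          exact hle' w (Finset.mem_insert_self w _)) hs'
      have hsum' : v' + v = (2 : ℤ) • w := by rw [add_comm]; exact hsum
      rcases h1 with h1 | h1
      · have h2 : Kay (insert w V) (insert w ((contact V ω φ b).erase v)) ∧
            ∀ α ∈ Q, Has α (insert w ((contact V ω φ b).erase v)) :=
          ⟨hPUA Λ hTF V _ w v v' hCV hwV hvC hvC' hne hsum hGC.1,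
            fun α hα => has_erase hvC' hne hsum (hGC.2 α hα)⟩
        rw [← h1] at h2
        exact h2
      · have h2 : Kay (insert w V) (insert w ((contact V ω φ b).erase v')) ∧
            ∀ α ∈ Q, Has α (insert w ((contact V ω φ b).erase v')) :=
          ⟨hPUA Λ hTF V _ w v' v hCV hwV hvC' hvC hne.symm hsum' hGC.1,
            fun α hα => has_erase hvC hne.symm hsum' (hGC.2 α hα)⟩
        rw [← h1] at h2
        exact h2
    · -- the midpoint is not in the cell
      have hK : contact (insert w V) ω₀ φ b = contact V ω φ b := by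
        ext x
        rw [mem_contact, Finset.mem_insert, mem_contact]
        constructor
        · rintro ⟨h1 | h1, h2⟩
          · exact absurd (h1 ▸ h2) hw
          · exact ⟨h1, by rw [h2, hω₀V x h1]⟩
        · rintro ⟨h1, h2⟩
          exact ⟨Or.inr h1, by rw [h2, hω₀V x h1]⟩
      rw [hK] at hs ⊢
      have hGC := hG φ b hleV hs
      intro φ' b' hle' hs'
      have hsub : contact (contact V ω φ b) ω₁ φ' b' ⊆ contact V ω φ b :=
        fun x hx => (mem_contact.mp hx).1
      have hEq := hSIM Λ _ _ (hKSI Λ V _ hGC.1) hsub hs'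
      rw [hEq]
      refine ⟨?_, hGC.2⟩
      obtain ⟨ψ, c, g1, g2, g3, g4, g5⟩ := hGC.1
      refine ⟨ψ, c, g1, g2, g3, g4, ?_⟩
      intro x hx hpos
      rw [Finset.mem_insert] at hx
      rcases hx with hx | hx
      · exfalso
        rw [hx] at hpos
        obtain ⟨p, hp, q, hq, hpq⟩ := two_pts (contact V ω φ b) (fun p => ψ p w + c p) hpos (g2 w)
        have h1 : p + q = (2 : ℤ) • w := by rw [← hpq]; exact g3 w
        have h2 := hmin' p (hCV hp) q (hCV hq) h1
        have h3 := mid_val φ h1
        have h4 := (mem_contact.mp hp).2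
        have h5 := (mem_contact.mp hq).2
        have h6 := hle w (Finset.mem_insert_self w _)
        apply hw
        rw [hω₀w] at h6 ⊢
        linarith
      · exact g5 x hx hpos)
  exact ⟨_, hM₀ M₀ le_rfl⟩

end Pool.Agent.LHU
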