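import Pool.Agent.LHU.Stmts

set_option autoImplicit false

namespace Pool.Agent.LHU

open Pool.Agent.LHT

namespace PYL_

variable {n : ℕ}

theorem hom_expand (s : Fin n → ℕ) (hs : ∀ i, 0 < s i) (x : Fin n → ℤ)
    (χ : (Fin n → ℤ) →+ ℝ) :
    χ x = ∑ k ∈ Finset.range (n + 1), (rat s (lat x) (k + 1) - rat s (lat x) k) * χ (vtx s k) := by
  have hsr : ∀ i, (0 : ℝ) < (s i : ℝ) := fun i => by exact_mod_cast hs i
  have h1 : ∀ k ∈ Finset.range (n + 1),
      (rat s (lat x) (k + 1) - rat s (lat x) k) * χ (vtx s k) =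
      ∑ j : Fin n, χ (Pi.single j 1) * (s j : ℝ) *
        (if k ≤ (j : ℕ) then (rat s (lat x) (k + 1) - rat s (lat x) k) else 0) := by
    intro k _
    rw [hom_sum_real, Finset.mul_sum]
    apply Finset.sum_congr rfl
    intro j _
    have h2 : ((vtx s k j : ℤ) : ℝ) = if k ≤ (j : ℕ) then (s j : ℝ) else 0 := by
      show (((if k ≤ (j : ℕ) then (s j : ℤ) else 0) : ℤ) : ℝ) = _
      split_ifs
      · push_cast; rfl
      · simp
    rw [h2]
    split_ifs <;> ring
  rw [Finset.sum_congr rfl h1, Finset.sum_comm, hom_sum_real]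
  apply Finset.sum_congr rfl
  intro j _
  rw [← Finset.mul_sum, ← Finset.sum_filter]
  have h2 : (Finset.range (n + 1)).filter (fun k => k ≤ (j : ℕ)) = Finset.range ((j : ℕ) + 1) := by
    ext k
    rw [Finset.mem_filter, Finset.mem_range, Finset.mem_range]
    have := j.2
    omega
  rw [h2, Finset.sum_range_sub]
  have h3 : rat s (lat x) ((j : ℕ) + 1) = (x j : ℝ) / s j := by
    show (if h : (j : ℕ) < n then lat x ⟨j, h⟩ / s ⟨j, h⟩ else 1) = _
    rw [dif_pos j.2]
    rfl
  have h4 : rat s (lat x) 0 = 0 := rfl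
  rw [h3, h4, sub_zero, mul_assoc, mul_div_cancel₀ _ (hsr j).ne']

theorem vtx_top (s : Fin n → ℕ) : vtx s n = 0 := by
  funext i
  show (if n ≤ (i : ℕ) then (s i : ℤ) else 0) = 0
  rw [if_neg (by have := i.2; omega)]

end PYL_

open PYL_ in
theorem pyl_proof : Stmt_PYL := by
  intro p L hL x hx χ d hd
  have hX : lat x ∈ simplex L := (lat_mem hL x).mpr hx
  have hLp : (0 : ℝ) < (L (Fin.last p) : ℝ) := by exact_mod_cast hL (Fin.last p)
  have h1 := hom_expand L hL x χ
  rw [Finset.sum_range_succ, vtx_top, map_zero, mul_zero, add_zero] at h1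
  have h2 : ∑ k ∈ Finset.range (p + 1), (rat L (lat x) (k + 1) - rat L (lat x) k)
      = (x (Fin.last p) : ℝ) / L (Fin.last p) := by
    rw [Finset.sum_range_sub]
    have h3 : rat L (lat x) (p + 1) = (x (Fin.last p) : ℝ) / L (Fin.last p) := by
      show (if h : p < p + 1 then lat x ⟨p, h⟩ / L ⟨p, h⟩ else 1) = _
      rw [dif_pos (Nat.lt_succ_self p)]
      rfl
    have h4 : rat L (lat x) 0 = 0 := rfl
    rw [h3, h4, sub_zero]
  have h3 : (x (Fin.last p) : ℝ) = (L (Fin.last p) : ℝ) *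
      ∑ k ∈ Finset.range (p + 1), (rat L (lat x) (k + 1) - rat L (lat x) k) := by
    rw [h2, mul_div_cancel₀ _ hLp.ne']
  have h4 : χ ((L (Fin.last p) : ℤ) • x) + ((x (Fin.last p) : ℤ) : ℝ) * d =
      (L (Fin.last p) : ℝ) * ∑ k ∈ Finset.range (p + 1),
        (rat L (lat x) (k + 1) - rat L (lat x) k) * (χ (vtx L k) + d) := by
    rw [map_zsmul, zsmul_eq_mul, h3, h1]
    simp only [mul_add, Finset.sum_add_distrib, ← Finset.sum_mul]
    push_cast
    ring
  rw [h4]
  apply mul_nonpos_of_nonneg_of_nonpos hLp.le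
  apply Finset.sum_nonpos
  intro k hk
  rw [Finset.mem_range] at hk
  apply mul_nonpos_of_nonneg_of_nonpos
  · have := rat_mono L (lat x) hX k
    linarith
  · apply hd _ (vtx_mem L k)
    show (if k ≤ ((Fin.last p : Fin (p + 1)) : ℕ) then (L (Fin.last p) : ℤ) else 0) = _
    rw [if_pos]
    rw [Fin.val_last]
    omega

end Pool.Agent.LHU
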