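import Pool.Agent.LHU.PYL

set_option autoImplicit false

/-!
Module PYR: pyramid property at the first vertex.
-/

namespace Pool.Agent.LHU

open Pool.Agent.LHT

namespace PYR_

variable {n : ℕ}

theorem vtx_bot (s : Fin n → ℕ) : vtx s 0 = uu s := by
  funext i
  show (if 0 ≤ (i : ℕ) then (s i : ℤ) else 0) = (s i : ℤ)
  rw [if_pos (Nat.zero_le _)]

end PYR_

open PYR_ in
theorem pyr_proof : Stmt_PYR := by
  intro q R hR z hz χ d hd
  have hX : lat z ∈ simplex R := (lat_mem hR z).mpr hz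
  have hR0 : (0 : ℝ) < (R 0 : ℝ) := by exact_mod_cast hR 0
  have h1 := PYL_.hom_expand R hR z χ
  have hw0 : rat R (lat z) (0 + 1) - rat R (lat z) 0 = (z 0 : ℝ) / R 0 := by
    have h3 : rat R (lat z) (0 + 1) = (z 0 : ℝ) / R 0 := by
      show (if h : 0 < q + 1 then lat z ⟨0, h⟩ / R ⟨0, h⟩ else 1) = _
      rw [dif_pos (Nat.succ_pos q)]
      rfl
    have h4 : rat R (lat z) 0 = 0 := rfl
    rw [h3, h4, sub_zero]
  have hs : ∑ k ∈ Finset.range (q + 1 + 1), (rat R (lat z) (k + 1) - rat R (lat z) k) = 1 := by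
    rw [Finset.sum_range_sub]
    show (if h : q + 1 < q + 1 then lat z ⟨q + 1, h⟩ / R ⟨q + 1, h⟩ else 1) - 0 = 1
    rw [dif_neg (lt_irrefl _)]
    ring
  rw [Finset.sum_range_succ', hw0, vtx_bot] at h1
  rw [Finset.sum_range_succ', hw0] at hs
  have h5 : (R 0 : ℝ) * ((z 0 : ℝ) / R 0) = (z 0 : ℝ) := mul_div_cancel₀ _ hR0.ne'
  have h4 : χ ((R 0 : ℤ) • z - z 0 • uu R) + (((R 0 : ℤ) - z 0 : ℤ) : ℝ) * d =
      (R 0 : ℝ) * ∑ k ∈ Finset.range (q + 1),
        (rat R (lat z) (k + 1 + 1) - rat R (lat z) (k + 1)) * (χ (vtx R (k + 1)) + d) := by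
    rw [map_sub, map_zsmul, map_zsmul, zsmul_eq_mul, zsmul_eq_mul, h1]
    simp only [mul_add, Finset.sum_add_distrib, ← Finset.sum_mul]
    have h6 : (∑ k ∈ Finset.range (q + 1), (rat R (lat z) (k + 1 + 1) - rat R (lat z) (k + 1)))
        = 1 - (z 0 : ℝ) / R 0 := by linarith
    rw [h6]
    push_cast
    linear_combination (χ (uu R) + d) * h5
  rw [h4]
  apply mul_nonpos_of_nonneg_of_nonpos hR0.le
  apply Finset.sum_nonpos
  intro k hk
  rw [Finset.mem_range] at hk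
  apply mul_nonpos_of_nonneg_of_nonpos
  · have := rat_mono R (lat z) hX (k + 1)
    linarith
  · apply hd _ (vtx_mem R (k + 1))
    show (if k + 1 ≤ ((0 : Fin (q + 1)) : ℕ) then (R 0 : ℤ) else 0) = _
    rw [if_neg]
    rw [Fin.val_zero]
    omega

end Pool.Agent.LHU
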