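import Pool.Agent.LHU.Stmts

set_option autoImplicit false

/-!
Short lists.
-/

namespace Pool.Agent.LHU

open Pool.Agent.LHT

namespace R2_

theorem lr_zero (s : Fin 0 → ℕ) : lr s := by
  obtain ⟨ω, hω⟩ := RL_zero s
  refine ⟨ω, ?_⟩
  intro φ b hle hsp
  have hne : (contact (LH s) ω φ b).Nonempty := by
    by_contra hcon
    rw [Finset.not_nonempty_iff_eq_empty] at hcon
    have h1 := hsp 0 1 (by
      intro v hv
      rw [hcon] at hv
      exact absurd hv (Finset.notMem_empty v))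
    exact one_ne_zero h1.2
  obtain ⟨v, hv⟩ := hne
  exact ⟨hω φ b hle hsp, ⟨v, hv, 0, Subsingleton.elim _ _⟩, ⟨v, hv, 0, Subsingleton.elim _ _⟩⟩

end R2_

theorem r2_proof (hTWO : Stmt_TWO) (hINS : Stmt_INS) (hLCA : Stmt_LCA) : Stmt_R2 := by
  refine ⟨R2_.lr_zero _, ?_, ?_⟩
  · intro a ha
    have h0 : ∀ i : Fin 0, 0 < (fun i : Fin 0 => (i.elim0 : ℕ)) i := fun i => i.elim0
    have e1 : lft (fun i : Fin 0 => (i.elim0 : ℕ)) 0 = 1 := by
      unfold lft
      rw [dif_neg (by simp)]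
    have e2 : rgt (fun i : Fin 0 => (i.elim0 : ℕ)) 0 = 1 := by
      unfold rgt
      rw [dif_neg (by simp)]
    have h := hINS 0 0 (fun i : Fin 0 => (i.elim0 : ℕ)) a h0 ha
      (by rw [e1, e2]; simp) (R2_.lr_zero _)
    refine (hLCA 1 (insS (0 : Fin 1) a (fun i : Fin 0 => (i.elim0 : ℕ))) [a] rfl ?_).mp h
    intro i
    have hi : i = 0 := Subsingleton.elim _ _
    rw [hi]
    have h2 : insS (0 : Fin 1) a (fun i : Fin 0 => (i.elim0 : ℕ)) 0 = a := insS_same 0 a _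
    rw [h2]
    rfl
  · intro a b ha hb
    refine (hLCA 2 ![a, b] [a, b] rfl ?_).mp (hTWO a b ha hb)
    intro i
    fin_cases i <;> rfl

end Pool.Agent.LHU
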