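import Pool.Agent.LHU.Stmts

set_option autoImplicit false

/-!
Module RF: the word `3 4 4 3`.
-/

namespace Pool.Agent.LHU.RF_

open Pool.Agent.LHT Pool.Agent.LHU

theorem sub_LH : V44 ⊆ LH ![4, 4] := by
  intro v hv
  rw [mem_LH]
  have key : ∀ v ∈ V44, (∀ i, 0 ≤ v i ∧ v i ≤ ((![4, 4] : Fin 2 → ℕ) i : ℤ)) ∧
      ∀ i j : Fin 2, i < j → v i * ((![4, 4] : Fin 2 → ℕ) j : ℤ) ≤
        v j * ((![4, 4] : Fin 2 → ℕ) i : ℤ) := by
    decide
  exact key v hv

theorem vtx_mem44 (k : ℕ) : vtx ![4, 4] k ∈ V44 := by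
  have h : vtx ![4, 4] k = ![4, 4] ∨ vtx ![4, 4] k = ![0, 4] ∨ vtx ![4, 4] k = ![0, 0] := by
    rcases k with _ | _ | k
    · left
      funext i
      fin_cases i <;> simp [vtx]
    · right; left
      funext i
      fin_cases i <;> simp [vtx]
    · right; right
      funext i
      fin_cases i <;> simp [vtx]
  rcases h with h | h | h <;> rw [h] <;> decide

end Pool.Agent.LHU.RF_

namespace Pool.Agent.LHU

open Pool.Agent.LHT RF_

theorem rf_proof (hAP3 : Stmt_AP3) (hS44 : Stmt_S44) (hLCA : Stmt_LCA) : Stmt_RF := by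
  intro l1 l2 h1 h2 hl hr
  obtain ⟨ω, hω⟩ := hS44
  have e1 : l1.length + 1 = (l1 ++ [3]).length := by simp
  let L : Fin (l1.length + 1) → ℕ := fun i => (l1 ++ [3]).get (Fin.cast e1 i)
  let R : Fin (l2.length + 1) → ℕ := fun i => (3 :: l2).get i
  have hL : lr L := (hLCA _ L (l1 ++ [3]) e1 fun i => rfl).2 hl
  have hR : lr R := hr
  have hL0 : ∀ i, 0 < L i := by
    intro i
    have h3 : L i ∈ l1 ++ [3] := List.get_mem _ _
    rw [List.mem_append, List.mem_singleton] at h3
    rcases h3 with h3 | h3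
    · exact h1 _ h3
    · rw [h3]; norm_num
  have hR0 : ∀ i, 0 < R i := by
    intro i
    have h3 : R i ∈ 3 :: l2 := List.get_mem _ _
    rw [List.mem_cons] at h3
    rcases h3 with h3 | h3
    · rw [h3]; norm_num
    · exact h2 _ h3
  have hLl : L (Fin.last l1.length) = 3 := by
    show (l1 ++ [3]).get _ = 3
    simp
  have hRz : R 0 = 3 := rfl
  have hmain := hAP3 l1.length 1 l2.length L ![4, 4] R hL0 (by decide) hR0 V44 A44 B44
    (fun v i => v i / 3) (fun v i => (v i - 4) / 3) ω sub_LH vtx_mem44 (by decide) (by decide)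
    (by decide) (by decide) (by decide) (by
      rw [hRz]
      decide) (by
      rw [hLl]
      have key : ∀ β ∈ B44, ((3 : ℕ) : ℤ) • (fun i => (β i - 4) / 3 : Fin 2 → ℤ) =
          β - ![4, 4] := by decide
      intro β hβ
      have h4 : (uu (![4, 4] : Fin (1 + 1) → ℕ)) = ![4, 4] := by
        funext i
        fin_cases i <;> rfl
      rw [h4]
      exact key β hβ) hω hL hR
  have e2 : (l1.length + 1) + ((1 + 1) + (l2.length + 1)) =
      (l1 ++ 3 :: 4 :: 4 :: 3 :: l2).length := by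
    simp
    omega
  refine (hLCA _ _ (l1 ++ 3 :: 4 :: 4 :: 3 :: l2) e2 ?_).1 hmain
  have hsplit : l1 ++ 3 :: 4 :: 4 :: 3 :: l2 = (l1 ++ [3]) ++ (4 :: 4 :: 3 :: l2) := by simp
  have key2 : ∀ (j : Fin ((1 + 1) + (l2.length + 1))) (h : (j : ℕ) < (4 :: 4 :: 3 :: l2).length),
      Fin.append ![4, 4] R j = (4 :: 4 :: 3 :: l2)[(j : ℕ)]'h := by
    intro j
    refine Fin.addCases (motive := fun j => ∀ (h : (j : ℕ) < (4 :: 4 :: 3 :: l2).length),
      Fin.append ![4, 4] R j = (4 :: 4 :: 3 :: l2)[(j : ℕ)]'h) (fun k h => ?_) (fun k h => ?_) j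
    · rw [Fin.append_left]
      fin_cases k <;> rfl
    · rw [Fin.append_right]
      have e4 : ((Fin.natAdd (1 + 1) k : Fin _) : ℕ) = (k : ℕ) + 1 + 1 := by
        simp
        omega
      simp only [e4, List.getElem_cons_succ]
      rfl
  have key1 : ∀ (i : Fin ((l1.length + 1) + ((1 + 1) + (l2.length + 1))))
      (h : (i : ℕ) < ((l1 ++ [3]) ++ (4 :: 4 :: 3 :: l2)).length),
      Fin.append L (Fin.append ![4, 4] R) i = ((l1 ++ [3]) ++ (4 :: 4 :: 3 :: l2))[(i : ℕ)]'h := by
    intro i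
    refine Fin.addCases (motive := fun i => ∀ (h : (i : ℕ) <
        ((l1 ++ [3]) ++ (4 :: 4 :: 3 :: l2)).length), Fin.append L (Fin.append ![4, 4] R) i =
        ((l1 ++ [3]) ++ (4 :: 4 :: 3 :: l2))[(i : ℕ)]'h) (fun j h => ?_) (fun j h => ?_) i
    · rw [Fin.append_left]
      rw [List.getElem_append_left (by
        have := j.2
        simp
        omega)]
      rfl
    · rw [Fin.append_right]
      rw [List.getElem_append_right (by simp)]
      have e3 : ((Fin.natAdd (l1.length + 1) j : Fin _) : ℕ) - (l1 ++ [3]).length = (j : ℕ) := by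
        simp
      simp only [e3]
      exact key2 j (by
        have := j.2
        simp
        omega)
  intro i
  rw [List.get_eq_getElem]
  simp only [hsplit, Fin.val_cast]
  exact key1 i _

end Pool.Agent.LHU
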