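import Pool.Agent.LHU.Stmts

set_option autoImplicit false

/-!
Insertion of a multiple of the neighbours, for lists.
-/

namespace Pool.Agent.LHU

open Pool.Agent.LHT

namespace RI_

theorem get_mid (l1 l2 : List ℕ) (m : ℕ) (i : ℕ) (hi : i < (l1 ++ m :: l2).length)
    (h : i = l1.length) : (l1 ++ m :: l2)[i] = m := by
  subst h
  simp

theorem get_lt (l1 l2 : List ℕ) (m : ℕ) (i : ℕ) (hi : i < (l1 ++ m :: l2).length)
    (hi' : i < (l1 ++ l2).length) (h : i < l1.length) :
    (l1 ++ m :: l2)[i] = (l1 ++ l2)[i] := by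
  rw [List.getElem_append_left h, List.getElem_append_left h]

theorem get_gt (l1 l2 : List ℕ) (m : ℕ) (i : ℕ) (hi : i + 1 < (l1 ++ m :: l2).length)
    (hi' : i < (l1 ++ l2).length) (h : l1.length ≤ i) :
    (l1 ++ m :: l2)[i + 1] = (l1 ++ l2)[i] := by
  rw [List.getElem_append_right (by omega), List.getElem_append_right h]
  have e : i + 1 - l1.length = (i - l1.length) + 1 := by omega
  simp only [e, List.getElem_cons_succ]

theorem pos_all (l1 l2 : List ℕ) (h1 : ∀ x ∈ l1, 0 < x) (h2 : ∀ x ∈ l2, 0 < x)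
    (i : Fin (l1 ++ l2).length) : 0 < (l1 ++ l2).get i := by
  have hm : (l1 ++ l2).get i ∈ l1 ++ l2 := List.get_mem _ _
  rcases List.mem_append.1 hm with h | h
  · exact h1 _ h
  · exact h2 _ h

theorem lft_eq (l1 l2 : List ℕ) (k : Fin ((l1 ++ l2).length + 1)) (hk : (k : ℕ) = l1.length) :
    lft (fun i : Fin (l1 ++ l2).length => (l1 ++ l2).get i) k = l1.getLastD 1 := by
  unfold lft
  rcases List.eq_nil_or_concat l1 with h | ⟨L, b, h⟩
  · subst h
    have : ¬ 0 < (k : ℕ) := by simp [hk]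
    rw [dif_neg this]
    rfl
  · subst h
    have hk' : (k : ℕ) = L.length + 1 := by simpa using hk
    have : 0 < (k : ℕ) := by omega
    rw [dif_pos this]
    have e : (k : ℕ) - 1 = L.length := by omega
    simp only [List.get_eq_getElem, e]
    simp

theorem rgt_eq (l1 l2 : List ℕ) (k : Fin ((l1 ++ l2).length + 1)) (hk : (k : ℕ) = l1.length) :
    rgt (fun i : Fin (l1 ++ l2).length => (l1 ++ l2).get i) k = l2.headD 1 := by
  unfold rgt
  rcases l2 with _ | ⟨b, L⟩
  · have : ¬ (k : ℕ) < (l1 ++ []).length := by simp [hk]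
    rw [dif_neg this]
    rfl
  · have : (k : ℕ) < (l1 ++ b :: L).length := by simp [hk]
    rw [dif_pos this]
    simp only [List.get_eq_getElem, hk]
    simp

end RI_

open RI_ in
theorem ri_proof (hINS : Stmt_INS) (hLCA : Stmt_LCA) : Stmt_RI := by
  intro l1 l2 m h1 h2 hm hd hl
  have hk : l1.length < (l1 ++ l2).length + 1 := by simp only [List.length_append]; omega
  have hs : ∀ i : Fin (l1 ++ l2).length, 0 < (l1 ++ l2).get i := pos_all l1 l2 h1 h2
  have hlen : (l1 ++ l2).length + 1 = (l1 ++ m :: l2).length := by simp; omega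
  have h := hINS (l1 ++ l2).length ⟨l1.length, hk⟩ (fun i => (l1 ++ l2).get i) m hs hm
    (by rw [lft_eq l1 l2 _ rfl, rgt_eq l1 l2 _ rfl]; exact hd) hl
  refine (hLCA _ _ (l1 ++ m :: l2) hlen ?_).1 h
  intro i
  refine Fin.succAboveCases (⟨l1.length, hk⟩ : Fin ((l1 ++ l2).length + 1)) ?_ (fun j => ?_) i
  · rw [insS_same, List.get_eq_getElem]
    exact (get_mid l1 l2 m _ _ rfl).symm
  · rw [insS_succ, List.get_eq_getElem, List.get_eq_getElem]
    by_cases hj : (j : ℕ) < l1.length
    · have e : (Fin.cast hlen ((⟨l1.length, hk⟩ : Fin ((l1 ++ l2).length + 1)).succAbove j) : ℕ)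
          = j := by
        rw [Fin.val_cast, Fin.succAbove_of_castSucc_lt _ _ (by
          rw [Fin.lt_def]; exact hj)]
        rfl
      simp only [e]
      exact (get_lt l1 l2 m j _ _ hj).symm
    · have e : (Fin.cast hlen ((⟨l1.length, hk⟩ : Fin ((l1 ++ l2).length + 1)).succAbove j) : ℕ)
          = j + 1 := by
        rw [Fin.val_cast, Fin.succAbove_of_le_castSucc _ _ (by
          rw [Fin.le_def]; exact Nat.le_of_not_lt hj)]
        rfl
      simp only [e]
      exact (get_gt l1 l2 m j _ _ (Nat.le_of_not_lt hj)).symm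

end Pool.Agent.LHU
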