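import Pool.Agent.LHU.Stmts

set_option autoImplicit false

/-!
Module RVF: reversal keeps the marks.
-/

namespace Pool.Agent.LHU

open Pool.Agent.LHT

theorem rvf_proof (hTRA : Stmt_TRA) : Stmt_RVF := by
  intro n s hs
  obtain ⟨ω, hω⟩ := hs
  have key : ∀ v : Fin n → ℤ, revE n v + (fun i : Fin n => (s i.rev : ℤ)) ∈ LH (fun i => s i.rev) ↔
      v ∈ LH s := by
    intro x
    have hv : ∀ i, (revE n x + fun i : Fin n => (s i.rev : ℤ)) i = s i.rev - x i.rev := by
      intro i
      show -x i.rev + (s i.rev : ℤ) = _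
      ring
    rw [mem_LH, mem_LH]
    simp only [hv]
    constructor
    · rintro ⟨h1, h2⟩
      constructor
      · intro i
        have := h1 i.rev
        rw [Fin.rev_rev] at this
        constructor
        · linarith [this.2]
        · linarith [this.1]
      · intro i j hij
        have := h2 j.rev i.rev (Fin.rev_lt_rev.mpr hij)
        rw [Fin.rev_rev, Fin.rev_rev] at this
        linarith
    · rintro ⟨h1, h2⟩
      constructor
      · intro i
        have := h1 i.rev
        constructor
        · linarith [this.2]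
        · linarith [this.1]
      · intro i j hij
        have := h2 j.rev i.rev (Fin.rev_lt_rev.mpr hij)
        linarith
  obtain ⟨ω', hω'⟩ := hTRA _ _ (revE n) (fun i : Fin n => (s i.rev : ℤ)) (LH s)
    (LH (fun i => s i.rev)) key 0 (uu s) ω hω
  have e1 : revE n 0 + (fun i : Fin n => (s i.rev : ℤ)) = uu (fun i => s i.rev) := by
    rw [map_zero, zero_add]
    rfl
  have e2 : revE n (uu s) + (fun i : Fin n => (s i.rev : ℤ)) = 0 := by
    funext i
    show -(s i.rev : ℤ) + (s i.rev : ℤ) = 0
    ring
  rw [e1, e2] at hω'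
  refine ⟨ω', ?_⟩
  intro φ b h1 h2
  obtain ⟨h3, h4, h5⟩ := hω' φ b h1 h2
  exact ⟨h3, h5, h4⟩

end Pool.Agent.LHU
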