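import Pool.Agent.LHU.Stmts

set_option autoImplicit false

/-!
The certificate for two fours between two threes.
-/

namespace Pool.Agent.LHU.S44_

open Pool.Agent.LHT Pool.Agent.LHU

/-- first coordinates -/
def px : Fin 10 → ℤ := ![0, 0, 0, 0, 1, 1, 1, 2, 3, 4]

/-- second coordinates -/
def py : Fin 10 → ℤ := ![0, 1, 3, 4, 1, 3, 4, 4, 3, 4]

/-- heights -/
def hh : Fin 10 → ℤ := ![0, 2, 18, 32, 4, 21, 32, 42, 35, 64]

/-- points -/
def pt (i : Fin 10) : Fin 2 → ℤ := ![px i, py i]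

/-- orientation -/
def D (i j k : Fin 10) : ℤ := (px j - px i) * (py k - py i) - (px k - px i) * (py j - py i)

/-- slack times orientation -/
def E (i j k l : Fin 10) : ℤ :=
  D i j k * hh l - (hh i * D l j k + hh j * D i l k + hh k * D i j l)

/-- the nine cells -/
def cell : Fin 9 → Fin 3 → Fin 10 :=
  ![![0, 1, 4], ![1, 2, 4], ![2, 3, 6], ![2, 4, 5], ![2, 5, 6], ![4, 5, 8], ![5, 6, 8],
    ![6, 7, 8], ![7, 8, 9]]

/-- doubled coordinates of the nine cells -/
def mat : Fin 9 → Fin 3 → Fin 3 → ℤ :=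
  ![![![0, -2, 2], ![-2, 2, 0], ![2, 0, 0]],
    ![![-2, -1, 3], ![0, 1, -1], ![2, 0, 0]],
    ![![0, -2, 8], ![-2, 2, -6], ![2, 0, 0]],
    ![![-2, 0, 2], ![0, -1, 3], ![2, 1, -3]],
    ![![-2, 0, 2], ![2, -2, 6], ![0, 2, -6]],
    ![![0, -1, 3], ![-1, 1, 0], ![1, 0, -1]],
    ![![-1, -2, 9], ![0, 2, -6], ![1, 0, -1]],
    ![![-2, -2, 12], ![2, 4, -18], ![0, -2, 8]],
    ![![-1, 1, 0], ![0, -2, 8], ![1, 1, -6]]]

/-- vertices of the cells -/
def vt (c : Fin 9) (t : Fin 3) : Fin 2 → ℤ := pt (cell c t)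

/-- an affine function -/
def lin (m : Fin 3 → ℤ) (v : Fin 2 → ℤ) : ℤ := m 0 * v 0 + m 1 * v 1 + m 2

theorem check : ∀ i j k : Fin 10, D i j k ≠ 0 → (∃ l, D i j k * E i j k l < 0) ∨
    ∃ c : Fin 9, ∀ l, E i j k l = 0 ↔ (∃ t, l = cell c t) := by
  decide +kernel

theorem pt_inj : Function.Injective pt := by
  have h : ∀ i j : Fin 10, px i = px j → py i = py j → i = j := by decide +kernel
  intro i j hij
  exact h i j (congrFun hij 0) (congrFun hij 1)

theorem mem_V (v : Fin 2 → ℤ) : v ∈ V44 ↔ ∃ i, v = pt i := by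
  constructor
  · intro hv
    unfold V44 at hv
    simp only [Finset.mem_insert, Finset.mem_singleton] at hv
    rcases hv with h | h | h | h | h | h | h | h | h | h
    · exact ⟨0, h⟩
    · exact ⟨1, h⟩
    · exact ⟨2, h⟩
    · exact ⟨3, h⟩
    · exact ⟨4, h⟩
    · exact ⟨5, h⟩
    · exact ⟨6, h⟩
    · exact ⟨7, h⟩
    · exact ⟨8, h⟩
    · exact ⟨9, h⟩
  · rintro ⟨i, rfl⟩
    revert i
    decide +kernel

/-- the linear part -/
def ps (m : Fin 3 → ℤ) : (Fin 2 → ℤ) →+ ℤ :=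
  { toFun := fun v => m 0 * v 0 + m 1 * v 1
    map_zero' := by simp
    map_add' := by
      intro u v
      show m 0 * (u 0 + v 0) + m 1 * (u 1 + v 1) = _
      ring }

theorem kay (P : Fin 3 → Fin 2 → ℤ) (M : Fin 3 → Fin 3 → ℤ) (hP : Function.Injective P)
    (h1 : ∀ t s, lin (M t) (P s) = if t = s then 2 else 0)
    (h2 : ∀ c : Fin 3, M 0 c + M 1 c + M 2 c = if c = 2 then 2 else 0)
    (h3 : ∀ (c : Fin 3) (i : Fin 2), M 0 c * P 0 i + M 1 c * P 1 i + M 2 c * P 2 i =
      if (c : ℕ) = (i : ℕ) then 2 else 0)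
    (h4 : ∀ f0 f1 f2 : ZMod 2,
      (2 ∣ P 0 0 - P 1 0 → 2 ∣ P 0 1 - P 1 1 → f0 = f1) →
      (2 ∣ P 0 0 - P 2 0 → 2 ∣ P 0 1 - P 2 1 → f0 = f2) →
      (2 ∣ P 1 0 - P 2 0 → 2 ∣ P 1 1 - P 2 1 → f1 = f2) →
      ∀ c : Fin 3, (M 0 c : ZMod 2) * f0 + (M 1 c : ZMod 2) * f1 + (M 2 c : ZMod 2) * f2 = 0)
    (h5 : ∀ i : Fin 10, (∀ t, 0 ≤ lin (M t) (pt i)) → ∃ t, pt i = P t) :
    Kay V44 (Finset.univ.image P) := by
  classical
  let ψ : (Fin 2 → ℤ) → (Fin 2 → ℤ) →+ ℤ := fun p =>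
    if p = P 0 then ps (M 0) else if p = P 1 then ps (M 1) else ps (M 2)
  let c : (Fin 2 → ℤ) → ℤ := fun p =>
    if p = P 0 then M 0 2 else if p = P 1 then M 1 2 else M 2 2
  have e10 : P 1 ≠ P 0 := fun h => by
    have := hP h
    revert this
    decide
  have e20 : P 2 ≠ P 0 := fun h => by
    have := hP h
    revert this
    decide
  have e21 : P 2 ≠ P 1 := fun h => by
    have := hP h
    revert this
    decide
  have k0 : ∀ v, ψ (P 0) v + c (P 0) = lin (M 0) v := by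
    intro v
    show (if P 0 = P 0 then ps (M 0) else _) v + (if P 0 = P 0 then M 0 2 else _) = _
    rw [if_pos rfl, if_pos rfl]
    rfl
  have k1 : ∀ v, ψ (P 1) v + c (P 1) = lin (M 1) v := by
    intro v
    show (if P 1 = P 0 then ps (M 0) else if P 1 = P 1 then ps (M 1) else _) v +
      (if P 1 = P 0 then M 0 2 else if P 1 = P 1 then M 1 2 else _) = _
    rw [if_neg e10, if_neg e10, if_pos rfl, if_pos rfl]
    rfl
  have k2 : ∀ v, ψ (P 2) v + c (P 2) = lin (M 2) v := by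
    intro v
    show (if P 2 = P 0 then ps (M 0) else if P 2 = P 1 then ps (M 1) else ps (M 2)) v +
      (if P 2 = P 0 then M 0 2 else if P 2 = P 1 then M 1 2 else M 2 2) = _
    rw [if_neg e20, if_neg e20, if_neg e21, if_neg e21]
    rfl
  have kk : ∀ t v, ψ (P t) v + c (P t) = lin (M t) v := by
    intro t v
    fin_cases t
    · exact k0 v
    · exact k1 v
    · exact k2 v
  have hsum : ∀ {A : Type} [AddCommMonoid A] (F : (Fin 2 → ℤ) → A),
      ∑ p ∈ Finset.univ.image P, F p = F (P 0) + F (P 1) + F (P 2) := by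
    intro A _ F
    rw [Finset.sum_image (fun a _ b _ hab => hP hab), Fin.sum_univ_three]
  have memP : ∀ t, P t ∈ Finset.univ.image P := fun t =>
    Finset.mem_image.mpr ⟨t, Finset.mem_univ _, rfl⟩
  refine ⟨ψ, c, ?_, ?_, ?_, ?_, ?_⟩
  · intro p hp q hq
    obtain ⟨t, -, rfl⟩ := Finset.mem_image.mp hp
    obtain ⟨s, -, rfl⟩ := Finset.mem_image.mp hq
    rw [kk, h1]
    by_cases hts : t = s
    · rw [if_pos hts, if_pos (by rw [hts])]
    · rw [if_neg hts, if_neg (fun h => hts (hP h))]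
  · intro v
    rw [hsum (fun p => ψ p v + c p)]
    simp only [kk]
    have a0 := h2 0
    have a1 := h2 1
    have a2 := h2 2
    rw [if_neg (by decide)] at a0 a1
    rw [if_pos rfl] at a2
    unfold lin
    linear_combination (v 0) * a0 + (v 1) * a1 + a2
  · intro v
    rw [hsum (fun p => (ψ p v + c p) • p)]
    simp only [kk]
    funext i
    simp only [Pi.add_apply, Pi.smul_apply, smul_eq_mul]
    have a0 := h3 0 i
    have a1 := h3 1 i
    have a2 := h3 2 i
    unfold lin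
    fin_cases i
    · simp at a0 a1 a2
      simp
      linear_combination (v 0) * a0 + (v 1) * a1 + a2
    · simp at a0 a1 a2
      simp
      linear_combination (v 0) * a0 + (v 1) * a1 + a2
  · intro f hf v
    rw [hsum (fun p => ((ψ p v + c p : ℤ) : ZMod 2) * f p)]
    simp only [kk]
    have hcg : ∀ s t, 2 ∣ P s 0 - P t 0 → 2 ∣ P s 1 - P t 1 → f (P s) = f (P t) := by
      intro s t ha hb
      obtain ⟨a, ha⟩ := ha
      obtain ⟨b, hb⟩ := hb
      apply hf _ (memP s) _ (memP t)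
      refine ⟨![-a, -b], ?_⟩
      funext i
      fin_cases i
      · show P t 0 = P s 0 + 2 * (-a)
        linarith
      · show P t 1 = P s 1 + 2 * (-b)
        linarith
    have g := h4 (f (P 0)) (f (P 1)) (f (P 2)) (hcg 0 1) (hcg 0 2) (hcg 1 2)
    have g0 := g 0
    have g1 := g 1
    have g2 := g 2
    unfold lin
    push_cast
    linear_combination ((v 0 : ℤ) : ZMod 2) * g0 + ((v 1 : ℤ) : ZMod 2) * g1 + g2
  · intro v hv hall
    obtain ⟨i, rfl⟩ := (mem_V v).mp hv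
    obtain ⟨t, ht⟩ := h5 i (fun t => by
      rw [← kk]
      exact hall _ (memP t))
    rw [ht]
    exact memP t

theorem kay_cell (c : Fin 9) : Kay V44 (Finset.univ.image (vt c)) := by
  apply kay (vt c) (mat c)
  · intro s t hst
    have h := pt_inj hst
    revert h
    revert s t c
    decide +kernel
  · revert c
    decide +kernel
  · revert c
    decide +kernel
  · revert c
    decide +kernel
  · revert c
    decide +kernel
  · intro i hi
    have h : ∀ (c : Fin 9) (i : Fin 10), (∀ t, 0 ≤ lin (mat c t) (pt i)) →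
        ∃ t, i = cell c t := by decide +kernel
    obtain ⟨t, ht⟩ := h c i hi
    exact ⟨t, by rw [ht]; rfl⟩

theorem uqA (c : Fin 9) : Uq A44 (Finset.univ.image (vt c)) := by
  have h : ∀ c : Fin 9, ∃ t, vt c t ∈ A44 ∧ ∀ s, vt c s ∈ A44 → s = t := by decide +kernel
  obtain ⟨t, h1, h2⟩ := h c
  refine ⟨vt c t, Finset.mem_image.mpr ⟨t, Finset.mem_univ _, rfl⟩, h1, ?_⟩
  intro β hβ hβA
  obtain ⟨s, -, rfl⟩ := Finset.mem_image.mp hβ
  rw [h2 s hβA]

theorem uqB (c : Fin 9) : Uq B44 (Finset.univ.image (vt c)) := by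
  have h : ∀ c : Fin 9, ∃ t, vt c t ∈ B44 ∧ ∀ s, vt c s ∈ B44 → s = t := by decide +kernel
  obtain ⟨t, h1, h2⟩ := h c
  refine ⟨vt c t, Finset.mem_image.mpr ⟨t, Finset.mem_univ _, rfl⟩, h1, ?_⟩
  intro β hβ hβA
  obtain ⟨s, -, rfl⟩ := Finset.mem_image.mp hβ
  rw [h2 s hβA]

/-- heights of arbitrary points -/
noncomputable def om (v : Fin 2 → ℤ) : ℝ := by
  classical
  exact if h : ∃ i, v = pt i then ((hh h.choose : ℤ) : ℝ) else 0

theorem om_pt (i : Fin 10) : om (pt i) = ((hh i : ℤ) : ℝ) := by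
  classical
  unfold om
  have h : ∃ j, pt i = pt j := ⟨i, rfl⟩
  rw [dif_pos h]
  have h2 := h.choose_spec
  rw [← pt_inj h2]

/-- real coefficient function -/
noncomputable def fr (a b : ℤ) : (Fin 2 → ℤ) →+ ℝ :=
  { toFun := fun v => (a : ℝ) * (v 0 : ℝ) + (b : ℝ) * (v 1 : ℝ)
    map_zero' := by simp
    map_add' := by
      intro u v
      show (a : ℝ) * ((u 0 + v 0 : ℤ) : ℝ) + (b : ℝ) * ((u 1 + v 1 : ℤ) : ℝ) = _
      push_cast
      ring }

theorem fr_ne (a b : ℤ) (h : fr a b = 0) : a = 0 ∧ b = 0 := by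
  have h0 := congrArg (fun f => f ![1, 0]) h
  have h1 := congrArg (fun f => f ![0, 1]) h
  change (a : ℝ) * ((1 : ℤ) : ℝ) + (b : ℝ) * ((0 : ℤ) : ℝ) = 0 at h0
  change (a : ℝ) * ((0 : ℤ) : ℝ) + (b : ℝ) * ((1 : ℤ) : ℝ) = 0 at h1
  constructor
  · have : (a : ℝ) = 0 := by
      push_cast at h0
      linarith
    exact_mod_cast this
  · have : (b : ℝ) = 0 := by
      push_cast at h1
      linarith
    exact_mod_cast this

theorem fr_pt (a b : ℤ) (i : Fin 10) : fr a b (pt i) = ((a * px i + b * py i : ℤ) : ℝ) := by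
  show (a : ℝ) * ((px i : ℤ) : ℝ) + (b : ℝ) * ((py i : ℤ) : ℝ) = _
  push_cast
  ring

theorem exists_triple (C : Finset (Fin 2 → ℤ)) (hC : C ⊆ V44) (hs : Spans C) :
    ∃ i j k, pt i ∈ C ∧ pt j ∈ C ∧ pt k ∈ C ∧ D i j k ≠ 0 := by
  classical
  by_contra hcon
  have hD : ∀ i j k, pt i ∈ C → pt j ∈ C → pt k ∈ C → D i j k = 0 := by
    intro i j k h1 h2 h3
    by_contra h4
    exact hcon ⟨i, j, k, h1, h2, h3, h4⟩
  by_cases hne : ∃ i, pt i ∈ C
  · obtain ⟨i, hi⟩ := hne
    by_cases hj : ∃ j, pt j ∈ C ∧ j ≠ i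
    · obtain ⟨j, hj, hji⟩ := hj
      have h := hs (fr (-(py j - py i)) (px j - px i))
        ((-(-(py j - py i) * px i + (px j - px i) * py i) : ℤ) : ℝ) (by
          intro v hv
          obtain ⟨k, rfl⟩ := (mem_V v).mp (hC hv)
          rw [fr_pt]
          have h3 := hD i j k hi hj hv
          have h4 : (-(py j - py i) * px k + (px j - px i) * py k) +
              -(-(py j - py i) * px i + (px j - px i) * py i) = 0 := by
            unfold D at h3
            linear_combination h3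
          exact_mod_cast h4)
      obtain ⟨h5, h6⟩ := fr_ne _ _ h.1
      apply hji
      apply pt_inj
      have e1 : px j = px i := by linarith
      have e2 : py j = py i := by linarith
      unfold pt
      rw [e1, e2]
    · have h := hs (fr 1 0) ((-(px i) : ℤ) : ℝ) (by
        intro v hv
        obtain ⟨k, rfl⟩ := (mem_V v).mp (hC hv)
        have hk : k = i := by
          by_contra hki
          exact hj ⟨k, hv, hki⟩
        rw [hk, fr_pt]
        push_cast
        ring)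
      have := (fr_ne _ _ h.1).1
      exact absurd this (by decide)
  · have h := hs (fr 0 0) 1 (by
      intro v hv
      obtain ⟨k, rfl⟩ := (mem_V v).mp (hC hv)
      exact absurd ⟨k, hv⟩ hne)
    exact one_ne_zero h.2

theorem phi_pt (φ : (Fin 2 → ℤ) →+ ℝ) (i : Fin 10) :
    φ (pt i) = (px i : ℝ) * φ ![1, 0] + (py i : ℝ) * φ ![0, 1] := by
  have h : pt i = (px i) • (![1, 0] : Fin 2 → ℤ) + (py i) • (![0, 1] : Fin 2 → ℤ) := by
    funext t
    fin_cases t
    · show px i = px i * 1 + py i * 0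
      ring
    · show py i = px i * 0 + py i * 1
      ring
  rw [h, map_add, map_zsmul, map_zsmul, zsmul_eq_mul, zsmul_eq_mul]

end Pool.Agent.LHU.S44_

namespace Pool.Agent.LHU

open Pool.Agent.LHT S44_

theorem s44_proof : Stmt_S44 := by
  classical
  refine ⟨om, ?_⟩
  intro φ b hle hsp
  obtain ⟨i, j, k, hi, hj, hk, hD⟩ := exists_triple _
    (fun v hv => (mem_contact.mp hv).1) hsp
  have hi2 := (mem_contact.mp hi).2
  have hj2 := (mem_contact.mp hj).2
  have hk2 := (mem_contact.mp hk).2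
  rw [om_pt, phi_pt] at hi2 hj2 hk2
  have hE : ∀ l, ((D i j k : ℤ) : ℝ) * (om (pt l) - (φ (pt l) + b)) = ((E i j k l : ℤ) : ℝ) := by
    intro l
    rw [om_pt, phi_pt]
    unfold E D
    push_cast
    rw [← hi2, ← hj2, ← hk2]
    ring
  have hDR : ((D i j k : ℤ) : ℝ) ≠ 0 := by exact_mod_cast hD
  rcases check i j k hD with ⟨l, hl⟩ | ⟨c, hc⟩
  · exfalso
    have h1 : ((D i j k : ℤ) : ℝ) * ((E i j k l : ℤ) : ℝ) < 0 := by exact_mod_cast hl
    rw [← hE l] at h1
    have h2 : 0 ≤ om (pt l) - (φ (pt l) + b) := by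
      have := hle (pt l) ((mem_V _).mpr ⟨l, rfl⟩)
      linarith
    have h3 : 0 ≤ ((D i j k : ℤ) : ℝ) ^ 2 * (om (pt l) - (φ (pt l) + b)) :=
      mul_nonneg (sq_nonneg _) h2
    nlinarith
  · have hC : contact V44 om φ b = Finset.univ.image (vt c) := by
      ext v
      rw [mem_contact, Finset.mem_image]
      constructor
      · rintro ⟨hv, hv2⟩
        obtain ⟨l, rfl⟩ := (mem_V v).mp hv
        have h1 : E i j k l = 0 := by
          have := hE l
          rw [hv2, sub_self, mul_zero] at this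
          exact_mod_cast this.symm
        obtain ⟨t, ht⟩ := (hc l).mp h1
        exact ⟨t, Finset.mem_univ _, by rw [ht]; rfl⟩
      · rintro ⟨t, -, rfl⟩
        refine ⟨(mem_V _).mpr ⟨cell c t, rfl⟩, ?_⟩
        have h1 : E i j k (cell c t) = 0 := (hc _).mpr ⟨t, rfl⟩
        have h2 := hE (cell c t)
        rw [h1, Int.cast_zero] at h2
        have h3 := (mul_eq_zero.mp h2).resolve_left hDR
        show φ (pt (cell c t)) + b = om (pt (cell c t))
        linarith
    rw [hC]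
    exact ⟨kay_cell c, uqA c, uqB c⟩

end Pool.Agent.LHU
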