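import Pool.Agent.LHU.Stmts

set_option autoImplicit false

/-!
A spanning subset of a simplex is the whole simplex.
-/

namespace Pool.Agent.LHU

open Pool.Agent.LHT

theorem sim_proof : Stmt_SIM := by
  classical
  intro Λ _ A C hC hAC hA
  refine Finset.Subset.antisymm hAC ?_
  intro p hp
  by_contra hpA
  obtain ⟨χ, d, h1, h0⟩ := hC p hp
  obtain ⟨h2, h3⟩ := hA χ d (fun q hq => h0 q (hAC hq) (fun e => hpA (e ▸ hq)))
  rw [h2, h3] at h1
  simp at h1

end Pool.Agent.LHU
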