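import Pool.Agent.LHU.Stmts

set_option autoImplicit false

/-!
Small modules: lattices without torsion, labels of the attached cells, reversal of lists, sequences
of length two.
-/

namespace Pool.Agent.LHU

open Pool.Agent.LHT

theorem tfz_proof' : Stmt_TFZ := by
  constructor
  · intro n m v hm h
    funext i
    have := congrFun h i
    simp only [Pi.smul_apply, smul_eq_mul, Pi.zero_apply, mul_eq_zero] at this
    rcases this with h1 | h1
    · exact absurd h1 hm
    · exact h1
  · intro Λ Γ _ _ h1 h2 m v hm h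
    apply Prod.ext
    · exact h1 m v.1 hm (congrArg Prod.fst h)
    · exact h2 m v.2 hm (congrArg Prod.snd h)

theorem rv_proof' (hRVF : Stmt_RVF) (hLCA : Stmt_LCA) : Stmt_RV := by
  intro l hl
  refine (hLCA l.length (fun i : Fin l.length => l.get i.rev) l.reverse (by simp) ?_).mp
    (hRVF _ _ hl)
  intro i
  rw [List.get_eq_getElem, List.get_eq_getElem, List.getElem_reverse]
  simp only [Fin.val_rev, Fin.val_cast]
  have e : l.length - (↑i + 1) = l.length - 1 - ↑i := by omega
  simp only [e]

theorem uql_proof' : Stmt_UQL := by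
  intro Λ Γ _ _ A B S α τ r o ζ e cc al B2 h1 h2 hα hdis hB2 hU
  classical
  obtain ⟨β, hβS, hβB, huniq⟩ := hU
  have hpos : posn o ζ e (al α) r = α := by
    unfold posn
    rw [h2, h1]
    abel
  have hne : β ≠ α := by
    rintro rfl
    exact Finset.disjoint_left.mp hdis hα hβB
  refine ⟨(β, r), ?_, ?_, ?_⟩
  · unfold attC
    rw [Finset.mem_union]
    left
    exact Finset.mem_image.mpr ⟨β, Finset.mem_erase.mpr ⟨hne, hβS⟩, rfl⟩
  · rw [hB2]
    exact ⟨hβB, rfl⟩
  · intro p hp hpB
    rw [hB2] at hpB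
    unfold attC at hp
    rw [Finset.mem_union, Finset.mem_image, Finset.mem_image] at hp
    rcases hp with ⟨v, hv, rfl⟩ | ⟨z, hz, rfl⟩
    · have := huniq v (Finset.mem_erase.mp hv).2 hpB.1
      rw [this]
    · have hz2 : z = r := hpB.2
      have h3 : posn o ζ e (al α) z ∈ B := hpB.1
      rw [hz2, hpos] at h3
      exact absurd h3 (Finset.disjoint_left.mp hdis hα)

theorem lr_zero (s : Fin 0 → ℕ) : lr s := by
  refine ⟨fun _ => 0, ?_⟩
  intro φ b hle hs
  obtain ⟨ω, hω⟩ := RL_zero s
  have h0 : (0 : Fin 0 → ℤ) ∈ LH s := by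
    rw [mem_LH]
    exact ⟨fun i => i.elim0, fun i => i.elim0⟩
  have hne : (contact (LH s) (fun _ => (0 : ℝ)) φ b).Nonempty := by
    by_contra hcon
    rw [Finset.not_nonempty_iff_eq_empty] at hcon
    have := hs 0 1 (by intro v hv; rw [hcon] at hv; exact absurd hv (Finset.notMem_empty v))
    exact one_ne_zero this.2
  obtain ⟨v, hv⟩ := hne
  have hv0 : ∀ w : Fin 0 → ℤ, w = v := fun w => Subsingleton.elim _ _
  refine ⟨?_, ⟨v, hv, 0, Subsingleton.elim _ _⟩, ⟨v, hv, 0, Subsingleton.elim _ _⟩⟩
  refine ⟨fun _ => 0, fun _ => 1, ?_, ?_, ?_⟩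
  · intro p _ q _
    rw [if_pos (Subsingleton.elim _ _)]
    rfl
  · intro w
    have : contact (LH s) (fun _ => (0 : ℝ)) φ b = {v} := by
      ext w
      rw [Finset.mem_singleton]
      constructor
      · intro _; exact Subsingleton.elim _ _
      · rintro rfl; exact hv
    rw [this]
    simp
  · intro w
    exact Subsingleton.elim _ _

theorem two_proof' (hDBL : Stmt_DBL) (hODD : Stmt_ODD) (hINS : Stmt_INS) (hRVF : Stmt_RVF) :
    Stmt_TWO := by
  have h1 : ∀ b : ℕ, 0 < b → lr (fun _ : Fin 1 => b) := by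
    intro b hb
    have h := hINS 0 0 (fun i : Fin 0 => (i.elim0 : ℕ)) b (fun i => i.elim0) hb (by
      have e1 : lft (fun i : Fin 0 => (i.elim0 : ℕ)) 0 = 1 := lft_zero' _
      have e2 : rgt (fun i : Fin 0 => (i.elim0 : ℕ)) 0 = 1 := by
        unfold rgt
        rw [dif_neg (by simp)]
      rw [e1, e2]
      simp) (lr_zero _)
    have e : insS (0 : Fin 1) b (fun i : Fin 0 => (i.elim0 : ℕ)) = fun _ => b := by
      funext i
      have hi : i = 0 := Fin.ext (by have := i.2; omega)
      rw [hi, insS_same]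
    rw [e] at h
    exact h
  have heven : ∀ a b : ℕ, 0 < a → 0 < b → Even a → lr ![a, b] := by
    intro a b ha hb hev
    obtain ⟨c, hc⟩ := hev
    have hs : ∀ i : Fin 2, 0 < (![c, b] : Fin 2 → ℕ) i := by
      intro i
      fin_cases i
      · show 0 < c; omega
      · exact hb
    have h := hDBL 2 ![c, b] 1 hs (RL_two _ hs)
    have e : (fun i : Fin 2 => if i = 1 then (![c, b] : Fin 2 → ℕ) i else 2 * (![c, b] : Fin 2 → ℕ) i)
        = ![a, b] := by
      funext i
      fin_cases i
      · show 2 * c = a; omega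
      · rfl
    rw [e] at h
    exact h
  have hrev : ∀ a b : ℕ, lr ![b, a] → lr ![a, b] := by
    intro a b h
    have h2 := hRVF 2 _ h
    have e : (fun i : Fin 2 => (![b, a] : Fin 2 → ℕ) i.rev) = ![a, b] := by
      funext i
      fin_cases i <;> rfl
    rw [e] at h2
    exact h2
  have hgt : ∀ a b : ℕ, 0 < b → b < a → lr ![a, b] := by
    intro a b hb hab
    by_cases hae : Even a
    · exact heven a b (by omega) hb hae
    by_cases hbe : Even b
    · exact hrev a b (heven b a hb (by omega) hbe)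
    rw [Nat.not_even_iff_odd] at hae hbe
    apply hODD a b hb hab hae hbe
    apply heven _ _ (by omega) hb
    obtain ⟨x, hx⟩ := hae
    obtain ⟨y, hy⟩ := hbe
    exact ⟨x - y, by omega⟩
  intro a b ha hb
  rcases lt_trichotomy a b with h | h | h
  · exact hrev a b (hgt b a ha h)
  · subst h
    have h3 := hINS 1 0 (fun _ => a) a (fun _ => ha) ha (by
      rw [lft_zero', rgt_one']
      simp) (h1 a ha)
    rw [insS_two] at h3
    exact h3
  · exact hgt a b hb h

end Pool.Agent.LHU
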