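import Pool.Agent.LHU.Stmts

set_option autoImplicit false

namespace Pool.Agent.LHU

open Pool.Agent.LHT

theorem tra_proof : Stmt_TRA := by
  classical
  intro Λ Λ' _ _ e v0 S S' h α β ω hω
  refine ⟨fun w => ω (e.symm (w - v0)), ?_⟩
  intro φ b h1 h2
  have hinv : ∀ w : Λ', e (e.symm (w - v0)) + v0 = w := by intro w; simp
  have hinv2 : ∀ v : Λ, e.symm (e v + v0 - v0) = v := by intro v; simp
  have hcon : ∀ v : Λ, v ∈ contact S ω (φ.comp e.toAddMonoidHom) (φ v0 + b) ↔
      e v + v0 ∈ contact S' (fun w => ω (e.symm (w - v0))) φ b := by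
    intro v
    rw [mem_contact, mem_contact, h, hinv2]
    have : (φ.comp e.toAddMonoidHom) v + (φ v0 + b) = φ (e v + v0) + b := by
      rw [map_add]
      show φ (e v) + (φ v0 + b) = φ (e v) + φ v0 + b
      ring
    rw [this]
  have h3 : ∀ v ∈ S, (φ.comp e.toAddMonoidHom) v + (φ v0 + b) ≤ ω v := by
    intro v hv
    have h4 := h1 (e v + v0) ((h v).mpr hv)
    simp only [hinv2] at h4
    rw [map_add] at h4
    show φ (e v) + (φ v0 + b) ≤ ω v
    linarith
  have h4 : Spans (contact S ω (φ.comp e.toAddMonoidHom) (φ v0 + b)) := by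
    intro χ d hχ
    have h5 := h2 (χ.comp e.symm.toAddMonoidHom) (d - χ (e.symm v0)) (by
      intro w hw
      have h6 : e.symm (w - v0) ∈ contact S ω (φ.comp e.toAddMonoidHom) (φ v0 + b) := by
        rw [hcon, hinv]; exact hw
      have h7 := hχ _ h6
      rw [map_sub, map_sub] at h7
      show χ (e.symm w) + (d - χ (e.symm v0)) = 0
      linarith)
    have h8 : χ = 0 := by
      ext v
      have := congrArg (fun f => f (e v)) h5.1
      simpa using this
    refine ⟨h8, ?_⟩
    have h9 := h5.2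
    rw [h8] at h9
    simpa using h9
  obtain ⟨⟨ψ, c, g1, g2, g3⟩, ⟨va, hva, ua, hua⟩, ⟨vb, hvb, ub, hub⟩⟩ := hω _ _ h3 h4
  set C := contact S ω (φ.comp e.toAddMonoidHom) (φ v0 + b) with hC
  set C' := contact S' (fun w => ω (e.symm (w - v0))) φ b with hC'
  have hmem : ∀ w, w ∈ C' ↔ e.symm (w - v0) ∈ C := by
    intro w
    rw [hcon, hinv]
  let ψ' : Λ' → Λ' →+ ℤ := fun w => (ψ (e.symm (w - v0))).comp e.symm.toAddMonoidHom
  let c' : Λ' → ℤ := fun w => c (e.symm (w - v0)) - ψ (e.symm (w - v0)) (e.symm v0)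
  have hval : ∀ w u : Λ', ψ' w u + c' w
      = ψ (e.symm (w - v0)) (e.symm (u - v0)) + c (e.symm (w - v0)) := by
    intro w u
    show ψ (e.symm (w - v0)) (e.symm u) + (c (e.symm (w - v0))
      - ψ (e.symm (w - v0)) (e.symm v0)) = _
    rw [map_sub e.symm u v0, map_sub (ψ (e.symm (w - v0)))]
    ring
  have hsum : ∀ {M : Type} [AddCommMonoid M] (F : Λ → M),
      ∑ p ∈ C', F (e.symm (p - v0)) = ∑ p ∈ C, F p := by
    intro M _ F
    apply Finset.sum_bij (fun w _ => e.symm (w - v0))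
    · intro w hw; exact (hmem w).mp hw
    · intro w _ w' _ hww
      have := e.symm.injective hww
      exact sub_left_injective this
    · intro v hv
      exact ⟨e v + v0, (hcon v).mp hv, hinv2 v⟩
    · intro w _; rfl
  refine ⟨⟨ψ', c', ?_, ?_, ?_⟩, ⟨e va + v0, (hcon va).mp hva, e ua, ?_⟩,
    ⟨e vb + v0, (hcon vb).mp hvb, e ub, ?_⟩⟩
  · intro p hp q hq
    rw [hval, g1 _ ((hmem p).mp hp) _ ((hmem q).mp hq)]
    by_cases hpq : p = q
    · rw [if_pos hpq, if_pos (by rw [hpq])]
    · rw [if_neg hpq, if_neg]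
      intro h5
      exact hpq (sub_left_injective (e.symm.injective h5))
  · intro v
    simp only [hval]
    rw [hsum (fun p => ψ p (e.symm (v - v0)) + c p)]
    exact g2 _
  · intro v
    simp only [hval]
    have h5 := g3 (e.symm (v - v0))
    have h6 := g2 (e.symm (v - v0))
    rw [← hsum (fun p => (ψ p (e.symm (v - v0)) + c p) • p)] at h5
    rw [← hsum (fun p => ψ p (e.symm (v - v0)) + c p)] at h6
    have h7 : ∑ p ∈ C', (ψ (e.symm (p - v0)) (e.symm (v - v0)) + c (e.symm (p - v0))) • p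
        = e (∑ p ∈ C', (ψ (e.symm (p - v0)) (e.symm (v - v0)) + c (e.symm (p - v0)))
            • e.symm (p - v0))
          + (∑ p ∈ C', (ψ (e.symm (p - v0)) (e.symm (v - v0)) + c (e.symm (p - v0)))) • v0 := by
      rw [map_sum, Finset.sum_smul, ← Finset.sum_add_distrib]
      apply Finset.sum_congr rfl
      intro p _
      rw [map_zsmul, e.apply_symm_apply, ← smul_add, sub_add_cancel]
    rw [h7, h5, h6]
    simp
  · rw [hua, map_add, map_zsmul]
    abel
  · rw [hub, map_add, map_zsmul]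
    abel

end Pool.Agent.LHU
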