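import Pool.Agent.LHU.Stmts

set_option autoImplicit false

/-!
Module TW1: one-sided attachment, with all midpoints pulled.
-/

namespace Pool.Agent.LHU

open Pool.Agent.LHT

namespace TW1_

theorem mono {Λ : Type} [AddCommGroup Λ] {G G' : Finset Λ → Prop} {S : Finset Λ} {ω : Λ → ℝ}
    (h : ∀ C, G C → G' C) (hG : GLw G S ω) : GLw G' S ω :=
  fun φ b h1 h2 => h _ (hG φ b h1 h2)

end TW1_

theorem tw1_proof (hATC : Stmt_ATC) (hATK : Stmt_ATK) (hHA1 : Stmt_HA1) (hHA2 : Stmt_HA2)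
    (hKSI : Stmt_KSI) (hUSI : Stmt_USI) (hPLL : Stmt_PLL) (hTFZ : Stmt_TFZ) : Stmt_TW1 := by
  intro Λ Γ _ _ V A T r δ o ζ e cc al γ hA hev ωV ωT hV hT S hVS hMid hHul
  obtain ⟨ω, hω⟩ := hATC Λ Γ V A T r o ζ e cc al hA (fun S => Kay V S ∧ Has γ S) (MU r δ) ωV ωT
    (TW1_.mono (fun C hC => ⟨hKSI Λ V C hC.1, hC.2.1, hC.1, hC.2.2⟩) hV)
    (TW1_.mono (fun C hC => ⟨hUSI Γ C hC.1, hC⟩) hT)
  have h3 : GLw (fun C => Kay (attV V A T r o ζ e al) C ∧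
      ∀ p ∈ ({(o, δ), (γ, r)} : Set (Λ × Γ)), Has p C) (attV V A T r o ζ e al) ω := by
    refine TW1_.mono ?_ hω
    rintro C ⟨S', α, τ, hSV, -, hαS, hαA, huq, ⟨hK, hγ⟩, hτT, -, ⟨hU, hr, hδ⟩, rfl⟩
    refine ⟨hATK Λ Γ V A T r o ζ e cc al hA S' α τ hSV hαS hαA huq hτT hK hU hr, ?_⟩
    intro p hp
    rcases hp with rfl | hp
    · exact hHA2 Λ Γ S' α τ r δ o ζ e al hδ hev
    · rw [Set.mem_singleton_iff] at hp
      subst hp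
      exact hHA1 Λ Γ S' α τ r o ζ e cc al γ (hA.hal α hαA) hA.top hγ hr
  obtain ⟨ω', h⟩ := hPLL (Λ × Γ) (hTFZ.2 Λ Γ hA.tfl hA.tfg) (attV V A T r o ζ e al) S hVS hMid hHul
    {(o, δ), (γ, r)} ω h3
  refine ⟨ω', TW1_.mono ?_ h⟩
  intro C hC
  exact ⟨hC.1, hC.2 _ (by simp), hC.2 _ (by simp)⟩

end Pool.Agent.LHU
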