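import Pool.Agent.LHU.Stmts

set_option autoImplicit false

/-!
Two-sided attachment, with all midpoints pulled.
-/

namespace Pool.Agent.LHU

open Pool.Agent.LHT

namespace TW2_

theorem mono {Λ : Type} [AddCommGroup Λ] {G G' : Finset Λ → Prop} (h : ∀ C, G C → G' C)
    {S : Finset Λ} {ω : Λ → ℝ} (hG : GLw G S ω) : GLw G' S ω :=
  fun φ b h1 h2 => h _ (hG φ b h1 h2)

end TW2_

theorem tw2_proof (hATC : Stmt_ATC) (_hATS : Stmt_ATS) (hATK : Stmt_ATK) (hHA1 : Stmt_HA1)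
    (hHA2 : Stmt_HA2) (hUQL : Stmt_UQL) (hKSI : Stmt_KSI) (hUSI : Stmt_USI) (hPLL : Stmt_PLL)
    (hTFZ : Stmt_TFZ) : Stmt_TW2 := by
  intro Λ Γ Γ2 _ _ _ V A B T r δ o ζ e cc al T2 r2 δ2 o2 ζ2 e2 cc2 al2 B2 h1 h2 hB2 hBV hAB
    hev hev2 ωV ωT ωT2 hV hT hT2 S hVS hMid hHul
  have hTF : TF ((Λ × Γ) × Γ2) :=
    hTFZ.2 (Λ × Γ) Γ2 (hTFZ.2 Λ Γ h1.tfl h1.tfg) h2.tfg
  obtain ⟨ω1, hω1⟩ := hATC Λ Γ V A T r o ζ e cc al h1 (fun S => Kay V S ∧ Uq B S) (MU r δ) ωV ωT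
    (TW2_.mono (fun C hC => ⟨hKSI Λ V C hC.1, hC.2.1, hC.1, hC.2.2⟩) hV)
    (TW2_.mono (fun C hC => ⟨hUSI Γ C hC.1, hC⟩) hT)
  obtain ⟨ω2, hω2⟩ := hATC (Λ × Γ) Γ2 (attV V A T r o ζ e al) B2 T2 r2 o2 ζ2 e2 cc2 al2 h2
    (fun C => Kay (attV V A T r o ζ e al) C ∧ Has (o, δ) C) (MU r2 δ2) ω1 ωT2
    (TW2_.mono (by
      rintro C ⟨S', α, τ, hS'V, -, hαS, hαA, hu, ⟨hK, hUB⟩, hτT, -, hMU, rfl⟩
      have hk : Kay (attV V A T r o ζ e al) (attC S' α τ r o ζ e al) :=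
        hATK Λ Γ V A T r o ζ e cc al h1 S' α τ hS'V hαS hαA hu hτT hK hMU.1 hMU.2.1
      refine ⟨hKSI (Λ × Γ) _ _ hk, ?_, hk, ?_⟩
      · exact hUQL Λ Γ A B S' α τ r o ζ e cc al B2 (h1.hal α hαA) h1.top hαA hAB hB2 hUB
      · exact hHA2 Λ Γ S' α τ r δ o ζ e al hMU.2.2 hev) hω1)
    (TW2_.mono (fun C hC => ⟨hUSI Γ2 C hC.1, hC⟩) hT2)
  obtain ⟨ω, hω⟩ := hPLL ((Λ × Γ) × Γ2) hTF
    (attV (attV V A T r o ζ e al) B2 T2 r2 o2 ζ2 e2 al2) S hVS hMid hHul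
    {((o, δ), r2), (o2, δ2)} ω2 (TW2_.mono (by
      rintro C ⟨S', α, τ, hS'V, -, hαS, hαA, hu, ⟨hK, hHas⟩, hτT, -, hMU, rfl⟩
      refine ⟨hATK (Λ × Γ) Γ2 (attV V A T r o ζ e al) B2 T2 r2 o2 ζ2 e2 cc2 al2 h2 S' α τ hS'V
        hαS hαA hu hτT hK hMU.1 hMU.2.1, ?_⟩
      intro β hβ
      rcases hβ with hβ | hβ
      · rw [hβ]
        exact hHA1 (Λ × Γ) Γ2 S' α τ r2 o2 ζ2 e2 cc2 al2 (o, δ) (h2.hal α hαA) h2.top hHas hMU.2.1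
      · have hβ' : β = (o2, δ2) := hβ
        rw [hβ']
        exact hHA2 (Λ × Γ) Γ2 S' α τ r2 δ2 o2 ζ2 e2 al2 hMU.2.2 hev2) hω2)
  refine ⟨ω, TW2_.mono ?_ hω⟩
  rintro C ⟨hU, hm⟩
  exact ⟨hU, hm _ (Or.inl rfl), hm _ (Or.inr rfl)⟩

end Pool.Agent.LHU

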