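import Pool.Agent.LHU.REF
import Pool.Agent.LHU.SIM
import Pool.Agent.LHU.USI
import Pool.Agent.LHU.KSI
import Pool.Agent.LHU.PUC
import Pool.Agent.LHU.PUA
import Pool.Agent.LHU.PUS
import Pool.Agent.LHU.FNK
import Pool.Agent.LHU.PUL
import Pool.Agent.LHU.COV
import Pool.Agent.LHU.PLL
import Pool.Agent.LHU.ATH
import Pool.Agent.LHU.AT1
import Pool.Agent.LHU.AT2
import Pool.Agent.LHU.ATS
import Pool.Agent.LHU.ATC
import Pool.Agent.LHU.ATK
import Pool.Agent.LHU.HA1
import Pool.Agent.LHU.HA2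
import Pool.Agent.LHU.TW1
import Pool.Agent.LHU.TW2
import Pool.Agent.LHU.TRA
import Pool.Agent.LHU.MDL
import Pool.Agent.LHU.HUL
import Pool.Agent.LHU.PYR
import Pool.Agent.LHU.PYL
import Pool.Agent.LHU.AP2
import Pool.Agent.LHU.AP3
import Pool.Agent.LHU.LIN
import Pool.Agent.LHU.C1
import Pool.Agent.LHU.C2
import Pool.Agent.LHU.RVF
import Pool.Agent.LHU.CHM
import Pool.Agent.LHU.CHS
import Pool.Agent.LHU.CHL
import Pool.Agent.LHU.INS
import Pool.Agent.LHU.GLU
import Pool.Agent.LHU.DBK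
import Pool.Agent.LHU.DBL
import Pool.Agent.LHU.ODD
import Pool.Agent.LHU.LCA
import Pool.Agent.LHU.R2
import Pool.Agent.LHU.RI
import Pool.Agent.LHU.S44
import Pool.Agent.LHU.RF
import Pool.Agent.LHU.SML
import Pool.Agent.LHU.MKE
import Pool.Agent.LHR.Assemble

set_option autoImplicit false

/-!
Assembly.
-/

namespace Pool.Agent.LHU

open Pool.Agent.LHT

theorem a_ref : Stmt_REF := ref_proof

theorem a_sim : Stmt_SIM := sim_proof

theorem a_usi : Stmt_USI := usi_proof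

theorem a_ksi : Stmt_KSI := ksi_proof

theorem a_puc : Stmt_PUC := puc_proof a_sim

theorem a_pua : Stmt_PUA := pua_proof

theorem a_pus : Stmt_PUS := pus_proof a_ref a_sim a_ksi a_puc a_pua

theorem a_fnk : Stmt_FNK := fnk_proof

theorem a_pul : Stmt_PUL := PUL_proof a_pus a_fnk

theorem a_cov : Stmt_COV := cov_proof a_ksi

theorem a_pll : Stmt_PLL := pll_proof a_pul a_cov

theorem a_ath : Stmt_ATH := ath_proof

theorem a_at1 : Stmt_AT1 := at1_proof

theorem a_at2 : Stmt_AT2 := at2_proof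

theorem a_ats : Stmt_ATS := ats_proof

theorem a_atc : Stmt_ATC := atc_proof a_ref a_ath a_at1 a_at2 a_ats

theorem a_atk : Stmt_ATK := atk_proof

theorem a_ha1 : Stmt_HA1 := ha1_proof

theorem a_ha2 : Stmt_HA2 := ha2_proof

theorem a_uql : Stmt_UQL := uql_proof'

theorem a_tra : Stmt_TRA := tra_proof

theorem a_tfz : Stmt_TFZ := tfz_proof'

theorem a_mdl : Stmt_MDL := mdl_proof

theorem a_hul : Stmt_HUL := hul_proof

theorem a_pyr : Stmt_PYR := pyr_proof

theorem a_pyl : Stmt_PYL := pyl_proof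

theorem a_lin : Stmt_LIN := lin_proof

theorem a_rvf : Stmt_RVF := rvf_proof a_tra

theorem a_chm : Stmt_CHM := chm_proof a_sim

theorem a_chs : Stmt_CHS := chs_proof

theorem a_chl : Stmt_CHL := chl_proof a_ref a_chm a_chs

theorem a_ins : Stmt_INS := ins_proof a_chl a_chs a_usi a_tra

theorem a_glu : Stmt_GLU := glu_proof a_ref

theorem a_dbk : Stmt_DBK := dbk_proof

theorem a_dbl : Stmt_DBL := dbl_proof a_dbk a_pll a_tfz a_mdl a_hul

theorem a_odd : Stmt_ODD := odd_proof a_chl a_chs a_glu a_usi a_tra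

theorem a_two : Stmt_TWO := two_proof' a_dbl a_odd a_ins a_rvf

theorem a_lca : Stmt_LCA := lca_proof

theorem a_r2 : Stmt_R2 := r2_proof a_two a_ins a_lca

theorem a_rv : Stmt_RV := rv_proof' a_rvf a_lca

theorem a_ri : Stmt_RI := ri_proof a_ins a_lca

theorem a_s44 : Stmt_S44 := s44_proof

theorem a_tw1 : Stmt_TW1 := tw1_proof a_atc a_atk a_ha1 a_ha2 a_ksi a_usi a_pll a_tfz

theorem a_tw2 : Stmt_TW2 := tw2_proof a_atc a_ats a_atk a_ha1 a_ha2 a_uql a_ksi a_usi a_pll a_tfz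

theorem a_ap2 : Stmt_AP2 := ap2_proof a_tw1 a_tra a_tfz a_mdl a_hul a_pyr

theorem a_ap3 : Stmt_AP3 := ap3_proof a_tw2 a_tra a_tfz a_mdl a_hul a_pyr a_pyl

theorem a_c1 : Stmt_C1 := c1_proof a_ap2 a_lin

theorem a_c2 : Stmt_C2 := c2_proof a_ap3 a_lin

theorem a_rf : Stmt_RF := rf_proof a_ap3 a_s44 a_lca

/-- every sequence of the class has a marked triangulation -/
theorem mk_lr {l : List ℕ} (h : Mk l) : lrL l := h.lr a_r2 a_dbl a_rv a_ri a_c1 a_c2 a_rf a_lca

/-- every sequence of the class has a regular unimodular triangulation -/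
theorem mk_rut {l : List ℕ} (h : Mk l) : HasRUT (PL l) := by
  rw [CLO_.rl_iff h.pos]
  obtain ⟨ω, hω⟩ := mk_lr h
  exact ⟨ω, fun φ b hle hsp => (hω φ b hle hsp).1⟩

end Pool.Agent.LHU
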