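import Pool.Agent.LHU.Stmts

set_option autoImplicit false

/-!
Sequences given by their maximal runs of entries at least three.
-/

namespace Pool.Agent.LHU

open Pool.Agent.LHT

/-- `b` is a maximal run of entries at least three in `l` -/
def Run (l b : List ℕ) : Prop :=
  ∃ l1 l2 : List ℕ, l = l1 ++ (b ++ l2) ∧ (∀ x ∈ b, 3 ≤ x) ∧
    (∀ (l' : List ℕ) (x : ℕ), l1 = l' ++ [x] → x ≤ 2) ∧
    (∀ (x : ℕ) (l' : List ℕ), l2 = x :: l' → x ≤ 2)

/-- all adjacent pairs of `b` are admissible -/
def Adm (b : List ℕ) : Prop :=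
  ∀ (l1 l2 : List ℕ) (x y : ℕ), b = l1 ++ x :: y :: l2 → x ≤ 3 ∨ y ≤ 3 ∨ (x ≤ 4 ∧ y ≤ 4)

/-- all entries of `t` but one are doubled -/
def dbl {n : ℕ} (j : Fin n) (t : Fin n → ℕ) : Fin n → ℕ := fun i => if i = j then t i else 2 * t i

/-- `b` arises by doubling all entries but one in a sequence whose lecture hall simplex has a
regular unimodular triangulation -/
def Dbl (b : List ℕ) : Prop :=
  ∃ (n : ℕ) (t : Fin n → ℕ) (j : Fin n), (∀ i, 0 < t i) ∧ HasRUT (simplex t) ∧
    b = List.ofFn (dbl j t)

theorem BLK_.split {l l1 l2 : List ℕ} {c : ℕ} (hc : c ≤ 2) (h : l = l1 ++ c :: l2) {b : List ℕ}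
    (hb : Run l1 b ∨ Run l2 b) : Run l b := by
  rcases hb with hb | hb
  · obtain ⟨p, q, e, h3, h4, h5⟩ := hb
    refine ⟨p, q ++ c :: l2, ?_, h3, h4, ?_⟩
    · rw [h, e]
      simp [List.append_assoc]
    · intro x l' hx
      cases q with
      | nil =>
        simp only [List.nil_append, List.cons.injEq] at hx
        omega
      | cons y q' =>
        simp only [List.cons_append, List.cons.injEq] at hx
        exact h5 x q' (by rw [hx.1])
  · obtain ⟨p, q, e, h3, h4, h5⟩ := hb
    refine ⟨l1 ++ c :: p, q, ?_, h3, ?_, h5⟩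
    · rw [h, e]
      simp [List.append_assoc]
    · intro l' x hx
      rcases List.eq_nil_or_concat p with rfl | ⟨p', y, rfl⟩
      · have h6 := congrArg List.getLast? hx
        simp at h6
        omega
      · have h6 : (l1 ++ c :: p') ++ [y] = l' ++ [x] := by
          rw [← hx]
          simp [List.append_assoc]
        have h7 := (List.append_inj' h6 rfl).2
        simp only [List.cons.injEq, and_true] at h7
        exact h4 p' x (by rw [h7, List.concat_eq_append])

theorem blk_proof (hWRD : Stmt_WRD) (hRK : Stmt_RK) (hR2 : Stmt_R2) (hDBL : Stmt_DBL)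
    (hLCA : Stmt_LCA) : ∀ (N : ℕ) (l : List ℕ), l.length ≤ N → (∀ x ∈ l, 0 < x) →
      (∀ b, Run l b → b.length ≤ 2 ∨ Adm b ∨ Dbl b) → lrL l := by
  intro N
  induction N with
  | zero =>
    intro l hl _ _
    have : l = [] := List.length_eq_zero_iff.mp (Nat.le_zero.mp hl)
    rw [this]
    exact hR2.1
  | succ N ih =>
    intro l hl hpos hrun
    by_cases hex : ∃ c ∈ l, c ≤ 2
    · obtain ⟨c, hc, hc2⟩ := hex
      obtain ⟨l1, l2, e⟩ := List.append_of_mem hc
      have hlen : l1.length ≤ N ∧ l2.length ≤ N := by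
        rw [e, List.length_append, List.length_cons] at hl
        omega
      have hcpos := hpos c hc
      have hp1 : ∀ x ∈ l1, 0 < x := fun x hx => hpos x (by rw [e]; simp [hx])
      have hp2 : ∀ x ∈ l2, 0 < x := fun x hx => hpos x (by rw [e]; simp [hx])
      rw [e]
      apply hRK l1 l2 c hp1 hp2 (by omega)
      · exact ih l1 hlen.1 hp1 (fun b hb => hrun b (BLK_.split hc2 e (Or.inl hb)))
      · exact ih l2 hlen.2 hp2 (fun b hb => hrun b (BLK_.split hc2 e (Or.inr hb)))
    · push Not at hex
      have h3 : ∀ x ∈ l, 3 ≤ x := fun x hx => hex x hx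
      have hself : Run l l := by
        refine ⟨[], [], by simp, h3, ?_, ?_⟩
        · intro l' x hx
          have := congrArg List.length hx
          simp at this
        · intro x l' hx
          cases hx
      rcases hrun l hself with h | h | h
      · match l, h, hpos with
        | [], _, _ => exact hR2.1
        | [a], _, hpos => exact hR2.2.1 a (hpos a (by simp))
        | [a, b], _, hpos => exact hR2.2.2 a b (hpos a (by simp)) (hpos b (by simp))
        | a :: b :: c :: l', h, _ =>
          simp only [List.length_cons] at h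
          omega
      · exact hWRD l h3 (fun l1 l2 x y e => h l1 l2 x y e)
      · obtain ⟨n, t, j, ht, hrut, e⟩ := h
        have h1 := hDBL n t j ht (RL_of_hasRUT ht hrut)
        refine (hLCA n _ l (by rw [e]; simp) ?_).mp h1
        intro i
        subst e
        simp [dbl]

end Pool.Agent.LHU
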