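import Pool.Agent.LHU.RI
import Pool.Agent.LHU.BLK

set_option autoImplicit false

/-!
Closure rules for regular unimodular triangulations of lecture hall simplices, in terms of lists.
-/

namespace Pool.Agent.LHU

open Pool.Agent.LHT

/-- the lecture hall simplex of a list of entries -/
def PL (l : List ℕ) : Set (Fin l.length → ℝ) := simplex (fun i : Fin l.length => l.get i)

namespace CLO_

theorem pos_get {l : List ℕ} (h : ∀ x ∈ l, 0 < x) (i : Fin l.length) : 0 < l.get i :=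
  h _ (List.get_mem _ _)

theorem rl_iff {l : List ℕ} (h : ∀ x ∈ l, 0 < x) :
    HasRUT (PL l) ↔ RL (LH (fun i : Fin l.length => l.get i)) :=
  ⟨fun g => RL_of_hasRUT (pos_get h) g, fun g => hasRUT_of_RL (pos_get h) g⟩

theorem rl_cast (n : ℕ) (s : Fin n → ℕ) (l : List ℕ) (h : n = l.length)
    (e : ∀ i : Fin n, s i = l.get (Fin.cast h i)) :
    RL (LH s) ↔ RL (LH (fun i : Fin l.length => l.get i)) := by
  subst h
  have : s = fun i : Fin l.length => l.get i := by
    funext i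
    exact e i
  rw [this]

theorem insS_list (l1 l2 : List ℕ) (m : ℕ) (hk : l1.length < (l1 ++ l2).length + 1)
    (hlen : (l1 ++ l2).length + 1 = (l1 ++ m :: l2).length)
    (i : Fin ((l1 ++ l2).length + 1)) :
    insS (⟨l1.length, hk⟩ : Fin ((l1 ++ l2).length + 1)) m (fun i => (l1 ++ l2).get i) i =
      (l1 ++ m :: l2).get (Fin.cast hlen i) := by
  refine Fin.succAboveCases (⟨l1.length, hk⟩ : Fin ((l1 ++ l2).length + 1)) ?_ (fun j => ?_) i
  · rw [insS_same, List.get_eq_getElem]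
    exact (RI_.get_mid l1 l2 m _ _ rfl).symm
  · rw [insS_succ, List.get_eq_getElem, List.get_eq_getElem]
    by_cases hj : (j : ℕ) < l1.length
    · have e : (Fin.cast hlen ((⟨l1.length, hk⟩ : Fin ((l1 ++ l2).length + 1)).succAbove j) : ℕ)
          = j := by
        rw [Fin.val_cast, Fin.succAbove_of_castSucc_lt _ _ (by
          rw [Fin.lt_def]; exact hj)]
        rfl
      simp only [e]
      exact (RI_.get_lt l1 l2 m j _ _ hj).symm
    · have e : (Fin.cast hlen ((⟨l1.length, hk⟩ : Fin ((l1 ++ l2).length + 1)).succAbove j) : ℕ)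
          = j + 1 := by
        rw [Fin.val_cast, Fin.succAbove_of_le_castSucc _ _ (by
          rw [Fin.le_def]; exact Nat.le_of_not_lt hj)]
        rfl
      simp only [e]
      exact (RI_.get_gt l1 l2 m j _ _ (Nat.le_of_not_lt hj)).symm

theorem hk' (l1 l2 : List ℕ) : l1.length < (l1 ++ l2).length + 1 := by
  simp only [List.length_append]; omega

theorem hlen' (l1 l2 : List ℕ) (m : ℕ) : (l1 ++ l2).length + 1 = (l1 ++ m :: l2).length := by
  simp; omega

theorem pos_ins {l1 l2 : List ℕ} {m : ℕ} (h1 : ∀ x ∈ l1, 0 < x) (h2 : ∀ x ∈ l2, 0 < x)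
    (hm : 0 < m) : ∀ x ∈ l1 ++ m :: l2, 0 < x := by
  intro x hx
  rw [List.mem_append, List.mem_cons] at hx
  rcases hx with h | rfl | h
  · exact h1 x h
  · exact hm
  · exact h2 x h

theorem pos_app {l1 l2 : List ℕ} (h1 : ∀ x ∈ l1, 0 < x) (h2 : ∀ x ∈ l2, 0 < x) :
    ∀ x ∈ l1 ++ l2, 0 < x := by
  intro x hx
  rw [List.mem_append] at hx
  rcases hx with h | h
  · exact h1 x h
  · exact h2 x h

end CLO_

open CLO_

/-- insertion of a common multiple of the neighbours -/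
theorem rut_insert (l1 l2 : List ℕ) (m : ℕ) (h1 : ∀ x ∈ l1, 0 < x) (h2 : ∀ x ∈ l2, 0 < x)
    (hm : 0 < m) (hd : Nat.lcm (l1.getLastD 1) (l2.headD 1) ∣ m) (h : HasRUT (PL (l1 ++ l2))) :
    HasRUT (PL (l1 ++ m :: l2)) := by
  rw [rl_iff (pos_ins h1 h2 hm)]
  rw [rl_iff (pos_app h1 h2)] at h
  rw [← rl_cast _ _ _ (hlen' l1 l2 m) (insS_list l1 l2 m (hk' l1 l2) (hlen' l1 l2 m))]
  obtain ⟨j, hj⟩ := hd
  have e : m = j * Nat.lcm (lft (fun i : Fin (l1 ++ l2).length => (l1 ++ l2).get i)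
      ⟨l1.length, hk' l1 l2⟩) (rgt (fun i : Fin (l1 ++ l2).length => (l1 ++ l2).get i)
      ⟨l1.length, hk' l1 l2⟩) := by
    rw [RI_.lft_eq l1 l2 _ rfl, RI_.rgt_eq l1 l2 _ rfl, hj]
    ring
  rw [e]
  exact RL_insert _ _ (pos_get (pos_app h1 h2)) j h

/-- an entry divisible by its left neighbour may be increased -/
theorem rut_increase (l1 l2 : List ℕ) (m j : ℕ) (h1 : ∀ x ∈ l1, 0 < x) (h2 : ∀ x ∈ l2, 0 < x)
    (hm : 0 < m) (hd : l1.getLastD 1 ∣ m) (h : HasRUT (PL (l1 ++ m :: l2))) :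
    HasRUT (PL (l1 ++ (m + j * Nat.lcm (l1.getLastD 1) (l2.headD 1)) :: l2)) := by
  rw [rl_iff (pos_ins h1 h2 (by omega))]
  rw [rl_iff (pos_ins h1 h2 hm)] at h
  rw [← rl_cast _ _ _ (hlen' l1 l2 m) (insS_list l1 l2 m (hk' l1 l2) (hlen' l1 l2 m))] at h
  rw [← rl_cast _ _ _ (hlen' l1 l2 _) (insS_list l1 l2 _ (hk' l1 l2) (hlen' l1 l2 _))]
  have e1 := RI_.lft_eq l1 l2 (⟨l1.length, hk' l1 l2⟩ : Fin ((l1 ++ l2).length + 1)) rfl
  have e2 := RI_.rgt_eq l1 l2 (⟨l1.length, hk' l1 l2⟩ : Fin ((l1 ++ l2).length + 1)) rfl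
  have h3 := RL_increase (⟨l1.length, hk' l1 l2⟩ : Fin ((l1 ++ l2).length + 1)) _
    (pos_get (pos_app h1 h2)) m j hm (by rw [e1]; exact hd) h
  rw [e1, e2] at h3
  exact h3

/-- reversal -/
theorem rut_reverse (l : List ℕ) (hl : ∀ x ∈ l, 0 < x) (h : HasRUT (PL l)) :
    HasRUT (PL l.reverse) := by
  have hr : ∀ x ∈ l.reverse, 0 < x := fun x hx => hl x (List.mem_reverse.mp hx)
  rw [rl_iff hr]
  rw [rl_iff hl] at h
  refine (rl_cast _ _ _ (by simp) ?_).mp (RL_rev _ h)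
  intro i
  rw [List.get_eq_getElem, List.get_eq_getElem, List.getElem_reverse]
  simp only [Fin.val_rev, Fin.val_cast]
  have e : l.length - (↑i + 1) = l.length - 1 - ↑i := by omega
  simp only [e]

/-- join at an entry one -/
theorem rut_join (l1 l2 : List ℕ) (h1 : ∀ x ∈ l1, 0 < x) (h2 : ∀ x ∈ l2, 0 < x)
    (g1 : HasRUT (PL l1)) (g2 : HasRUT (PL l2)) : HasRUT (PL (l1 ++ 1 :: l2)) := by
  rw [rl_iff (pos_ins h1 h2 one_pos)]
  rw [rl_iff h1] at g1
  rw [rl_iff h2] at g2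
  have g := RL_joinS _ _ g1 g2
  refine (rl_cast _ _ _ (by simp) ?_).mp g
  intro i
  unfold joinS
  refine Fin.addCases (fun i => ?_) (fun i => ?_) i
  · rw [Fin.append_left, List.get_eq_getElem, List.get_eq_getElem]
    simp only [Fin.val_cast, Fin.val_castAdd]
    rw [List.getElem_append_left i.2]
  · rw [Fin.append_right, List.get_eq_getElem]
    simp only [Fin.val_cast, Fin.val_natAdd]
    rw [List.getElem_append_right (by omega)]
    refine Fin.cases ?_ (fun i => ?_) i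
    · simp
    · simp

/-- doubling all entries but one -/
theorem rut_double (hDBL : Stmt_DBL) {n : ℕ} (t : Fin n → ℕ) (j : Fin n) (ht : ∀ i, 0 < t i)
    (h : HasRUT (simplex t)) : HasRUT (simplex (dbl j t)) := by
  have hp : ∀ i, 0 < dbl j t i := by
    intro i
    unfold dbl
    have := ht i
    split_ifs
    · exact this
    · omega
  obtain ⟨ω, hω⟩ := hDBL n t j ht (RL_of_hasRUT ht h)
  exact hasRUT_of_RL hp ⟨ω, fun φ b hle hsp => (hω φ b hle hsp).1⟩

end Pool.Agent.LHU
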