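import Pool.Agent.LHU.Stmts

set_option autoImplicit false

/-!
LHU: module DBK
-/

namespace Pool.Agent.LHU

open Pool.Agent.LHT

namespace DBK_

section

variable {Λ' Λ : Type} [AddCommGroup Λ'] [AddCommGroup Λ] {ι : Λ' →+ Λ} {κ : Λ →+ Λ'}

lemma kap (hι : Function.Injective ι) (hκ : ∀ v, ι (κ v) = (2 : ℤ) • v) (q : Λ') :
    κ (ι q) = (2 : ℤ) • q := by
  apply hι
  rw [hκ, map_zsmul]

end

lemma affine2 (g : ZMod 2 → ZMod 2) (t : ZMod 2) : g t = g 0 + (g 1 - g 0) * t := by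
  have h : ∀ t : ZMod 2, t = 0 ∨ t = 1 := by decide
  rcases h t with h | h
  · rw [h, mul_zero, add_zero]
  · rw [h, mul_one, add_sub_cancel]

lemma one_of_sum {α : Type} (S : Finset α) (x : α → ℤ) (h0 : ∀ q ∈ S, 0 ≤ x q)
    (h1 : ∑ q ∈ S, x q = 1) : ∃ q ∈ S, x q = 1 ∧ ∀ q' ∈ S, q' ≠ q → x q' = 0 := by
  classical
  have h2 : ∃ q ∈ S, x q ≠ 0 := by
    by_contra hc
    push Not at hc
    rw [Finset.sum_eq_zero hc] at h1
    exact absurd h1 (by norm_num)
  obtain ⟨q, hq, hx⟩ := h2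
  have h3 : 1 ≤ x q := by
    have := h0 q hq
    omega
  have h4 := Finset.add_sum_erase S x hq
  have h5 : 0 ≤ ∑ i ∈ S.erase q, x i := Finset.sum_nonneg (fun i hi => h0 i (Finset.mem_of_mem_erase hi))
  have h6 : ∑ i ∈ S.erase q, x i = 0 := by omega
  refine ⟨q, hq, by omega, ?_⟩
  intro q' hq' hne
  exact (Finset.sum_eq_zero_iff_of_nonneg (fun i hi => h0 i (Finset.mem_of_mem_erase hi))).1 h6 q'
    (Finset.mem_erase.2 ⟨hne, hq'⟩)

end DBK_

open DBK_ in
theorem dbk_proof : Stmt_DBK := by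
  classical
  intro Λ' Λ _ _ ι κ χ hι hκ hχ hχκ _hT V' ω' hR V ω hV hω φ b hle hsp
  set C := contact V ω φ b with hC
  set C' := contact V' ω' (φ.comp ι) b with hC'
  have hle' : ∀ v' ∈ V', (φ.comp ι) v' + b ≤ ω' v' := by
    intro v' hv'
    rw [← hω v' hv']
    exact hle _ ((hV _).2 ⟨v', hv', rfl⟩)
  have memC : ∀ v, v ∈ C ↔ ∃ q ∈ C', ι q = v := by
    intro v
    rw [hC, mem_contact, hV]
    constructor
    · rintro ⟨⟨q, hq, rfl⟩, h⟩
      refine ⟨q, ?_, rfl⟩
      rw [hC', mem_contact]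
      exact ⟨hq, by rw [← hω q hq]; exact h⟩
    · rintro ⟨q, hq, rfl⟩
      rw [hC', mem_contact] at hq
      exact ⟨⟨q, hq.1, rfl⟩, by rw [hω q hq.1]; exact hq.2⟩
  have imC : C = C'.image ι := by
    ext v
    rw [memC, Finset.mem_image]
  have hspan : Spans C' := by
    intro ρ s h
    let Φ : Λ →+ ℝ := (AddMonoidHom.mulLeft (1 / 2 : ℝ)).comp (ρ.comp κ)
    have hΦ : ∀ q, Φ (ι q) = ρ q := by
      intro q
      change (1 / 2 : ℝ) * ρ (κ (ι q)) = ρ q
      rw [kap hι hκ, map_zsmul, zsmul_eq_mul]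
      push_cast
      ring
    have h2 := hsp Φ s (by
      intro v hv
      obtain ⟨q, hq, rfl⟩ := (memC v).1 hv
      rw [hΦ]
      exact h q hq)
    refine ⟨?_, h2.2⟩
    ext a
    rw [← hΦ a, h2.1]
    rfl
  obtain ⟨ψ', c', u1, u2, u3⟩ := hR (φ.comp ι) b hle' hspan
  rw [← hC'] at u1 u2 u3
  have inv : ∀ q, Function.invFun ι (ι q) = q := Function.leftInverse_invFun hι
  -- sums
  have sc : ∑ q ∈ C', c' q = 1 := by
    have := u2 0
    simpa using this
  have sc' : ∑ q ∈ C', c' q • q = 0 := by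
    have := u3 0
    simpa using this
  have sp : ∀ v', ∑ q ∈ C', ψ' q v' = 0 := by
    intro v'
    have := u2 v'
    rw [Finset.sum_add_distrib, sc] at this
    omega
  have sp' : ∀ v', ∑ q ∈ C', ψ' q v' • q = v' := by
    intro v'
    have := u3 v'
    simp only [add_smul] at this
    rw [Finset.sum_add_distrib, sc', add_zero] at this
    exact this
  refine ⟨⟨fun p => (ψ' (Function.invFun ι p)).comp κ, fun p => 2 * c' (Function.invFun ι p),
    ?_, ?_, ?_, ?_, ?_⟩, ?_⟩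
  · intro p hp q hq
    obtain ⟨p', hp', rfl⟩ := (memC p).1 hp
    obtain ⟨q', hq', rfl⟩ := (memC q).1 hq
    simp only [inv]
    rw [AddMonoidHom.comp_apply, kap hι hκ, map_zsmul, smul_eq_mul, ← mul_add,
      u1 p' hp' q' hq']
    by_cases h : p' = q'
    · rw [if_pos h, if_pos (by rw [h])]
      norm_num
    · rw [if_neg h, if_neg (fun h' => h (hι h'))]
      norm_num
  · intro v
    rw [imC, Finset.sum_image (fun a _ b _ h => hι h)]
    simp only [inv, AddMonoidHom.comp_apply]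
    rw [Finset.sum_add_distrib, sp, ← Finset.mul_sum, sc]
    norm_num
  · intro v
    rw [imC, Finset.sum_image (fun a _ b _ h => hι h)]
    simp only [inv, AddMonoidHom.comp_apply, ← map_zsmul, ← map_sum]
    rw [← hκ]
    congr 1
    simp only [add_smul, mul_smul]
    rw [Finset.sum_add_distrib, sp', ← Finset.smul_sum, sc', smul_zero, add_zero]
  · intro f hf v
    rw [imC, Finset.sum_image (fun a _ b _ h => hι h)]
    simp only [inv, AddMonoidHom.comp_apply]
    have hg : ∃ g : ZMod 2 → ZMod 2, ∀ q ∈ C', f (ι q) = g (χ q) := by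
      refine ⟨fun t => if h : ∃ q ∈ C', χ q = t then f (ι h.choose) else 0, ?_⟩
      intro q hq
      have h : ∃ q' ∈ C', χ q' = χ q := ⟨q, hq, rfl⟩
      simp only
      rw [dif_pos h]
      have hs := h.choose_spec
      exact hf _ ((memC _).2 ⟨q, hq, rfl⟩) _ ((memC _).2 ⟨_, hs.1, rfl⟩)
        (hχ _ _ hs.2.symm)
    obtain ⟨g, hg⟩ := hg
    have e1 : ∑ q ∈ C', ((ψ' q (κ v) + 2 * c' q : ℤ) : ZMod 2) * f (ι q) =
        ∑ q ∈ C', (g 0 * ((ψ' q (κ v) : ℤ) : ZMod 2) +
          (g 1 - g 0) * (((ψ' q (κ v) : ℤ) : ZMod 2) * χ q)) := by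
      apply Finset.sum_congr rfl
      intro q hq
      rw [hg q hq, affine2 g (χ q)]
      have e2 : ((ψ' q (κ v) + 2 * c' q : ℤ) : ZMod 2) = ((ψ' q (κ v) : ℤ) : ZMod 2) := by
        push_cast
        have : (2 : ZMod 2) = 0 := rfl
        rw [this, zero_mul, add_zero]
      rw [e2]
      ring
    rw [e1, Finset.sum_add_distrib, ← Finset.mul_sum, ← Finset.mul_sum]
    have e3 : ∑ q ∈ C', ((ψ' q (κ v) : ℤ) : ZMod 2) = 0 := by
      rw [← Int.cast_sum, sp]
      rfl
    have e4 : ∑ q ∈ C', ((ψ' q (κ v) : ℤ) : ZMod 2) * χ q = 0 := by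
      have h1 := congrArg χ (sp' (κ v))
      rw [map_sum, hχκ] at h1
      rw [← h1]
      apply Finset.sum_congr rfl
      intro q _
      rw [map_zsmul, zsmul_eq_mul]
    rw [e3, e4, mul_zero, mul_zero, add_zero]
  · intro v hv hpos
    obtain ⟨v', hv', rfl⟩ := (hV v).1 hv
    have h0 : ∀ q ∈ C', 0 ≤ ψ' q v' + c' q := by
      intro q hq
      have h := hpos (ι q) ((memC _).2 ⟨q, hq, rfl⟩)
      simp only [inv] at h
      rw [AddMonoidHom.comp_apply, kap hι hκ, map_zsmul, smul_eq_mul] at h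
      omega
    obtain ⟨q, hq, hq1, hq0⟩ := one_of_sum C' (fun q => ψ' q v' + c' q) h0 (u2 v')
    have h3 : v' = q := by
      rw [← u3 v', Finset.sum_eq_single_of_mem q hq (fun q' hq' hne => by
        rw [hq0 q' hq' hne, zero_smul]), hq1, one_smul]
    rw [h3]
    exact (memC _).2 ⟨q, hq, rfl⟩
  · intro a
    by_contra hno
    have hall : ∀ q ∈ C', χ q = χ a + 1 := by
      intro q hq
      have hne : χ a ≠ χ q := fun h =>
        hno ⟨ι q, (memC _).2 ⟨q, hq, rfl⟩, hχ _ _ h⟩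
      revert hne
      generalize χ a = s
      generalize χ q = t
      revert s t
      decide
    have h1 := congrArg χ (u3 a)
    rw [map_sum] at h1
    have h2 : ∑ q ∈ C', χ ((ψ' q a + c' q) • q) =
        ∑ q ∈ C', ((ψ' q a + c' q : ℤ) : ZMod 2) * (χ a + 1) := by
      apply Finset.sum_congr rfl
      intro q hq
      rw [map_zsmul, zsmul_eq_mul, hall q hq]
    rw [h2, ← Finset.sum_mul, ← Int.cast_sum, u2 a] at h1
    revert h1
    generalize χ a = s
    revert s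
    decide

end Pool.Agent.LHU
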