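import Pool.Agent.LHT.Conv
import Pool.Agent.LHT.Closure

set_option autoImplicit false

/-!
Marked regular unimodular triangulations, cells of type K, attaching a triangulation to a cell
structure.
-/

namespace Pool.Agent.LHU

open Pool.Agent.LHT

/-- no torsion -/
def TF (Λ : Type) [AddCommGroup Λ] : Prop := ∀ (m : ℤ) (v : Λ), m ≠ 0 → m • v = 0 → v = 0

section
variable {Λ : Type} [AddCommGroup Λ]

/-- congruent modulo two -/
def Cg (a b : Λ) : Prop := ∃ u : Λ, b = a + (2 : ℤ) • u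

/-- some vertex of `C` is congruent to `α` modulo two -/
def Has (α : Λ) (C : Finset Λ) : Prop := ∃ v ∈ C, Cg α v

/-- every spanning contact set satisfies `G` -/
def GLw (G : Finset Λ → Prop) (S : Finset Λ) (ω : Λ → ℝ) : Prop :=
  ∀ (φ : Λ →+ ℝ) (b : ℝ), (∀ v ∈ S, φ v + b ≤ ω v) → Spans (contact S ω φ b) →
    G (contact S ω φ b)

/-- affinely independent -/
def Simp (C : Finset Λ) : Prop :=
  ∀ p ∈ C, ∃ (χ : Λ →+ ℝ) (d : ℝ), χ p + d = 1 ∧ ∀ q ∈ C, q ≠ p → χ q + d = 0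

open Classical in
/-- a simplex of type K: the barycentric coordinates of lattice points, multiplied by two, are
integers, their sums over the classes of vertices modulo two are even, and `C` contains all points
of `V` in its hull -/
def Kay (V C : Finset Λ) : Prop :=
  ∃ (ψ : Λ → Λ →+ ℤ) (c : Λ → ℤ),
    (∀ p ∈ C, ∀ q ∈ C, ψ p q + c p = if p = q then 2 else 0) ∧
    (∀ v, ∑ p ∈ C, (ψ p v + c p) = 2) ∧
    (∀ v, ∑ p ∈ C, (ψ p v + c p) • p = (2 : ℤ) • v) ∧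
    (∀ f : Λ → ZMod 2, (∀ p ∈ C, ∀ q ∈ C, Cg p q → f p = f q) →
      ∀ v, ∑ p ∈ C, ((ψ p v + c p : ℤ) : ZMod 2) * f p = 0) ∧
    (∀ v ∈ V, (∀ p ∈ C, 0 ≤ ψ p v + c p) → v ∈ C)

/-- exactly one vertex of `S` carries the label `A` -/
def Uq (A S : Finset Λ) : Prop := ∃ α ∈ S, α ∈ A ∧ ∀ β ∈ S, β ∈ A → β = α

/-- unimodular with two marks -/
def MU (α β : Λ) (C : Finset Λ) : Prop := Uni C ∧ Has α C ∧ Has β C

/-- every point of `S` is in the hull of `V` -/
def Hul (V S : Finset Λ) : Prop :=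
  ∀ w ∈ S, ∀ (χ : Λ →+ ℝ) (d : ℝ), (∀ v ∈ V, 0 ≤ χ v + d) → 0 ≤ χ w + d

/-- closed under midpoints in the lattice -/
def Mid (S : Finset Λ) : Prop := ∀ v ∈ S, ∀ v' ∈ S, ∀ w : Λ, v + v' = (2 : ℤ) • w → w ∈ S

end

section Attach

variable {Λ Γ : Type} [AddCommGroup Λ] [AddCommGroup Γ]

/-- position of an attached point -/
def posn (o : Λ) (ζ : Γ →+ ℤ) (e : ℤ) (w : Λ) (z : Γ) : Λ := o + (ζ z + e) • w

open Classical in
/-- the new set of vertices -/
noncomputable def attV (V A : Finset Λ) (T : Finset Γ) (r : Γ) (o : Λ) (ζ : Γ →+ ℤ) (e : ℤ)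
    (al : Λ → Λ) : Finset (Λ × Γ) :=
  (V \ A).image (fun v => (v, r)) ∪
    A.biUnion (fun α => T.image (fun z => (posn o ζ e (al α) z, z)))

open Classical in
/-- the new cells -/
noncomputable def attC (S : Finset Λ) (α : Λ) (τ : Finset Γ) (r : Γ) (o : Λ) (ζ : Γ →+ ℤ) (e : ℤ)
    (al : Λ → Λ) : Finset (Λ × Γ) :=
  (S.erase α).image (fun v => (v, r)) ∪ τ.image (fun z => (posn o ζ e (al α) z, z))

/-- hypotheses for attaching `T` along the vertices with label `A` -/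
structure Att (V A : Finset Λ) (T : Finset Γ) (r : Γ) (o : Λ) (ζ : Γ →+ ℤ) (e cc : ℤ)
    (al : Λ → Λ) : Prop where
  tfl : TF Λ
  tfg : TF Γ
  sub : A ⊆ V
  ne : A.Nonempty
  hal : ∀ α ∈ A, cc • al α = α - o
  pos : 0 < cc
  mem : r ∈ T
  top : ζ r + e = cc
  rng : ∀ z ∈ T, 0 ≤ ζ z + e ∧ ζ z + e ≤ cc
  pyr : ∀ z ∈ T, ∀ (χ : Γ →+ ℝ) (d : ℝ), (∀ t ∈ T, ζ t + e = 0 → χ t + d ≤ 0) →
    χ (cc • z - (ζ z + e) • r) + ((cc - (ζ z + e) : ℤ) : ℝ) * d ≤ 0

end Attach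

/-- the first vertex of the lecture hall simplex -/
def uu {n : ℕ} (s : Fin n → ℕ) : Fin n → ℤ := fun i => (s i : ℤ)

/-- a regular unimodular triangulation of the lecture hall simplex in which every cell has a vertex
congruent to zero and a vertex congruent to `uu s` modulo two -/
def lr {n : ℕ} (s : Fin n → ℕ) : Prop := ∃ ω : (Fin n → ℤ) → ℝ, GLw (MU 0 (uu s)) (LH s) ω

/-- the same for lists -/
def lrL (l : List ℕ) : Prop := lr (fun i : Fin l.length => l.get i)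

/-- admissible neighbours in long blocks -/
def Adj (x y : ℕ) : Prop := x ≤ 3 ∨ y ≤ 3 ∨ (x ≤ 4 ∧ y ≤ 4)

end Pool.Agent.LHU
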