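import Pool.Agent.LHU.MKE

set_option autoImplicit false

/-!
The explicit condition on three consecutive entries.
-/

namespace Pool.Agent.LHU

open Pool.Agent.LHT

theorem runs_of_cond {l : List ℕ} (hc : Cond l) (b : List ℕ) (hb : Run l b) :
    b.length ≤ 2 ∨ Adm b ∨ Mk b := by
  obtain ⟨l1, l2, e, h3, -, -⟩ := hb
  by_cases hlen : b.length ≤ 2
  · exact Or.inl hlen
  right
  left
  intro p q x y eb
  have hx : 3 ≤ x := h3 x (by rw [eb]; simp)
  have hy : 3 ≤ y := h3 y (by rw [eb]; simp)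
  cases q with
  | cons z q' =>
    have hz : 3 ≤ z := h3 z (by rw [eb]; simp)
    have := hc (l1 ++ p) (q' ++ l2) x y z (by rw [e, eb]; simp [List.append_assoc]) hx hy hz
    exact this.1
  | nil =>
    rcases List.eq_nil_or_concat p with rfl | ⟨p', w, rfl⟩
    · rw [eb] at hlen
      simp at hlen
    · rw [List.concat_eq_append] at eb
      have hw : 3 ≤ w := h3 w (by rw [eb]; simp)
      have := hc (l1 ++ p') l2 w x y (by rw [e, eb]; simp [List.append_assoc]) hw hx hy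
      exact this.2

theorem cond_ofFn {n : ℕ} (s : Fin n → ℕ)
    (hc : ∀ i j k : Fin n, (j : ℕ) = i + 1 → (k : ℕ) = j + 1 → 3 ≤ s i → 3 ≤ s j → 3 ≤ s k →
      (s i ≤ 3 ∨ s j ≤ 3 ∨ (s i ≤ 4 ∧ s j ≤ 4)) ∧ (s j ≤ 3 ∨ s k ≤ 3 ∨ (s j ≤ 4 ∧ s k ≤ 4))) :
    Cond (List.ofFn s) := by
  have get_ofFn : ∀ (j : ℕ) (hj : j < n), (List.ofFn s)[j]? = some (s ⟨j, hj⟩) := by
    intro j hj
    simp [hj]
  intro l1 l2 x y z h hx hy hz
  have hlt : l1.length + 2 < n := by
    have := congrArg List.length h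
    simp at this
    omega
  have g0 : s ⟨l1.length, by omega⟩ = x := by
    have h2 := get_ofFn l1.length (by omega)
    rw [h] at h2
    simpa using h2.symm
  have g1 : s ⟨l1.length + 1, by omega⟩ = y := by
    have h2 := get_ofFn (l1.length + 1) (by omega)
    rw [h] at h2
    simpa using h2.symm
  have g2 : s ⟨l1.length + 2, by omega⟩ = z := by
    have h2 := get_ofFn (l1.length + 2) (by omega)
    rw [h] at h2
    simpa using h2.symm
  have h3 := hc ⟨l1.length, by omega⟩ ⟨l1.length + 1, by omega⟩ ⟨l1.length + 2, by omega⟩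
    rfl rfl
  rw [g0, g1, g2] at h3
  exact h3 hx hy hz

theorem mk_ofFn {n : ℕ} (s : Fin n → ℕ) (hs : ∀ i, 0 < s i)
    (hc : ∀ i j k : Fin n, (j : ℕ) = i + 1 → (k : ℕ) = j + 1 → 3 ≤ s i → 3 ≤ s j → 3 ≤ s k →
      (s i ≤ 3 ∨ s j ≤ 3 ∨ (s i ≤ 4 ∧ s j ≤ 4)) ∧ (s j ≤ 3 ∨ s k ≤ 3 ∨ (s j ≤ 4 ∧ s k ≤ 4))) :
    Mk (List.ofFn s) := by
  refine runs_mk _ _ le_rfl ?_ (runs_of_cond (cond_ofFn s hc))
  intro x hx
  rw [List.mem_ofFn] at hx
  obtain ⟨i, rfl⟩ := hx
  exact hs i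

theorem rut_ofFn {n : ℕ} (s : Fin n → ℕ) (hs : ∀ i, 0 < s i) (h : HasRUT (PL (List.ofFn s))) :
    HasRUT (simplex s) := by
  have hp : ∀ x ∈ List.ofFn s, 0 < x := by
    intro x hx
    rw [List.mem_ofFn] at hx
    obtain ⟨i, rfl⟩ := hx
    exact hs i
  rw [CLO_.rl_iff hp] at h
  rw [← CLO_.rl_cast n s (List.ofFn s) (by simp) (by intro i; simp)] at h
  exact hasRUT_of_RL hs h

/-- dimension three: two even entries -/
theorem mk_three (H : ∀ s : Fin 3 → ℕ, (∀ i, 0 < s i) → HasRUT (simplex s)) (a b c : ℕ)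
    (ha : 0 < a) (hb : 0 < b) (hc : 0 < c)
    (hev : (Even a ∧ Even b) ∨ (Even a ∧ Even c) ∨ (Even b ∧ Even c)) : Mk [a, b, c] := by
  rcases hev with ⟨⟨x, hx⟩, ⟨y, hy⟩⟩ | ⟨⟨x, hx⟩, ⟨y, hy⟩⟩ | ⟨⟨x, hx⟩, ⟨y, hy⟩⟩
  · have hp : ∀ i : Fin 3, 0 < (![x, y, c] : Fin 3 → ℕ) i := by
      intro i
      fin_cases i
      · show 0 < x; omega
      · show 0 < y; omega
      · exact hc
    have h := Mk.double 3 ![x, y, c] 2 hp (H _ hp)
    have e : List.ofFn (dbl (2 : Fin 3) ![x, y, c]) = [a, b, c] := by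
      simp [List.ofFn_succ, dbl, hx, hy, two_mul]
    rw [e] at h
    exact h
  · have hp : ∀ i : Fin 3, 0 < (![x, b, y] : Fin 3 → ℕ) i := by
      intro i
      fin_cases i
      · show 0 < x; omega
      · exact hb
      · show 0 < y; omega
    have h := Mk.double 3 ![x, b, y] 1 hp (H _ hp)
    have e : List.ofFn (dbl (1 : Fin 3) ![x, b, y]) = [a, b, c] := by
      simp [List.ofFn_succ, dbl, hx, hy, two_mul]
    rw [e] at h
    exact h
  · have hp : ∀ i : Fin 3, 0 < (![a, x, y] : Fin 3 → ℕ) i := by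
      intro i
      fin_cases i
      · exact ha
      · show 0 < x; omega
      · show 0 < y; omega
    have h := Mk.double 3 ![a, x, y] 0 hp (H _ hp)
    have e : List.ofFn (dbl (0 : Fin 3) ![a, x, y]) = [a, b, c] := by
      simp [List.ofFn_succ, dbl, hx, hy, two_mul]
    rw [e] at h
    exact h

end Pool.Agent.LHU
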