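import Pool.Agent.LHU.Stmts

set_option autoImplicit false

/-!
Marks of the attached cells, from the attached triangulation.
-/

namespace Pool.Agent.LHU

open Pool.Agent.LHT

open Classical in
theorem ha2_proof : Stmt_HA2 := by
  intro Λ Γ _ _ S α τ r δ o ζ e al hδ heven
  obtain ⟨z, hz, u, hu⟩ := hδ
  obtain ⟨k, hk⟩ := heven
  unfold Has attC
  refine ⟨(posn o ζ e (al α) z, z), ?_, ((k + ζ u) • al α, u), ?_⟩
  · rw [Finset.mem_union]
    right
    rw [Finset.mem_image]
    exact ⟨z, hz, rfl⟩
  · apply Prod.ext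
    · show posn o ζ e (al α) z = o + (2 : ℤ) • ((k + ζ u) • al α)
      unfold posn
      have h1 : ζ z + e = 2 * (k + ζ u) := by
        rw [hu, map_add, map_zsmul, smul_eq_mul]
        linarith
      rw [h1, mul_smul]
    · exact hu

end Pool.Agent.LHU
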