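import Pool.Agent.LHU.CLO

set_option autoImplicit false

/-!
The class of sequences obtained from the middle rule and the other rules.
-/

namespace Pool.Agent.LHU

open Pool.Agent.LHT

/-- a chain from `0` to `b` with steps one or two -/
def Steps (b k : ℕ) (t : ℕ → ℕ) : Prop :=
  t 0 = 0 ∧ t k = b ∧ ∀ i < k, t (i + 1) = t i + 1 ∨ t (i + 1) = t i + 2

/-- there is a chain from `0` to `b` with steps one or two, the members of which are alternately
multiples of `c` and congruent to `b` modulo `a` -/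
def MidOK (a b c : ℕ) : Prop :=
  ∃ (k e : ℕ) (t : ℕ → ℕ), Steps b k t ∧
    ∀ i ≤ k, ((i + e) % 2 = 0 → c ∣ t i) ∧ ((i + e) % 2 = 1 → (a : ℤ) ∣ (t i : ℤ) - b)

/-- there is a chain from `0` to `b` with steps one or two, such that every second member is a
multiple of `c`, and one of any two consecutive members has the parity of `b` -/
def EndOK (b c : ℕ) : Prop :=
  ∃ (k e : ℕ) (t : ℕ → ℕ), Steps b k t ∧ (∀ i ≤ k, (i + e) % 2 = 0 → c ∣ t i) ∧
    ∀ i < k, t i % 2 = b % 2 ∨ t (i + 1) % 2 = b % 2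

namespace MKC_

section
variable {b k : ℕ} {t : ℕ → ℕ} (h : Steps b k t)
include h

theorem lt_of_lt {i : ℕ} : ∀ {j : ℕ}, i < j → j ≤ k → t i < t j := by
  intro j
  induction j with
  | zero => intro h1; omega
  | succ j ih =>
    intro h1 h2
    have h3 := h.2.2 j (by omega)
    by_cases hij : i = j
    · subst hij; omega
    · have := ih (by omega) (by omega)
      omega

theorem le_b {i : ℕ} (hi : i ≤ k) : t i ≤ b := by
  by_cases hik : i = k
  · rw [hik, h.2.1]
  · have := lt_of_lt h (show i < k by omega) le_rfl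
    rw [h.2.1] at this
    omega

theorem inj {i j : ℕ} (hi : i ≤ k) (hj : j ≤ k) (e : t i = t j) : i = j := by
  rcases lt_trichotomy i j with h1 | h1 | h1
  · have := lt_of_lt h h1 hj; omega
  · exact h1
  · have := lt_of_lt h h1 hi; omega

end

open Classical in
/-- the members with the given parity of index -/
noncomputable def part (k e r : ℕ) (t : ℕ → ℕ) : Finset ℤ :=
  ((Finset.range (k + 1)).filter (fun i => (i + e) % 2 = r)).image (fun i => (t i : ℤ))

theorem mem_part {k e r : ℕ} {t : ℕ → ℕ} {x : ℤ} :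
    x ∈ part k e r t ↔ ∃ i, i ≤ k ∧ (i + e) % 2 = r ∧ (t i : ℤ) = x := by
  unfold part
  simp only [Finset.mem_image, Finset.mem_filter, Finset.mem_range]
  constructor
  · rintro ⟨i, ⟨h1, h2⟩, h3⟩; exact ⟨i, by omega, h2, h3⟩
  · rintro ⟨i, h1, h2, h3⟩; exact ⟨i, ⟨by omega, h2⟩, h3⟩

open Classical in
/-- all members -/
noncomputable def mems (k : ℕ) (t : ℕ → ℕ) : Finset ℤ :=
  (Finset.range (k + 1)).image (fun i => (t i : ℤ))

theorem mem_mems {k : ℕ} {t : ℕ → ℕ} {x : ℤ} : x ∈ mems k t ↔ ∃ i, i ≤ k ∧ (t i : ℤ) = x := by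
  unfold mems
  simp only [Finset.mem_image, Finset.mem_range]
  constructor
  · rintro ⟨i, h1, h3⟩; exact ⟨i, by omega, h3⟩
  · rintro ⟨i, h1, h3⟩; exact ⟨i, by omega, h3⟩

/-- consecutive members have consecutive indices -/
theorem con {b k : ℕ} {t : ℕ → ℕ} (h : Steps b k t) {x x' : ℤ} (hc : Con (mems k t) x x') :
    ∃ i, i < k ∧ (t i : ℤ) = x ∧ (t (i + 1) : ℤ) = x' := by
  obtain ⟨h1, h2, h3⟩ := hc
  obtain ⟨i, hi, ei⟩ := mem_mems.mp h1
  obtain ⟨j, hj, ej⟩ := mem_mems.mp h2
  have hlt : t i < t j := by omega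
  have hij : i < j := by
    by_contra hcon
    rcases (not_lt.mp hcon).eq_or_lt with h4 | h4
    · subst h4; omega
    · have := lt_of_lt h h4 hi; omega
  have hj1 : j = i + 1 := by
    by_contra hcon
    have h5 := lt_of_lt h (show i < i + 1 by omega) (show i + 1 ≤ k by omega)
    have h6 := lt_of_lt h (show i + 1 < j by omega) hj
    rcases h3 with h3 | ⟨h3, h4⟩
    · omega
    · apply h4
      exact mem_mems.mpr ⟨i + 1, by omega, by omega⟩
  subst hj1
  exact ⟨i, by omega, ei, ej⟩

theorem get_glue (l1 l2 : List ℕ) (a b c : ℕ) (L : Fin (l1.length + 1) → ℕ)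
    (R : Fin (l2.length + 1) → ℕ) (hl : l1.length + 1 = (l1 ++ [a]).length)
    (hr : l2.length + 1 = (c :: l2).length)
    (hL : ∀ i, L i = (l1 ++ [a]).get (Fin.cast hl i))
    (hR : ∀ i, R i = (c :: l2).get (Fin.cast hr i))
    (h : (l1.length + 1) + (1 + (l2.length + 1)) = ((l1 ++ [a]) ++ ([b] ++ (c :: l2))).length)
    (i : Fin ((l1.length + 1) + (1 + (l2.length + 1)))) :
    Fin.append L (Fin.append (fun _ : Fin 1 => b) R) i =
      ((l1 ++ [a]) ++ ([b] ++ (c :: l2))).get (Fin.cast h i) := by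
  refine Fin.addCases (fun j => ?_) (fun j => ?_) i
  · rw [Fin.append_left, hL j]
    simp only [List.get_eq_getElem, Fin.val_cast, Fin.val_castAdd]
    exact (List.getElem_append_left (as := l1 ++ [a]) (bs := [b] ++ (c :: l2)) (i := (j : ℕ))
      (by rw [← hl]; exact j.isLt)).symm
  · rw [Fin.append_right]
    refine Fin.addCases (fun k => ?_) (fun k => ?_) j
    · rw [Fin.append_left]
      have hk : (k : ℕ) = 0 := by have := k.isLt; omega
      simp only [List.get_eq_getElem, Fin.val_cast, Fin.val_natAdd, Fin.val_castAdd]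
      rw [List.getElem_append_right (by rw [← hl]; omega)]
      rw [List.getElem_append_left (by rw [← hl]; simp)]
      simp
    · rw [Fin.append_right, hR k]
      simp only [List.get_eq_getElem, Fin.val_cast, Fin.val_natAdd]
      rw [List.getElem_append_right (by rw [← hl]; omega)]
      rw [List.getElem_append_right (by rw [← hl]; simp)]
      congr 1
      rw [← hl]
      simp

theorem get_glue1 (l2 : List ℕ) (b c : ℕ) (h : 1 + (l2.length + 1) = (b :: c :: l2).length)
    (i : Fin (1 + (l2.length + 1))) :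
    Fin.append (fun _ : Fin 1 => b) (fun j : Fin (l2.length + 1) => (c :: l2).get j) i =
      (b :: c :: l2).get (Fin.cast h i) := by
  refine Fin.addCases (fun j => ?_) (fun j => ?_) i
  · rw [Fin.append_left]
    have hj : (j : ℕ) = 0 := by have := j.isLt; omega
    have h1 : Fin.cast h (Fin.castAdd (l2.length + 1) j) = ⟨0, by simp⟩ := by
      apply Fin.ext
      simp [hj]
    rw [h1]
    rfl
  · rw [Fin.append_right]
    have h1 : Fin.cast h (Fin.natAdd 1 j) = ⟨(j : ℕ) + 1, by
        have := j.isLt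
        simp only [List.length_cons]
        omega⟩ := by
      apply Fin.ext
      simp [add_comm]
    rw [h1]
    rfl

end MKC_

open MKC_

/-- the middle rule for one entry, for lists -/
theorem mid_list (hC2 : Stmt_C2) (hLCA : Stmt_LCA) (l1 l2 : List ℕ) (a b c : ℕ) (hb : 0 < b)
    (h1 : ∀ x ∈ l1 ++ [a], 0 < x) (h2 : ∀ x ∈ c :: l2, 0 < x) (hm : MidOK a b c)
    (hL : lrL (l1 ++ [a])) (hR : lrL (c :: l2)) : lrL (l1 ++ a :: b :: c :: l2) := by
  classical
  obtain ⟨k, e, t, hst, hlab⟩ := hm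
  have hl : l1.length + 1 = (l1 ++ [a]).length := by simp
  have hr : l2.length + 1 = (c :: l2).length := by simp
  have hLL : lr (fun i : Fin (l1.length + 1) => (l1 ++ [a]).get (Fin.cast hl i)) :=
    (hLCA (l1.length + 1) _ (l1 ++ [a]) hl (fun i => rfl)).mpr hL
  have hRR : lr (fun i : Fin (l2.length + 1) => (c :: l2).get (Fin.cast hr i)) :=
    (hLCA (l2.length + 1) _ (c :: l2) hr (fun i => rfl)).mpr hR
  have e' : l1 ++ a :: b :: c :: l2 = (l1 ++ [a]) ++ ([b] ++ (c :: l2)) := by simp
  rw [e']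
  have hh : (l1.length + 1) + (1 + (l2.length + 1)) =
      ((l1 ++ [a]) ++ ([b] ++ (c :: l2))).length := by
    simp only [List.length_append, List.length_cons, List.length_nil]
  refine (hLCA _ _ _ hh
    (MKC_.get_glue l1 l2 a b c _ _ hl hr (fun i => rfl) (fun i => rfl) hh)).mp ?_
  have hk : 0 < k := by
    by_contra hcon
    have hk0 : k = 0 := by omega
    have h3 := hst.1
    have h4 := hst.2.1
    rw [hk0, h3] at h4
    omega
  have hsub : ∀ r, part k e r t ⊆ mems k t := by
    intro r x hx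
    obtain ⟨i, hi, -, e1⟩ := mem_part.mp hx
    exact mem_mems.mpr ⟨i, hi, e1⟩
  have hne : ∀ r, r = 0 ∨ r = 1 → (part k e r t).Nonempty := by
    intro r hr
    have h3 : (0 + e) % 2 = r ∨ (1 + e) % 2 = r := by omega
    rcases h3 with h3 | h3
    · exact ⟨_, mem_part.mpr ⟨0, by omega, h3, rfl⟩⟩
    · exact ⟨_, mem_part.mpr ⟨1, by omega, h3, rfl⟩⟩
  refine hC2 l1.length l2.length b _ _ hb ?_ ?_ (mems k t) (part k e 0 t) (part k e 1 t)
    ?_ ?_ ?_ (hsub 0) (hne 0 (Or.inl rfl)) (hsub 1) (hne 1 (Or.inr rfl)) ?_ ?_ ?_ ?_ ?_ hLL hRR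
  · intro i
    exact h1 _ (List.get_mem _ _)
  · intro i
    exact h2 _ (List.get_mem _ _)
  · intro x hx
    obtain ⟨i, hi, e1⟩ := mem_mems.mp hx
    have := le_b hst hi
    omega
  · exact mem_mems.mpr ⟨0, by omega, by rw [hst.1]; rfl⟩
  · exact mem_mems.mpr ⟨k, le_rfl, by rw [hst.2.1]⟩
  · rw [Finset.disjoint_left]
    intro x hx hx'
    obtain ⟨i, hi, hi2, e1⟩ := mem_part.mp hx
    obtain ⟨j, hj, hj2, e2⟩ := mem_part.mp hx'
    have := inj hst hi hj (by omega)
    subst this
    omega
  · intro x hx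
    obtain ⟨i, hi, hi2, e1⟩ := mem_part.mp hx
    have h3 : (c :: l2).get (Fin.cast hr 0) = c := rfl
    rw [h3, ← e1]
    exact_mod_cast (hlab i hi).1 hi2
  · intro x hx
    obtain ⟨i, hi, hi2, e1⟩ := mem_part.mp hx
    have h3 : (l1 ++ [a]).get (Fin.cast hl (Fin.last l1.length)) = a := by
      simp
    rw [h3, ← e1]
    exact (hlab i hi).2 hi2
  · intro x hx hxb
    obtain ⟨i, hi, e1⟩ := mem_mems.mp hx
    have hik : i < k := by
      by_contra hcon
      have : i = k := by omega
      rw [this, hst.2.1] at e1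
      omega
    rcases hst.2.2 i hik with h3 | h3
    · left; exact mem_mems.mpr ⟨i + 1, by omega, by omega⟩
    · right; exact mem_mems.mpr ⟨i + 1, by omega, by omega⟩
  · intro x x' hc
    obtain ⟨i, hi, e1, e2⟩ := con hst hc
    have key : ∀ r, r = 0 ∨ r = 1 → Xor1 (part k e r t) x x' := by
      intro r hr
      have hmem : ∀ j, j ≤ k → ((t j : ℤ) ∈ part k e r t ↔ (j + e) % 2 = r) := by
        intro j hj
        constructor
        · intro h4
          obtain ⟨j', hj', h5, h6⟩ := mem_part.mp h4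
          have := inj hst hj' hj (by omega)
          subst this
          exact h5
        · intro h4
          exact mem_part.mpr ⟨j, hj, h4, rfl⟩
      unfold Xor1
      rw [← e1, ← e2, hmem i (by omega), hmem (i + 1) (by omega)]
      omega
    exact ⟨key 0 (Or.inl rfl), key 1 (Or.inr rfl)⟩

/-- the rule for one entry in front, for lists -/
theorem end_list (hC1 : Stmt_C1) (hLCA : Stmt_LCA) (l2 : List ℕ) (b c : ℕ) (hb : 0 < b)
    (h2 : ∀ x ∈ c :: l2, 0 < x) (hm : EndOK b c) (hR : lrL (c :: l2)) : lrL (b :: c :: l2) := by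
  classical
  obtain ⟨k, e, t, hst, hlab, hpar⟩ := hm
  have hh : 1 + (l2.length + 1) = (b :: c :: l2).length := by
    simp only [List.length_cons]
    omega
  refine (hLCA _ _ _ hh (MKC_.get_glue1 l2 b c hh)).mp ?_
  have hk : 0 < k := by
    by_contra hcon
    have hk0 : k = 0 := by omega
    have h3 := hst.1
    have h4 := hst.2.1
    rw [hk0, h3] at h4
    omega
  have hsub : ∀ r, part k e r t ⊆ mems k t := by
    intro r x hx
    obtain ⟨i, hi, -, e1⟩ := mem_part.mp hx
    exact mem_mems.mpr ⟨i, hi, e1⟩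
  have hne : (part k e 0 t).Nonempty := by
    have h3 : (0 + e) % 2 = 0 ∨ (1 + e) % 2 = 0 := by omega
    rcases h3 with h3 | h3
    · exact ⟨_, mem_part.mpr ⟨0, by omega, h3, rfl⟩⟩
    · exact ⟨_, mem_part.mpr ⟨1, by omega, h3, rfl⟩⟩
  refine hC1 l2.length b _ hb ?_ (mems k t) (part k e 0 t) ?_ ?_ ?_ (hsub 0) hne ?_ ?_ ?_ hR
  · intro i
    exact h2 _ (List.get_mem _ _)
  · intro x hx
    obtain ⟨i, hi, e1⟩ := mem_mems.mp hx
    have := le_b hst hi
    omega
  · exact mem_mems.mpr ⟨0, by omega, by rw [hst.1]; rfl⟩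
  · exact mem_mems.mpr ⟨k, le_rfl, by rw [hst.2.1]⟩
  · intro x hx
    obtain ⟨i, hi, hi2, e1⟩ := mem_part.mp hx
    show ((c : ℕ) : ℤ) ∣ x
    rw [← e1]
    exact_mod_cast hlab i hi hi2
  · intro x hx hxb
    obtain ⟨i, hi, e1⟩ := mem_mems.mp hx
    have hik : i < k := by
      by_contra hcon
      have : i = k := by omega
      rw [this, hst.2.1] at e1
      omega
    rcases hst.2.2 i hik with h3 | h3
    · left; exact mem_mems.mpr ⟨i + 1, by omega, by omega⟩
    · right; exact mem_mems.mpr ⟨i + 1, by omega, by omega⟩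
  · intro x x' hc
    obtain ⟨i, hi, e1, e2⟩ := con hst hc
    constructor
    · have hmem : ∀ j, j ≤ k → ((t j : ℤ) ∈ part k e 0 t ↔ (j + e) % 2 = 0) := by
        intro j hj
        constructor
        · intro h4
          obtain ⟨j', hj', h5, h6⟩ := mem_part.mp h4
          have := inj hst hj' hj (by omega)
          subst this
          exact h5
        · intro h4
          exact mem_part.mpr ⟨j, hj, h4, rfl⟩
      unfold Xor1
      rw [← e1, ← e2, hmem i (by omega), hmem (i + 1) (by omega)]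
      omega
    · rw [← e1, ← e2, Int.even_iff, Int.even_iff]
      have := hpar i hi
      omega

end Pool.Agent.LHU
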