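import Pool.Agent.LHU.MKC

set_option autoImplicit false

/-!
The class generated by the rules.
-/

namespace Pool.Agent.LHU

open Pool.Agent.LHT

/-- the class of sequences generated by the rules -/
inductive Mk : List ℕ → Prop
  | short (l : List ℕ) : (∀ x ∈ l, 0 < x) → l.length ≤ 2 → Mk l
  | double (n : ℕ) (t : Fin n → ℕ) (j : Fin n) : (∀ i, 0 < t i) → HasRUT (simplex t) →
      Mk (List.ofFn (dbl j t))
  | reverse (l : List ℕ) : Mk l → Mk l.reverse
  | insert (l1 l2 : List ℕ) (m : ℕ) : 0 < m → Nat.lcm (l1.getLastD 1) (l2.headD 1) ∣ m →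
      Mk (l1 ++ l2) → Mk (l1 ++ m :: l2)
  | middle (l1 l2 : List ℕ) (a b c : ℕ) : 0 < b → MidOK a b c → Mk (l1 ++ [a]) → Mk (c :: l2) →
      Mk (l1 ++ a :: b :: c :: l2)
  | front (l : List ℕ) (b c : ℕ) : 0 < b → EndOK b c → Mk (c :: l) → Mk (b :: c :: l)
  | fours (l1 l2 : List ℕ) : Mk (l1 ++ [3]) → Mk (3 :: l2) → Mk (l1 ++ 3 :: 4 :: 4 :: 3 :: l2)

theorem Mk.pos {l : List ℕ} (h : Mk l) : ∀ x ∈ l, 0 < x := by
  induction h with
  | short l h _ => exact h
  | double n t j ht _ =>
    intro x hx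
    rw [List.mem_ofFn] at hx
    obtain ⟨i, rfl⟩ := hx
    unfold dbl
    have := ht i
    split_ifs
    · exact this
    · omega
  | reverse l _ ih =>
    intro x hx
    exact ih x (List.mem_reverse.mp hx)
  | insert l1 l2 m hm _ _ ih =>
    intro x hx
    rw [List.mem_append, List.mem_cons] at hx
    rcases hx with h | rfl | h
    · exact ih x (List.mem_append_left _ h)
    · exact hm
    · exact ih x (List.mem_append_right _ h)
  | middle l1 l2 a b c hb _ _ _ ih1 ih2 =>
    intro x hx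
    simp only [List.mem_append, List.mem_cons, List.mem_singleton] at hx ih1 ih2
    rcases hx with h | h | h | h | h
    · exact ih1 x (Or.inl h)
    · exact ih1 x (Or.inr (Or.inl h))
    · rw [h]; exact hb
    · exact ih2 x (Or.inl h)
    · exact ih2 x (Or.inr h)
  | front l b c hb _ _ ih =>
    intro x hx
    rw [List.mem_cons] at hx
    rcases hx with h | h
    · rw [h]; exact hb
    · exact ih x h
  | fours l1 l2 _ _ ih1 ih2 =>
    intro x hx
    simp only [List.mem_append, List.mem_cons, List.mem_singleton] at hx ih1 ih2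
    rcases hx with h | h | h | h | h | h
    · exact ih1 x (Or.inl h)
    · omega
    · omega
    · omega
    · omega
    · exact ih2 x (Or.inr h)

theorem Mk.lr (hR2 : Stmt_R2) (hDBL : Stmt_DBL) (hRV : Stmt_RV) (hRI : Stmt_RI) (hC1 : Stmt_C1)
    (hC2 : Stmt_C2) (hRF : Stmt_RF) (hLCA : Stmt_LCA) {l : List ℕ} (h : Mk l) : lrL l := by
  induction h with
  | short l hp h =>
    match l, h, hp with
    | [], _, _ => exact hR2.1
    | [a], _, hpos => exact hR2.2.1 a (hpos a (by simp))
    | [a, b], _, hpos => exact hR2.2.2 a b (hpos a (by simp)) (hpos b (by simp))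
    | a :: b :: c :: l', h, _ =>
      simp only [List.length_cons] at h
      omega
  | double n t j ht hrut =>
    have h1 := hDBL n t j ht (RL_of_hasRUT ht hrut)
    refine (hLCA n _ _ (by simp) ?_).mp h1
    intro i
    simp [dbl]
  | reverse l _ ih => exact hRV l ih
  | insert l1 l2 m hm hd h ih =>
    have hp := h.pos
    exact hRI l1 l2 m (fun x hx => hp x (List.mem_append_left _ hx))
      (fun x hx => hp x (List.mem_append_right _ hx)) hm hd ih
  | middle l1 l2 a b c hb hm h1 h2 ih1 ih2 =>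
    exact mid_list hC2 hLCA l1 l2 a b c hb h1.pos h2.pos hm ih1 ih2
  | front l b c hb hm h ih => exact end_list hC1 hLCA l b c hb h.pos hm ih
  | fours l1 l2 h1 h2 ih1 ih2 =>
    exact hRF l1 l2 (fun x hx => h1.pos x (List.mem_append_left _ hx))
      (fun x hx => h2.pos x (List.mem_cons_of_mem _ hx)) ih1 ih2

namespace MKD_

theorem midOK_link (a b c : ℕ) (hb : b = 1 ∨ b = 2) : MidOK a b c := by
  refine ⟨1, 0, fun i => if i = 0 then 0 else b, ⟨rfl, rfl, ?_⟩, ?_⟩
  · intro i hi
    have : i = 0 := by omega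
    subst this
    rcases hb with rfl | rfl
    · left; rfl
    · right; rfl
  · intro i hi
    have : i = 0 ∨ i = 1 := by omega
    rcases this with rfl | rfl
    · exact ⟨fun _ => by simp, fun h => by omega⟩
    · exact ⟨fun h => by omega, fun _ => by simp⟩

theorem endOK_link (b c : ℕ) (hb : b = 1 ∨ b = 2) : EndOK b c := by
  refine ⟨1, 0, fun i => if i = 0 then 0 else b, ⟨rfl, rfl, ?_⟩, ?_, ?_⟩
  · intro i hi
    have : i = 0 := by omega
    subst this
    rcases hb with rfl | rfl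
    · left; rfl
    · right; rfl
  · intro i hi h
    have : i = 0 ∨ i = 1 := by omega
    rcases this with rfl | rfl
    · simp
    · omega
  · intro i hi
    have : i = 0 := by omega
    subst this
    right; rfl

theorem midOK_three (b : ℕ) (hb : b % 3 ≠ 0) : MidOK 3 b 3 := by
  have h1 : b % 3 = 1 ∨ b % 3 = 2 := by omega
  refine ⟨2 * (b / 3) + 1, 0, fun i => 3 * (i / 2) + (if i % 2 = 0 then 0 else b % 3),
    ⟨rfl, ?_, ?_⟩, ?_⟩
  · show 3 * ((2 * (b / 3) + 1) / 2) + (if (2 * (b / 3) + 1) % 2 = 0 then 0 else b % 3) = b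
    rw [if_neg (by omega)]
    omega
  · intro i hi
    show 3 * ((i + 1) / 2) + (if (i + 1) % 2 = 0 then 0 else b % 3) =
      3 * (i / 2) + (if i % 2 = 0 then 0 else b % 3) + 1 ∨
      3 * ((i + 1) / 2) + (if (i + 1) % 2 = 0 then 0 else b % 3) =
      3 * (i / 2) + (if i % 2 = 0 then 0 else b % 3) + 2
    split_ifs <;> omega
  · intro i hi
    constructor
    · intro h
      show 3 ∣ 3 * (i / 2) + (if i % 2 = 0 then 0 else b % 3)
      rw [if_pos (by omega)]
      omega
    · intro h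
      show ((3 : ℕ) : ℤ) ∣ ((3 * (i / 2) + (if i % 2 = 0 then 0 else b % 3) : ℕ) : ℤ) - b
      rw [if_neg (by omega)]
      push_cast
      omega

theorem endOK_three (b : ℕ) : EndOK b 3 := by
  refine ⟨2 * (b / 3) + (if b % 3 = 0 then 0 else 1), 0,
    fun i => 3 * (i / 2) + (if i % 2 = 0 then 0 else 1 + (i / 2 + b + 1) % 2),
    ⟨rfl, ?_, ?_⟩, ?_, ?_⟩
  · show 3 * ((2 * (b / 3) + (if b % 3 = 0 then 0 else 1)) / 2) +
      (if (2 * (b / 3) + (if b % 3 = 0 then 0 else 1)) % 2 = 0 then 0 else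
        1 + ((2 * (b / 3) + (if b % 3 = 0 then 0 else 1)) / 2 + b + 1) % 2) = b
    split_ifs <;> omega
  · intro i hi
    show 3 * ((i + 1) / 2) + (if (i + 1) % 2 = 0 then 0 else 1 + ((i + 1) / 2 + b + 1) % 2) =
      3 * (i / 2) + (if i % 2 = 0 then 0 else 1 + (i / 2 + b + 1) % 2) + 1 ∨
      3 * ((i + 1) / 2) + (if (i + 1) % 2 = 0 then 0 else 1 + ((i + 1) / 2 + b + 1) % 2) =
      3 * (i / 2) + (if i % 2 = 0 then 0 else 1 + (i / 2 + b + 1) % 2) + 2
    split_ifs <;> omega
  · intro i hi h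
    show 3 ∣ 3 * (i / 2) + (if i % 2 = 0 then 0 else 1 + (i / 2 + b + 1) % 2)
    rw [if_pos (by omega)]
    omega
  · intro i hi
    show (3 * (i / 2) + (if i % 2 = 0 then 0 else 1 + (i / 2 + b + 1) % 2)) % 2 = b % 2 ∨
      (3 * ((i + 1) / 2) + (if (i + 1) % 2 = 0 then 0 else 1 + ((i + 1) / 2 + b + 1) % 2)) % 2 =
        b % 2
    split_ifs <;> omega

end MKD_

end Pool.Agent.LHU
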