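import Pool.Agent.LHU.Stmts

set_option autoImplicit false

/-!
Module RB: an entry between two threes.
-/

namespace Pool.Agent.LHU

open Pool.Agent.LHT

namespace RB_

theorem get_glue (l1 l2 : List ℕ) (b : ℕ) (L : Fin (l1.length + 1) → ℕ)
    (R : Fin (l2.length + 1) → ℕ) (hl : l1.length + 1 = (l1 ++ [3]).length)
    (hr : l2.length + 1 = (3 :: l2).length)
    (hL : ∀ i, L i = (l1 ++ [3]).get (Fin.cast hl i))
    (hR : ∀ i, R i = (3 :: l2).get (Fin.cast hr i))
    (h : (l1.length + 1) + (1 + (l2.length + 1)) = ((l1 ++ [3]) ++ ([b] ++ (3 :: l2))).length)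
    (i : Fin ((l1.length + 1) + (1 + (l2.length + 1)))) :
    Fin.append L (Fin.append (fun _ : Fin 1 => b) R) i =
      ((l1 ++ [3]) ++ ([b] ++ (3 :: l2))).get (Fin.cast h i) := by
  refine Fin.addCases (fun j => ?_) (fun j => ?_) i
  · rw [Fin.append_left, hL j]
    simp only [List.get_eq_getElem, Fin.val_cast, Fin.val_castAdd]
    exact (List.getElem_append_left (as := l1 ++ [3]) (bs := [b] ++ (3 :: l2)) (i := (j : ℕ))
      (by rw [← hl]; exact j.isLt)).symm
  · rw [Fin.append_right]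
    refine Fin.addCases (fun k => ?_) (fun k => ?_) j
    · rw [Fin.append_left]
      have hk : (k : ℕ) = 0 := by have := k.isLt; omega
      simp only [List.get_eq_getElem, Fin.val_cast, Fin.val_natAdd, Fin.val_castAdd]
      rw [List.getElem_append_right (by rw [← hl]; omega)]
      rw [List.getElem_append_left (by rw [← hl]; simp)]
      simp
    · rw [Fin.append_right, hR k]
      simp only [List.get_eq_getElem, Fin.val_cast, Fin.val_natAdd]
      rw [List.getElem_append_right (by rw [← hl]; omega)]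
      rw [List.getElem_append_right (by rw [← hl]; simp)]
      congr 1
      rw [← hl]
      simp

end RB_

theorem rb_proof (hC2 : Stmt_C2) (hLCA : Stmt_LCA) : Stmt_RB := by
  intro l1 l2 b h1 h2 hb hL hR
  classical
  have hl : l1.length + 1 = (l1 ++ [3]).length := by simp
  have hr : l2.length + 1 = (3 :: l2).length := by simp
  have hLL : lr (fun i : Fin (l1.length + 1) => (l1 ++ [3]).get (Fin.cast hl i)) :=
    (hLCA (l1.length + 1) _ (l1 ++ [3]) hl (fun i => rfl)).mpr hL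
  have hRR : lr (fun i : Fin (l2.length + 1) => (3 :: l2).get (Fin.cast hr i)) :=
    (hLCA (l2.length + 1) _ (3 :: l2) hr (fun i => rfl)).mpr hR
  have e : l1 ++ 3 :: b :: 3 :: l2 = (l1 ++ [3]) ++ ([b] ++ (3 :: l2)) := by simp
  rw [e]
  have hh : (l1.length + 1) + (1 + (l2.length + 1)) =
      ((l1 ++ [3]) ++ ([b] ++ (3 :: l2))).length := by
    simp only [List.length_append, List.length_cons, List.length_nil]
  refine (hLCA _ _ _ hh (RB_.get_glue l1 l2 b _ _ hl hr (fun i => rfl) (fun i => rfl) hh)).mp ?_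
  have hb0 : 0 < b := by omega
  have hb3 : (b : ℤ) % 3 = 1 ∨ (b : ℤ) % 3 = 2 := by omega
  have hbz : (0 : ℤ) < b := by omega
  set A0 : Finset ℤ := (Finset.Icc (0 : ℤ) b).filter (fun t => t % 3 = 0) with hA0
  set B0 : Finset ℤ := (Finset.Icc (0 : ℤ) b).filter (fun t => (t - b) % 3 = 0) with hB0
  have mA : ∀ t : ℤ, t ∈ A0 ↔ (0 ≤ t ∧ t ≤ b) ∧ t % 3 = 0 := by
    intro t; rw [hA0, Finset.mem_filter, Finset.mem_Icc]
  have mB : ∀ t : ℤ, t ∈ B0 ↔ (0 ≤ t ∧ t ≤ b) ∧ (t - b) % 3 = 0 := by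
    intro t; rw [hB0, Finset.mem_filter, Finset.mem_Icc]
  have mV : ∀ t : ℤ, t ∈ A0 ∪ B0 ↔ (0 ≤ t ∧ t ≤ b) ∧ (t % 3 = 0 ∨ (t - b) % 3 = 0) := by
    intro t; rw [Finset.mem_union, mA, mB]; tauto
  refine hC2 l1.length l2.length b _ _ hb0 ?_ ?_ (A0 ∪ B0) A0 B0 ?_ ?_ ?_ ?_ ?_ ?_ ?_ ?_ ?_ ?_ ?_ ?_
    hLL hRR
  · intro i
    have hm := List.get_mem (l1 ++ [3]) (Fin.cast hl i)
    rcases List.mem_append.1 hm with hm | hm
    · exact h1 _ hm
    · rw [List.mem_singleton.1 hm]; norm_num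
  · intro i
    have hm := List.get_mem (3 :: l2) (Fin.cast hr i)
    rcases List.mem_cons.1 hm with hm | hm
    · rw [hm]; norm_num
    · exact h2 _ hm
  · intro t ht
    exact ((mV t).1 ht).1
  · rw [mV]; refine ⟨⟨le_refl _, hbz.le⟩, Or.inl (by norm_num)⟩
  · rw [mV]; refine ⟨⟨hbz.le, le_refl _⟩, Or.inr (by simp)⟩
  · exact Finset.subset_union_left
  · exact ⟨0, by rw [mA]; exact ⟨⟨le_refl _, hbz.le⟩, by norm_num⟩⟩
  · exact Finset.subset_union_right
  · exact ⟨b, by rw [mB]; exact ⟨⟨hbz.le, le_refl _⟩, by simp⟩⟩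
  · rw [Finset.disjoint_left]
    intro t ht ht'
    rw [mA] at ht
    rw [mB] at ht'
    omega
  · intro t ht
    rw [mA] at ht
    have h3 : (3 :: l2).get (Fin.cast hr 0) = 3 := rfl
    rw [h3]
    push_cast
    omega
  · intro t ht
    rw [mB] at ht
    have h3 : (l1 ++ [3]).get (Fin.cast hl (Fin.last l1.length)) = 3 := by
      simp
    rw [h3]
    push_cast
    omega
  · intro t ht htb
    rw [mV] at ht
    rw [mV, mV]
    omega
  · intro t t' hc
    obtain ⟨ht, ht', hcon⟩ := hc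
    rw [mV] at ht ht'
    rw [mV] at hcon
    unfold Xor1
    rw [mA, mA, mB, mB]
    omega

end Pool.Agent.LHU
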