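import Pool.Agent.LHU.Stmts

set_option autoImplicit false

/-!
Module RE: an entry in front of a three.
-/

namespace Pool.Agent.LHU

open Pool.Agent.LHT

namespace RE_

theorem get_glue (l2 : List ℕ) (b : ℕ) (h : 1 + (l2.length + 1) = (b :: 3 :: l2).length)
    (i : Fin (1 + (l2.length + 1))) :
    Fin.append (fun _ : Fin 1 => b) (fun j : Fin (l2.length + 1) => (3 :: l2).get j) i =
      (b :: 3 :: l2).get (Fin.cast h i) := by
  refine Fin.addCases (fun j => ?_) (fun j => ?_) i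
  · rw [Fin.append_left]
    have hj : (j : ℕ) = 0 := by have := j.isLt; omega
    have h1 : Fin.cast h (Fin.castAdd (l2.length + 1) j) = ⟨0, by simp⟩ := by
      apply Fin.ext
      simp [hj]
    rw [h1]
    rfl
  · rw [Fin.append_right]
    have h1 : Fin.cast h (Fin.natAdd 1 j) = ⟨(j : ℕ) + 1, by
        have := j.isLt
        simp only [List.length_cons]
        omega⟩ := by
      apply Fin.ext
      simp [add_comm]
    rw [h1]
    rfl

end RE_

theorem re_proof (hC1 : Stmt_C1) (hLCA : Stmt_LCA) : Stmt_RE := by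
  intro l2 b h2 hb hR
  have hh : 1 + (l2.length + 1) = (b :: 3 :: l2).length := by
    simp only [List.length_cons]
    omega
  refine (hLCA _ _ _ hh (RE_.get_glue l2 b hh)).mp ?_
  have hbz : (0 : ℤ) < b := by omega
  set A0 : Finset ℤ := (Finset.Icc (0 : ℤ) b).filter (fun t => t % 3 = 0) with hA0
  set V0 : Finset ℤ := (Finset.Icc (0 : ℤ) b).filter
    (fun t => t % 3 = 0 ∨ (t - b) % 2 = 0) with hV0
  have mA : ∀ t : ℤ, t ∈ A0 ↔ (0 ≤ t ∧ t ≤ b) ∧ t % 3 = 0 := by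
    intro t; rw [hA0, Finset.mem_filter, Finset.mem_Icc]
  have mV : ∀ t : ℤ, t ∈ V0 ↔ (0 ≤ t ∧ t ≤ b) ∧ (t % 3 = 0 ∨ (t - b) % 2 = 0) := by
    intro t; rw [hV0, Finset.mem_filter, Finset.mem_Icc]
  refine hC1 l2.length b _ hb ?_ V0 A0 ?_ ?_ ?_ ?_ ?_ ?_ ?_ ?_ hR
  · intro i
    have hm := List.get_mem (3 :: l2) i
    rcases List.mem_cons.1 hm with hm | hm
    · exact lt_of_lt_of_eq (by norm_num) hm.symm
    · exact h2 _ hm
  · intro t ht
    exact ((mV t).1 ht).1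
  · rw [mV]
    exact ⟨⟨le_refl _, hbz.le⟩, Or.inl (by norm_num)⟩
  · rw [mV]
    exact ⟨⟨hbz.le, le_refl _⟩, Or.inr (by simp)⟩
  · intro t ht
    rw [mA] at ht
    rw [mV]
    exact ⟨ht.1, Or.inl ht.2⟩
  · exact ⟨0, by rw [mA]; exact ⟨⟨le_refl _, hbz.le⟩, by norm_num⟩⟩
  · intro t ht
    rw [mA] at ht
    show ((3 : ℕ) : ℤ) ∣ t
    omega
  · intro t ht htb
    rw [mV] at ht
    rw [mV, mV]
    omega
  · intro t t' hc
    obtain ⟨ht, ht', hcon⟩ := hc
    rw [mV] at ht ht'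
    rw [mV] at hcon
    unfold Xor1
    rw [mA, mA, Int.even_iff, Int.even_iff]
    omega

end Pool.Agent.LHU
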