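import Pool.Agent.LHU.Stmts
import Pool.Agent.LHT.Final

/-!
# Lecture hall simplices, module RES: the final theorem
-/

set_option autoImplicit false

namespace Pool.Agent.LHU

open Pool.Agent.LHT

namespace RES_

theorem get_ofFn {n : ℕ} (s : Fin n → ℕ) (j : ℕ) (hj : j < n) :
    (List.ofFn s)[j]? = some (s ⟨j, hj⟩) := by
  simp [hj]

end RES_

open RES_

/-- the final theorem -/
theorem res_proof (hALL : Stmt_ALL) (hLCA : Stmt_LCA) : Stmt_RES := by
  intro n s hs hc
  have h1 : lrL (List.ofFn s) := by
    apply hALL
    · intro x hx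
      rw [List.mem_ofFn] at hx
      obtain ⟨i, rfl⟩ := hx
      exact hs i
    · intro l1 l2 x y z h hx hy hz
      have hlt : l1.length + 2 < n := by
        have := congrArg List.length h
        simp at this
        omega
      have g0 : s ⟨l1.length, by omega⟩ = x := by
        have h2 := get_ofFn s l1.length (by omega)
        rw [h] at h2
        simpa using h2.symm
      have g1 : s ⟨l1.length + 1, by omega⟩ = y := by
        have h2 := get_ofFn s (l1.length + 1) (by omega)
        rw [h] at h2
        simpa using h2.symm
      have g2 : s ⟨l1.length + 2, by omega⟩ = z := by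
        have h2 := get_ofFn s (l1.length + 2) (by omega)
        rw [h] at h2
        simpa using h2.symm
      have h3 := hc ⟨l1.length, by omega⟩ ⟨l1.length + 1, by omega⟩ ⟨l1.length + 2, by omega⟩
        rfl rfl
      rw [g0, g1, g2] at h3
      exact h3 hx hy hz
  have h2 : lr s := (hLCA n s (List.ofFn s) List.length_ofFn.symm (fun i => by simp)).2 h1
  refine ⟨h2, hasRUT_of_RL hs ?_⟩
  obtain ⟨ω, hω⟩ := h2
  exact ⟨ω, fun φ b hle hsp => (hω φ b hle hsp).1⟩

end Pool.Agent.LHU
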