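import Pool.Agent.LHU.Stmts

set_option autoImplicit false

/-!
Module RK: an entry one or two splits the question.
-/

namespace Pool.Agent.LHU

open Pool.Agent.LHT

namespace RK_

theorem get_glue1 (l2 : List ℕ) (b q : ℕ) (R : Fin (q + 1) → ℕ) (hr : q + 1 = l2.length)
    (hR : ∀ i, R i = l2.get (Fin.cast hr i)) (h : 1 + (q + 1) = ([b] ++ l2).length)
    (i : Fin (1 + (q + 1))) :
    Fin.append (fun _ : Fin 1 => b) R i = ([b] ++ l2).get (Fin.cast h i) := by
  refine Fin.addCases (fun k => ?_) (fun k => ?_) i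
  · rw [Fin.append_left]
    have hk : (k : ℕ) = 0 := by have := k.isLt; omega
    simp only [List.get_eq_getElem, Fin.val_cast, Fin.val_castAdd]
    rw [List.getElem_append_left (by simp)]
    simp
  · rw [Fin.append_right, hR k]
    simp only [List.get_eq_getElem, Fin.val_cast, Fin.val_natAdd]
    rw [List.getElem_append_right (by simp)]
    congr 1
    simp

theorem get_glue (l1 l2 : List ℕ) (b p q : ℕ) (L : Fin (p + 1) → ℕ) (R : Fin (q + 1) → ℕ)
    (hl : p + 1 = l1.length) (hr : q + 1 = l2.length)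
    (hL : ∀ i, L i = l1.get (Fin.cast hl i)) (hR : ∀ i, R i = l2.get (Fin.cast hr i))
    (h : (p + 1) + (1 + (q + 1)) = (l1 ++ ([b] ++ l2)).length)
    (i : Fin ((p + 1) + (1 + (q + 1)))) :
    Fin.append L (Fin.append (fun _ : Fin 1 => b) R) i =
      (l1 ++ ([b] ++ l2)).get (Fin.cast h i) := by
  refine Fin.addCases (fun j => ?_) (fun j => ?_) i
  · rw [Fin.append_left, hL j]
    simp only [List.get_eq_getElem, Fin.val_cast, Fin.val_castAdd]
    exact (List.getElem_append_left (as := l1) (bs := [b] ++ l2) (i := (j : ℕ))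
      (by rw [← hl]; exact j.isLt)).symm
  · rw [Fin.append_right]
    have h1 : 1 + (q + 1) = ([b] ++ l2).length := by
      simp only [List.length_append, List.length_cons, List.length_nil] at h ⊢
      omega
    rw [get_glue1 l2 b q R hr hR h1 j]
    simp only [List.get_eq_getElem, Fin.val_cast, Fin.val_natAdd]
    have e1 : ∀ (k : ℕ) (hk : p + 1 + k < (l1 ++ ([b] ++ l2)).length)
        (hk2 : k < ([b] ++ l2).length), (l1 ++ ([b] ++ l2))[p + 1 + k] = ([b] ++ l2)[k] := by
      intro k hk hk2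
      rw [List.getElem_append_right (as := l1) (bs := [b] ++ l2) (by rw [← hl]; omega)]
      congr 1
      rw [← hl]
      omega
    exact (e1 j _ _).symm

theorem front (hC1 : Stmt_C1) (hLCA : Stmt_LCA) (l2 : List ℕ) (b : ℕ) (hne : l2 ≠ [])
    (h2 : ∀ x ∈ l2, 0 < x) (hb : b = 1 ∨ b = 2) (hR : lrL l2) : lrL (b :: l2) := by
  classical
  obtain ⟨q, hr⟩ : ∃ q, q + 1 = l2.length := by
    have := List.length_pos_of_ne_nil hne
    exact ⟨l2.length - 1, by omega⟩
  have hRR : lr (fun i : Fin (q + 1) => l2.get (Fin.cast hr i)) :=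
    (hLCA (q + 1) _ l2 hr (fun i => rfl)).mpr hR
  have e : b :: l2 = [b] ++ l2 := rfl
  rw [e]
  have hh : 1 + (q + 1) = ([b] ++ l2).length := by
    simp only [List.length_append, List.length_cons, List.length_nil]
    omega
  refine (hLCA _ _ _ hh (get_glue1 l2 b q _ hr (fun i => rfl) hh)).mp ?_
  have hb0 : 0 < b := by omega
  have mA : ∀ t : ℤ, t ∈ ({0} : Finset ℤ) ↔ t = 0 := fun t => Finset.mem_singleton
  have mV : ∀ t : ℤ, t ∈ ({0, (b : ℤ)} : Finset ℤ) ↔ t = 0 ∨ t = b := by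
    intro t; simp
  refine hC1 q b _ hb0 ?_ ({0, (b : ℤ)}) {0} ?_ ?_ ?_ ?_ ?_ ?_ ?_ ?_ hRR
  · intro i
    exact h2 _ (List.get_mem l2 _)
  · intro t ht
    rw [mV] at ht
    omega
  · rw [mV]; exact Or.inl rfl
  · rw [mV]; exact Or.inr rfl
  · intro t ht
    rw [mA] at ht
    rw [mV]; exact Or.inl ht
  · exact ⟨0, by rw [mA]⟩
  · intro t ht
    rw [mA] at ht
    rw [ht]; exact dvd_zero _
  · intro t ht htb
    rw [mV] at ht
    rw [mV, mV]
    omega
  · intro t t' hc
    obtain ⟨ht, ht', hcon⟩ := hc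
    rw [mV] at ht ht'
    rw [mV] at hcon
    have ht0 : t = 0 := by omega
    have ht1 : t' = b := by omega
    refine ⟨?_, Or.inr (by rw [ht1]; simp)⟩
    unfold Xor1
    rw [mA, mA]
    omega

end RK_

theorem rk_proof (hC1 : Stmt_C1) (hC2 : Stmt_C2) (hR2 : Stmt_R2) (hRV : Stmt_RV)
    (hLCA : Stmt_LCA) : Stmt_RK := by
  intro l1 l2 b h1 h2 hb hL hR
  classical
  have hb0 : 0 < b := by omega
  by_cases e1 : l1 = []
  · subst e1
    by_cases e2 : l2 = []
    · subst e2
      exact hR2.2.1 b hb0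
    · exact RK_.front hC1 hLCA l2 b e2 h2 hb hR
  by_cases e2 : l2 = []
  · subst e2
    have h3 : lrL (b :: l1.reverse) := by
      refine RK_.front hC1 hLCA l1.reverse b (by simpa using e1) ?_ hb (hRV l1 hL)
      intro x hx
      exact h1 x (List.mem_reverse.1 hx)
    have h4 := hRV _ h3
    rwa [List.reverse_cons, List.reverse_reverse] at h4
  obtain ⟨p, hl⟩ : ∃ p, p + 1 = l1.length := by
    have := List.length_pos_of_ne_nil e1
    exact ⟨l1.length - 1, by omega⟩
  obtain ⟨q, hr⟩ : ∃ q, q + 1 = l2.length := by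
    have := List.length_pos_of_ne_nil e2
    exact ⟨l2.length - 1, by omega⟩
  have hLL : lr (fun i : Fin (p + 1) => l1.get (Fin.cast hl i)) :=
    (hLCA (p + 1) _ l1 hl (fun i => rfl)).mpr hL
  have hRR : lr (fun i : Fin (q + 1) => l2.get (Fin.cast hr i)) :=
    (hLCA (q + 1) _ l2 hr (fun i => rfl)).mpr hR
  have e : l1 ++ b :: l2 = l1 ++ ([b] ++ l2) := rfl
  rw [e]
  have hh : (p + 1) + (1 + (q + 1)) = (l1 ++ ([b] ++ l2)).length := by
    simp only [List.length_append, List.length_cons, List.length_nil]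
    omega
  refine (hLCA _ _ _ hh (RK_.get_glue l1 l2 b p q _ _ hl hr (fun i => rfl) (fun i => rfl) hh)).mp ?_
  have mA : ∀ t : ℤ, t ∈ ({0} : Finset ℤ) ↔ t = 0 := fun t => Finset.mem_singleton
  have mB : ∀ t : ℤ, t ∈ ({(b : ℤ)} : Finset ℤ) ↔ t = b := fun t => Finset.mem_singleton
  have mV : ∀ t : ℤ, t ∈ ({0, (b : ℤ)} : Finset ℤ) ↔ t = 0 ∨ t = b := by
    intro t; simp
  refine hC2 p q b _ _ hb0 ?_ ?_ ({0, (b : ℤ)}) {0} {(b : ℤ)} ?_ ?_ ?_ ?_ ?_ ?_ ?_ ?_ ?_ ?_ ?_ ?_
    hLL hRR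
  · intro i
    exact h1 _ (List.get_mem l1 _)
  · intro i
    exact h2 _ (List.get_mem l2 _)
  · intro t ht
    rw [mV] at ht
    omega
  · rw [mV]; exact Or.inl rfl
  · rw [mV]; exact Or.inr rfl
  · intro t ht
    rw [mA] at ht
    rw [mV]; exact Or.inl ht
  · exact ⟨0, by rw [mA]⟩
  · intro t ht
    rw [mB] at ht
    rw [mV]; exact Or.inr ht
  · exact ⟨b, by rw [mB]⟩
  · rw [Finset.disjoint_left]
    intro t ht ht'
    rw [mA] at ht
    rw [mB] at ht'
    omega
  · intro t ht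
    rw [mA] at ht
    rw [ht]; exact dvd_zero _
  · intro t ht
    rw [mB] at ht
    rw [ht, sub_self]; exact dvd_zero _
  · intro t ht htb
    rw [mV] at ht
    rw [mV, mV]
    omega
  · intro t t' hc
    obtain ⟨ht, ht', hcon⟩ := hc
    rw [mV] at ht ht'
    rw [mV] at hcon
    have ht0 : t = 0 := by omega
    have ht1 : t' = b := by omega
    unfold Xor1
    rw [mA, mA, mB, mB]
    omega

end Pool.Agent.LHU
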