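import Pool.Agent.LHU.Defs

set_option autoImplicit false

/-!
Statements of the modules.
-/

namespace Pool.Agent.LHU

open Pool.Agent.LHT

open Classical in
/-- refinement of a regular subdivision, for an arbitrary property of simplices -/
def Stmt_REF : Prop :=
  ∀ (Λ : Type) [AddCommGroup Λ] (G : Finset Λ → Prop), (∀ C, G C → Simp C) →
    ∀ (S : Finset Λ) (ω₀ ω₁ : Λ → ℝ),
      (∀ (φ : Λ →+ ℝ) (b : ℝ), (∀ v ∈ S, φ v + b ≤ ω₀ v) → Spans (contact S ω₀ φ b) →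
        GLw G (contact S ω₀ φ b) ω₁) →
      ∃ M₀ : ℝ, ∀ M : ℝ, M₀ ≤ M → GLw G S (fun v => M * ω₀ v + ω₁ v)

/-- a spanning subset of a simplex is the simplex -/
def Stmt_SIM : Prop :=
  ∀ (Λ : Type) [AddCommGroup Λ] (A C : Finset Λ), Simp C → A ⊆ C → Spans A → A = C

def Stmt_USI : Prop := ∀ (Λ : Type) [AddCommGroup Λ] (C : Finset Λ), Uni C → Simp C

def Stmt_KSI : Prop := ∀ (Λ : Type) [AddCommGroup Λ] (V C : Finset Λ), Kay V C → Simp C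

open Classical in
/-- pulling a midpoint: the cells -/
def Stmt_PUC : Prop :=
  ∀ (Λ : Type) [AddCommGroup Λ] (C : Finset Λ) (w v0 v1 : Λ), w ∉ C → v0 ∈ C → v1 ∈ C → v0 ≠ v1 →
    v0 + v1 = (2 : ℤ) • w → Simp C → ∀ (φ : Λ →+ ℝ) (b : ℝ), (∀ v ∈ C, φ v + b ≤ 0) →
    φ w + b ≤ -1 → Spans (contact (insert w C) (fun x => if x = w then (-1 : ℝ) else 0) φ b) →
    contact (insert w C) (fun x => if x = w then (-1 : ℝ) else 0) φ b = insert w (C.erase v0) ∨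
    contact (insert w C) (fun x => if x = w then (-1 : ℝ) else 0) φ b = insert w (C.erase v1)

open Classical in
/-- pulling a midpoint: type K is preserved -/
def Stmt_PUA : Prop :=
  ∀ (Λ : Type) [AddCommGroup Λ], TF Λ → ∀ (V C : Finset Λ) (w v0 v1 : Λ), C ⊆ V → w ∉ V →
    v0 ∈ C → v1 ∈ C → v0 ≠ v1 → v0 + v1 = (2 : ℤ) • w → Kay V C →
    Kay (insert w V) (insert w (C.erase v0))

open Classical in
/-- pulling one midpoint -/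
def Stmt_PUS : Prop :=
  ∀ (Λ : Type) [AddCommGroup Λ], TF Λ → ∀ (V : Finset Λ) (ω : Λ → ℝ) (w : Λ), w ∉ V →
    (∃ v ∈ V, ∃ v' ∈ V, v + v' = (2 : ℤ) • w) → ∀ (Q : Set Λ),
    GLw (fun C => Kay V C ∧ ∀ α ∈ Q, Has α C) V ω →
    ∃ ω' : Λ → ℝ, GLw (fun C => Kay (insert w V) C ∧ ∀ α ∈ Q, Has α C) (insert w V) ω'

/-- all midpoints are vertices: type K is unimodular -/
def Stmt_FNK : Prop :=
  ∀ (Λ : Type) [AddCommGroup Λ], TF Λ → ∀ (S C : Finset Λ), C ⊆ S → Mid S → Kay S C → Uni C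

/-- pulling all midpoints -/
def Stmt_PUL : Prop :=
  ∀ (Λ : Type) [AddCommGroup Λ], TF Λ → ∀ (V S : Finset Λ), V ⊆ S → Mid S →
    (∀ w ∈ S, ∃ v ∈ V, ∃ v' ∈ V, v + v' = (2 : ℤ) • w) → ∀ (Q : Set Λ) (ω : Λ → ℝ),
    GLw (fun C => Kay V C ∧ ∀ α ∈ Q, Has α C) V ω →
    ∃ ω' : Λ → ℝ, GLw (fun C => Uni C ∧ ∀ α ∈ Q, Has α C) S ω'

/-- every lattice point of the hull is the midpoint of two vertices -/
def Stmt_COV : Prop :=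
  ∀ (Λ : Type) [AddCommGroup Λ], TF Λ → ∀ (V : Finset Λ) (ω : Λ → ℝ), V.Nonempty → Spans V →
    GLw (Kay V) V ω → ∀ w : Λ, (∀ (χ : Λ →+ ℝ) (d : ℝ), (∀ v ∈ V, 0 ≤ χ v + d) → 0 ≤ χ w + d) →
    ∃ v ∈ V, ∃ v' ∈ V, v + v' = (2 : ℤ) • w

/-- from a structure of type K to a unimodular triangulation -/
def Stmt_PLL : Prop :=
  ∀ (Λ : Type) [AddCommGroup Λ], TF Λ → ∀ (V S : Finset Λ), V ⊆ S → Mid S → Hul V S →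
    ∀ (Q : Set Λ) (ω : Λ → ℝ), GLw (fun C => Kay V C ∧ ∀ α ∈ Q, Has α C) V ω →
    ∃ ω' : Λ → ℝ, GLw (fun C => Uni C ∧ ∀ α ∈ Q, Has α C) S ω'

/-- heights for the attached set: coarse and fine -/
def Stmt_ATH : Prop :=
  ∀ (Λ Γ : Type) [AddCommGroup Λ] [AddCommGroup Γ] (V A : Finset Λ) (T : Finset Γ) (r : Γ) (o : Λ)
    (ζ : Γ →+ ℤ) (e cc : ℤ) (al : Λ → Λ), Att V A T r o ζ e cc al →
    ∀ (ωV : Λ → ℝ) (ωT : Γ → ℝ), ∃ h0 h1 : Λ × Γ → ℝ,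
      (∀ v ∈ V, v ∉ A → h0 (v, r) = ωV v ∧ h1 (v, r) = 0) ∧
      (∀ α ∈ A, ∀ z ∈ T, h0 (posn o ζ e (al α) z, z) = ((ζ z + e : ℤ) : ℝ) / (cc : ℝ) * ωV α ∧
        h1 (posn o ζ e (al α) z, z) = ωT z)

/-- the contact sets of the coarse heights -/
def Stmt_AT1 : Prop :=
  ∀ (Λ Γ : Type) [AddCommGroup Λ] [AddCommGroup Γ] (V A : Finset Λ) (T : Finset Γ) (r : Γ) (o : Λ)
    (ζ : Γ →+ ℤ) (e cc : ℤ) (al : Λ → Λ), Att V A T r o ζ e cc al →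
    ∀ (ωV : Λ → ℝ) (h0 : Λ × Γ → ℝ), (∀ v ∈ V, v ∉ A → h0 (v, r) = ωV v) →
      (∀ α ∈ A, ∀ z ∈ T, h0 (posn o ζ e (al α) z, z) = ((ζ z + e : ℤ) : ℝ) / (cc : ℝ) * ωV α) →
      ∀ (φ : Λ × Γ →+ ℝ) (b : ℝ), (∀ p ∈ attV V A T r o ζ e al, φ p + b ≤ h0 p) →
        Spans (contact (attV V A T r o ζ e al) h0 φ b) →
        ∃ (φ' : Λ →+ ℝ) (b' : ℝ), (∀ v ∈ V, φ' v + b' ≤ ωV v) ∧
          Spans (contact V ωV φ' b') ∧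
          ∀ α ∈ contact V ωV φ' b', α ∈ A → (∀ β ∈ contact V ωV φ' b', β ∈ A → β = α) →
            contact (attV V A T r o ζ e al) h0 φ b =
              attC (contact V ωV φ' b') α T r o ζ e al

/-- the contact sets of the fine heights -/
def Stmt_AT2 : Prop :=
  ∀ (Λ Γ : Type) [AddCommGroup Λ] [AddCommGroup Γ] (S : Finset Λ) (α : Λ) (T : Finset Γ) (r : Γ)
    (o : Λ) (ζ : Γ →+ ℤ) (e cc : ℤ) (al : Λ → Λ), α ∈ S → r ∈ T → 0 < cc → cc • al α = α - o →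
    ζ r + e = cc → Simp S →
    ∀ (ωT : Γ → ℝ) (h1 : Λ × Γ → ℝ), (∀ v ∈ S, v ≠ α → h1 (v, r) = 0) →
      (∀ z ∈ T, h1 (posn o ζ e (al α) z, z) = ωT z) →
      ∀ (φ : Λ × Γ →+ ℝ) (b : ℝ), (∀ p ∈ attC S α T r o ζ e al, φ p + b ≤ h1 p) →
        Spans (contact (attC S α T r o ζ e al) h1 φ b) →
        ∃ (φ' : Γ →+ ℝ) (b' : ℝ), (∀ z ∈ T, φ' z + b' ≤ ωT z) ∧
          Spans (contact T ωT φ' b') ∧
          contact (attC S α T r o ζ e al) h1 φ b =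
            attC S α (contact T ωT φ' b') r o ζ e al

/-- attached cells are simplices -/
def Stmt_ATS : Prop :=
  ∀ (Λ Γ : Type) [AddCommGroup Λ] [AddCommGroup Γ] (S : Finset Λ) (α : Λ) (τ : Finset Γ) (r : Γ)
    (o : Λ) (ζ : Γ →+ ℤ) (e cc : ℤ) (al : Λ → Λ), α ∈ S → 0 < cc → cc • al α = α - o →
    ζ r + e = cc → Simp S → Simp τ → Simp (attC S α τ r o ζ e al)

/-- attaching: all cells -/
def Stmt_ATC : Prop :=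
  ∀ (Λ Γ : Type) [AddCommGroup Λ] [AddCommGroup Γ] (V A : Finset Λ) (T : Finset Γ) (r : Γ) (o : Λ)
    (ζ : Γ →+ ℤ) (e cc : ℤ) (al : Λ → Λ), Att V A T r o ζ e cc al →
    ∀ (P : Finset Λ → Prop) (Q : Finset Γ → Prop) (ωV : Λ → ℝ) (ωT : Γ → ℝ),
      GLw (fun S => Simp S ∧ Uq A S ∧ P S) V ωV → GLw (fun τ => Simp τ ∧ Q τ) T ωT →
      ∃ ω : Λ × Γ → ℝ, GLw (fun C => ∃ (S : Finset Λ) (α : Λ) (τ : Finset Γ), S ⊆ V ∧ Simp S ∧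
        α ∈ S ∧ α ∈ A ∧ (∀ β ∈ S, β ∈ A → β = α) ∧ P S ∧ τ ⊆ T ∧ Simp τ ∧ Q τ ∧
        C = attC S α τ r o ζ e al) (attV V A T r o ζ e al) ω

/-- attaching: type K is preserved -/
def Stmt_ATK : Prop :=
  ∀ (Λ Γ : Type) [AddCommGroup Λ] [AddCommGroup Γ] (V A : Finset Λ) (T : Finset Γ) (r : Γ) (o : Λ)
    (ζ : Γ →+ ℤ) (e cc : ℤ) (al : Λ → Λ), Att V A T r o ζ e cc al →
    ∀ (S : Finset Λ) (α : Λ) (τ : Finset Γ), S ⊆ V → α ∈ S → α ∈ A →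
      (∀ β ∈ S, β ∈ A → β = α) → τ ⊆ T → Kay V S → Uni τ → Has r τ →
      Kay (attV V A T r o ζ e al) (attC S α τ r o ζ e al)

/-- marks of the attached cells, from the old cell -/
def Stmt_HA1 : Prop :=
  ∀ (Λ Γ : Type) [AddCommGroup Λ] [AddCommGroup Γ] (S : Finset Λ) (α : Λ) (τ : Finset Γ) (r : Γ)
    (o : Λ) (ζ : Γ →+ ℤ) (e cc : ℤ) (al : Λ → Λ) (γ : Λ), cc • al α = α - o → ζ r + e = cc →
    Has γ S → Has r τ → Has (γ, r) (attC S α τ r o ζ e al)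

/-- marks of the attached cells, from the attached triangulation -/
def Stmt_HA2 : Prop :=
  ∀ (Λ Γ : Type) [AddCommGroup Λ] [AddCommGroup Γ] (S : Finset Λ) (α : Λ) (τ : Finset Γ) (r δ : Γ)
    (o : Λ) (ζ : Γ →+ ℤ) (e : ℤ) (al : Λ → Λ), Has δ τ → Even (ζ δ + e) →
    Has (o, δ) (attC S α τ r o ζ e al)

/-- labels of the attached cells -/
def Stmt_UQL : Prop :=
  ∀ (Λ Γ : Type) [AddCommGroup Λ] [AddCommGroup Γ] (A B S : Finset Λ) (α : Λ) (τ : Finset Γ)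
    (r : Γ) (o : Λ) (ζ : Γ →+ ℤ) (e cc : ℤ) (al : Λ → Λ) (B2 : Finset (Λ × Γ)),
    cc • al α = α - o → ζ r + e = cc → α ∈ A → Disjoint A B →
    (∀ p, p ∈ B2 ↔ p.1 ∈ B ∧ p.2 = r) → Uq B S → Uq B2 (attC S α τ r o ζ e al)

/-- one-sided attachment, with all midpoints pulled -/
def Stmt_TW1 : Prop :=
  ∀ (Λ Γ : Type) [AddCommGroup Λ] [AddCommGroup Γ] (V A : Finset Λ) (T : Finset Γ) (r δ : Γ)
    (o : Λ) (ζ : Γ →+ ℤ) (e cc : ℤ) (al : Λ → Λ) (γ : Λ), Att V A T r o ζ e cc al →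
    Even (ζ δ + e) → ∀ (ωV : Λ → ℝ) (ωT : Γ → ℝ),
      GLw (fun S => Kay V S ∧ Uq A S ∧ Has γ S) V ωV → GLw (MU r δ) T ωT →
      ∀ S : Finset (Λ × Γ), attV V A T r o ζ e al ⊆ S → Mid S →
        Hul (attV V A T r o ζ e al) S → ∃ ω : Λ × Γ → ℝ, GLw (MU (o, δ) (γ, r)) S ω

/-- two-sided attachment, with all midpoints pulled -/
def Stmt_TW2 : Prop :=
  ∀ (Λ Γ Γ2 : Type) [AddCommGroup Λ] [AddCommGroup Γ] [AddCommGroup Γ2] (V A B : Finset Λ)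
    (T : Finset Γ) (r δ : Γ) (o : Λ) (ζ : Γ →+ ℤ) (e cc : ℤ) (al : Λ → Λ) (T2 : Finset Γ2)
    (r2 δ2 : Γ2) (o2 : Λ × Γ) (ζ2 : Γ2 →+ ℤ) (e2 cc2 : ℤ) (al2 : Λ × Γ → Λ × Γ)
    (B2 : Finset (Λ × Γ)), Att V A T r o ζ e cc al →
    Att (attV V A T r o ζ e al) B2 T2 r2 o2 ζ2 e2 cc2 al2 →
    (∀ p, p ∈ B2 ↔ p.1 ∈ B ∧ p.2 = r) → B ⊆ V → Disjoint A B → Even (ζ δ + e) →
    Even (ζ2 δ2 + e2) → ∀ (ωV : Λ → ℝ) (ωT : Γ → ℝ) (ωT2 : Γ2 → ℝ),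
      GLw (fun S => Kay V S ∧ Uq A S ∧ Uq B S) V ωV → GLw (MU r δ) T ωT →
      GLw (MU r2 δ2) T2 ωT2 →
      ∀ S : Finset ((Λ × Γ) × Γ2),
        attV (attV V A T r o ζ e al) B2 T2 r2 o2 ζ2 e2 al2 ⊆ S → Mid S →
        Hul (attV (attV V A T r o ζ e al) B2 T2 r2 o2 ζ2 e2 al2) S →
        ∃ ω : (Λ × Γ) × Γ2 → ℝ, GLw (MU ((o, δ), r2) (o2, δ2)) S ω

/-- transport under an affine isomorphism -/
def Stmt_TRA : Prop :=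
  ∀ (Λ Λ' : Type) [AddCommGroup Λ] [AddCommGroup Λ'] (E : Λ ≃+ Λ') (v0 : Λ') (S : Finset Λ)
    (S' : Finset Λ'), (∀ v, E v + v0 ∈ S' ↔ v ∈ S) → ∀ (α β : Λ) (ω : Λ → ℝ),
    GLw (MU α β) S ω → ∃ ω' : Λ' → ℝ, GLw (MU (E α + v0) (E β + v0)) S' ω'

/-- lattices without torsion -/
def Stmt_TFZ : Prop :=
  (∀ n : ℕ, TF (Fin n → ℤ)) ∧
  ∀ (Λ Γ : Type) [AddCommGroup Λ] [AddCommGroup Γ], TF Λ → TF Γ → TF (Λ × Γ)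

def Stmt_MDL : Prop := ∀ (n : ℕ) (s : Fin n → ℕ), Mid (LH s)

/-- the vertices span the hull -/
def Stmt_HUL : Prop :=
  ∀ (n : ℕ) (s : Fin n → ℕ), (∀ i, 0 < s i) → ∀ V : Finset (Fin n → ℤ), (∀ k : ℕ, vtx s k ∈ V) →
    Hul V (LH s)

/-- pyramid property at the first vertex -/
def Stmt_PYR : Prop :=
  ∀ (q : ℕ) (R : Fin (q + 1) → ℕ), (∀ i, 0 < R i) → ∀ z ∈ LH R,
    ∀ (χ : (Fin (q + 1) → ℤ) →+ ℝ) (d : ℝ), (∀ t ∈ LH R, t 0 = 0 → χ t + d ≤ 0) →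
    χ ((R 0 : ℤ) • z - z 0 • uu R) + (((R 0 : ℤ) - z 0 : ℤ) : ℝ) * d ≤ 0

/-- pyramid property at the last vertex -/
def Stmt_PYL : Prop :=
  ∀ (p : ℕ) (L : Fin (p + 1) → ℕ), (∀ i, 0 < L i) → ∀ x ∈ LH L,
    ∀ (χ : (Fin (p + 1) → ℤ) →+ ℝ) (d : ℝ),
    (∀ t ∈ LH L, t (Fin.last p) = (L (Fin.last p) : ℤ) → χ t + d ≤ 0) →
    χ ((L (Fin.last p) : ℤ) • x) + ((x (Fin.last p) : ℤ) : ℝ) * d ≤ 0

/-- one-sided attachment for lecture hall simplices -/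
def Stmt_AP2 : Prop :=
  ∀ (m q : ℕ) (G : Fin (m + 1) → ℕ) (R : Fin (q + 1) → ℕ), (∀ i, 0 < G i) → (∀ i, 0 < R i) →
    ∀ (V A : Finset (Fin (m + 1) → ℤ)) (al : (Fin (m + 1) → ℤ) → (Fin (m + 1) → ℤ))
      (ω : (Fin (m + 1) → ℤ) → ℝ), V ⊆ LH G → (∀ k : ℕ, vtx G k ∈ V) → A ⊆ V → A.Nonempty →
      (∀ α ∈ A, (R 0 : ℤ) • al α = α) →
      GLw (fun S => Kay V S ∧ Uq A S ∧ Has (uu G) S) V ω → lr R → lr (Fin.append G R)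

/-- two-sided attachment for lecture hall simplices -/
def Stmt_AP3 : Prop :=
  ∀ (p m q : ℕ) (L : Fin (p + 1) → ℕ) (G : Fin (m + 1) → ℕ) (R : Fin (q + 1) → ℕ),
    (∀ i, 0 < L i) → (∀ i, 0 < G i) → (∀ i, 0 < R i) →
    ∀ (V A B : Finset (Fin (m + 1) → ℤ)) (al be : (Fin (m + 1) → ℤ) → (Fin (m + 1) → ℤ))
      (ω : (Fin (m + 1) → ℤ) → ℝ), V ⊆ LH G → (∀ k : ℕ, vtx G k ∈ V) → A ⊆ V → A.Nonempty →
      B ⊆ V → B.Nonempty → Disjoint A B → (∀ α ∈ A, (R 0 : ℤ) • al α = α) →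
      (∀ β ∈ B, (L (Fin.last p) : ℤ) • be β = β - uu G) →
      GLw (fun S => Kay V S ∧ Uq A S ∧ Uq B S) V ω → lr L → lr R →
      lr (Fin.append L (Fin.append G R))

/-- a point of the one-dimensional lattice -/
def pt1 (t : ℤ) : Fin 1 → ℤ := fun _ => t

open Classical in
/-- structures of type K in dimension one -/
def Stmt_LIN : Prop :=
  ∀ V0 : Finset ℤ, (∀ t ∈ V0, (∃ t' ∈ V0, t < t') → t + 1 ∈ V0 ∨ t + 2 ∈ V0) →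
    GLw (fun C => Kay (V0.image pt1) C ∧ ∃ t ∈ V0,
      (t + 1 ∈ V0 ∧ C = {pt1 t, pt1 (t + 1)}) ∨
      (t + 1 ∉ V0 ∧ t + 2 ∈ V0 ∧ C = {pt1 t, pt1 (t + 2)}))
      (V0.image pt1) (fun v => ((v 0 : ℤ) : ℝ) ^ 2)

/-- consecutive elements of `V0` -/
def Con (V0 : Finset ℤ) (t t' : ℤ) : Prop :=
  t ∈ V0 ∧ t' ∈ V0 ∧ (t' = t + 1 ∨ (t' = t + 2 ∧ t + 1 ∉ V0))

/-- exactly one of two elements is in `A0` -/
def Xor1 (A0 : Finset ℤ) (t t' : ℤ) : Prop := (t ∈ A0 ∧ t' ∉ A0) ∨ (t ∉ A0 ∧ t' ∈ A0)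

/-- one entry in front -/
def Stmt_C1 : Prop :=
  ∀ (q b : ℕ) (R : Fin (q + 1) → ℕ), 0 < b → (∀ i, 0 < R i) → ∀ V0 A0 : Finset ℤ,
    (∀ t ∈ V0, 0 ≤ t ∧ t ≤ b) → (0 : ℤ) ∈ V0 → (b : ℤ) ∈ V0 → A0 ⊆ V0 → A0.Nonempty →
    (∀ t ∈ A0, (R 0 : ℤ) ∣ t) → (∀ t ∈ V0, t < b → t + 1 ∈ V0 ∨ t + 2 ∈ V0) →
    (∀ t t', Con V0 t t' → Xor1 A0 t t' ∧ (Even (t - b) ∨ Even (t' - b))) → lr R →
    lr (Fin.append (fun _ : Fin 1 => b) R)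

/-- one entry in the middle -/
def Stmt_C2 : Prop :=
  ∀ (p q b : ℕ) (L : Fin (p + 1) → ℕ) (R : Fin (q + 1) → ℕ), 0 < b → (∀ i, 0 < L i) →
    (∀ i, 0 < R i) → ∀ V0 A0 B0 : Finset ℤ,
    (∀ t ∈ V0, 0 ≤ t ∧ t ≤ b) → (0 : ℤ) ∈ V0 → (b : ℤ) ∈ V0 → A0 ⊆ V0 → A0.Nonempty →
    B0 ⊆ V0 → B0.Nonempty → Disjoint A0 B0 → (∀ t ∈ A0, (R 0 : ℤ) ∣ t) →
    (∀ t ∈ B0, (L (Fin.last p) : ℤ) ∣ t - b) → (∀ t ∈ V0, t < b → t + 1 ∈ V0 ∨ t + 2 ∈ V0) →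
    (∀ t t', Con V0 t t' → Xor1 A0 t t' ∧ Xor1 B0 t t') → lr L → lr R →
    lr (Fin.append L (Fin.append (fun _ : Fin 1 => b) R))

/-- reversal -/
def Stmt_RVF : Prop := ∀ (n : ℕ) (s : Fin n → ℕ), lr s → lr (fun i => s i.rev)

/-- cells of a chimney -/
def ChC {Y : Type} (C : Finset Y) (lo hi : Y → ℤ) (g : Y → ℤ → ℝ) (K : Finset (Y × ℤ)) : Prop :=
  ∃ p ∈ C, ∃ T : Y → ℤ, lo p ≤ T p ∧ T p < hi p ∧ (∀ q ∈ C, lo q ≤ T q ∧ T q ≤ hi q) ∧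
    (∀ q ∈ C, q ≠ p →
      (lo q < T q → g q (T q) - g q (T q - 1) < g p (T p + 1) - g p (T p)) ∧
      (T q < hi q → g p (T p + 1) - g p (T p) < g q (T q + 1) - g q (T q))) ∧
    ∀ v, v ∈ K ↔ v = (p, T p + 1) ∨ (v.1 ∈ C ∧ v.2 = T v.1)

/-- chimney over a simplex, arbitrary convex heights on the columns -/
def Stmt_CHM : Prop :=
  ∀ (Y : Type) [AddCommGroup Y] (C : Finset Y) (lo hi : Y → ℤ) (g : Y → ℤ → ℝ), Simp C →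
    (∀ y ∈ C, lo y ≤ hi y) →
    (∀ y ∈ C, ∀ t : ℤ, lo y ≤ t → t + 1 < hi y → g y (t + 1) - g y t < g y (t + 2) - g y (t + 1)) →
    (∀ y ∈ C, ∀ y' ∈ C, y ≠ y' → ∀ t t' : ℤ, lo y ≤ t → t < hi y → lo y' ≤ t' → t' < hi y' →
      g y (t + 1) - g y t ≠ g y' (t' + 1) - g y' t') →
    ∀ S : Finset (Y × ℤ), (∀ v, v ∈ S ↔ v.1 ∈ C ∧ lo v.1 ≤ v.2 ∧ v.2 ≤ hi v.1) →
      GLw (ChC C lo hi g) S (fun v => g v.1 v.2)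

/-- chimney cells are simplices, unimodular over unimodular simplices -/
def Stmt_CHS : Prop :=
  ∀ (Y : Type) [AddCommGroup Y] (C : Finset Y) (lo hi : Y → ℤ) (g : Y → ℤ → ℝ)
    (K : Finset (Y × ℤ)), ChC C lo hi g K → (Simp C → Simp K) ∧ (Uni C → Uni K)

/-- chimney over a triangulation -/
def Stmt_CHL : Prop :=
  ∀ (Y : Type) [AddCommGroup Y] (B : Finset Y) (ωB : Y → ℝ) (Q : Finset Y → Prop)
    (lo hi : Y →+ ℤ) (lo0 hi0 : ℤ) (g : Y → ℤ → ℝ),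
    GLw (fun C => Simp C ∧ Q C) B ωB → (∀ y ∈ B, lo y + lo0 ≤ hi y + hi0) →
    (∀ y ∈ B, ∀ t : ℤ, lo y + lo0 ≤ t → t + 1 < hi y + hi0 →
      g y (t + 1) - g y t < g y (t + 2) - g y (t + 1)) →
    (∀ y ∈ B, ∀ y' ∈ B, y ≠ y' → ∀ t t' : ℤ, lo y + lo0 ≤ t → t < hi y + hi0 →
      lo y' + lo0 ≤ t' → t' < hi y' + hi0 → g y (t + 1) - g y t ≠ g y' (t' + 1) - g y' t') →
    ∀ S : Finset (Y × ℤ), (∀ v, v ∈ S ↔ v.1 ∈ B ∧ lo v.1 + lo0 ≤ v.2 ∧ v.2 ≤ hi v.1 + hi0) →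
      ∃ M₀ : ℝ, ∀ M : ℝ, M₀ ≤ M →
        GLw (fun K => ∃ C : Finset Y, C ⊆ B ∧ Simp C ∧ Q C ∧
          ChC C (fun y => lo y + lo0) (fun y => hi y + hi0) g K) S
          (fun v => M * ωB v.1 + g v.1 v.2)

/-- insertion of a common multiple of the neighbours -/
def Stmt_INS : Prop :=
  ∀ (n : ℕ) (k : Fin (n + 1)) (s : Fin n → ℕ) (m : ℕ), (∀ i, 0 < s i) → 0 < m →
    Nat.lcm (lft s k) (rgt s k) ∣ m → lr s → lr (insS k m s)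

/-- gluing along a horizontal wall, for an arbitrary property of simplices -/
def Stmt_GLU : Prop :=
  ∀ (Y : Type) [AddCommGroup Y] (B : Finset Y) (U L S : Finset (Y × ℤ)) (ω : Y × ℤ → ℝ)
    (G : Finset (Y × ℤ) → Prop), (∀ C, G C → Simp C) → (∀ v ∈ U, 0 ≤ v.2) → (∀ v ∈ L, v.2 ≤ 0) →
    (∀ y ∈ B, (y, (0 : ℤ)) ∈ U ∧ (y, (0 : ℤ)) ∈ L) → (∀ v ∈ U, v.1 ∈ B) → (∀ v ∈ L, v.1 ∈ B) →
    (∀ v, v ∈ S ↔ v ∈ U ∨ v ∈ L) → GLw G U ω → GLw G L ω →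
    ∃ M₀ : ℝ, ∀ M : ℝ, M₀ ≤ M → GLw G S (fun v => M * max (v.2 : ℝ) 0 + ω v)

/-- a unimodular triangulation of an overlattice of index two, seen in the bigger lattice -/
def Stmt_DBK : Prop :=
  ∀ (Λ' Λ : Type) [AddCommGroup Λ'] [AddCommGroup Λ] (ι : Λ' →+ Λ) (κ : Λ →+ Λ')
    (χ : Λ' →+ ZMod 2), Function.Injective ι → (∀ v, ι (κ v) = (2 : ℤ) • v) →
    (∀ a b, χ a = χ b → Cg (ι a) (ι b)) → (∀ v, χ (κ v) = 0) → TF Λ →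
    ∀ (V' : Finset Λ') (ω' : Λ' → ℝ), RLw V' ω' → ∀ (V : Finset Λ) (ω : Λ → ℝ),
      (∀ v, v ∈ V ↔ ∃ v' ∈ V', ι v' = v) → (∀ v' ∈ V', ω (ι v') = ω' v') →
      GLw (fun C => Kay V C ∧ ∀ a : Λ', Has (ι a) C) V ω

/-- doubling all entries but one -/
def Stmt_DBL : Prop :=
  ∀ (n : ℕ) (s : Fin n → ℕ) (j : Fin n), (∀ i, 0 < s i) → RL (LH s) →
    lr (fun i => if i = j then s i else 2 * s i)

/-- two odd entries -/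
def Stmt_ODD : Prop :=
  ∀ a b : ℕ, 0 < b → b < a → Odd a → Odd b → lr ![a - b, b] → lr ![a, b]

def Stmt_TWO : Prop := ∀ a b : ℕ, 0 < a → 0 < b → lr ![a, b]

/-- lists and functions -/
def Stmt_LCA : Prop :=
  ∀ (n : ℕ) (s : Fin n → ℕ) (l : List ℕ) (h : n = l.length),
    (∀ i : Fin n, s i = l.get (Fin.cast h i)) → (lr s ↔ lrL l)

/-- short lists -/
def Stmt_R2 : Prop :=
  lrL [] ∧ (∀ a : ℕ, 0 < a → lrL [a]) ∧ ∀ a b : ℕ, 0 < a → 0 < b → lrL [a, b]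

def Stmt_RV : Prop := ∀ l : List ℕ, lrL l → lrL l.reverse

def Stmt_RI : Prop :=
  ∀ (l1 l2 : List ℕ) (m : ℕ), (∀ x ∈ l1, 0 < x) → (∀ x ∈ l2, 0 < x) → 0 < m →
    Nat.lcm (l1.getLastD 1) (l2.headD 1) ∣ m → lrL (l1 ++ l2) → lrL (l1 ++ m :: l2)

/-- an entry one or two splits the question -/
def Stmt_RK : Prop :=
  ∀ (l1 l2 : List ℕ) (b : ℕ), (∀ x ∈ l1, 0 < x) → (∀ x ∈ l2, 0 < x) → b = 1 ∨ b = 2 →
    lrL l1 → lrL l2 → lrL (l1 ++ b :: l2)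

/-- an entry between two threes -/
def Stmt_RB : Prop :=
  ∀ (l1 l2 : List ℕ) (b : ℕ), (∀ x ∈ l1, 0 < x) → (∀ x ∈ l2, 0 < x) → b % 3 ≠ 0 →
    lrL (l1 ++ [3]) → lrL (3 :: l2) → lrL (l1 ++ 3 :: b :: 3 :: l2)

/-- an entry in front of a three -/
def Stmt_RE : Prop :=
  ∀ (l2 : List ℕ) (b : ℕ), (∀ x ∈ l2, 0 < x) → 0 < b → lrL (3 :: l2) → lrL (b :: 3 :: l2)

/-- two fours between two threes -/
def Stmt_RF : Prop :=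
  ∀ (l1 l2 : List ℕ), (∀ x ∈ l1, 0 < x) → (∀ x ∈ l2, 0 < x) →
    lrL (l1 ++ [3]) → lrL (3 :: l2) → lrL (l1 ++ 3 :: 4 :: 4 :: 3 :: l2)

/-- the certificate for `RF` -/
def V44 : Finset (Fin 2 → ℤ) :=
  {![0, 0], ![0, 1], ![0, 3], ![0, 4], ![1, 1], ![1, 3], ![1, 4], ![2, 4], ![3, 3], ![4, 4]}

def A44 : Finset (Fin 2 → ℤ) := {![0, 0], ![0, 3], ![3, 3]}

def B44 : Finset (Fin 2 → ℤ) := {![1, 1], ![1, 4], ![4, 4]}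

def Stmt_S44 : Prop :=
  ∃ ω : (Fin 2 → ℤ) → ℝ, GLw (fun S => Kay V44 S ∧ Uq A44 S ∧ Uq B44 S) V44 ω

/-- words in which adjacent entries are admissible neighbours -/
def Stmt_WRD : Prop :=
  ∀ l : List ℕ, (∀ x ∈ l, 3 ≤ x) → (∀ (l1 l2 : List ℕ) (x y : ℕ), l = l1 ++ x :: y :: l2 →
    Adj x y) → lrL l

/-- the condition on a list -/
def Cond (l : List ℕ) : Prop :=
  ∀ (l1 l2 : List ℕ) (x y z : ℕ), l = l1 ++ x :: y :: z :: l2 → 3 ≤ x → 3 ≤ y → 3 ≤ z →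
    Adj x y ∧ Adj y z

def Stmt_ALL : Prop := ∀ l : List ℕ, (∀ x ∈ l, 0 < x) → Cond l → lrL l

/-- the final theorem -/
def Stmt_RES : Prop :=
  ∀ (n : ℕ) (s : Fin n → ℕ), (∀ i, 0 < s i) →
    (∀ i j k : Fin n, (j : ℕ) = i + 1 → (k : ℕ) = j + 1 → 3 ≤ s i → 3 ≤ s j → 3 ≤ s k →
      Adj (s i) (s j) ∧ Adj (s j) (s k)) → lr s ∧ HasRUT (simplex s)

end Pool.Agent.LHU
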