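import Pool.Agent.LHU.Stmts

set_option autoImplicit false

/-!
Lecture hall simplices of dimension two: the marked regular unimodular triangulation.
-/

namespace Pool.Agent.LHU

open Pool.Agent.LHT

namespace TWO_

theorem lr_zero (s : Fin 0 → ℕ) : lr s := by
  obtain ⟨ω, hω⟩ := RL_zero s
  refine ⟨ω, ?_⟩
  intro φ b hle hsp
  have hne : (contact (LH s) ω φ b).Nonempty := by
    by_contra hcon
    rw [Finset.not_nonempty_iff_eq_empty] at hcon
    have h1 := hsp 0 1 (by
      intro v hv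
      rw [hcon] at hv
      exact absurd hv (Finset.notMem_empty v))
    exact one_ne_zero h1.2
  obtain ⟨v, hv⟩ := hne
  exact ⟨hω φ b hle hsp, ⟨v, hv, 0, Subsingleton.elim _ _⟩, ⟨v, hv, 0, Subsingleton.elim _ _⟩⟩

theorem lr_one (hINS : Stmt_INS) (a : ℕ) (ha : 0 < a) : lr (fun _ : Fin 1 => a) := by
  have h0 : ∀ i : Fin 0, 0 < (fun i : Fin 0 => (i.elim0 : ℕ)) i := fun i => i.elim0
  have e1 : lft (fun i : Fin 0 => (i.elim0 : ℕ)) 0 = 1 := by
    unfold lft
    rw [dif_neg (by simp)]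
  have e2 : rgt (fun i : Fin 0 => (i.elim0 : ℕ)) 0 = 1 := by
    unfold rgt
    rw [dif_neg (by simp)]
  have h := hINS 0 0 (fun i : Fin 0 => (i.elim0 : ℕ)) a h0 ha
    (by rw [e1, e2]; simp) (lr_zero _)
  have e : insS (0 : Fin 1) a (fun i : Fin 0 => (i.elim0 : ℕ)) = fun _ : Fin 1 => a := by
    funext i
    have hi : i = (0 : Fin 1) := Fin.fin_one_eq_zero i
    rw [hi]
    exact insS_same 0 a _
  rw [e] at h
  exact h

theorem lr_diag (hINS : Stmt_INS) (a : ℕ) (ha : 0 < a) : lr ![a, a] := by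
  have h := hINS 1 (0 : Fin 2) (fun _ : Fin 1 => a) a (fun _ => ha) ha (by
    rw [lft_zero', rgt_one', Nat.lcm_one_left]) (lr_one hINS a ha)
  rw [insS_two] at h
  exact h

/-- first entry even -/
theorem lr_even (hDBL : Stmt_DBL) (a b : ℕ) (ha : 0 < a) (hb : 0 < b) : lr ![2 * a, b] := by
  have hs : ∀ i : Fin 2, 0 < ![a, b] i := by
    intro i
    fin_cases i
    · exact ha
    · exact hb
  have h := hDBL 2 ![a, b] 1 hs (RL_two _ hs)
  have e : (fun i : Fin 2 => if i = 1 then ![a, b] i else 2 * ![a, b] i) = ![2 * a, b] := by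
    funext i
    fin_cases i <;> rfl
  rw [e] at h
  exact h

/-- the reversed sequence -/
theorem lr_rev (hRVF : Stmt_RVF) (a b : ℕ) (h : lr ![a, b]) : lr ![b, a] := by
  have h1 := hRVF 2 ![a, b] h
  have e : (fun i : Fin 2 => (![a, b] : Fin 2 → ℕ) i.rev) = ![b, a] := by
    funext i
    fin_cases i <;> rfl
  rw [e] at h1
  exact h1

theorem aux (hDBL : Stmt_DBL) (hODD : Stmt_ODD) (hINS : Stmt_INS) (hRVF : Stmt_RVF) (a b : ℕ)
    (ha : 0 < a) (hb : 0 < b) (hab : b ≤ a) : lr ![a, b] := by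
  rcases Nat.even_or_odd' a with ⟨c, hc | hc⟩
  · rw [hc]
    exact lr_even hDBL c b (by omega) hb
  · rcases Nat.even_or_odd' b with ⟨d, hd | hd⟩
    · refine lr_rev hRVF b a ?_
      rw [hd]
      exact lr_even hDBL d a (by omega) ha
    · rcases hab.eq_or_lt with h1 | h1
      · rw [h1]
        exact lr_diag hINS a ha
      · refine hODD a b hb h1 ⟨c, hc⟩ ⟨d, hd⟩ ?_
        have e : a - b = 2 * (c - d) := by omega
        rw [e]
        exact lr_even hDBL (c - d) b (by omega) hb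

end TWO_

theorem two_proof (hDBL : Stmt_DBL) (hODD : Stmt_ODD) (hINS : Stmt_INS) (hRVF : Stmt_RVF) :
    Stmt_TWO := by
  intro a b ha hb
  rcases le_total b a with h | h
  · exact TWO_.aux hDBL hODD hINS hRVF a b ha hb h
  · exact TWO_.lr_rev hRVF b a (TWO_.aux hDBL hODD hINS hRVF b a hb ha h)

end Pool.Agent.LHU
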