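import Pool.Agent.LHU.Stmts

set_option autoImplicit false

/-!
Module WRD: words in which adjacent entries are admissible neighbours.
-/

namespace Pool.Agent.LHU

open Pool.Agent.LHT

theorem wrd_proof (hR2 : Stmt_R2) (hRV : Stmt_RV) (hRI : Stmt_RI) (hRB : Stmt_RB)
    (hRE : Stmt_RE) (hRF : Stmt_RF) : Stmt_WRD := by
  have key : ∀ (n : ℕ) (l : List ℕ), l.length ≤ n → (∀ x ∈ l, 3 ≤ x) → List.IsChain Adj l →
      lrL l := by
    intro n
    induction n with
    | zero =>
      intro l hl _ _
      have : l = [] := List.length_eq_zero_iff.1 (Nat.le_zero.1 hl)
      rw [this]
      exact hR2.1
    | succ n ih =>
      intro l hl h3 hc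
      match l, hl, h3, hc with
      | [], _, _, _ => exact hR2.1
      | [a], _, h3, _ => exact hR2.2.1 a (lt_of_lt_of_le (by norm_num) (h3 a (by simp)))
      | [a, b], _, h3, _ =>
        exact hR2.2.2 a b (lt_of_lt_of_le (by norm_num) (h3 a (by simp)))
          (lt_of_lt_of_le (by norm_num) (h3 b (by simp)))
      | x :: y :: z :: rest, hl, h3, hc =>
        simp only [List.length_cons] at hl
        have hx : 3 ≤ x := h3 x (by simp)
        have hy : 3 ≤ y := h3 y (by simp)
        have hz : 3 ≤ z := h3 z (by simp)
        have hrest : ∀ w ∈ rest, 3 ≤ w := fun w hw => h3 w (by simp [hw])
        have hrpos : ∀ w ∈ rest, 0 < w := fun w hw => lt_of_lt_of_le (by norm_num) (hrest w hw)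
        have cxy : Adj x y := (List.isChain_cons_cons.1 hc).1
        have hc1 : List.IsChain Adj (y :: z :: rest) := (List.isChain_cons_cons.1 hc).2
        have cyz : Adj y z := (List.isChain_cons_cons.1 hc1).1
        have hc2 : List.IsChain Adj (z :: rest) := (List.isChain_cons_cons.1 hc1).2
        have h3three : lrL [3] := hR2.2.1 3 (by norm_num)
        unfold Adj at cxy cyz
        rcases Nat.lt_or_ge y 4 with hy3 | hy4
        · have hy' : y = 3 := by omega
          subst hy'
          refine hRE (z :: rest) x ?_ (by omega) (ih _ ?_ ?_ hc1)
          · intro w hw
            rcases List.mem_cons.1 hw with rfl | hw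
            · omega
            · exact hrpos w hw
          · simp only [List.length_cons]; omega
          · intro w hw
            exact h3 w (List.mem_cons_of_mem _ hw)
        rcases Nat.lt_or_ge y 5 with hy5 | hy5
        · have hy' : y = 4 := by omega
          subst hy'
          rcases Nat.lt_or_ge x 4 with hx3 | hx4
          · have hx' : x = 3 := by omega
            subst hx'
            rcases Nat.lt_or_ge z 4 with hz3 | hz4
            · have hz' : z = 3 := by omega
              subst hz'
              have h := hRB [] rest 4 (by simp) hrpos (by norm_num) h3three
                (ih _ (by simp only [List.length_cons]; omega)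
                  (fun w hw => h3 w (List.mem_cons_of_mem _ (List.mem_cons_of_mem _ hw))) hc2)
              exact h
            · have hz' : z = 4 := by omega
              subst hz'
              match rest, hl, h3, hrest, hrpos, hc2 with
              | [], _, _, _, _, _ =>
                have h43 : lrL [4, 3] := hR2.2.2 4 3 (by norm_num) (by norm_num)
                have h := hRI [] [4, 3] 4 (by simp) (by intro w hw; simp at hw; omega)
                  (by norm_num) (by simp) h43
                have h' := hRV _ h
                exact h'
              | w :: rest', hl, h3, hrest, hrpos, hc2 =>
                simp only [List.length_cons] at hl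
                have hw : 3 ≤ w := hrest w (by simp)
                have c4w : Adj 4 w := (List.isChain_cons_cons.1 hc2).1
                have hc3 : List.IsChain Adj (w :: rest') := (List.isChain_cons_cons.1 hc2).2
                unfold Adj at c4w
                rcases Nat.lt_or_ge w 4 with hw3 | hw4
                · have hw' : w = 3 := by omega
                  subst hw'
                  exact hRF [] rest' (by simp) (fun v hv => hrpos v (List.mem_cons_of_mem _ hv))
                    h3three (ih _ (by simp only [List.length_cons]; omega)
                      (fun v hv => hrest v hv) hc3)
                · have hw' : w = 4 := by omega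
                  subst hw'
                  refine hRI [3, 4] (4 :: rest') 4 (by intro v hv; simp at hv; omega)
                    (fun v hv => hrpos v hv) (by norm_num) (by simp) (ih _ ?_ ?_ ?_)
                  · simp only [List.length_append, List.length_cons, List.length_nil]; omega
                  · intro v hv
                    simp only [List.cons_append, List.nil_append, List.mem_cons] at hv
                    rcases hv with rfl | rfl | rfl | hv
                    · norm_num
                    · norm_num
                    · norm_num
                    · exact hrest v (List.mem_cons_of_mem _ hv)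
                  · show List.IsChain Adj (3 :: 4 :: 4 :: rest')
                    refine List.isChain_cons_cons.2 ⟨Or.inl (by norm_num),
                      List.isChain_cons_cons.2 ⟨Or.inr (Or.inr ⟨by norm_num, by norm_num⟩), hc3⟩⟩
          · have hx' : x = 4 := by omega
            subst hx'
            refine hRI [] (4 :: z :: rest) 4 (by simp) ?_ (by norm_num) (by simp) (ih _ ?_ ?_ hc1)
            · intro w hw
              have := h3 w (List.mem_cons_of_mem _ hw)
              omega
            · simp only [List.nil_append, List.length_cons]; omega
            · intro w hw
              exact h3 w (List.mem_cons_of_mem _ hw)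
        · have hx' : x = 3 := by omega
          have hz' : z = 3 := by omega
          subst hx'
          subst hz'
          have h3r : ∀ w ∈ 3 :: rest, 3 ≤ w := by
            intro w hw
            exact h3 w (List.mem_cons_of_mem _ (List.mem_cons_of_mem _ hw))
          by_cases hm : y % 3 = 0
          · refine hRI [3] (3 :: rest) y (by simp) ?_ (by omega) ?_ (ih _ ?_ ?_ ?_)
            · intro w hw
              have := h3r w hw
              omega
            · simp only [List.getLastD_cons, List.getLastD_nil, List.headD_cons, Nat.lcm_self]
              exact Nat.dvd_of_mod_eq_zero hm
            · simp only [List.length_append, List.length_cons, List.length_nil]; omega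
            · intro w hw
              rcases List.mem_append.1 hw with hw | hw
              · rw [List.mem_singleton.1 hw]
              · exact h3r w hw
            · show List.IsChain Adj (3 :: 3 :: rest)
              exact List.isChain_cons_cons.2 ⟨Or.inl (by norm_num), hc2⟩
          · exact hRB [] rest y (by simp) hrpos hm h3three
              (ih _ (by simp only [List.length_cons]; omega) h3r hc2)
  intro l h3 hadj
  refine key l.length l le_rfl h3 ?_
  rw [List.isChain_iff_forall_rel_of_append_cons_cons]
  intro a b l1 l2 h
  exact hadj l1 l2 a b h

end Pool.Agent.LHU
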